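import Mathlib

section

/-!
# MP_fd6bc6_al, part B (Theorem C2): definitions

List chains `Ch K A = List A →₀ K` with the augmented boundary `del (a :: w) = w - a :: del w`,
`del [] = 0`.  Block cells are lists (of length `n`) of nonempty lists; `bd` is the tensor boundary
(a list of length one has boundary `0`).
-/

set_option autoImplicit false

namespace Pool.Agent.MP_fd6bc6_al.BU

open Finsupp

/-- list chains -/
abbrev Ch (K A : Type*) [CommRing K] := List A →₀ K

section lists
variable (K : Type*) [CommRing K] {A B : Type*}

/-- `a ::` on chains -/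
noncomputable def consL (a : A) : Ch K A →ₗ[K] Ch K A := lmapDomain K K (List.cons a)

/-- the chain map induced by a map of letters -/
noncomputable def mapL (f : A → B) : Ch K A →ₗ[K] Ch K B := lmapDomain K K (List.map f)

/-- the augmented boundary of a list -/
noncomputable def delB : List A → Ch K A
  | [] => 0
  | a :: w => single w 1 - consL K a (delB w)

/-- the augmented boundary -/
noncomputable def del : Ch K A →ₗ[K] Ch K A := linearCombination K (delB K)

/-- prism operator between two maps, on lists -/
noncomputable def prismB (φ ψ : A → B) : List A → Ch K B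
  | [] => 0
  | a :: w => single (φ a :: ψ a :: w.map ψ) 1 - consL K (φ a) (prismB φ ψ w)

/-- prism operator between two maps -/
noncomputable def prism (φ ψ : A → B) : Ch K A →ₗ[K] Ch K B :=
  linearCombination K (prismB K φ ψ)

/-- sum of the coefficients -/
noncomputable def eps : Ch K A →ₗ[K] K := linearCombination K (fun _ => (1 : K))

end lists

section fill
variable (K : Type*) [CommRing K] {Λ V : Type*} [DecidableEq Λ]

/-- replace the values on `S` by those of `b` -/
def sweep (b : Λ → V) (S : Finset Λ) (f : Λ → V) : Λ → V := fun l => if l ∈ S then b l else f l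

/-- the sum of the prisms of the sweep along the list of leaves `ls`, starting with the set `S` -/
noncomputable def sweeps (b : Λ → V) : List Λ → Finset Λ → (Ch K (Λ → V) →ₗ[K] Ch K (Λ → V))
  | [], _ => 0
  | l :: ls, S => prism K (sweep b S) (sweep b (insert l S)) + sweeps b ls (insert l S)

/-- the contraction to `b`, sweeping along the enumeration `ls` of all leaves:
`del (fillF ls b x) + fillF ls b (del x) = x` -/
noncomputable def fillF (ls : List Λ) (b : Λ → V) : Ch K (Λ → V) →ₗ[K] Ch K (Λ → V) :=
  consL K b ∘ₗ mapL K (fun _ => b) - sweeps K b ls ∅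

end fill

section block
variable (K : Type*) [CommRing K] {V : Type*}

/-- non-augmented boundary of a list -/
noncomputable def ndelB : List V → Ch K V
  | [] => 0
  | [_] => 0
  | a :: b :: w => delB K (a :: b :: w)

/-- `y ⊗ x`: put the lists of `y` in front -/
noncomputable def tens (x : Ch K (List V)) : Ch K V →ₗ[K] Ch K (List V) :=
  linearCombination K (fun s : List V => consL K s x)

/-- tensor boundary of a block cell -/
noncomputable def bdB : List (List V) → Ch K (List V)
  | [] => 0
  | t :: x => tens K (single x 1) (ndelB K t) + (-1 : K) ^ (t.length + 1) • consL K t (bdB x)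

/-- tensor boundary -/
noncomputable def bd : Ch K (List V) →ₗ[K] Ch K (List V) := linearCombination K (bdB K)

end block

section good
variable {V : Type*} [DecidableEq V]

/-- good block cells of degree `j` with letters in `E`, each letter used at most once in the whole
cell (the number of blocks is the length) -/
def GC : Finset V → ℕ → List (List V) → Prop
  | _, j, [] => j = 0
  | E, j, t :: x => t ≠ [] ∧ t.Nodup ∧ (∀ v ∈ t, v ∈ E) ∧ t.length ≤ j + 1 ∧
      GC (E \ t.toFinset) (j + 1 - t.length) x

/-- chains of good block cells with `n` blocks, degree `j`, letters in `E` -/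
def Gd (K : Type*) [CommRing K] (n : ℕ) (E : Finset V) (j : ℕ) : Submodule K (Ch K (List V)) :=
  supported K K {x : List (List V) | x.length = n ∧ GC E j x}

end good

section leaves
variable {V : Type*}

/-- the leaves in lexicographic order -/
def leaves (n m : ℕ) : List (Fin n × Fin m) :=
  (List.finRange n).flatMap fun i => (List.finRange m).map fun s => (i, s)

/-- `h` runs monotonically through the letters of `t` -/
def Mon {m : ℕ} (t : List V) (h : Fin m → V) : Prop :=
  ∃ φ : Fin m → ℕ, Monotone φ ∧ ∀ s, t[φ s]? = some (h s)

/-- initial in every block -/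
def Ini {n m : ℕ} (S : Finset (Fin n × Fin m)) : Prop :=
  ∀ (i : Fin n) (s s' : Fin m), s' ≤ s → (i, s) ∈ S → (i, s') ∈ S

/-- every level set of `f` is an interval of leaves in one block -/
def Ivl {n m : ℕ} (f : (Fin n × Fin m) → V) : Prop :=
  ∀ p p' : Fin n × Fin m, f p = f p' → p.1 = p'.1 ∧
    ∀ s : Fin m, p.2 ≤ s → s ≤ p'.2 → f (p.1, s) = f p

end leaves

section steps

/-- change at a single leaf by at most `q` -/
def St2 {n m : ℕ} (q : ℕ) (g g' : (Fin n × Fin m) → ℤ) : Prop :=
  ∃ (p : Fin n × Fin m) (d : ℤ), |d| ≤ q ∧ g' = Function.update g p (g p + d)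

/-- subtract `q` on an interval `S` of leaves of one block `i` on which `g` is constant -/
def St1 {n m : ℕ} (q : ℕ) (g g' : (Fin n × Fin m) → ℤ) : Prop :=
  ∃ (i : Fin n) (S : Finset (Fin m)) (v : ℤ),
    (∀ s ∈ S, ∀ s' ∈ S, ∀ s'' : Fin m, s ≤ s'' → s'' ≤ s' → s'' ∈ S) ∧
    (∀ s ∈ S, g (i, s) = v) ∧
    g' = fun p => if p.1 = i ∧ p.2 ∈ S then g p - q else g p

/-- `k`-fold iterate of a relation -/
def It {α : Type*} (R : α → α → Prop) : ℕ → α → α → Prop
  | 0, a, b => a = b
  | k + 1, a, b => ∃ c, R a c ∧ It R k c b

end steps

end Pool.Agent.MP_fd6bc6_al.BU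
end

section

/-! # L1: basic facts on list chains

All proofs: reduce to basis elements (`Finsupp.induction_linear`, or `LinearMap.ext` +
`Finsupp.lhom_ext'`), then induction on the list with `del (a :: w) = w - a :: del w`.
Useful simp lemmas: `consL K a (single w c) = single (a :: w) c`, `mapL K f (single w c) =
single (w.map f) c`, `del K (single w c) = c • delB K w` (`Finsupp.linearCombination_single`). -/

set_option autoImplicit false

namespace Pool.Agent.MP_fd6bc6_al.BU

open Finsupp

variable {K : Type*} [CommRing K] {A B C : Type*}

-- BEGIN L1a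
theorem consL_single (a : A) (w : List A) (c : K) :
    consL K a (single w c) = single (a :: w) c := by
  simp [consL, Finsupp.lmapDomain_apply, Finsupp.mapDomain_single]

theorem mapL_single (f : A → B) (w : List A) (c : K) :
    mapL K f (single w c) = single (w.map f) c := by
  simp [mapL, Finsupp.lmapDomain_apply, Finsupp.mapDomain_single]

theorem del_single (w : List A) (c : K) : del K (single w c) = c • delB K w := by
  simp [del, Finsupp.linearCombination_single]

theorem eps_single (w : List A) (c : K) : eps K (single w c) = c := by
  simp [eps, Finsupp.linearCombination_single]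

/-- `del (a :: x) = x - a :: del x` -/
theorem del_consL (a : A) (x : Ch K A) : del K (consL K a x) = x - consL K a (del K x) := by
  induction x using Finsupp.induction_linear with
  | zero => simp
  | add x y hx hy =>
    simp only [map_add, hx, hy]
    abel
  | single w c =>
    rw [consL_single, del_single, del_single, delB, smul_sub, map_smul, Finsupp.smul_single,
      smul_eq_mul, mul_one]

/-- `del (del x) = 0`: on lists by induction, `del (del (a :: w)) = del w - del (a :: del w)
= del w - (del w - a :: del (del w)) = 0`. -/
theorem del_del (x : Ch K A) : del K (del K x) = 0 := by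
  have h : ∀ w : List A, del K (delB K w) = 0 := by
    intro w
    induction w with
    | nil => simp [delB]
    | cons a w ih =>
      rw [delB, map_sub, del_consL, ih, map_zero, del_single, one_smul]
      simp
  induction x using Finsupp.induction_linear with
  | zero => simp
  | add x y hx hy => simp only [map_add, hx, hy, add_zero]
  | single w c => rw [del_single, map_smul, h, smul_zero]

theorem mapL_consL (f : A → B) (a : A) (x : Ch K A) :
    mapL K f (consL K a x) = consL K (f a) (mapL K f x) := by
  induction x using Finsupp.induction_linear with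
  | zero => simp
  | add x y hx hy => simp only [map_add, hx, hy]
  | single w c => rw [consL_single, mapL_single, mapL_single, consL_single, List.map_cons]

theorem mapL_mapL (f : A → B) (g : B → C) (x : Ch K A) :
    mapL K g (mapL K f x) = mapL K (fun a => g (f a)) x := by
  induction x using Finsupp.induction_linear with
  | zero => simp
  | add x y hx hy => simp only [map_add, hx, hy]
  | single w c =>
    rw [mapL_single, mapL_single, mapL_single, List.map_map]
    rfl

theorem mapL_id (x : Ch K A) : mapL K (fun a : A => a) x = x := by
  induction x using Finsupp.induction_linear with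
  | zero => simp
  | add x y hx hy => simp only [map_add, hx, hy]
  | single w c => rw [mapL_single, List.map_id']

/-- on lists: `delB (w.map f) = mapL f (delB w)` -/
theorem delB_map (f : A → B) (w : List A) : delB K (w.map f) = mapL K f (delB K w) := by
  induction w with
  | nil => simp [delB]
  | cons a w ih => rw [List.map_cons, delB, delB, map_sub, mapL_consL, mapL_single, ih]

theorem del_mapL (f : A → B) (x : Ch K A) : del K (mapL K f x) = mapL K f (del K x) := by
  induction x using Finsupp.induction_linear with
  | zero => simp
  | add x y hx hy => simp only [map_add, hx, hy]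
  | single w c => rw [mapL_single, del_single, del_single, map_smul, delB_map]
-- END L1a

-- BEGIN L1b
theorem l1b_consL_supp {a : A} {x : Ch K A} {s : List A} (h : s ∈ (consL K a x).support) :
    ∃ s' ∈ x.support, s = a :: s' := by
  classical
  have h1 := Finsupp.mapDomain_support (show s ∈ (mapDomain (List.cons a) x).support from h)
  obtain ⟨s', hs', rfl⟩ := Finset.mem_image.1 h1
  exact ⟨s', hs', rfl⟩

/-- every face of a list is a list with one entry less, which is a sublist.
Induction on `w`; `s ∈ (single w 1 - consL a (delB w)).support` gives `s = w` or `s = a :: s'`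
with `s' ∈ (delB w).support` (`Finsupp.support_sub`, `Finsupp.mapDomain_support`; for sublists:
`List.sublist_cons_self`, `List.Sublist.cons_cons`). -/
theorem delB_supp {w s : List A} (h : s ∈ (delB K w).support) :
    s.Sublist w ∧ s.length + 1 = w.length := by
  classical
  induction w generalizing s with
  | nil => simp [delB] at h
  | cons a w ih =>
    rw [delB] at h
    rcases Finset.mem_union.1 (Finsupp.support_sub h) with h1 | h1
    · have h2 := Finset.mem_singleton.1 (Finsupp.support_single_subset h1)
      rw [h2]
      exact ⟨List.sublist_cons_self a w, rfl⟩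
    · obtain ⟨s', hs', rfl⟩ := l1b_consL_supp h1
      obtain ⟨h2, h3⟩ := ih hs'
      exact ⟨h2.cons_cons a, by rw [List.length_cons, List.length_cons, h3]⟩

/-- `eps (consL a x) = eps x`, `eps (mapL f x) = eps x` -/
theorem eps_consL (a : A) (x : Ch K A) : eps K (consL K a x) = eps K x := by
  induction x using Finsupp.induction_linear with
  | zero => simp
  | add x y hx hy => simp only [map_add, hx, hy]
  | single w c => rw [consL_single, eps_single, eps_single]

theorem eps_mapL (f : A → B) (x : Ch K A) : eps K (mapL K f x) = eps K x := by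
  induction x using Finsupp.induction_linear with
  | zero => simp
  | add x y hx hy => simp only [map_add, hx, hy]
  | single w c => rw [mapL_single, eps_single, eps_single]

theorem consL_supp {a : A} {x : Ch K A} {s : List A} (h : s ∈ (consL K a x).support) :
    ∃ s' ∈ x.support, s = a :: s' := l1b_consL_supp h

theorem mapL_supp {f : A → B} {x : Ch K A} {s : List B} (h : s ∈ (mapL K f x).support) :
    ∃ s' ∈ x.support, s = s'.map f := by
  classical
  have h1 := Finsupp.mapDomain_support (show s ∈ (mapDomain (List.map f) x).support from h)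
  obtain ⟨s', hs', rfl⟩ := Finset.mem_image.1 h1
  exact ⟨s', hs', rfl⟩

/-- support of a linear combination -/
theorem lc_supp {α β : Type*} {g : α → (β →₀ K)} {x : α →₀ K} {s : β}
    (h : s ∈ (linearCombination K g x).support) : ∃ a ∈ x.support, s ∈ (g a).support := by
  by_contra hcon
  push Not at hcon
  rw [mem_support_iff] at h
  apply h
  rw [linearCombination_apply, Finsupp.sum, Finsupp.finsetSum_apply]
  refine Finset.sum_eq_zero fun a ha => ?_
  have h1 := hcon a ha
  rw [notMem_support_iff] at h1
  rw [Finsupp.smul_apply, h1, smul_zero]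
-- END L1b

end Pool.Agent.MP_fd6bc6_al.BU
end

section

/-! # Block cells: basic facts -/

set_option autoImplicit false

namespace Pool.Agent.MP_fd6bc6_al.BU

open Finsupp

section a
variable {K : Type*} [CommRing K] {V W : Type*}

-- BEGIN BKa
theorem bd_single (x : List (List V)) (c : K) : bd K (single x c) = c • bdB K x := by
  simp [bd, Finsupp.linearCombination_single]

theorem tens_single (x : Ch K (List V)) (s : List V) (c : K) :
    tens K x (single s c) = c • consL K s x := by
  simp [tens, Finsupp.linearCombination_single]

theorem bka_tens_zero (y : Ch K V) : tens K (0 : Ch K (List V)) y = 0 := by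
  induction y using Finsupp.induction_linear with
  | zero => rw [map_zero]
  | add y z hy hz => rw [map_add, hy, hz, add_zero]
  | single s c => rw [tens_single, map_zero, smul_zero]

theorem bka_tens_add (x x' : Ch K (List V)) (y : Ch K V) :
    tens K (x + x') y = tens K x y + tens K x' y := by
  induction y using Finsupp.induction_linear with
  | zero => simp only [map_zero, add_zero]
  | add y z hy hz =>
    rw [map_add, map_add, map_add, hy, hz]
    abel
  | single s c => rw [tens_single, tens_single, tens_single, map_add, smul_add]

theorem bka_tens_smul (a : K) (x : Ch K (List V)) (y : Ch K V) :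
    tens K (a • x) y = a • tens K x y := by
  induction y using Finsupp.induction_linear with
  | zero => simp only [map_zero, smul_zero]
  | add y z hy hz => rw [map_add, map_add, hy, hz, smul_add]
  | single s c => rw [tens_single, tens_single, map_smul, smul_comm]

/-- `bd (t ⊗ x) = ndelB t ⊗ x + (-1)^(|t|+1) t ⊗ bd x` (linearity in `x`) -/
theorem bd_consL (t : List V) (x : Ch K (List V)) :
    bd K (consL K t x) = tens K x (ndelB K t) + (-1 : K) ^ (t.length + 1) • consL K t (bd K x) := by
  induction x using Finsupp.induction_linear with
  | zero => simp only [map_zero, bka_tens_zero, smul_zero, add_zero]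
  | add x y hx hy =>
    rw [map_add, map_add, map_add, map_add, hx, hy, bka_tens_add, smul_add]
    abel
  | single x c =>
    have h : (single x c : Ch K (List V)) = c • single x 1 := by
      rw [smul_single, smul_eq_mul, mul_one]
    rw [consL_single, bd_single, bd_single, bdB, smul_add, h, bka_tens_smul, map_smul, smul_comm]

/-- the non-augmented boundary, on lists of length `≥ 2` it is `delB`, otherwise `0` -/
theorem ndelB_of_two {t : List V} (h : 2 ≤ t.length) : ndelB K t = delB K t := by
  match t, h with
  | _ :: _ :: _, _ => rfl

theorem ndelB_of_le_one {t : List V} (h : t.length ≤ 1) : ndelB K t = 0 := by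
  match t, h with
  | [], _ => rfl
  | [_], _ => rfl

/-- the faces in `ndelB t` -/
theorem ndelB_supp {t s : List V} (h : s ∈ (ndelB K t).support) :
    s ≠ [] ∧ s.Sublist t ∧ s.length + 1 = t.length := by
  by_cases h2 : 2 ≤ t.length
  · rw [ndelB_of_two h2] at h
    obtain ⟨h3, h4⟩ := delB_supp h
    refine ⟨?_, h3, h4⟩
    rintro rfl
    simp only [List.length_nil] at h4
    omega
  · rw [ndelB_of_le_one (by omega)] at h
    simp at h

/-- `ndelB (ndelB t) = 0`: from `del_del`; for `|t| = 2` the faces have length one. -/
theorem ndelB_ndelB (t : List V) : linearCombination K (ndelB K) (ndelB K t) = 0 := by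
  by_cases h3 : 3 ≤ t.length
  · have h1 : linearCombination K (ndelB K) (ndelB K t) = linearCombination K (delB K) (ndelB K t) := by
      rw [linearCombination_apply, linearCombination_apply]
      refine Finsupp.sum_congr fun s hs => ?_
      have := (ndelB_supp hs).2.2
      rw [ndelB_of_two (t := s) (by omega)]
    rw [h1, ndelB_of_two (t := t) (by omega)]
    have h2 := del_del (single t (1 : K))
    rw [del_single, one_smul] at h2
    exact h2
  · rw [linearCombination_apply]
    refine Finset.sum_eq_zero fun s hs => ?_
    have := (ndelB_supp hs).2.2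
    change (ndelB K t) s • ndelB K s = 0
    rw [ndelB_of_le_one (t := s) (by omega), smul_zero]

theorem bka_bd_tens (x : Ch K (List V)) (y : Ch K V) :
    bd K (tens K x y) = tens K x (linearCombination K (ndelB K) y) +
      linearCombination K (fun s : List V => (-1 : K) ^ (s.length + 1) • consL K s (bd K x)) y := by
  induction y using Finsupp.induction_linear with
  | zero => simp only [map_zero, add_zero]
  | add y z hy hz =>
    simp only [map_add] at hy hz ⊢
    rw [hy, hz]
    abel
  | single s c =>
    rw [tens_single, map_smul, bd_consL, linearCombination_single, linearCombination_single,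
      map_smul, smul_add]

/-- `bd (bd x) = 0`.  On `single (t :: x) 1`: `bd (tens x y) = tens x (ndel y) + tens (bd x) (σ y)`
where `σ s = (-1)^(|s|+1) s`, all faces of `t` have length `|t| - 1`. -/
theorem bd_bd (x : Ch K (List V)) : bd K (bd K x) = 0 := by
  have h : ∀ x : List (List V), bd K (bdB K x) = 0 := by
    intro x
    induction x with
    | nil => rw [bdB, map_zero]
    | cons t x ih =>
      have h1 : linearCombination K
          (fun s : List V => (-1 : K) ^ (s.length + 1) • consL K s (bd K (single x 1)))
          (ndelB K t) = (-1 : K) ^ t.length • tens K (bdB K x) (ndelB K t) := by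
        rw [tens, linearCombination_apply, linearCombination_apply, Finsupp.smul_sum]
        refine Finsupp.sum_congr fun s hs => ?_
        rw [(ndelB_supp hs).2.2, bd_single, one_smul, smul_comm]
      rw [bdB, map_add, map_smul, bka_bd_tens, ndelB_ndelB, map_zero, zero_add, h1, bd_consL, ih,
        map_zero, smul_zero, add_zero, pow_succ, mul_neg_one, neg_smul, add_neg_cancel]
  induction x using Finsupp.induction_linear with
  | zero => rw [map_zero, map_zero]
  | add x y hx hy => rw [map_add, map_add, hx, hy, add_zero]
  | single x c => rw [bd_single, map_smul, h, smul_zero]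
-- END BKa

-- BEGIN BKb
theorem ndelB_map (f : V → W) (t : List V) : ndelB K (t.map f) = mapL K f (ndelB K t) := by
  match t with
  | [] => simp [ndelB]
  | [_] => simp [ndelB]
  | a :: b :: w => exact delB_map f (a :: b :: w)

theorem bkb_tens (f : V → W) (x : Ch K (List V)) (y : Ch K V) :
    mapL K (List.map f) (tens K x y) = tens K (mapL K (List.map f) x) (mapL K f y) := by
  induction y using Finsupp.induction_linear with
  | zero => simp
  | add a b ha hb => simp only [map_add, ha, hb]
  | single s c => rw [tens_single, map_smul, mapL_consL, mapL_single, tens_single]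

/-- naturality of `bd` -/
theorem bdB_map (f : V → W) (x : List (List V)) :
    bdB K (x.map (List.map f)) = mapL K (List.map f) (bdB K x) := by
  induction x with
  | nil => simp [bdB]
  | cons t x ih =>
    simp only [bdB, List.map_cons, map_add, map_smul, bkb_tens, mapL_consL, mapL_single, ih,
      ndelB_map, List.length_map]

theorem bd_mapL (f : V → W) (x : Ch K (List V)) :
    bd K (mapL K (List.map f) x) = mapL K (List.map f) (bd K x) := by
  induction x using Finsupp.induction_linear with
  | zero => simp
  | add a b ha hb => simp only [map_add, ha, hb]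
  | single s c => rw [mapL_single, bd_single, bd_single, bdB_map, map_smul]
-- END BKb

end a

section b
variable {K : Type*} [CommRing K] {V : Type*} [DecidableEq V]

-- BEGIN BKc
theorem bkc_zero {c : Finset V} {x : List (List V)} (h : GC c 0 x) : bdB K x = 0 := by
  induction x generalizing c with
  | nil => rfl
  | cons t x ih =>
    obtain ⟨h1, _, h2, h3, h4⟩ := h
    have ht : t.length = 1 := by
      have := List.length_pos_iff.2 h1
      omega
    have h5 : (0 + 1 - t.length) = 0 := by omega
    rw [h5] at h4
    have e : bdB K (t :: x) =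
        tens K (single x 1) (ndelB K t) + (-1 : K) ^ (t.length + 1) • consL K t (bdB K x) := rfl
    rw [e, ih h4, ndelB_of_le_one (by omega), map_zero, map_zero, smul_zero, add_zero]

theorem bkc_supp {t : List V} {x x' : List (List V)} (h : x' ∈ (bdB K (t :: x)).support) :
    (∃ s, s ≠ [] ∧ s.Sublist t ∧ s.length + 1 = t.length ∧ x' = s :: x) ∨
      (∃ s' ∈ (bdB K x).support, x' = t :: s') := by
  have e : bdB K (t :: x) =
      tens K (single x 1) (ndelB K t) + (-1 : K) ^ (t.length + 1) • consL K t (bdB K x) := rfl
  rw [e] at h
  rcases Finset.mem_union.1 (Finsupp.support_add h) with h | h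
  · left
    obtain ⟨s, hs, h1⟩ := lc_supp h
    obtain ⟨a, b, c⟩ := ndelB_supp hs
    obtain ⟨y, hy, h2⟩ := consL_supp h1
    refine ⟨s, a, b, c, ?_⟩
    rw [h2]
    have := Finset.mem_singleton.1 (Finsupp.support_single_subset hy)
    rw [this]
  · right
    exact consL_supp (Finsupp.support_smul h)

/-- monotonicity of `GC` in the letters -/
theorem GC_mono {E E' : Finset V} (h : E ⊆ E') {j : ℕ} {x : List (List V)}
    (hx : GC E j x) : GC E' j x := by
  induction x generalizing E E' j with
  | nil => exact hx
  | cons t x ih =>
    obtain ⟨h1, h0, h2, h3, h4⟩ := hx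
    exact ⟨h1, h0, fun v hv => h (h2 v hv), h3, ih (Finset.sdiff_subset_sdiff h le_rfl) h4⟩

/-- a face (in one block) of a good cell is good -/
theorem GC_face {E : Finset V} {j : ℕ} {t s : List V} {x : List (List V)}
    (hx : GC E (j + 1) (t :: x)) (hs : s ≠ []) (h1 : s.Sublist t) (h2 : s.length + 1 = t.length) :
    GC E j (s :: x) := by
  obtain ⟨a, a0, b, d, e⟩ := hx
  refine ⟨hs, a0.sublist h1, fun v hv => b v (h1.subset hv), by omega, ?_⟩
  have h3 : j + 1 - s.length = j + 1 + 1 - t.length := by omega
  rw [h3]
  refine GC_mono (Finset.sdiff_subset_sdiff le_rfl ?_) e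
  intro v hv
  rw [List.mem_toFinset] at hv ⊢
  exact h1.subset hv

/-- the blocks of a face are sublists of the blocks: induction on `x` -/
theorem bdB_sublist {x x' : List (List V)} (h : x' ∈ (bdB K x).support) (i : ℕ) :
    (x'.getD i []).Sublist (x.getD i []) := by
  induction x generalizing x' i with
  | nil => simp [bdB] at h
  | cons t x ih =>
    rcases bkc_supp h with ⟨s, h1, h2, h3, rfl⟩ | ⟨s', h1, rfl⟩
    · cases i with
      | zero => exact h2
      | succ i => exact List.Sublist.refl _
    · cases i with
      | zero => exact List.Sublist.refl _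
      | succ i => exact ih h1 i

/-- `bdB x` consists of good cells -/
theorem bdB_mem {n : ℕ} {c : Finset V} {j : ℕ} {x : List (List V)} (h1 : x.length = n)
    (h2 : GC c (j + 1) x) : bdB K x ∈ Gd K n c j := by
  unfold Gd
  rw [Finsupp.mem_supported]
  intro x' hx'
  have hx2 : x' ∈ (bdB K x).support := hx'
  clear hx'
  show x'.length = n ∧ GC c j x'
  induction x generalizing x' n c j with
  | nil => simp [bdB] at hx2
  | cons t x ih =>
    rcases bkc_supp hx2 with ⟨s, h3, h4, h5, rfl⟩ | ⟨s', h3, rfl⟩
    · exact ⟨h1, GC_face h2 h3 h4 h5⟩
    · obtain ⟨a, a0, b, d, e⟩ := h2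
      by_cases ht : t.length = j + 2
      · exfalso
        have h6 : j + 1 + 1 - t.length = 0 := by omega
        rw [h6] at e
        rw [bkc_zero (K := K) e] at h3
        simp at h3
      · have h6 : j + 1 + 1 - t.length = (j + 1 - t.length) + 1 := by omega
        rw [h6] at e
        obtain ⟨h7, h8⟩ := ih (n := x.length) rfl e h3
        refine ⟨?_, a, a0, b, by omega, h8⟩
        rw [← h1, List.length_cons, List.length_cons, h7]

theorem bd_mem {n : ℕ} {c : Finset V} {j : ℕ} {x : Ch K (List V)} (h : x ∈ Gd K n c (j + 1)) :
    bd K x ∈ Gd K n c j := by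
  unfold Gd at h ⊢
  rw [Finsupp.mem_supported] at h ⊢
  intro x' hx'
  obtain ⟨a, ha, h1⟩ := lc_supp (Finset.mem_coe.1 hx')
  obtain ⟨h2, h3⟩ := h (Finset.mem_coe.2 ha)
  have h4 := bdB_mem (K := K) h2 h3
  unfold Gd at h4
  rw [Finsupp.mem_supported] at h4
  exact h4 (Finset.mem_coe.2 h1)
-- END BKc

-- BEGIN BKd
theorem bkd_mem {n j : ℕ} {c : Finset V} {x : Ch K (List V)} (h : x ∈ Gd K n c j)
    {a : List (List V)} (ha : a ∈ x.support) : a.length = n ∧ GC c j a := by
  unfold Gd at h
  rw [Finsupp.mem_supported] at h
  exact h (Finset.mem_coe.2 ha)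

theorem bkd_eps_tens (x : Ch K (List V)) (y : Ch K V) :
    eps K (tens K x y) = eps K x * eps K y := by
  induction y using Finsupp.induction_linear with
  | zero => rw [map_zero, map_zero, map_zero, mul_zero]
  | add a b ha hb => rw [map_add, map_add, map_add, mul_add, ha, hb]
  | single s c => rw [tens_single, map_smul, eps_consL, eps_single, smul_eq_mul, mul_comm]

theorem bkd_eps_delB {t : List V} (h : t.length = 2) : eps K (ndelB K t) = 0 := by
  obtain ⟨a, b, rfl⟩ := List.length_eq_two.1 h
  rw [ndelB_of_two (by simp)]
  have e : delB K [a, b] = single [b] 1 - consL K a (single [] 1 - consL K b 0) := rfl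
  rw [e, map_zero, sub_zero, map_sub, eps_consL, eps_single, eps_single, sub_self]

/-- cells of degree `0` have boundary `0` -/
theorem bdB_zero {c : Finset V} {x : List (List V)} (h : GC c 0 x) : bdB K x = 0 := bkc_zero h

theorem bd_zero {n : ℕ} {c : Finset V} {x : Ch K (List V)} (h : x ∈ Gd K n c 0) : bd K x = 0 := by
  unfold bd
  rw [Finsupp.linearCombination_apply]
  refine Finset.sum_eq_zero fun a ha => ?_
  show x a • bdB K a = 0
  rw [bdB_zero (bkd_mem h ha).2, smul_zero]

/-- `eps (bd x) = 0` in degree `1`: exactly one block has two letters. -/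
theorem eps_bdB {c : Finset V} {x : List (List V)} (h : GC c 1 x) : eps K (bdB K x) = 0 := by
  induction x generalizing c with
  | nil => exact map_zero _
  | cons t x ih =>
    obtain ⟨h1, _, h2, h3, h4⟩ := h
    have hp := List.length_pos_iff.2 h1
    have e : bdB K (t :: x) =
        tens K (single x 1) (ndelB K t) + (-1 : K) ^ (t.length + 1) • consL K t (bdB K x) := rfl
    rw [e, map_add, map_smul, eps_consL, bkd_eps_tens]
    by_cases ht : t.length = 1
    · have h5 : (1 + 1 - t.length) = 1 := by omega
      rw [h5] at h4
      rw [ih h4, ndelB_of_le_one (by omega), map_zero, mul_zero, smul_zero, add_zero]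
    · have h5 : (1 + 1 - t.length) = 0 := by omega
      rw [h5] at h4
      rw [bdB_zero h4, map_zero, smul_zero, add_zero, bkd_eps_delB (by omega), mul_zero]

theorem eps_bd {n : ℕ} {c : Finset V} {x : Ch K (List V)} (h : x ∈ Gd K n c 1) :
    eps K (bd K x) = 0 := by
  unfold bd
  rw [Finsupp.linearCombination_apply, Finsupp.sum, map_sum]
  refine Finset.sum_eq_zero fun a ha => ?_
  rw [map_smul, eps_bdB (bkd_mem h ha).2, smul_zero]

theorem GC_ne {c : Finset V} {j : ℕ} {x : List (List V)} (h : GC c j x) : ∀ t ∈ x, t ≠ [] := by
  induction x generalizing c j with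
  | nil => simp
  | cons t x ih =>
    obtain ⟨h1, _, h2, h3, h4⟩ := h
    intro s hs
    rcases List.mem_cons.1 hs with rfl | hs
    · exact h1
    · exact ih h4 s hs

/-- every letter is used at most once in the whole cell -/
theorem GC_mem {c : Finset V} {j : ℕ} {x : List (List V)} (h : GC c j x) (i : ℕ) :
    ∀ v ∈ x.getD i [], v ∈ c := by
  induction x generalizing c j i with
  | nil => simp
  | cons t x ih =>
    obtain ⟨h1, _, h2, h3, h4⟩ := h
    cases i with
    | zero => exact h2
    | succ i => exact fun v hv => (Finset.mem_sdiff.1 (ih h4 i v hv)).1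

theorem GC_nodup {c : Finset V} {j : ℕ} {x : List (List V)} (h : GC c j x) (i : ℕ) :
    (x.getD i []).Nodup := by
  induction x generalizing c j i with
  | nil => simp
  | cons t x ih =>
    obtain ⟨h1, h0, h2, h3, h4⟩ := h
    cases i with
    | zero => exact h0
    | succ i => exact ih h4 i

theorem GC_disj {c : Finset V} {j : ℕ} {x : List (List V)} (h : GC c j x) {i i' : ℕ} {v : V}
    (h1 : v ∈ x.getD i []) (h2 : v ∈ x.getD i' []) : i = i' := by
  induction x generalizing c j i i' with
  | nil => simp at h1
  | cons t x ih =>
    obtain ⟨_, _, _, _, h4⟩ := h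
    cases i with
    | zero =>
      cases i' with
      | zero => rfl
      | succ i' =>
        exfalso
        have h5 := (Finset.mem_sdiff.1 (GC_mem h4 i' v h2)).2
        exact h5 (List.mem_toFinset.2 h1)
    | succ i =>
      cases i' with
      | zero =>
        exfalso
        have h5 := (Finset.mem_sdiff.1 (GC_mem h4 i v h1)).2
        exact h5 (List.mem_toFinset.2 h2)
      | succ i' => rw [ih h4 h1 h2]

theorem card_sdiff_ge (E : Finset V) (t : List V) : E.card ≤ (E \ t.toFinset).card + t.length := by
  have h1 := Finset.card_le_card (Finset.subset_union_left (s₁ := E) (s₂ := t.toFinset))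
  rw [← Finset.sdiff_union_self_eq_union] at h1
  exact h1.trans ((Finset.card_union_le _ _).trans
    (Nat.add_le_add_left (List.toFinset_card_le t) _))

/-- existence of a cell of degree `0`: induction on `n` -/
theorem exists_point {E : Finset V} {n : ℕ} (h : n ≤ E.card) :
    ∃ x : List (List V), x.length = n ∧ GC E 0 x := by
  induction n generalizing E with
  | zero => exact ⟨[], rfl, rfl⟩
  | succ n ih =>
    obtain ⟨v, hv⟩ : E.Nonempty := Finset.card_pos.1 (by omega)
    have h3 := card_sdiff_ge E [v]
    rw [List.length_singleton] at h3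
    obtain ⟨x, hx, hx2⟩ := ih (E := E \ [v].toFinset) (by omega)
    refine ⟨[v] :: x, by rw [List.length_cons, hx], by simp, by simp, ?_, by simp, hx2⟩
    intro w hw
    rw [List.mem_singleton.1 hw]
    exact hv
-- END BKd

-- BEGIN BKe
/-- transport under an equivalence of the letters -/
theorem GC_map (e : V ≃ V) {E : Finset V} {j : ℕ} {x : List (List V)} (h : GC E j x) :
    GC (E.map e.toEmbedding) j (x.map (List.map e)) := by
  induction x generalizing E j with
  | nil => exact h
  | cons t x ih =>
    obtain ⟨h1, h0, h2, h3, h4⟩ := h
    have h5 := ih h4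
    have h6 : (E \ t.toFinset).map e.toEmbedding =
        E.map e.toEmbedding \ (t.map e).toFinset := by
      ext v
      simp only [Finset.mem_map, Finset.mem_sdiff, List.mem_toFinset, Equiv.coe_toEmbedding,
        List.mem_map]
      constructor
      · rintro ⟨a, ⟨ha, hb⟩, rfl⟩
        refine ⟨⟨a, ha, rfl⟩, ?_⟩
        rintro ⟨b, hb1, hb2⟩
        rw [e.injective hb2] at hb1
        exact hb hb1
      · rintro ⟨⟨a, ha, rfl⟩, hb⟩
        exact ⟨a, ⟨ha, fun h => hb ⟨a, h, rfl⟩⟩, rfl⟩
    rw [h6] at h5
    refine ⟨by simpa using h1, h0.map e.injective, ?_, by simpa using h3, ?_⟩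
    · intro v hv
      obtain ⟨w, hw, rfl⟩ := List.mem_map.1 hv
      exact Finset.mem_map.2 ⟨w, h2 w hw, rfl⟩
    · rw [List.length_map]
      exact h5

theorem Gd_map [Fintype V] (e : V ≃ V) {n j : ℕ} {x : Ch K (List V)}
    (h : x ∈ Gd K n Finset.univ j) :
    mapL K (List.map e) x ∈ Gd K n Finset.univ j := by
  unfold Gd at h ⊢
  rw [Finsupp.mem_supported] at h ⊢
  intro x' hx'
  obtain ⟨a, ha, rfl⟩ := mapL_supp (Finset.mem_coe.1 hx')
  obtain ⟨h2, h3⟩ := h (Finset.mem_coe.2 ha)
  refine ⟨by rw [List.length_map, h2], ?_⟩
  exact GC_mono (Finset.subset_univ _) (GC_map e h3)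
-- END BKe

end b

end Pool.Agent.MP_fd6bc6_al.BU
end

section

/-! # The words lemma -/

set_option autoImplicit false

namespace Pool.Agent.MP_fd6bc6_al.BU

open Finsupp

variable {K : Type*} [CommRing K] {V : Type*} [DecidableEq V]

/-- injective words of length `ℓ` in the letters of `E` -/
def Wd (K : Type*) [CommRing K] {V : Type*} (E : Finset V) (ℓ : ℕ) : Submodule K (Ch K V) :=
  supported K K {w : List V | w.length = ℓ ∧ w.Nodup ∧ ∀ v ∈ w, v ∈ E}

-- BEGIN WORDS
section words_aux

omit [DecidableEq V]

/-- the part of the words starting with `b` -/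
noncomputable def wRho (K : Type*) [CommRing K] {V : Type*} (b : V) : Ch K V →ₗ[K] Ch K V :=
  lcomapDomain (List.cons b) (List.cons_injective)

theorem wRho_apply (b : V) (z : Ch K V) (w : List V) : wRho K b z w = z (b :: w) := by
  rw [wRho, Finsupp.lcomapDomain_apply, Finsupp.comapDomain_apply]

theorem wRho_consL [DecidableEq V] (b c : V) (z : Ch K V) :
    wRho K b (consL K c z) = if c = b then z else 0 := by
  ext w
  rw [wRho, consL, Finsupp.lcomapDomain_apply, Finsupp.comapDomain_apply,
    Finsupp.lmapDomain_apply]
  split_ifs with h
  · rw [h]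
    exact Finsupp.mapDomain_apply (List.cons_injective) z w
  · exact Finsupp.mapDomain_of_notMem_range z _ (by
      rintro ⟨x, hx⟩
      exact h (List.cons.inj hx).1)

/-- the part of the words starting with `t ++ [a]` -/
noncomputable def wRow (K : Type*) [CommRing K] {V : Type*} : List V → V → (Ch K V →ₗ[K] Ch K V)
  | [], a => wRho K a
  | b :: t, a => wRow K t a ∘ₗ wRho K b

theorem wRow_apply (t : List V) (a : V) (z : Ch K V) (s : List V) :
    wRow K t a z s = z (t ++ a :: s) := by
  induction t generalizing z with
  | nil => exact wRho_apply a z s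
  | cons b t ih =>
    rw [wRow, LinearMap.comp_apply, ih, wRho_apply]
    rfl

/-- put the prefix `t` in front -/
noncomputable def wPre (K : Type*) [CommRing K] {V : Type*} : List V → (Ch K V →ₗ[K] Ch K V)
  | [] => LinearMap.id
  | b :: t => consL K b ∘ₗ wPre K t

/-- the faces in the prefix -/
noncomputable def wD (K : Type*) [CommRing K] {V : Type*} : List V → (Ch K V →ₗ[K] Ch K V)
  | [] => 0
  | b :: t => wPre K t - consL K b ∘ₗ wD K t

theorem del_wPre (t : List V) (x : Ch K V) :
    del K (wPre K t x) = wD K t x + (-1 : K) ^ t.length • wPre K t (del K x) := by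
  induction t with
  | nil => simp [wPre, wD]
  | cons b t ih =>
    rw [wPre, LinearMap.comp_apply, del_consL, ih, wD, LinearMap.sub_apply, LinearMap.comp_apply,
      LinearMap.comp_apply, map_add, map_smul, List.length_cons, pow_succ, mul_neg_one, neg_smul]
    abel

theorem wPre_supp {t : List V} {x : Ch K V} {w : List V} (h : w ∈ (wPre K t x).support) :
    ∃ s ∈ x.support, w = t ++ s := by
  induction t generalizing w with
  | nil => exact ⟨w, h, rfl⟩
  | cons b t ih =>
    obtain ⟨s, hs, rfl⟩ := consL_supp h
    obtain ⟨s', hs', rfl⟩ := ih hs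
    exact ⟨s', hs', rfl⟩

theorem wPre_apply (t : List V) (x : Ch K V) (s : List V) : wPre K t x (t ++ s) = x s := by
  induction t with
  | nil => rfl
  | cons b t ih =>
    rw [wPre, LinearMap.comp_apply, consL, Finsupp.lmapDomain_apply, List.cons_append,
      Finsupp.mapDomain_apply (List.cons_injective), ih]

theorem wD_supp {t : List V} {x : Ch K V} {w : List V} (h : w ∈ (wD K t x).support) :
    ∃ t' s, t'.Sublist t ∧ t'.length + 1 = t.length ∧ s ∈ x.support ∧ w = t' ++ s := by
  classical
  induction t generalizing w with
  | nil => simp [wD] at h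
  | cons b t ih =>
    rw [wD, LinearMap.sub_apply] at h
    rcases Finset.mem_union.1 (Finsupp.support_sub h) with h1 | h1
    · obtain ⟨s, hs, rfl⟩ := wPre_supp h1
      exact ⟨t, s, List.sublist_cons_self b t, rfl, hs, rfl⟩
    · obtain ⟨s, hs, rfl⟩ := consL_supp h1
      obtain ⟨t', s', h2, h3, h4, rfl⟩ := ih hs
      exact ⟨b :: t', s', h2.cons_cons b, by rw [List.length_cons, List.length_cons, h3], h4, rfl⟩

/-- the part of `del w` on the words `t ++ a :: s` -/
theorem wRow_delB [DecidableEq V] (t : List V) (a : V) (w : List V)
    (h : a ∉ w.drop (t.length + 1)) :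
    wRow K t a (delB K w) = (-1 : K) ^ (t.length + 1) • del K (wRow K t a (single w 1)) := by
  have hz : ∀ (t : List V) (w : List V) (c : K), (∀ s, w ≠ t ++ a :: s) →
      wRow K t a (single w c) = 0 := fun t w c h => by
    ext s
    rw [wRow_apply, single_apply, if_neg (h s)]
    rfl
  induction t generalizing w with
  | nil =>
    cases w with
    | nil => rw [hz [] [] 1 (by simp), delB, map_zero, map_zero, smul_zero]
    | cons c w =>
      have h1 : wRow K [] a (single w (1 : K)) = 0 := hz [] w 1 (fun s hs => h (by
        rw [hs]
        simp))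
      rw [delB, map_sub, h1, ← consL_single]
      change 0 - wRho K a (consL K c (delB K w)) = _ • del K (wRho K a (consL K c (single w 1)))
      rw [wRho_consL, wRho_consL]
      split_ifs
      · rw [del_single]
        simp
      · simp
  | cons b t ih =>
    cases w with
    | nil => rw [hz (b :: t) [] 1 (by simp), delB, map_zero, map_zero, smul_zero]
    | cons c w =>
      have h1 : wRow K (b :: t) a (single w (1 : K)) = 0 := hz (b :: t) w 1 (fun s hs => h (by
        rw [hs]
        simp))
      rw [delB, map_sub, h1, ← consL_single, wRow, LinearMap.comp_apply, LinearMap.comp_apply,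
        wRho_consL, wRho_consL]
      split_ifs with hcb
      · rw [ih w (by simpa using h), List.length_cons, pow_succ _ (t.length + 1), mul_neg_one,
          neg_smul, zero_sub]
      · simp

theorem wRow_del [DecidableEq V] (t : List V) (a : V) {z : Ch K V}
    (h : ∀ w ∈ z.support, a ∉ w.drop (t.length + 1)) :
    wRow K t a (del K z) = (-1 : K) ^ (t.length + 1) • del K (wRow K t a z) := by
  have e : z = ∑ w ∈ z.support, z w • single w (1 : K) := by
    conv_lhs => rw [← Finsupp.sum_single z]
    change ∑ w ∈ z.support, single w (z w) = _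
    refine Finset.sum_congr rfl fun w _ => ?_
    rw [smul_single, smul_eq_mul, mul_one]
  have h' : ∀ S : Finset (List V), (∀ w ∈ S, a ∉ w.drop (t.length + 1)) → ∀ c : List V → K,
      wRow K t a (del K (∑ w ∈ S, c w • single w (1 : K))) =
        (-1 : K) ^ (t.length + 1) • del K (wRow K t a (∑ w ∈ S, c w • single w (1 : K))) := by
    intro S hS c
    simp only [map_sum, map_smul, Finset.smul_sum]
    refine Finset.sum_congr rfl fun w hw => ?_
    rw [del_single, one_smul, wRow_delB t a w (hS w hw), smul_comm]
  rw [e]
  exact h' z.support h z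

end words_aux

theorem words_step (ℓ : ℕ) (IH : ∀ ℓ' < ℓ, ∀ E : Finset V, ℓ' < E.card → ∀ z ∈ Wd K E ℓ',
    del K z = 0 → ∃ y ∈ Wd K E (ℓ' + 1), del K y = z) (E : Finset V) (a : V) (ha : a ∈ E)
    (hℓ : ℓ < E.card) (p : ℕ) : ∀ z ∈ Wd K E ℓ, (∀ w ∈ z.support, a ∉ w.drop p) →
    del K z = 0 → ∃ y ∈ Wd K E (ℓ + 1), del K y = z := by
  induction p with
  | zero =>
    intro z hz h0 hd
    refine ⟨consL K a z, ?_, by rw [del_consL, hd, map_zero, sub_zero]⟩
    unfold Wd at hz ⊢
    rw [mem_supported] at hz ⊢
    intro w hw
    obtain ⟨s, hs, rfl⟩ := consL_supp (Finset.mem_coe.1 hw)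
    obtain ⟨h1, h2, h3⟩ := hz (Finset.mem_coe.2 hs)
    have h4 : a ∉ s := h0 s hs
    refine ⟨by rw [List.length_cons, h1], List.nodup_cons.2 ⟨h4, h2⟩, fun v hv => ?_⟩
    rcases List.mem_cons.1 hv with rfl | hv
    · exact ha
    · exact h3 v hv
  | succ p ihp =>
    intro z hz h0 hd
    have hzw : ∀ w ∈ z.support, w.length = ℓ ∧ w.Nodup ∧ ∀ v ∈ w, v ∈ E := by
      unfold Wd at hz
      rw [mem_supported] at hz
      exact fun w hw => hz (Finset.mem_coe.2 hw)
    -- the fillings
    have hy : ∀ t : List V, ∃ y : Ch K V, t.length = p →
        (∀ s ∈ y.support, (t ++ a :: s).length = ℓ + 1 ∧ (t ++ a :: s).Nodup ∧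
          ∀ v ∈ t ++ a :: s, v ∈ E) ∧ del K y = wRow K t a z := by
      intro t
      by_cases h1 : t.length = p ∧ wRow K t a z ≠ 0
      · obtain ⟨s0, hs0⟩ := Finsupp.support_nonempty_iff.2 h1.2
        rw [mem_support_iff, wRow_apply, ← mem_support_iff] at hs0
        obtain ⟨e1, e2, e3⟩ := hzw _ hs0
        rw [List.length_append, List.length_cons, h1.1] at e1
        have hc : E.card ≤ (E \ (t ++ [a]).toFinset).card + (p + 1) := by
          have h2 := Finset.card_le_card (Finset.subset_union_left (s₁ := E)
            (s₂ := (t ++ [a]).toFinset))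
          rw [← Finset.sdiff_union_self_eq_union] at h2
          have h3 := List.toFinset_card_le (t ++ [a])
          rw [List.length_append, List.length_singleton, h1.1] at h3
          exact h2.trans ((Finset.card_union_le _ _).trans (Nat.add_le_add_left h3 _))
        obtain ⟨y, hy1, hy2⟩ := IH (ℓ - 1 - p) (by omega) (E \ (t ++ [a]).toFinset) (by omega)
          (wRow K t a z) (by
            unfold Wd
            rw [mem_supported]
            intro s hs
            have hs1 := Finset.mem_coe.1 hs
            rw [mem_support_iff, wRow_apply, ← mem_support_iff] at hs1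
            obtain ⟨f1, f2, f3⟩ := hzw _ hs1
            rw [List.length_append, List.length_cons, h1.1] at f1
            have f4 := (List.nodup_append.1 f2).2.1
            refine ⟨by omega, (List.nodup_cons.1 f4).2, fun v hv => Finset.mem_sdiff.2
              ⟨f3 v (by simp [hv]), fun hv' => ?_⟩⟩
            rw [List.mem_toFinset, List.mem_append, List.mem_singleton] at hv'
            rcases hv' with hv' | rfl
            · exact (List.nodup_append.1 f2).2.2 v hv' v (List.mem_cons_of_mem _ hv) rfl
            · exact (List.nodup_cons.1 f4).1 hv) (by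
            have h2 := wRow_del t a (z := z) (by rw [h1.1]; exact h0)
            rw [hd, map_zero] at h2
            have h3 := congrArg (fun x => (-1 : K) ^ (t.length + 1) • x) h2
            simpa [smul_smul, ← mul_pow] using h3.symm)
        refine ⟨y, fun _ => ⟨fun s hs => ?_, hy2⟩⟩
        unfold Wd at hy1
        rw [mem_supported] at hy1
        obtain ⟨g1, g2, g3⟩ := hy1 (Finset.mem_coe.2 hs)
        have e4 : t.Nodup := (List.nodup_append.1 e2).1
        refine ⟨by rw [List.length_append, List.length_cons, g1, h1.1]; omega, ?_, fun v hv => ?_⟩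
        · refine List.nodup_append.2 ⟨e4, List.nodup_cons.2 ⟨fun h5 => ?_, g2⟩,
            fun v hv w hw hvw => ?_⟩
          · exact (Finset.mem_sdiff.1 (g3 a h5)).2 (by simp)
          · subst hvw
            rcases List.mem_cons.1 hw with rfl | hw
            · exact (List.nodup_append.1 e2).2.2 v hv v List.mem_cons_self rfl
            · exact (Finset.mem_sdiff.1 (g3 v hw)).2 (by simp [hv])
        · rcases List.mem_append.1 hv with hv | hv
          · exact e3 v (List.mem_append_left _ hv)
          · rcases List.mem_cons.1 hv with rfl | hv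
            · exact ha
            · exact (Finset.mem_sdiff.1 (g3 v hv)).1
      · refine ⟨0, fun h2 => ⟨by simp, ?_⟩⟩
        rw [map_zero]
        by_contra h3
        exact h1 ⟨h2, fun h4 => h3 h4.symm⟩
    choose y hy using hy
    let T : Finset (List V) := (z.support.image (fun w => w.take p)).filter (fun t => t.length = p)
    have hT : ∀ t ∈ T, t.length = p := fun t ht => (Finset.mem_filter.1 ht).2
    let Y : Ch K V := ∑ t ∈ T, (-1 : K) ^ (p + 1) • wPre K t (consL K a (y t))
    have hY : Y ∈ Wd K E (ℓ + 1) := by
      refine Submodule.sum_mem _ fun t ht => Submodule.smul_mem _ _ ?_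
      unfold Wd
      rw [mem_supported]
      intro w hw
      obtain ⟨s, hs, rfl⟩ := wPre_supp (Finset.mem_coe.1 hw)
      obtain ⟨s', hs', rfl⟩ := consL_supp hs
      exact (hy t (hT t ht)).1 s' hs'
    have hdY : del K Y = ∑ t ∈ T, wPre K t (consL K a (wRow K t a z)) +
        ∑ t ∈ T, (-1 : K) ^ (p + 1) • (wD K t (consL K a (y t)) +
          (-1 : K) ^ p • wPre K t (y t)) := by
      rw [map_sum, ← Finset.sum_add_distrib]
      refine Finset.sum_congr rfl fun t ht => ?_
      have h1 := hT t ht
      rw [map_smul, del_wPre, del_consL, (hy t h1).2, h1, map_sub, smul_sub, smul_add, smul_sub,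
        smul_add, smul_smul, smul_smul]
      have h2 : ((-1 : K) ^ (p + 1) * (-1) ^ p) = -1 := by
        rw [pow_succ, mul_assoc, mul_comm (-1 : K), ← mul_assoc, ← mul_pow]
        simp
      rw [h2, neg_smul, neg_smul, one_smul, one_smul]
      abel
    -- the remaining cycle
    have hz1 : ∀ w ∈ (z - ∑ t ∈ T, wPre K t (consL K a (wRow K t a z))).support,
        w ∈ z.support ∧ a ∉ w.drop p := by
      intro w hw
      rw [mem_support_iff, Finsupp.sub_apply, Finsupp.finsetSum_apply] at hw
      by_cases h1 : ∃ s, w.take p ∈ T ∧ w = w.take p ++ a :: s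
      · exfalso
        obtain ⟨s, h2, h3⟩ := h1
        apply hw
        rw [Finset.sum_eq_single_of_mem (w.take p) h2, sub_eq_zero]
        · conv_rhs => rw [h3]
          rw [List.take_append_of_le_length (by rw [hT _ h2]),
            List.take_of_length_le (by rw [hT _ h2]), wPre_apply]
          have h4 := wRow_apply (K := K) (w.take p) a z s
          rw [← h3] at h4
          rw [← h4, consL, Finsupp.lmapDomain_apply, Finsupp.mapDomain_apply (List.cons_injective)]
        · intro t ht hne
          by_contra h4
          obtain ⟨s', _, h5⟩ := wPre_supp (mem_support_iff.2 h4)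
          apply hne
          rw [h5, List.take_append_of_le_length (by rw [hT t ht]),
            List.take_of_length_le (by rw [hT t ht])]
      · have h2 : ∑ t ∈ T, (wPre K t (consL K a (wRow K t a z))) w = 0 := by
          refine Finset.sum_eq_zero fun t ht => ?_
          by_contra h4
          obtain ⟨s', hs', h5⟩ := wPre_supp (mem_support_iff.2 h4)
          obtain ⟨s, _, rfl⟩ := consL_supp hs'
          have h6 : w.take p = t := by
            rw [h5, List.take_append_of_le_length (by rw [hT t ht]),
              List.take_of_length_le (by rw [hT t ht])]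
          exact h1 ⟨s, by rw [h6]; exact ht, by rw [h6]; exact h5⟩
        rw [h2, sub_zero] at hw
        have hws := mem_support_iff.2 hw
        refine ⟨hws, fun h3 => ?_⟩
        by_cases h4 : p < w.length
        · rw [List.drop_eq_getElem_cons h4] at h3
          rcases List.mem_cons.1 h3 with h5 | h5
          · refine h1 ⟨w.drop (p + 1), Finset.mem_filter.2 ⟨Finset.mem_image.2 ⟨w, hws, rfl⟩, ?_⟩,
              ?_⟩
            · rw [List.length_take]
              omega
            · conv_lhs => rw [← List.take_append_drop p w, List.drop_eq_getElem_cons h4, ← h5]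
          · exact h0 w hws h5
        · rw [List.drop_eq_nil_of_le (by omega)] at h3
          simp at h3
    obtain ⟨y', hy', hdy'⟩ := ihp (z - del K Y) (by
        rw [hdY, ← sub_sub]
        refine Submodule.sub_mem _ ?_ ?_
        · unfold Wd
          rw [mem_supported]
          intro w hw
          exact hzw w (hz1 w (Finset.mem_coe.1 hw)).1
        · refine Submodule.sum_mem _ fun t ht => Submodule.smul_mem _ _ (Submodule.add_mem _ ?_
            (Submodule.smul_mem _ _ ?_))
          · unfold Wd
            rw [mem_supported]
            intro w hw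
            obtain ⟨t', s, g1, g2, g3, rfl⟩ := wD_supp (Finset.mem_coe.1 hw)
            obtain ⟨s', hs', rfl⟩ := consL_supp g3
            obtain ⟨f1, f2, f3⟩ := (hy t (hT t ht)).1 s' hs'
            have g4 : (t' ++ a :: s').Sublist (t ++ a :: s') := g1.append (List.Sublist.refl _)
            refine ⟨?_, f2.sublist g4, fun v hv => f3 v (g4.subset hv)⟩
            rw [List.length_append] at f1 ⊢
            omega
          · unfold Wd
            rw [mem_supported]
            intro w hw
            obtain ⟨s, hs, rfl⟩ := wPre_supp (Finset.mem_coe.1 hw)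
            obtain ⟨f1, f2, f3⟩ := (hy t (hT t ht)).1 s hs
            have g4 : (t ++ s).Sublist (t ++ a :: s) :=
              (List.Sublist.refl t).append (List.sublist_cons_self a s)
            refine ⟨?_, f2.sublist g4, fun v hv => f3 v (g4.subset hv)⟩
            rw [List.length_append, List.length_cons] at f1
            rw [List.length_append]
            omega)
      (by
        intro w hw
        rw [hdY, ← sub_sub] at hw
        rcases Finset.mem_union.1 (Finsupp.support_sub hw) with hw | hw
        · exact (hz1 w hw).2
        · obtain ⟨t, ht, hw⟩ := Finset.mem_biUnion.1 (Finsupp.support_finsetSum hw)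
          have hw1 := Finsupp.support_smul hw
          have h1 := hT t ht
          rcases Finset.mem_union.1 (Finsupp.support_add hw1) with hw2 | hw2
          · obtain ⟨t', s, g1, g2, g3, rfl⟩ := wD_supp hw2
            obtain ⟨s', hs', rfl⟩ := consL_supp g3
            obtain ⟨f1, f2, f3⟩ := (hy t h1).1 s' hs'
            have e : (t' ++ a :: s').drop p = s' := by
              have : p = (t' ++ [a]).length := by
                rw [List.length_append, List.length_singleton]
                omega
              rw [this, show t' ++ a :: s' = (t' ++ [a]) ++ s' by simp, List.drop_left]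
            rw [e]
            exact (List.nodup_cons.1 (List.nodup_append.1 f2).2.1).1
          · obtain ⟨s, hs, rfl⟩ := wPre_supp (Finsupp.support_smul hw2)
            obtain ⟨f1, f2, f3⟩ := (hy t h1).1 s hs
            have e : (t ++ s).drop p = s := by
              rw [← h1, List.drop_left]
            rw [e]
            exact (List.nodup_cons.1 (List.nodup_append.1 f2).2.1).1)
      (by rw [map_sub, hd, del_del, sub_zero])
    exact ⟨y' + Y, Submodule.add_mem _ hy' hY, by rw [map_add, hdy', sub_add_cancel]⟩

/-- WORDS LEMMA: the augmented complex of injective words in `E` is exact in length `ℓ < |E|`. -/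
theorem words (E : Finset V) (ℓ : ℕ) (hℓ : ℓ < E.card) (z : Ch K V) (hz : z ∈ Wd K E ℓ)
    (h : del K z = 0) : ∃ y ∈ Wd K E (ℓ + 1), del K y = z := by
  induction ℓ using Nat.strong_induction_on generalizing E z with
  | _ ℓ ih =>
    obtain ⟨a, ha⟩ : E.Nonempty := Finset.card_pos.1 (by omega)
    refine words_step ℓ (fun ℓ' h' E hE z hz h => ih ℓ' h' E hE z hz h) E a ha hℓ ℓ z hz ?_ h
    intro w hw
    unfold Wd at hz
    rw [mem_supported] at hz
    have h1 := (hz (Finset.mem_coe.2 hw)).1
    rw [List.drop_eq_nil_of_le (by omega)]
    simp
-- END WORDS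

end Pool.Agent.MP_fd6bc6_al.BU
end
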