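import Mathlib
import Pool.Agent.Lib.MP_fd6bc6_al.Mg.G007

section

/-! # An equivariant phase for non-constant functions on `ZMod q`, `q` prime -/

set_option autoImplicit false

namespace Pool.Agent.MP_fd6bc6_al.BU

-- BEGIN PH
/-- freeness: if `γ (s + t) = γ s` for all `s` and one `t ≠ 0`, then `γ` is constant -/
theorem const_of_period {q : ℕ} [Fact q.Prime] {X : Type*} (γ : ZMod q → X) (t : ZMod q)
    (ht : t ≠ 0) (h : ∀ s, γ (s + t) = γ s) : ∀ s, γ s = γ 0 := by
  have hk : ∀ k : ℕ, γ ((k : ZMod q) * t) = γ 0 := by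
    intro k
    induction k with
    | zero => rw [Nat.cast_zero, zero_mul]
    | succ k ih => rw [Nat.cast_succ, add_mul, one_mul, h, ih]
  intro s
  have h1 := hk (s * t⁻¹).val
  rwa [ZMod.natCast_zmod_val, mul_assoc, inv_mul_cancel₀ ht, mul_one] at h1

/-- Choose a representative `ρ` of each rotation class (`Quotient.out` for the setoid
`γ ~ γ' ↔ ∃ s, γ' = fun t => γ (t + s)`), then `γ t = ρ (t + s)` with a unique `s =: r γ` for
non-constant `γ`. -/
theorem exists_phase {q : ℕ} [Fact q.Prime] (X : Type*) :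
    ∃ r : (ZMod q → X) → ZMod q, ∀ γ : ZMod q → X, (∃ s, γ s ≠ γ 0) →
      r (fun s => γ (s + 1)) = r γ + 1 := by
  let R : (ZMod q → X) → (ZMod q → X) → Prop := fun γ γ' => ∃ s, ∀ t, γ' t = γ (t + s)
  have hR : Equivalence R := by
    refine ⟨fun γ => ⟨0, fun t => by rw [add_zero]⟩, ?_, ?_⟩
    · rintro γ γ' ⟨s, hs⟩
      exact ⟨-s, fun t => by rw [hs, neg_add_cancel_right]⟩
    · rintro γ γ' γ'' ⟨s, hs⟩ ⟨s', hs'⟩
      exact ⟨s' + s, fun t => by rw [hs', hs, add_assoc]⟩
  let st : Setoid (ZMod q → X) := ⟨R, hR⟩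
  let ρ : (ZMod q → X) → (ZMod q → X) := fun γ => (Quotient.mk st γ).out
  have hρ : ∀ γ, ∃ s, ∀ t, γ t = ρ γ (t + s) := fun γ => Quotient.mk_out (s := st) γ
  have hρ1 : ∀ γ : ZMod q → X, ρ (fun s => γ (s + 1)) = ρ γ := by
    intro γ
    have h1 : Quotient.mk st γ = Quotient.mk st (fun s => γ (s + 1)) :=
      Quotient.sound (s := st) ⟨1, fun t => rfl⟩
    simp only [ρ, h1]
  choose r hr using hρ
  refine ⟨r, fun γ hγ => ?_⟩
  by_contra hne
  obtain ⟨s, hs⟩ := hγ
  apply hs
  have h1 : ∀ t, ρ γ (t + (r (fun s => γ (s + 1)) - (r γ + 1))) = ρ γ t := by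
    intro t
    have h2 := hr (fun s => γ (s + 1)) (t - (r γ + 1))
    rw [hρ1] at h2
    have h3 := hr γ (t - (r γ + 1) + 1)
    have h4 : γ (t - (r γ + 1) + 1) = ρ γ (t - (r γ + 1) + r (fun s => γ (s + 1))) := h2
    rw [h3] at h4
    have e1 : t - (r γ + 1) + 1 + r γ = t := by ring
    have e2 : t - (r γ + 1) + r (fun s => γ (s + 1)) = t + (r (fun s => γ (s + 1)) - (r γ + 1)) := by
      ring
    rw [e1, e2] at h4
    exact h4.symm
  have h2 := const_of_period (ρ γ) _ (sub_ne_zero.2 hne) h1
  rw [hr γ s, hr γ 0, h2, h2 (0 + r γ)]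
-- END PH

end Pool.Agent.MP_fd6bc6_al.BU
end

section

/-! # Invariant cocycles on lists of phases in `ZMod q` (helper13) -/

set_option autoImplicit false

namespace Pool.Agent.MP_fd6bc6_al.BU

open Finsupp

section Coc

variable {q : ℕ}

/-- The wrap indicator. -/
def mu (g h : ZMod q) : ℤ := if h.val < g.val then 1 else 0

/-- The two-cocycle. -/
def beta (g h k : ZMod q) : ℤ := mu h k - mu g k + mu g h

theorem beta_left (g k : ZMod q) : beta g g k = 0 := by simp [beta, mu]

theorem beta_right (g k : ZMod q) : beta g k k = 0 := by simp [beta, mu]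

theorem beta_cocycle (a b c d : ZMod q) :
    beta b c d - beta a c d + beta a b d - beta a b c = 0 := by
  unfold beta; ring

theorem val_sub_mu [NeZero q] (g h : ZMod q) :
    (((h - g).val : ℕ) : ℤ) = h.val - g.val + q * mu g h := by
  unfold mu
  have h1 := ZMod.val_lt g
  have h2 := ZMod.val_lt h
  split_ifs with hlt
  · have h3 : h - g = ((h.val + q - g.val : ℕ) : ZMod q) := by
      rw [Nat.cast_sub (by omega), Nat.cast_add, ZMod.natCast_self, add_zero, ZMod.natCast_zmod_val,
        ZMod.natCast_zmod_val]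
    rw [h3, ZMod.val_natCast, Nat.mod_eq_of_lt (by omega)]
    omega
  · rw [ZMod.val_sub (by omega)]
    omega

theorem beta_add [NeZero q] (g h k t : ZMod q) :
    beta (g + t) (h + t) (k + t) = beta g h k := by
  have h1 := val_sub_mu (g + t) (h + t)
  have h2 := val_sub_mu (h + t) (k + t)
  have h3 := val_sub_mu (g + t) (k + t)
  have h4 := val_sub_mu g h
  have h5 := val_sub_mu h k
  have h6 := val_sub_mu g k
  rw [add_sub_add_right_eq_sub] at h1 h2 h3
  have hq : (q : ℤ) ≠ 0 := Nat.cast_ne_zero.2 (NeZero.ne q)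
  apply mul_left_cancel₀ hq
  unfold beta
  linear_combination h4 + h5 - h6 - (h1 + h2 - h3)

theorem sum_mu [NeZero q] (g h : ZMod q) :
    ∑ t ∈ Finset.range q, ((mu (g + (t : ZMod q)) (h + (t : ZMod q)) : ℤ) : ZMod q) = h - g := by
  have hq : (q : ℤ) ≠ 0 := Nat.cast_ne_zero.2 (NeZero.ne q)
  have hs : ∀ a : ZMod q, ∑ t ∈ Finset.range q, (((a + (t : ZMod q)).val : ℕ) : ℤ) =
      ∑ x : ZMod q, ((x.val : ℕ) : ℤ) := fun a => by
    refine Finset.sum_bij (fun t _ => a + (t : ZMod q)) (fun _ _ => Finset.mem_univ _)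
      (fun s hs t ht hst => ?_) (fun x _ => ?_) (fun _ _ => rfl)
    · have h1 := add_left_cancel hst
      rw [Finset.mem_range] at hs ht
      have h2 := congrArg ZMod.val h1
      rwa [ZMod.val_natCast, ZMod.val_natCast, Nat.mod_eq_of_lt hs, Nat.mod_eq_of_lt ht] at h2
    · exact ⟨(x - a).val, Finset.mem_range.2 (ZMod.val_lt _), by
        rw [ZMod.natCast_zmod_val, add_sub_cancel]⟩
  have h1 : (q : ℤ) * ∑ t ∈ Finset.range q, mu (g + (t : ZMod q)) (h + (t : ZMod q)) =
      q * ((h - g).val : ℕ) := by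
    rw [Finset.mul_sum]
    have h2 : ∀ t ∈ Finset.range q, (q : ℤ) * mu (g + (t : ZMod q)) (h + (t : ZMod q)) =
        ((h - g).val : ℕ) - (((h + (t : ZMod q)).val : ℕ) : ℤ) +
          (((g + (t : ZMod q)).val : ℕ) : ℤ) :=
      fun t _ => by
        have h3 := val_sub_mu (g + (t : ZMod q)) (h + (t : ZMod q))
        rw [add_sub_add_right_eq_sub] at h3
        linarith
    rw [Finset.sum_congr rfl h2, Finset.sum_add_distrib, Finset.sum_sub_distrib, hs, hs]
    simp
  have h2 := mul_left_cancel₀ hq h1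
  rw [← Int.cast_sum, h2]
  simp

/-- The standard invariant cocycles, in all degrees. -/
def coc : List (ZMod q) → ZMod q
  | [] => 0
  | [_] => 1
  | [g, h] => h - g
  | g :: h :: k :: l => beta g h k * coc (k :: l)

/-- The potentials. -/
def pot : List (ZMod q) → ZMod q
  | [] => 0
  | [g] => g
  | [g, h] => mu g h
  | g :: h :: k :: l => beta g h k * pot (k :: l)

theorem coc_succ (g h k : ZMod q) (l : List (ZMod q)) :
    coc (g :: h :: k :: l) = beta g h k * coc (k :: l) := by rw [coc]

theorem pot_succ (g h k : ZMod q) (l : List (ZMod q)) :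
    pot (g :: h :: k :: l) = beta g h k * pot (k :: l) := by rw [pot]

/-- The cocycles are invariant. -/
theorem coc_map [NeZero q] (t : ZMod q) : ∀ l : List (ZMod q), coc (l.map (· + t)) = coc l
  | [] => rfl
  | [_] => rfl
  | [g, h] => by
    change h + t - (g + t) = h - g
    ring
  | g :: h :: k :: l => by
    have h1 := coc_map t (k :: l)
    rw [List.map_cons] at h1
    rw [List.map_cons, List.map_cons, List.map_cons, coc_succ, coc_succ, beta_add, h1]

/-- The cocycles vanish on lists with two equal consecutive entries. -/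
theorem coc_eq_zero : ∀ l : List (ZMod q), ¬ l.IsChain (· ≠ ·) → coc l = 0
  | [], _ => rfl
  | [a], h => absurd (List.isChain_singleton a) h
  | [a, b], h => by
    have h1 : a = b := by
      by_contra h1
      exact h (.cons_cons h1 (List.isChain_singleton b))
    rw [h1]
    change b - b = 0
    ring
  | a :: b :: c :: l, h => by
    rw [coc_succ]
    by_cases h1 : a = b
    · rw [h1, beta_left, Int.cast_zero, zero_mul]
    by_cases h2 : b = c
    · rw [h2, beta_right, Int.cast_zero, zero_mul]
    rw [coc_eq_zero (c :: l) fun h3 => h (.cons_cons h1 (.cons_cons h2 h3)), mul_zero]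

/-- Lists of odd length. -/
theorem pot_map_sub [NeZero q] (t : ZMod q) : ∀ (r : ℕ) (l : List (ZMod q)), l.length = 2 * r + 1 →
    pot (l.map (· + t)) - pot l = t * coc l
  | _, [], h => by simp at h
  | _, [g], _ => by
    change g + t - g = t * 1
    ring
  | _, [g, h], hl => by simp at hl
  | 0, g :: h :: k :: l, hl => by simp at hl
  | r + 1, g :: h :: k :: l, hl => by
    have h1 := pot_map_sub t r (k :: l) (by simp at hl ⊢; omega)
    rw [List.map_cons] at h1
    rw [List.map_cons, List.map_cons, List.map_cons, pot_succ, pot_succ, coc_succ, beta_add,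
      ← mul_sub, h1]
    ring

/-- Lists of even length. -/
theorem sum_pot_map [NeZero q] : ∀ (r : ℕ) (l : List (ZMod q)), l.length = 2 * r + 2 →
    ∑ t ∈ Finset.range q, pot (l.map (· + (t : ZMod q))) = coc l
  | _, [], h => by simp at h
  | _, [g], h => by simp at h
  | _, [g, h], _ => sum_mu g h
  | 0, g :: h :: k :: l, hl => by simp at hl
  | r + 1, g :: h :: k :: l, hl => by
    have h1 := sum_pot_map r (k :: l) (by simp at hl ⊢; omega)
    rw [coc_succ, ← h1, Finset.mul_sum]
    refine Finset.sum_congr rfl fun t _ => ?_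
    rw [List.map_cons, List.map_cons, List.map_cons, pot_succ, beta_add]

theorem lc_consL {K : Type*} [CommRing K] {A : Type*} (φ ψ : List A → K) (a : A) (c : K)
    (h : ∀ l, φ (a :: l) = c * ψ l) (z : List A →₀ K) :
    Finsupp.linearCombination K φ (consL K a z) = c * Finsupp.linearCombination K ψ z := by
  induction z using Finsupp.induction_linear with
  | zero => simp
  | add f g hf hg => rw [map_add, map_add, hf, hg, map_add, mul_add]
  | single l d =>
    simp only [consL, Finsupp.lmapDomain_apply, Finsupp.mapDomain_single,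
      Finsupp.linearCombination_single, smul_eq_mul, h]
    ring

/-- The cocycles are the coboundaries of the potentials. -/
theorem coc_eq_aux : ∀ l : List (ZMod q), 2 ≤ l.length →
    Finsupp.linearCombination (ZMod q) pot (delB (ZMod q) l) = coc l
  | [], h => by simp at h
  | [_], h => by simp at h
  | [g, h], _ => by
    simp [delB, consL, pot, coc]
  | [g, h, k], _ => by
    simp [delB, consL, pot, coc, beta]
    ring
  | a :: b :: c :: d :: l, _ => by
    have h1 := coc_eq_aux (c :: d :: l) (by simp)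
    have h2 : ∀ z, Finsupp.linearCombination (ZMod q) pot
        (consL (ZMod q) a (consL (ZMod q) b (consL (ZMod q) c z))) =
        beta a b c * Finsupp.linearCombination (ZMod q) pot (consL (ZMod q) c z) := fun z => by
      rw [lc_consL pot (fun l => pot (a :: l)) a 1 (fun l => (one_mul _).symm), one_mul,
        lc_consL (fun l => pot (a :: l)) (fun l => pot (a :: b :: l)) b 1
          (fun l => (one_mul _).symm), one_mul,
        lc_consL (fun l => pot (a :: b :: l)) (fun l => pot (c :: l)) c (beta a b c)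
          (fun l => pot_succ a b c l),
        lc_consL pot (fun l => pot (c :: l)) c 1 (fun l => (one_mul _).symm), one_mul]
    rw [delB, map_sub, Finsupp.linearCombination_single, one_smul] at h1
    rw [delB, delB, delB]
    simp only [map_sub, h2, Finsupp.linearCombination_single, one_smul]
    have h3 := congrArg (Int.cast : ℤ → ZMod q) (beta_cocycle a b c d)
    push_cast at h3
    simp only [consL, Finsupp.lmapDomain_apply, Finsupp.mapDomain_single,
      Finsupp.linearCombination_single, one_smul] at h1 ⊢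
    rw [pot_succ, pot_succ, pot_succ, coc_succ, ← h1]
    linear_combination pot (d :: l) * h3


/-- `coc = δ pot`: for lists of length at least two. -/
theorem coc_eq (w : List (ZMod q)) (hw : 2 ≤ w.length) :
    coc w = linearCombination (ZMod q) pot (delB (ZMod q) w) :=
  (coc_eq_aux w hw).symm

theorem coc_add [NeZero q] (w : List (ZMod q)) (t : ZMod q) : coc (w.map (· + t)) = coc w :=
  coc_map t w

/-- a list with two equal consecutive entries -/
def Rep {X : Type*} (w : List X) : Prop := ∃ (u v : List X) (g : X), w = u ++ g :: g :: v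

theorem coc_rep (w : List (ZMod q)) (h : Rep w) : coc w = 0 := by
  apply coc_eq_zero
  obtain ⟨u, v, g, rfl⟩ := h
  intro hc
  rw [List.isChain_append] at hc
  have := hc.2.1
  rw [List.isChain_cons_cons] at this
  exact this.1 rfl

/-- odd length: `pot (w + 1) - pot w = coc w` -/
theorem pot_odd [NeZero q] (w : List (ZMod q)) (h : Odd w.length) :
    pot (w.map (· + 1)) - pot w = coc w := by
  obtain ⟨r, hr⟩ := h
  have := pot_map_sub 1 r w hr
  rwa [one_mul] at this

/-- even length: `∑ t, pot (w + t) = coc w`; the number of `t` with a wrap is `g' - g` -/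
theorem pot_even [NeZero q] (w : List (ZMod q)) (h : Even w.length) :
    ∑ t : ZMod q, pot (w.map (· + t)) = coc w := by
  obtain ⟨r, hr⟩ := h
  have e : ∑ t : ZMod q, pot (w.map (· + t)) =
      ∑ t ∈ Finset.range q, pot (w.map (· + (t : ZMod q))) := by
    symm
    refine Finset.sum_bij (fun t _ => (t : ZMod q)) (fun _ _ => Finset.mem_univ _)
      (fun s hs t ht hst => ?_) (fun x _ => ?_) (fun _ _ => rfl)
    · rw [Finset.mem_range] at hs ht
      have h2 := congrArg ZMod.val hst
      rwa [ZMod.val_natCast, ZMod.val_natCast, Nat.mod_eq_of_lt hs, Nat.mod_eq_of_lt ht] at h2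
    · exact ⟨x.val, Finset.mem_range.2 (ZMod.val_lt _), ZMod.natCast_zmod_val x⟩
  rcases Nat.eq_zero_or_pos r with hr0 | hr0
  · have hw : w = [] := by
      apply List.length_eq_zero_iff.mp; omega
    subst hw
    simp [pot, coc]
  · rw [e]
    exact sum_pot_map (r - 1) w (by omega)

end Coc

end Pool.Agent.MP_fd6bc6_al.BU
end

section

/-! # Steps -/

set_option autoImplicit false

namespace Pool.Agent.MP_fd6bc6_al.BU

theorem It.refl {α : Type*} {R : α → α → Prop} (h : ∀ a, R a a) (k : ℕ) (a : α) : It R k a a := by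
  induction k with
  | zero => rfl
  | succ k ih => exact ⟨a, h a, ih⟩

theorem It.mono {α : Type*} {R : α → α → Prop} (h : ∀ a, R a a) {k k' : ℕ} (hk : k ≤ k') {a b : α}
    (hab : It R k a b) : It R k' a b := by
  induction k generalizing k' a with
  | zero =>
    have : a = b := hab
    rw [this]
    exact It.refl h k' b
  | succ k ih =>
    obtain ⟨c, h1, h2⟩ := hab
    obtain ⟨l, rfl⟩ : ∃ l, k' = l + 1 := ⟨k' - 1, by omega⟩
    exact ⟨c, h1, ih (by omega) h2⟩

theorem It.of_seq {α : Type*} {R : α → α → Prop} (r : ℕ) (h : ℕ → α)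
    (hR : ∀ k < r, R (h k) (h (k + 1))) : It R r (h 0) (h r) := by
  induction r generalizing h with
  | zero => rfl
  | succ r ih =>
    exact ⟨h 1, hR 0 (Nat.succ_pos r), ih (fun k => h (k + 1)) (fun k hk => hR (k + 1) (by omega))⟩

variable {n m q : ℕ}

theorem St2.refl (p : Fin n × Fin m) (g : (Fin n × Fin m) → ℤ) : St2 q g g :=
  ⟨p, 0, by simp, by simp⟩

theorem St1.refl (i : Fin n) (g : (Fin n × Fin m) → ℤ) : St1 q g g :=
  ⟨i, ∅, 0, by simp, by simp, by simp⟩

theorem It_of_agree (p0 : Fin n × Fin m) (I : Finset (Fin n × Fin m)) :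
    ∀ (k : ℕ), I.card ≤ k → ∀ (g g' : (Fin n × Fin m) → ℤ), (∀ p, p ∉ I → g' p = g p) →
      (∀ p, |g' p - g p| ≤ q) → It (St2 q) k g g' := by
  classical
  induction I using Finset.induction_on with
  | empty =>
    intro k _ g g' h1 _
    have : g' = g := funext fun p => h1 p (by simp)
    rw [this]
    exact It.refl (St2.refl p0) k g
  | insert p I hp ih =>
    intro k hk g g' h1 h2
    rw [Finset.card_insert_of_notMem hp] at hk
    obtain ⟨l, rfl⟩ : ∃ l, k = l + 1 := ⟨k - 1, by omega⟩
    refine ⟨Function.update g p (g p + (g' p - g p)), ⟨p, g' p - g p, h2 p, rfl⟩, ?_⟩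
    refine ih l (by omega) _ _ (fun p' hp' => ?_) (fun p' => ?_)
    · by_cases h3 : p' = p
      · subst h3
        rw [Function.update_self]
        ring
      · rw [Function.update_of_ne h3]
        exact h1 p' (by rw [Finset.mem_insert, not_or]; exact ⟨h3, hp'⟩)
    · by_cases h3 : p' = p
      · subst h3
        rw [Function.update_self]
        simp
      · rw [Function.update_of_ne h3]
        exact h2 p'

theorem val_add_one' {q : ℕ} [Fact q.Prime] (x : ZMod q) :
    ((x + 1).val : ℤ) = if x = -1 then (x.val : ℤ) + 1 - q else (x.val : ℤ) + 1 := by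
  have : Fact (1 < q) := ⟨(Fact.out : q.Prime).one_lt⟩
  have hq : 1 < q := Fact.out
  have h1 : (1 : ZMod q).val = 1 := ZMod.val_one q
  have hlt : x.val < q := ZMod.val_lt x
  by_cases hx : x = -1
  · rw [if_pos hx, hx]
    have h2 : (-1 + 1 : ZMod q) = 0 := by ring
    rw [h2, ZMod.val_zero]
    have h3 : (-1 : ZMod q).val + 1 = q := by
      obtain ⟨q', rfl⟩ : ∃ q', q = q' + 1 := ⟨q - 1, by omega⟩
      rw [ZMod.val_neg_one]
    have h4 : (((-1 : ZMod q).val : ℕ) : ℤ) + 1 = q := by exact_mod_cast h3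
    rw [h4]
    simp
  · rw [if_neg hx]
    have hne : x.val + 1 ≠ q := by
      intro h
      apply hx
      have h2 : ((x.val + 1 : ℕ) : ZMod q) = 0 := by rw [h]; exact ZMod.natCast_self q
      rw [Nat.cast_add, ZMod.natCast_zmod_val, Nat.cast_one] at h2
      exact eq_neg_of_add_eq_zero_left h2
    have h3 : x.val + (1 : ZMod q).val < q := by rw [h1]; omega
    rw [ZMod.val_add_of_lt h3, h1]
    push_cast
    rfl

theorem It_of_ivl {q : ℕ} [Fact q.Prime] {r : ℕ} (i0 : Fin n)
    (g : (Fin n × Fin m) → ZMod q × Fin r) (hg : Ivl g) (t : ZMod q) :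
    It (St1 q) r (fun p => ((((g p).1 + t).val : ℕ) : ℤ) + 1)
      (fun p => ((((g p).1 + (t + 1)).val : ℕ) : ℤ)) := by
  classical
  set h : ℕ → (Fin n × Fin m) → ℤ := fun k p =>
    if (g p).1 + t = -1 ∧ ((g p).2 : ℕ) < k then ((((g p).1 + t).val : ℕ) : ℤ) + 1 - q
    else ((((g p).1 + t).val : ℕ) : ℤ) + 1 with hh
  have h0 : h 0 = fun p => ((((g p).1 + t).val : ℕ) : ℤ) + 1 := by
    funext p
    simp [hh]
  have hr : h r = fun p => ((((g p).1 + (t + 1)).val : ℕ) : ℤ) := by
    funext p
    have h1 : (g p).1 + (t + 1) = ((g p).1 + t) + 1 := by ring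
    rw [h1, val_add_one']
    simp only [hh, (g p).2.2, and_true]
  rw [← h0, ← hr]
  refine It.of_seq r h fun k hk => ?_
  by_cases hex : ∃ p, g p = (-1 - t, ⟨k, hk⟩)
  · obtain ⟨p, hp⟩ := hex
    refine ⟨p.1, Finset.univ.filter (fun s => g (p.1, s) = (-1 - t, ⟨k, hk⟩)),
      (((-1 : ZMod q).val : ℕ) : ℤ) + 1, ?_, ?_, ?_⟩
    · intro s hs s' hs' s'' h1 h2
      rw [Finset.mem_filter] at hs hs' ⊢
      refine ⟨Finset.mem_univ _, ?_⟩
      have h3 := (hg (p.1, s) (p.1, s') (hs.2.trans hs'.2.symm)).2 s'' h1 h2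
      exact h3.trans hs.2
    · intro s hs
      rw [Finset.mem_filter] at hs
      have h3 : ¬ ((g (p.1, s)).1 + t = -1 ∧ ((g (p.1, s)).2 : ℕ) < k) := by
        rw [hs.2]
        simp
      simp only [hh, if_neg h3]
      rw [hs.2]
      simp
    · funext p'
      simp only [hh, Finset.mem_filter, Finset.mem_univ, true_and]
      by_cases h4 : g p' = (-1 - t, ⟨k, hk⟩)
      · have h5 : p'.1 = p.1 := (hg p' p (h4.trans hp.symm)).1
        have h6 : p'.1 = p.1 ∧ g (p.1, p'.2) = (-1 - t, ⟨k, hk⟩) := by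
          refine ⟨h5, ?_⟩
          rw [← h5]
          exact h4
        rw [if_pos h6]
        rw [h4]
        simp
      · have h6 : ¬ (p'.1 = p.1 ∧ g (p.1, p'.2) = (-1 - t, ⟨k, hk⟩)) := by
          rintro ⟨h5, h6⟩
          apply h4
          rw [← h5] at h6
          exact h6
        rw [if_neg h6]
        have h7 : ((g p').1 + t = -1 ∧ ((g p').2 : ℕ) < k + 1) ↔
            ((g p').1 + t = -1 ∧ ((g p').2 : ℕ) < k) := by
          constructor
          · rintro ⟨h8, h9⟩
            refine ⟨h8, lt_of_le_of_ne (Nat.lt_succ_iff.1 h9) fun h10 => h4 ?_⟩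
            refine Prod.ext ?_ (Fin.ext h10)
            exact eq_sub_of_add_eq h8
          · rintro ⟨h8, h9⟩
            exact ⟨h8, by omega⟩
        simp only [h7]
  · refine ⟨i0, ∅, 0, by simp, by simp, ?_⟩
    funext p'
    have h4 : g p' ≠ (-1 - t, ⟨k, hk⟩) := fun h => hex ⟨p', h⟩
    have h7 : ((g p').1 + t = -1 ∧ ((g p').2 : ℕ) < k + 1) ↔
        ((g p').1 + t = -1 ∧ ((g p').2 : ℕ) < k) := by
      constructor
      · rintro ⟨h8, h9⟩
        refine ⟨h8, lt_of_le_of_ne (Nat.lt_succ_iff.1 h9) fun h10 => h4 ?_⟩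
        refine Prod.ext ?_ (Fin.ext h10)
        exact eq_sub_of_add_eq h8
      · rintro ⟨h8, h9⟩
        exact ⟨h8, by omega⟩
    simp only [hh, h7]
    rw [if_neg (fun h8 : p'.1 = i0 ∧ p'.2 ∈ (∅ : Finset (Fin m)) =>
      absurd h8.2 (Finset.notMem_empty _))]

end Pool.Agent.MP_fd6bc6_al.BU
end
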