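import Mathlib
import Pool.Agent.Lib.MP_fd6bc6_al.Meas

section

set_option autoImplicit false

namespace Pool.Agent.MoufangHaar

section Dietz

variable {X ι : Type*} (s : ι → X → X)

/-- value of a word -/
def act (l : List ι) (x : X) : X := l.foldr (fun i y => s i y) x

@[simp] theorem act_nil (x : X) : act s [] x = x := rfl
@[simp] theorem act_cons (i : ι) (l : List ι) (x : X) : act s (i :: l) x = s i (act s l x) := rfl

theorem act_append (l l' : List ι) (x : X) : act s (l ++ l') x = act s l (act s l' x) := by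
  induction l with
  | nil => rfl
  | cons i t ih => simp [ih]

variable (hinv : ∀ i x, s i (s i x) = x)
  (hconj : ∀ i j, ∃ k, ∀ x, s i (s j (s i x)) = s k x)

include hinv hconj in
theorem push (i : ι) (l : List ι) :
    ∃ l' : List ι, l'.length = l.length ∧ ∀ x, s i (act s l x) = act s l' (s i x) := by
  induction l with
  | nil => exact ⟨[], rfl, fun x => rfl⟩
  | cons j t ih =>
    obtain ⟨t', ht', h⟩ := ih
    obtain ⟨k, hk⟩ := hconj i j
    refine ⟨k :: t', by simp [ht'], fun x => ?_⟩
    have h1 : ∀ y, s i (s j y) = s k (s i y) := fun y => by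
      rw [← hk (s i y), hinv]
    rw [act_cons, act_cons, h1, h]

include hinv hconj in
/-- letters may be pulled through a word to the right -/
theorem pull (l : List ι) (i : ι) :
    ∃ j, ∀ x, s i (act s l x) = act s l (s j x) := by
  induction l generalizing i with
  | nil => exact ⟨i, fun x => rfl⟩
  | cons k t ih =>
    obtain ⟨k', hk'⟩ := hconj k i
    obtain ⟨j, hj⟩ := ih k'
    refine ⟨j, fun x => ?_⟩
    rw [act_cons, act_cons, ← hj, ← hk', hinv]

include hinv hconj in
theorem cancel_one (j : ι) (l : List ι) (h : j ∈ l) :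
    ∃ l' : List ι, l'.length + 1 = l.length ∧ ∀ x, act s l x = act s l' (s j x) := by
  obtain ⟨b, c, rfl⟩ := List.append_of_mem h
  obtain ⟨c', hc', hc⟩ := push s hinv hconj j c
  refine ⟨b ++ c', by simp [hc']; omega, fun x => ?_⟩
  rw [act_append, act_cons, act_append, hc]

include hinv hconj in
theorem cancel_two (x₀ : X) (i j : ι) (l : List ι) (h : List.Sublist [i, j] l)
    (hij : s i x₀ = s j x₀) :
    ∃ l' : List ι, l'.length + 2 = l.length ∧ act s l x₀ = act s l' x₀ := by
  induction l with
  | nil => simp at h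
  | cons k t ih =>
    rcases h with _ | h | h
    · rename_i h
      obtain ⟨t', ht', h2⟩ := ih h
      exact ⟨k :: t', by simp; omega, by rw [act_cons, act_cons, h2]⟩
    · rename_i h
      have hj : j ∈ t := by simpa using h
      obtain ⟨t', ht', h2⟩ := cancel_one s hinv hconj j t hj
      obtain ⟨t'', ht'', h3⟩ := push s hinv hconj i t'
      refine ⟨t'', by simp; omega, ?_⟩
      rw [act_cons, h2, h3, ← hij, hinv]

include hinv hconj in
theorem reduce (x₀ : X) (n : ℕ) : ∀ l : List ι, l.length = n →
    ∃ l' : List ι, act s l x₀ = act s l' x₀ ∧ (l'.map (fun i => s i x₀)).Nodup := by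
  induction n using Nat.strong_induction_on with
  | _ n ih =>
    intro l hl
    by_cases hnd : (l.map (fun i => s i x₀)).Nodup
    · exact ⟨l, rfl, hnd⟩
    · rw [List.nodup_iff_sublist] at hnd
      push Not at hnd
      obtain ⟨a, ha⟩ := hnd
      rw [List.sublist_map_iff] at ha
      obtain ⟨p, hp, hpa⟩ := ha
      obtain ⟨i, j, rfl⟩ : ∃ i j, p = [i, j] := by
        have hlen : p.length = 2 := by
          have := congrArg List.length hpa
          simpa using this.symm
        obtain ⟨i, j, h⟩ := List.length_eq_two.mp hlen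
        exact ⟨i, j, h⟩
      simp only [List.map_cons, List.map_nil, List.cons.injEq, and_true] at hpa
      obtain ⟨l', hl', h2⟩ := cancel_two s hinv hconj x₀ i j l hp (hpa.1.symm.trans hpa.2)
      obtain ⟨l'', h3, h4⟩ := ih l'.length (by omega) l' rfl
      exact ⟨l'', h2.trans h3, h4⟩

include hinv hconj in
theorem words_finite (x₀ : X) (hD : (Set.range fun i => s i x₀).Finite) (n : ℕ) :
    {y | ∃ l : List ι, l.length ≤ n ∧ act s l x₀ = y}.Finite := by
  induction n with
  | zero =>
    refine (Set.finite_singleton x₀).subset ?_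
    rintro y ⟨l, hl, rfl⟩
    have : l = [] := List.eq_nil_of_length_eq_zero (by omega)
    subst this
    rfl
  | succ n ih =>
    have hstep : ∀ y ∈ {y | ∃ l : List ι, l.length ≤ n ∧ act s l x₀ = y},
        (Set.range fun i => s i y).Finite := by
      rintro y ⟨l, hl, rfl⟩
      refine (hD.image (act s l)).subset ?_
      rintro z ⟨i, rfl⟩
      obtain ⟨j, hj⟩ := pull s hinv hconj l i
      exact ⟨s j x₀, ⟨j, rfl⟩, (hj x₀).symm⟩
    refine (ih.union (ih.biUnion hstep)).subset ?_
    rintro y ⟨l, hl, rfl⟩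
    rcases l with _ | ⟨i, t⟩
    · left
      exact ⟨[], by simp, rfl⟩
    · right
      simp only [Set.mem_iUnion]
      exact ⟨act s t x₀, ⟨t, by simpa using hl, rfl⟩, ⟨i, rfl⟩⟩

include hinv hconj in
/-- A Dietzmann type lemma: involutions closed under conjugation whose values on a point
form a finite set have a finite orbit on that point. -/
theorem orbit_finite (x₀ : X) (hD : (Set.range fun i => s i x₀).Finite) :
    {y | ∃ l : List ι, act s l x₀ = y}.Finite := by
  refine (words_finite s hinv hconj x₀ hD hD.toFinset.card).subset ?_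
  rintro y ⟨l, rfl⟩
  obtain ⟨l', h1, h2⟩ := reduce s hinv hconj x₀ _ l rfl
  refine ⟨l', ?_, h1.symm⟩
  classical
  have h3 : (l'.map (fun i => s i x₀)).toFinset ⊆ hD.toFinset := by
    intro z hz
    simp only [List.mem_toFinset, List.mem_map] at hz
    obtain ⟨i, _, rfl⟩ := hz
    simp
  have h4 := Finset.card_le_card h3
  rw [List.toFinset_card_of_nodup h2] at h4
  simpa using h4

end Dietz

end Pool.Agent.MoufangHaar
end

section

set_option autoImplicit false

open MeasureTheory Topology

namespace Pool.Agent.MoufangHaar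

/-- on a compact totally disconnected space finitely many functions are almost constant on
the pieces of a clopen partition -/
theorem exists_partition {X : Type*} [TopologicalSpace X] [CompactSpace X] [T2Space X]
    [TotallyDisconnectedSpace X] (t : Finset C(X, ℝ)) (ε : ℝ) (hε : 0 < ε) :
    ∃ (c : Finset X) (h : X → (c → Prop)), IsLocallyConstant h ∧
      ∀ x y, h x = h y → ∀ f ∈ t, |f x - f y| ≤ ε := by
  classical
  have h1 : ∀ x : X, ∃ V : Set X, IsClopen V ∧ x ∈ V ∧ ∀ y ∈ V, ∀ f ∈ t, |f y - f x| < ε / 2 := by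
    intro x
    have ho : IsOpen (⋂ f ∈ t, {y : X | |f y - f x| < ε / 2}) := by
      refine isOpen_biInter_finset fun f _ => ?_
      exact isOpen_lt (f.continuous.sub continuous_const).abs continuous_const
    obtain ⟨V, hV, hxV, hVo⟩ := compact_exists_isClopen_in_isOpen ho (x := x) (by
      simp only [Set.mem_iInter]
      intro f _
      change |f x - f x| < ε / 2
      rw [sub_self, abs_zero]
      linarith)
    refine ⟨V, hV, hxV, fun y hy f hf => ?_⟩
    have := hVo hy
    simp only [Set.mem_iInter] at this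
    exact this f hf
  choose V hV hxV hVt using h1
  obtain ⟨c, hc⟩ := isCompact_univ.elim_finite_subcover V (fun x => (hV x).isOpen)
    (fun x _ => Set.mem_iUnion.mpr ⟨x, hxV x⟩)
  refine ⟨c, fun y i => y ∈ V i, ?_, ?_⟩
  · rw [IsLocallyConstant.iff_eventually_eq]
    intro x
    have h2 : ∀ i : c, ∀ᶠ y in 𝓝 x, (y ∈ V i) = (x ∈ V i) := by
      intro i
      by_cases hx : x ∈ V i
      · filter_upwards [(hV i).isOpen.mem_nhds hx] with y hy
        simp [hx, hy]
      · filter_upwards [(hV i).compl.isOpen.mem_nhds hx] with y hy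
        have hy' : y ∉ V i := hy
        simp [hx, hy']
    have h3 := Filter.eventually_all.mpr h2
    filter_upwards [h3] with y hy
    funext i
    exact hy i
  · intro x y hxy f hf
    have hx := hc (Set.mem_univ x)
    simp only [Set.mem_iUnion] at hx
    obtain ⟨i, hi, hxi⟩ := hx
    have h4 : (x ∈ V i) = (y ∈ V i) := congrFun hxy ⟨i, hi⟩
    have hyi : y ∈ V i := by rw [← h4]; exact hxi
    have h5 := hVt i x hxi f hf
    have h6 := hVt i y hyi f hf
    rw [abs_lt] at h5 h6
    rw [abs_le]
    constructor <;> linarith [h5.1, h5.2, h6.1, h6.2]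

section

variable {L : Type*} [MLoop L] [TopologicalSpace L] [CompactSpace L] [TopMLoop L] {A : Type*}

theorem locConst_translates (h : L → A) (hh : IsLocallyConstant h) :
    IsLocallyConstant (fun a : L => fun x : L => h (a * x)) := by
  rw [IsLocallyConstant.iff_eventually_eq]
  intro a
  have key := isCompact_univ.eventually_forall_of_forall_eventually (x₀ := a)
    (K := (Set.univ : Set L)) (P := fun a' x => h (a' * x) = h (a * x)) (by
      intro x _
      have h1 : ∀ᶠ z in 𝓝 (a, x), h (z.1 * z.2) = h (a * x) := by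
        have hc : IsLocallyConstant (fun z : L × L => h (z.1 * z.2)) :=
          hh.comp_continuous TopMLoop.cont_mul
        exact (IsLocallyConstant.iff_eventually_eq _).mp hc (a, x)
      have h2 : ∀ᶠ z in 𝓝 (a, x), h (a * z.2) = h (a * x) := by
        have hc : IsLocallyConstant (fun z : L × L => h (a * z.2)) :=
          hh.comp_continuous ((TopMLoop.continuous_mul_left a).comp continuous_snd)
        exact (IsLocallyConstant.iff_eventually_eq _).mp hc (a, x)
      filter_upwards [h1, h2] with z hz1 hz2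
      rw [hz1, hz2])
  filter_upwards [key] with a' ha'
  funext x
  exact ha' x (Set.mem_univ x)

/-- the involutions -/
def inv2 (a : L) (p : (L → A) × (L → A)) : (L → A) × (L → A) :=
  (fun x => p.2 (a * x), fun x => p.1 (a⁻¹ * x))

omit [TopologicalSpace L] [CompactSpace L] [TopMLoop L] in
theorem inv2_inv2 (a : L) (p : (L → A) × (L → A)) : inv2 a (inv2 a p) = p := by
  unfold inv2
  simp only [MLoop.inv_mul_left, MLoop.mul_inv_left]

omit [TopologicalSpace L] [CompactSpace L] [TopMLoop L] in
theorem inv2_conj (a b : L) : ∃ c : L, ∀ p : (L → A) × (L → A),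
    inv2 a (inv2 b (inv2 a p)) = inv2 c p := by
  refine ⟨(a * b⁻¹) * a, fun p => ?_⟩
  unfold inv2
  have h1 : ∀ x, a * (b⁻¹ * (a * x)) = ((a * b⁻¹) * a) * x := fun x => MLoop.moufang b⁻¹ x a
  have h2 : ∀ x, a⁻¹ * (b * (a⁻¹ * x)) = ((a * b⁻¹) * a)⁻¹ * x := fun x => by
    rw [MLoop.moufang b x a⁻¹, MLoop.mul_inv_rev, MLoop.mul_inv_rev, MLoop.inv_inv, MLoop.flex]
  simp only [h1, h2]

/-- every locally constant function lies in a finite family of locally constant functions
closed under left translations -/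
theorem exists_family (h : L → A) (hh : IsLocallyConstant h) :
    ∃ S : Set (L → A), S.Finite ∧ h ∈ S ∧ (∀ u ∈ S, IsLocallyConstant u) ∧
      ∀ u ∈ S, ∀ a : L, (fun x => u (a * x)) ∈ S := by
  have hfin : (Set.range fun a : L => fun x : L => h (a * x)).Finite :=
    (locConst_translates h hh).range_finite
  have hD : (Set.range fun a : L => inv2 a (h, h)).Finite := by
    refine (hfin.prod hfin).subset ?_
    rintro p ⟨a, rfl⟩
    exact ⟨⟨a, rfl⟩, ⟨a⁻¹, rfl⟩⟩
  have hO := orbit_finite (inv2 (L := L) (A := A)) inv2_inv2 inv2_conj (h, h) hD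
  set O : Set ((L → A) × (L → A)) := {y | ∃ l : List L, act inv2 l (h, h) = y} with hOdef
  have hOcl : ∀ p ∈ O, ∀ a : L, inv2 a p ∈ O := by
    rintro p ⟨l, rfl⟩ a
    exact ⟨a :: l, rfl⟩
  have hOlc : ∀ l : List L, IsLocallyConstant (act inv2 l (h, h)).1 ∧
      IsLocallyConstant (act inv2 l (h, h)).2 := by
    intro l
    induction l with
    | nil => exact ⟨hh, hh⟩
    | cons a t ih =>
      exact ⟨ih.2.comp_continuous (TopMLoop.continuous_mul_left a),
        ih.1.comp_continuous (TopMLoop.continuous_mul_left a⁻¹)⟩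
  refine ⟨Prod.fst '' O ∪ Prod.snd '' O, (hO.image _).union (hO.image _), ?_, ?_, ?_⟩
  · left
    exact ⟨(h, h), ⟨[], rfl⟩, rfl⟩
  · rintro u (⟨p, ⟨l, rfl⟩, rfl⟩ | ⟨p, ⟨l, rfl⟩, rfl⟩)
    · exact (hOlc l).1
    · exact (hOlc l).2
  · rintro u (⟨p, hp, rfl⟩ | ⟨p, hp, rfl⟩) a
    · right
      refine ⟨inv2 a⁻¹ p, hOcl p hp a⁻¹, ?_⟩
      unfold inv2
      simp only [MLoop.inv_inv]
    · left
      exact ⟨inv2 a p, hOcl p hp a, rfl⟩

end

theorem approx_left {L : Type*} [MLoop L] [TopologicalSpace L] [CompactSpace L] [T2Space L]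
    [TotallyDisconnectedSpace L] [TopMLoop L] [MeasurableSpace L] [BorelSpace L]
    (t : Finset C(L, ℝ)) (ε : ℝ) (hε : 0 < ε) :
    ∃ μ : ProbabilityMeasure L, ∀ f ∈ t, ∀ a : L,
      |∫ x, f (a * x) ∂(μ : Measure L) - ∫ x, f x ∂(μ : Measure L)| ≤ ε := by
  classical
  obtain ⟨c, h, hlc, hvar⟩ := exists_partition t ε hε
  obtain ⟨S, hSfin, hhS, hSlc, hScl⟩ := exists_family h hlc
  have : Finite S := hSfin
  let F : L → (S → (c → Prop)) := fun x u => u.1 x
  have hFlc : IsLocallyConstant F := by
    rw [IsLocallyConstant.iff_eventually_eq]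
    intro x
    have h2 : ∀ u : S, ∀ᶠ y in 𝓝 x, u.1 y = u.1 x := fun u =>
      (IsLocallyConstant.iff_eventually_eq _).mp (hSlc u.1 u.2) x
    filter_upwards [Filter.eventually_all.mpr h2] with y hy
    funext u
    exact hy u
  have hfin : (Set.range F).Finite := hFlc.range_finite
  have hΩ : Fintype (Set.range F) := hfin.fintype
  have hne : Nonempty (Set.range F) := ⟨⟨F 1, 1, rfl⟩⟩
  let rep : Set.range F → L := fun ω => ω.2.choose
  have hrep : ∀ ω : Set.range F, F (rep ω) = ω.1 := fun ω => ω.2.choose_spec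
  have hFtr : ∀ x y a : L, F x = F y → F (a * x) = F (a * y) := by
    intro x y a hxy
    funext u
    exact congrFun hxy ⟨fun x => u.1 (a * x), hScl u.1 u.2 a⟩
  have hFvar : ∀ x y, F x = F y → ∀ f ∈ t, |f x - f y| ≤ ε := fun x y hxy f hf =>
    hvar x y (congrFun hxy ⟨h, hhS⟩) f hf
  have hcard : (0 : ℝ) < (Fintype.card (Set.range F) : ℝ) := by
    exact_mod_cast Fintype.card_pos
  obtain ⟨μ, hμ, hint⟩ := exists_of_functional (X := L)
    (fun f => (∑ ω : Set.range F, f (rep ω)) / (Fintype.card (Set.range F) : ℝ))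
    (fun f g => by
      simp only [ContinuousMap.add_apply, Finset.sum_add_distrib, add_div])
    (fun c f => by
      simp only [ContinuousMap.smul_apply, smul_eq_mul, ← Finset.mul_sum, mul_div_assoc])
    (fun f g hfg => by
      gcongr with ω _
      exact hfg _)
    (by
      simp only [ContinuousMap.one_apply, Finset.sum_const, Finset.card_univ, nsmul_eq_mul,
        mul_one]
      exact div_self hcard.ne')
  refine ⟨⟨μ, hμ⟩, fun f hf a => ?_⟩
  change |∫ x, f (a * x) ∂μ - ∫ x, f x ∂μ| ≤ ε
  have e1 := hint (cl f a)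
  simp only [cl_apply] at e1
  rw [e1, hint f]
  -- the permutation
  let σ : Set.range F → Set.range F := fun ω => ⟨F (a * rep ω), _, rfl⟩
  have hσinj : Function.Injective σ := by
    intro ω ω' hw
    have h1 : F (a * rep ω) = F (a * rep ω') := congrArg Subtype.val hw
    have h2 := hFtr _ _ a⁻¹ h1
    rw [MLoop.inv_mul_left, MLoop.inv_mul_left, hrep, hrep] at h2
    exact Subtype.ext h2
  have hσ : Function.Bijective σ := Finite.injective_iff_bijective.mp hσinj
  have hsum : ∑ ω : Set.range F, f (rep ω) = ∑ ω : Set.range F, f (rep (σ ω)) :=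
    (hσ.sum_comp (fun ω => f (rep ω))).symm
  rw [hsum, ← sub_div, ← Finset.sum_sub_distrib, abs_div, abs_of_pos hcard, div_le_iff₀ hcard]
  refine (Finset.abs_sum_le_sum_abs _ _).trans ?_
  have hle : ∀ ω ∈ (Finset.univ : Finset (Set.range F)),
      |f (a * rep ω) - f (rep (σ ω))| ≤ ε := fun ω _ => by
    refine hFvar _ _ ?_ f hf
    rw [hrep]
  refine (Finset.sum_le_card_nsmul _ _ ε hle).trans ?_
  rw [nsmul_eq_mul, Finset.card_univ, mul_comm]

end Pool.Agent.MoufangHaar
end
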