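import Mathlib
import Pool.Agent.Lib.MP_fd6bc6_al.DD

section

set_option autoImplicit false
set_option linter.unusedSectionVars false

open Topology Uniformity

namespace Pool.Agent.MoufangHaar.DD

section

variable {X : Type*} [UniformSpace X] {R : Type*} [AddCommGroup R]

/-- contraction gives invariant representatives -/
theorem repr_of_contraction [CompactSpace X] {σ : X → X}
    (t : X → X) (ht : ∀ x, t (σ x) = t x) (ht' : ∀ x, ∃ k : ℕ, t x = σ^[k] x)
    (hcon : ∀ V ∈ 𝓤 X, ∃ h : C(X, X),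
      (∀ V' ∈ 𝓤 X, Relation.ReflTransGen (fun f g : C(X, X) => ∀ x, (f x, g x) ∈ V')
        (ContinuousMap.id X) h) ∧ ∀ (x : X) (k : ℕ), (h (σ^[k] x), h x) ∈ V) : Repr σ R := by
  intro φ h0 hφ
  have hφ' := hφ
  obtain ⟨U, hU, hφU⟩ := hφ'
  obtain ⟨V, hV, hVs, hVU⟩ := comp_symm_mem_uniformity_sets hU
  obtain ⟨V', hV', hVs', hVV⟩ := comp_symm_mem_uniformity_sets hV
  obtain ⟨h, hch, hh⟩ := hcon V' hV'
  obtain ⟨η, hη0, hη⟩ := chain h hch hφ
  have e1 : V' ⊆ V := fun p hp => hVV ⟨p.2, hp, refl_mem_uniformity hV'⟩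
  have e2 : V ⊆ U := fun p hp => hVU ⟨p.2, hp, refl_mem_uniformity hV⟩
  have huc := CompactSpace.uniformContinuous_of_continuous h.continuous
  have hclose := close (f := fun x => h (t x)) (g := fun x => h x) (huc hV') hφU (by
    intro x y hxy
    have a1 : (h x, h y) ∈ V' := hxy
    have a2 : ∀ x, (h (t x), h x) ∈ V' := by
      intro x
      obtain ⟨k, hk⟩ := ht' x
      rw [hk]
      exact hh x k
    have a3 : (h (t x), h y) ∈ V := hVV ⟨h x, a2 x, a1⟩
    have a4 : (h x, h (t y)) ∈ V := hVV ⟨h y, a1, hVs'.symm _ _ (a2 y)⟩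
    refine ⟨?_, e2 a3, e2 a4, e2 (e1 a1)⟩
    exact hVU ⟨h y, a3, hVs.symm _ _ (e1 (a2 y))⟩)
  refine ⟨fun l => φ (l.map fun x => h (t x)), fun l => pr (fun x => h (t x)) (fun x => h x) φ l
    - η l, by simp [hη0], Eqv.of_eq fun l => ?_, ?_⟩
  · change φ ((l.map σ).map fun x => h (t x)) = φ (l.map fun x => h (t x))
    rw [List.map_map]
    congr 1
    refine List.map_congr_left fun a _ => ?_
    change h (t (σ a)) = h (t a)
    rw [ht]
  · refine hη.mono2 hclose fun l h1 h2 => ?_
    change φ (l.map h) = _ at h2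
    rw [dd_sub]
    change φ (l.map h) = φ l + dd η l at h1
    rw [h1] at h2
    change φ l = φ (l.map fun x => h (t x)) +
      (dd (pr (fun x => h (t x)) (fun x => h x) φ) l - dd η l)
    rw [← add_sub_assoc, ← h2]
    abel

end

section

variable {X : Type*} [UniformSpace X]

/-- a cochain vanishes on the small lists in a set -/
def Van {R : Type*} [AddCommGroup R] (U : Set X) (φ : List X → R) : Prop :=
  ∃ V ∈ 𝓤 X, ∀ l, SmallL V l → (∀ a ∈ l, a ∈ U) → φ l = 0

variable {q : ℕ} [Fact q.Prime]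

theorem iterate_free {σ : X → X} (hq : ∀ x, σ^[q] x = x) (hfree : ∀ x, σ x ≠ x) {y : X}
    {a b : ℕ} (h : σ^[a] y = σ^[b] y) : (a : ZMod q) = (b : ZMod q) := by
  have hp : Function.minimalPeriod σ y = q :=
    Function.minimalPeriod_eq_prime (hq y) (hfree y)
  have ha := Function.iterate_mod_minimalPeriod_eq (f := σ) (x := y) (n := a)
  have hb := Function.iterate_mod_minimalPeriod_eq (f := σ) (x := y) (n := b)
  rw [hp] at ha hb
  have hq0 : 0 < q := (Fact.out : q.Prime).pos
  have h2 : a % q = b % q := by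
    refine Function.iterate_injOn_Iio_minimalPeriod (f := σ) (x := y) ?_ ?_ ?_
    · rw [hp]; exact Nat.mod_lt _ hq0
    · rw [hp]; exact Nat.mod_lt _ hq0
    · change σ^[a % q] y = σ^[b % q] y
      rw [ha, hb, h]
  exact (ZMod.natCast_eq_natCast_iff' a b q).mpr h2

theorem exists_section {σ : X → X} (hq : ∀ x, σ^[q] x = x) :
    ∃ t : X → X, (∀ x, t (σ x) = t x) ∧ (∀ x, ∃ k : ℕ, t x = σ^[k] x) := by
  have hq0 : 0 < q := (Fact.out : q.Prime).pos
  let S : Setoid X :=
    { r := fun x y => ∃ k : ℕ, y = σ^[k] x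
      iseqv := by
        have hm : ∀ (n : ℕ) (x : X), σ^[q * n] x = x := fun n x => by
          rw [Function.iterate_mul]
          exact Function.iterate_fixed (hq x) n
        refine ⟨fun x => ⟨0, rfl⟩, ?_, ?_⟩
        · rintro x y ⟨k, rfl⟩
          refine ⟨(q - 1) * k, ?_⟩
          rw [← Function.iterate_add_apply]
          have : (q - 1) * k + k = q * k := by
            obtain ⟨p, rfl⟩ := Nat.exists_eq_succ_of_ne_zero hq0.ne'
            simp only [Nat.succ_eq_add_one, Nat.add_sub_cancel]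
            ring
          rw [this, hm]
        · rintro x y z ⟨k, rfl⟩ ⟨l, rfl⟩
          exact ⟨l + k, (Function.iterate_add_apply σ l k x).symm⟩ }
  refine ⟨fun x => (Quotient.mk S x).out, fun x => ?_, fun x => ?_⟩
  · have : Quotient.mk S (σ x) = Quotient.mk S x :=
      Quotient.sound (Setoid.symm (⟨1, rfl⟩ : S.r x (σ x)))
    change (Quotient.mk S (σ x)).out = _
    rw [this]
  · have h1 : S.r x (Quotient.mk S x).out := Setoid.symm (Quotient.mk_out x)
    exact h1

theorem exists_equivariant {σ : X → X} (hq : ∀ x, σ^[q] x = x) (hfree : ∀ x, σ x ≠ x) :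
    ∃ r : X → ZMod q, ∀ x, r (σ x) = r x + 1 := by
  obtain ⟨t, ht, ht'⟩ := exists_section (q := q) hq
  choose k hk using ht'
  refine ⟨fun x => - (k x : ZMod q), fun x => ?_⟩
  have h1 : σ^[k (σ x) + 1] x = σ^[k x] x := by
    rw [Function.iterate_succ_apply, ← hk, ← hk, ht]
  have h2 := iterate_free hq hfree h1
  push_cast at h2
  change - (k (σ x) : ZMod q) = - (k x : ZMod q) + 1
  rw [← h2]
  ring

theorem exists_cover [CompactSpace X] [T2Space X] [Nonempty X] {σ : X → X} (hσ : Continuous σ)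
    (hq : ∀ x, σ^[q] x = x) (hfree : ∀ x, σ x ≠ x) :
    ∃ (m : ℕ) (U : ℕ → Set X) (r : ℕ → X → ZMod q), (∀ j, IsOpen (U j)) ∧
      (∀ j x, x ∈ U j ↔ σ x ∈ U j) ∧ (∀ x, ∃ j < m, x ∈ U j) ∧
      (∀ j x, r j (σ x) = r j x + 1) ∧
      (∀ j, ∃ V ∈ 𝓤 X, ∀ x ∈ U j, ∀ y ∈ U j, (x, y) ∈ V → r j x = r j y) := by
  classical
  have hq0 : 0 < q := (Fact.out : q.Prime).pos
  obtain ⟨r0, hr0⟩ := exists_equivariant (q := q) hq hfree
  have key : ∀ x : X, ∃ (U : Set X) (r : X → ZMod q), IsOpen U ∧ (∀ y, y ∈ U ↔ σ y ∈ U) ∧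
      x ∈ U ∧ (∀ y, r (σ y) = r y + 1) ∧
      (∃ V ∈ 𝓤 X, ∀ y ∈ U, ∀ y' ∈ U, (y, y') ∈ V → r y = r y') := by
    intro x
    -- a separating entourage
    obtain ⟨W, hW, hWsep⟩ : ∃ W ∈ 𝓤 X, ∀ i < q, ∀ j < q, (σ^[i] x, σ^[j] x) ∈ W → i = j := by
      have h1 : ∀ p : ℕ × ℕ, ∃ W ∈ 𝓤 X, p.1 < q → p.2 < q → (σ^[p.1] x, σ^[p.2] x) ∈ W →
          p.1 = p.2 := by
        rintro ⟨i, j⟩
        by_cases hij : σ^[i] x = σ^[j] x
        · refine ⟨Set.univ, Filter.univ_mem, fun hi hj _ => ?_⟩
          have h2 := iterate_free hq hfree hij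
          rw [ZMod.natCast_eq_natCast_iff'] at h2
          rwa [Nat.mod_eq_of_lt hi, Nat.mod_eq_of_lt hj] at h2
        · obtain ⟨W, hW, hW'⟩ := t0Space_iff_uniformity'.mp (inferInstance : T0Space X) hij
          exact ⟨W, hW, fun _ _ h => absurd h hW'⟩
      choose W hW hW' using h1
      refine ⟨⋂ p ∈ Finset.range q ×ˢ Finset.range q, W p,
        (Filter.biInter_finset_mem _).mpr fun p _ => hW p, fun i hi j hj hm => ?_⟩
      simp only [Set.mem_iInter] at hm
      exact hW' (i, j) hi hj (hm (i, j) (Finset.mem_product.mpr ⟨Finset.mem_range.mpr hi,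
        Finset.mem_range.mpr hj⟩))
    obtain ⟨V1, hV1, hV1s, hV1W⟩ := comp_symm_mem_uniformity_sets hW
    obtain ⟨V, hV, hVs, hVV⟩ := comp_symm_mem_uniformity_sets hV1
    let O : Set X := ⋂ i ∈ Finset.range q, σ^[i] ⁻¹' (interior {y | (σ^[i] x, y) ∈ V})
    have hO : IsOpen O := by
      refine isOpen_biInter_finset fun i _ => ?_
      exact isOpen_interior.preimage (hσ.iterate i)
    have hOV : ∀ o ∈ O, ∀ i < q, (σ^[i] x, σ^[i] o) ∈ V := by
      intro o ho i hi
      simp only [O, Set.mem_iInter] at ho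
      have h1 : σ^[i] o ∈ interior {y | (σ^[i] x, y) ∈ V} := ho i (Finset.mem_range.mpr hi)
      exact (interior_subset h1 : σ^[i] o ∈ {y | (σ^[i] x, y) ∈ V})
    have hxO : x ∈ O := by
      simp only [O, Set.mem_iInter]
      intro i _
      change σ^[i] x ∈ interior {y | (σ^[i] x, y) ∈ V}
      rw [mem_interior_iff_mem_nhds]
      exact UniformSpace.ball_mem_nhds _ hV
    let P : ℕ → X → Prop := fun i y => σ^[q - i] y ∈ O
    have hPV : ∀ i < q, ∀ y, P i y → (σ^[i] x, y) ∈ V := by
      intro i hi y hy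
      have h1 := hOV _ hy i hi
      rw [← Function.iterate_add_apply, Nat.add_sub_cancel' hi.le, hq] at h1
      exact h1
    have hPP : ∀ i < q, ∀ j < q, ∀ y y', P i y → P j y' → (y, y') ∈ V → i = j := by
      intro i hi j hj y y' hy hy' hyy
      refine hWsep i hi j hj (hV1W ⟨y, ?_, ?_⟩)
      · exact hVV ⟨y, hPV i hi y hy, refl_mem_uniformity hV⟩
      · exact hVV ⟨y', hyy, hVs.symm _ _ (hPV j hj y' hy')⟩
    have hstep : ∀ i < q, ∀ y, P i y → ∃ j < q, P j (σ y) ∧ (j : ZMod q) = i + 1 := by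
      intro i hi y hy
      by_cases h : i + 1 < q
      · refine ⟨i + 1, h, ?_, by push_cast; rfl⟩
        change σ^[q - (i + 1)] (σ y) ∈ O
        rw [← Function.iterate_succ_apply]
        have : (q - (i + 1)).succ = q - i := by omega
        rw [this]
        exact hy
      · have hi' : i + 1 = q := by omega
        refine ⟨0, hq0, ?_, ?_⟩
        · change σ^[q - 0] (σ y) ∈ O
          rw [Nat.sub_zero, hq]
          have : q - i = 1 := by omega
          change σ^[q - i] y ∈ O at hy
          rw [this] at hy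
          exact hy
        · have : ((i + 1 : ℕ) : ZMod q) = 0 := by rw [hi']; simp
          push_cast at this
          simp [this]
    let U : Set X := {y | ∃ i < q, P i y}
    have hUσ : ∀ y, y ∈ U → σ y ∈ U := by
      rintro y ⟨i, hi, hy⟩
      obtain ⟨j, hj, h, _⟩ := hstep i hi y hy
      exact ⟨j, hj, h⟩
    let r : X → ZMod q := fun y => if h : ∃ i < q, P i y then (h.choose : ZMod q) else r0 y
    have hrP : ∀ i < q, ∀ y, P i y → r y = i := by
      intro i hi y hy
      have h : ∃ i < q, P i y := ⟨i, hi, hy⟩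
      simp only [r, dif_pos h]
      rw [hPP _ h.choose_spec.1 i hi y y h.choose_spec.2 hy (refl_mem_uniformity hV)]
    have hUσ' : ∀ y, y ∈ U ↔ σ y ∈ U := by
      intro y
      refine ⟨hUσ y, fun h => ?_⟩
      have h1 : ∀ n, σ^[n] (σ y) ∈ U := by
        intro n
        induction n with
        | zero => exact h
        | succ n ih =>
          rw [Function.iterate_succ_apply']
          exact hUσ _ ih
      have h2 := h1 (q - 1)
      rw [← Function.iterate_succ_apply] at h2
      have : (q - 1).succ = q := by omega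
      rwa [this, hq] at h2
    refine ⟨U, r, ?_, hUσ', ⟨0, hq0, ?_⟩, ?_, V, hV, ?_⟩
    · have : U = ⋃ i ∈ Finset.range q, (σ^[q - i]) ⁻¹' O := by
        ext y
        simp only [U, P, Set.mem_setOf_eq, Set.mem_iUnion, Finset.mem_range, Set.mem_preimage,
          exists_prop]
      rw [this]
      exact isOpen_biUnion fun i _ => hO.preimage (hσ.iterate _)
    · change σ^[q - 0] x ∈ O
      rw [Nat.sub_zero, hq]
      exact hxO
    · intro y
      by_cases h : y ∈ U
      · obtain ⟨i, hi, hy⟩ := h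
        obtain ⟨j, hj, h, hji⟩ := hstep i hi y hy
        rw [hrP i hi y hy, hrP j hj _ h, hji]
      · have h' : ¬ σ y ∈ U := fun h' => h ((hUσ' y).mpr h')
        have e1 : r y = r0 y := dif_neg h
        have e2 : r (σ y) = r0 (σ y) := dif_neg h'
        rw [e1, e2, hr0]
    · rintro y ⟨i, hi, hy⟩ y' ⟨j, hj, hy'⟩ hyy
      rw [hrP i hi y hy, hrP j hj y' hy', hPP i hi j hj y y' hy hy' hyy]
  choose U r hU1 hU2 hU3 hU4 hU5 using key
  obtain ⟨c, hc⟩ := isCompact_univ.elim_finite_subcover U hU1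
    (fun x _ => Set.mem_iUnion.mpr ⟨x, hU3 x⟩)
  obtain ⟨x0⟩ := ‹Nonempty X›
  refine ⟨c.toList.length, fun j => U (c.toList.getD j x0), fun j => r (c.toList.getD j x0),
    fun j => hU1 _, fun j x => hU2 _ x, fun x => ?_, fun j x => hU4 _ x, fun j => hU5 _⟩
  have hx := hc (Set.mem_univ x)
  simp only [Set.mem_iUnion] at hx
  obtain ⟨y, hy, hxy⟩ := hx
  obtain ⟨j, hj, hjy⟩ := List.getElem_of_mem (Finset.mem_toList.mpr hy)
  refine ⟨j, hj, ?_⟩
  change x ∈ U (c.toList.getD j x0)
  rw [List.getD_eq_getElem _ _ hj, hjy]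
  exact hxy

theorem Van.comp {R : Type*} [AddCommGroup R] {σ : X → X} (hσ : UniformContinuous σ) {U : Set X}
    (hU : ∀ x, x ∈ U ↔ σ x ∈ U) {φ : List X → R} (h : Van U φ) (k : ℕ) :
    Van U (fun l => φ (l.map (σ^[k]))) := by
  obtain ⟨V, hV, h⟩ := h
  refine ⟨_, UniformContinuous.iterate σ k hσ hV, fun l hl hlU => h _ ?_ ?_⟩
  · intro a ha b hb
    obtain ⟨x, hx, rfl⟩ := List.mem_map.mp ha
    obtain ⟨y, hy, rfl⟩ := List.mem_map.mp hb
    exact hl x hx y hy
  · intro a ha
    obtain ⟨x, hx, rfl⟩ := List.mem_map.mp ha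
    have : ∀ k, σ^[k] x ∈ U := by
      intro k
      induction k with
      | zero => exact hlU x hx
      | succ k ih =>
        rw [Function.iterate_succ_apply']
        exact (hU _).mp ih
    exact this k

theorem Van.dd {R : Type*} [AddCommGroup R] {U : Set X} {φ : List X → R} (h : Van U φ) :
    Van U (dd φ) := by
  obtain ⟨V, hV, h⟩ := h
  refine ⟨V, hV, fun l hl hlU => ?_⟩
  rw [← dd_zero (R := R) l]
  exact dd_congr_sub fun s hs => h s (hl.sub hs) fun a ha => hlU a (hs.subset ha)

theorem step {σ : X → X} (hσ : UniformContinuous σ) (hq : ∀ x, σ^[q] x = x)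
    (r : X → ZMod q) (hr : ∀ x, r (σ x) = r x + 1) {z : List X → ZMod q} (hz0 : z [] = 0)
    (hzσ : Eqv (fun l => z (l.map σ)) z) (hz : Eqv (dd z) (fun _ => 0)) :
    ∃ y w : List X → ZMod q, y [] = 0 ∧ w [] = 0 ∧ Eqv (nn σ q y) z ∧
      Eqv (dd y) (fun l => w l - w (l.map σ)) ∧
      (∀ U : Set X, (∀ x, x ∈ U ↔ σ x ∈ U) → Van U z → Van U (dd w)) ∧
      (∀ U : Set X, (∀ x, x ∈ U ↔ σ x ∈ U) →
        (∃ V ∈ 𝓤 X, ∀ x ∈ U, ∀ y ∈ U, (x, y) ∈ V → r x = r y) → Van U (dd w)) := by
  classical
  have hq0 : 0 < q := (Fact.out : q.Prime).pos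
  let y : List X → ZMod q := fun l => match l with
    | [] => 0
    | a :: t => if r a = 0 then z (a :: t) else 0
  let w : List X → ZMod q := fun l => match l with
    | [] => 0
    | a :: t => ∑ i ∈ Finset.range (- r a).val, dd y ((a :: t).map (σ^[i]))
  have hrk : ∀ (k : ℕ) (x : X), r (σ^[k] x) = r x + k := by
    intro k x
    induction k with
    | zero => simp
    | succ k ih =>
      rw [Function.iterate_succ_apply', hr, ih]
      push_cast
      ring
  have hNy : Eqv (nn σ q y) z := by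
    have e3 : ∀ k, Eqv (fun l => z (l.map (σ^[k]))) z := by
      intro k
      induction k with
      | zero => exact Eqv.of_eq fun l => congrArg z (List.map_id l)
      | succ k ih =>
        refine (Eqv.of_eq fun l => ?_).trans ((hzσ.comp (UniformContinuous.iterate σ k hσ)).trans ih)
        rw [List.map_map]
        congr 1
        refine List.map_congr_left fun a _ => ?_
        exact Function.iterate_succ_apply' σ k a
    choose V hV hVk using e3
    refine ⟨⋂ k ∈ Finset.range q, V k, (Filter.biInter_finset_mem _).mpr fun k _ => hV k,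
      fun l hl => ?_⟩
    have hVl : ∀ k < q, z (l.map (σ^[k])) = z l := by
      intro k hk
      refine hVk k l fun a ha b hb => ?_
      have := hl a ha b hb
      simp only [Set.mem_iInter] at this
      exact this k (Finset.mem_range.mpr hk)
    match l with
    | [] =>
      rw [hz0]
      unfold nn
      exact Finset.sum_eq_zero fun k _ => rfl
    | a :: t =>
      unfold nn
      have h1 : ∀ k ∈ Finset.range q, y ((a :: t).map (σ^[k])) =
          if k = (- r a).val then z (a :: t) else 0 := by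
        intro k hk
        change (if r (σ^[k] a) = 0 then z ((a :: t).map (σ^[k])) else 0) = _
        rw [hrk, hVl k (Finset.mem_range.mp hk)]
        have : r a + k = 0 ↔ k = (- r a).val := by
          constructor
          · intro h
            have h2 : - r a = (k : ZMod q) := by
              rw [neg_eq_iff_add_eq_zero]; exact h
            rw [h2, ZMod.val_natCast, Nat.mod_eq_of_lt (Finset.mem_range.mp hk)]
          · rintro rfl
            rw [ZMod.natCast_zmod_val]
            ring
        simp only [this]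
      rw [Finset.sum_congr rfl h1, Finset.sum_ite_eq' (Finset.range q)]
      rw [if_pos (Finset.mem_range.mpr (ZMod.val_lt _))]
  have hNdy : Eqv (nn σ q (dd y)) (fun _ => 0) := by
    refine (Eqv.of_eq fun l => nn_dd σ q y l).trans (hNy.dd.trans hz)
  have hw : Eqv (dd y) (fun l => w l - w (l.map σ)) := by
    refine hNdy.mono fun l hl => ?_
    match l with
    | [] => simp [w]
    | a :: t =>
      change dd y (a :: t) = ∑ i ∈ Finset.range (- r a).val, dd y ((a :: t).map (σ^[i])) -
        ∑ i ∈ Finset.range (- r (σ a)).val, dd y (((a :: t).map σ).map (σ^[i]))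
      have h0 : dd y ((a :: t).map (σ^[0])) = dd y (a :: t) := congrArg (dd y) (List.map_id _)
      have hsh : ∀ i, dd y (((a :: t).map σ).map (σ^[i])) = dd y ((a :: t).map (σ^[i + 1])) := by
        intro i
        rw [List.map_map]
        rfl
      simp only [hsh]
      by_cases ha : r a = 0
      · have e1 : (- r a).val = 0 := by rw [ha]; simp
        have e2 : (- r (σ a)).val = q - 1 := by
          rw [hr, ha, zero_add]
          obtain ⟨p, hp⟩ := Nat.exists_eq_succ_of_ne_zero hq0.ne'
          subst hp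
          simp [ZMod.val_neg_one]
        rw [e1, e2, Finset.sum_range_zero]
        have h2 := Finset.sum_range_succ' (fun i => dd y ((a :: t).map (σ^[i]))) (q - 1)
        have h3 : q - 1 + 1 = q := by omega
        rw [h3] at h2
        have h4 : nn σ q (dd y) (a :: t) = 0 := hl
        unfold nn at h4
        rw [h4, h0] at h2
        rw [zero_sub]
        exact (neg_eq_of_add_eq_zero_right h2.symm).symm
      · have e1 : (- r a).val = (- r (σ a)).val + 1 := by
          rw [hr]
          have h5 : - r a ≠ 0 := neg_ne_zero.mpr ha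
          have h6 : -(r a + 1) = - r a - 1 := by ring
          rw [h6]
          have h7 : 0 < (- r a).val := Nat.pos_of_ne_zero ((ZMod.val_ne_zero _).mpr h5)
          have h8 := ZMod.val_sub (a := - r a) (b := 1) (by
            have := ZMod.val_one q
            rw [this]
            exact h7)
          rw [h8, ZMod.val_one q]
          omega
        rw [e1, Finset.sum_range_succ', h0]
        abel
  have hVw : ∀ U : Set X, (∀ x, x ∈ U ↔ σ x ∈ U) → Van U (dd y) → Van U w := by
    intro U hU hv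
    have hv' := fun k => hv.comp hσ hU k
    choose V hV hVk using hv'
    refine ⟨⋂ k ∈ Finset.range q, V k, (Filter.biInter_finset_mem _).mpr fun k _ => hV k,
      fun l hl hlU => ?_⟩
    match l with
    | [] => rfl
    | a :: t =>
      refine Finset.sum_eq_zero fun i hi => ?_
      have hi' : i < q := (Finset.mem_range.mp hi).trans (ZMod.val_lt _)
      refine hVk i (a :: t) (fun b hb c hc => ?_) hlU
      have := hl b hb c hc
      simp only [Set.mem_iInter] at this
      exact this i (Finset.mem_range.mpr hi')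
  refine ⟨y, w, rfl, rfl, hNy, hw, fun U hU hv => ?_, fun U hU hrU => ?_⟩
  · refine (hVw U hU (Van.dd ?_)).dd
    obtain ⟨V, hV, h⟩ := hv
    refine ⟨V, hV, fun l hl hlU => ?_⟩
    match l with
    | [] => rfl
    | a :: t =>
      change (if r a = 0 then z (a :: t) else 0) = 0
      rw [h _ hl hlU]
      simp
  · refine (hVw U hU ?_).dd
    obtain ⟨V, hV, hr1⟩ := hrU
    obtain ⟨W, hW, hz1⟩ := hz
    refine ⟨V ∩ W, Filter.inter_mem hV hW, fun l hl hlU => ?_⟩
    match l with
    | [] => rfl
    | a :: t =>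
      have h1 : (fun s => y (a :: s)) = fun s => if r a = 0 then z (a :: s) else 0 := rfl
      have h2 := hz1 (a :: t) fun b hb c hc => (hl b hb c hc).2
      rw [dd_cons] at h2
      rw [dd_cons, h1]
      by_cases ha : r a = 0
      · simp only [ha, if_true]
        have h3 : dd (fun s => z (a :: s)) t = z t := (sub_eq_zero.mp h2).symm
        rw [h3]
        match t with
        | [] => simp [hz0, y]
        | b :: t =>
          have hb : r b = 0 := by
            rw [← hr1 a (hlU a List.mem_cons_self) b (hlU b (by simp))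
              (hl a List.mem_cons_self b (by simp)).1]
            exact ha
          change (if r b = 0 then z (b :: t) else 0) - _ = 0
          rw [if_pos hb, sub_self]
      · simp only [ha, if_false]
        rw [dd_zero, sub_zero]
        match t with
        | [] => rfl
        | b :: t =>
          have hb : ¬ r b = 0 := by
            rw [← hr1 a (hlU a List.mem_cons_self) b (hlU b (by simp))
              (hl a List.mem_cons_self b (by simp)).1]
            exact ha
          change (if r b = 0 then z (b :: t) else 0) = 0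
          rw [if_neg hb]

/-- A free action of a group of prime order on a compact space is not contracted by maps that
are connected to the identity. -/
theorem no_contraction [CompactSpace X] [T2Space X] [Nonempty X] (σ : X → X) (hσ : Continuous σ)
    (hq : ∀ x, σ^[q] x = x) (hfree : ∀ x, σ x ≠ x)
    (hcon : ∀ V ∈ 𝓤 X, ∃ h : C(X, X),
      (∀ V' ∈ 𝓤 X, Relation.ReflTransGen (fun f g : C(X, X) => ∀ x, (f x, g x) ∈ V')
        (ContinuousMap.id X) h) ∧ ∀ (x : X) (k : ℕ), (h (σ^[k] x), h x) ∈ V) : False := by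
  obtain ⟨t, ht, ht'⟩ := exists_section (q := q) hq
  obtain ⟨m, U, r, hU, hUσ, hcov, hr, hloc⟩ := exists_cover hσ hq hfree
  have hrep : Repr σ (ZMod q) := repr_of_contraction t ht ht' hcon
  have huc : UniformContinuous σ := CompactSpace.uniformContinuous_of_continuous hσ
  have hR : ∀ r : ZMod q, q • r = 0 := fun r => by simp
  have main : ∀ j : ℕ, ∃ z : List X → ZMod q, z [] = 0 ∧ Eqv (fun l => z (l.map σ)) z ∧
      Eqv (dd z) (fun _ => 0) ∧ (∀ i < j, Van (U i) z) ∧
      ¬ ∃ u : List X → ZMod q, u [] = 0 ∧ Eqv (fun l => u (l.map σ)) u ∧ Eqv z (dd u) := by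
    intro j
    induction j with
    | zero =>
      refine ⟨fun l => if l.length = 1 then 1 else 0, rfl, Eqv.of_eq fun l => by simp,
        Eqv.of_eq fun l => ?_, fun i hi => absurd hi (Nat.not_lt_zero i), ?_⟩
      · match l with
        | [] => rfl
        | [a] => simp [dd_cons]
        | [a, b] => simp [dd_cons]
        | a :: b :: c :: l =>
          have hz : ∀ (n : ℕ) (s : List X), dd (fun s : List X =>
              if (s.length + n + 2) = 1 then (1 : ZMod q) else 0) s = 0 := by
            intro n s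
            have : (fun s : List X => if (s.length + n + 2) = 1 then (1 : ZMod q) else 0)
              = fun _ => 0 := by
              funext s
              rw [if_neg (by omega)]
            rw [this, dd_zero]
          simp only [dd_cons, List.length_cons]
          have h1 := hz 1 l
          have h2 : (fun s : List X => if s.length + 1 + 1 + 1 = 1 then (1 : ZMod q) else 0) =
            fun s : List X => if (s.length + 1 + 2) = 1 then (1 : ZMod q) else 0 := rfl
          rw [h2, h1]
          simp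
      · rintro ⟨u, hu0, _, V, hV, hu⟩
        obtain ⟨x⟩ := ‹Nonempty X›
        have h1 := hu [x] (by
          intro a ha b hb
          rw [List.mem_singleton.mp ha, List.mem_singleton.mp hb]
          exact refl_mem_uniformity hV)
        simp [dd_cons, hu0] at h1
    | succ j ih =>
      obtain ⟨z, hz0, hzσ, hz, hvan, hne⟩ := ih
      obtain ⟨y, w, hy0, hw0, hyz, hyw, h1, h2⟩ := step huc hq (r j) (hr j) hz0 hzσ hz
      refine ⟨dd w, rfl, ?_, Eqv.of_eq fun l => dd_dd w l, fun i hi => ?_, fun hu => ?_⟩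
      · have e1 : Eqv (dd (fun l => w l - w (l.map σ))) (fun _ => 0) :=
          hyw.dd.symm.trans (Eqv.of_eq fun l => dd_dd y l)
        refine e1.mono fun l h => ?_
        rw [dd_sub, dd_map] at h
        exact (sub_eq_zero.mp h).symm
      · rcases Nat.lt_succ_iff_lt_or_eq.mp hi with hi | rfl
        · exact h1 (U i) (hUσ i) (hvan i hi)
        · exact h2 (U i) (hUσ i) (hloc i)
      · exact hne (ladder huc hq hR hrep hy0 hw0 hyz hyw hu)
  obtain ⟨z, hz0, hzσ, hz, hvan, hne⟩ := main m
  apply hne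
  refine ⟨fun _ => 0, rfl, Eqv.of_eq fun _ => rfl, ?_⟩
  choose! V hV hVv using hvan
  obtain ⟨W, hW, hWc⟩ : ∃ W ∈ 𝓤 X, ∀ x : X, ∃ j < m, {y | (x, y) ∈ W} ⊆ U j := by
    have hcov' : (Set.univ : Set X) ⊆ ⋃ j : Fin m, U j := by
      intro x _
      obtain ⟨j, hj, hx⟩ := hcov x
      exact Set.mem_iUnion.mpr ⟨⟨j, hj⟩, hx⟩
    obtain ⟨W, hW, hWc⟩ := lebesgue_number_lemma (isCompact_univ (X := X))
      (U := fun j : Fin m => U j) (fun j => hU j) hcov'
    refine ⟨W, hW, fun x => ?_⟩
    obtain ⟨j, hj⟩ := hWc x (Set.mem_univ x)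
    exact ⟨j, j.2, hj⟩
  have hVall : (⋂ j ∈ Finset.range m, V j) ∈ 𝓤 X :=
    (Filter.biInter_finset_mem _).mpr fun j hj => hV j (Finset.mem_range.mp hj)
  refine ⟨W ∩ ⋂ j ∈ Finset.range m, V j, Filter.inter_mem hW hVall, fun l hl => ?_⟩
  rw [dd_zero]
  match l, hl with
  | [], _ => exact hz0
  | a :: l, hl =>
    obtain ⟨j, hj, hsub⟩ := hWc a
    refine hVv j hj _ (fun b hb c hc => ?_) (fun b hb => hsub (hl a List.mem_cons_self b hb).1)
    have := (hl b hb c hc).2
    simp only [Set.mem_iInter] at this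
    exact this j (Finset.mem_range.mpr hj)

end

end Pool.Agent.MoufangHaar.DD
end

section

set_option autoImplicit false
set_option linter.unusedSectionVars false

open Topology Set

namespace Pool.Agent.MoufangHaar.Ellis

variable {X : Type*} [TopologicalSpace X] [CompactSpace X] [T2Space X]

/-- the pointwise closure of a set of self-maps -/
def clo (M : Set (X → X)) : Set (X → X) := closure M

theorem clo_comp {M : Set (X → X)} (hM : ∀ f ∈ M, Continuous f) (hmul : ∀ f ∈ M, ∀ g ∈ M, f ∘ g ∈ M)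
    {p q : X → X} (hp : p ∈ clo M) (hq : q ∈ clo M) : p ∘ q ∈ clo M := by
  have h1 : ∀ f ∈ M, ∀ q ∈ clo M, f ∘ q ∈ clo M := by
    intro f hf
    have hc : Continuous (fun q : X → X => f ∘ q) :=
      continuous_pi fun x => (hM f hf).comp (continuous_apply x)
    have h2 : MapsTo (fun q : X → X => f ∘ q) M M := fun g hg => hmul f hf g hg
    exact fun q hq => h2.closure hc hq
  have hc : Continuous (fun p : X → X => p ∘ q) :=
    continuous_pi fun x => continuous_apply (q x)
  have h3 : MapsTo (fun p : X → X => p ∘ q) M (clo M) := fun f hf => h1 f hf q hq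
  have h4 := h3.closure hc hp
  rwa [clo, closure_closure] at h4

/-- If all elements of the enveloping semigroup are injective, they are surjective. -/
theorem surjective {M : Set (X → X)} (hM : ∀ f ∈ M, Continuous f)
    (hmul : ∀ f ∈ M, ∀ g ∈ M, f ∘ g ∈ M) (hinj : ∀ p ∈ clo M, Function.Injective p)
    {p : X → X} (hp : p ∈ clo M) : Function.Surjective p := by
  let S : Set (X → X) := (fun q : X → X => q ∘ p) '' clo M
  have hcl : IsCompact (clo M) := isClosed_closure.isCompact
  have hcp : Continuous (fun q : X → X => q ∘ p) :=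
    continuous_pi fun x => continuous_apply (p x)
  have hS : IsCompact S := hcl.image hcp
  let T := {f : X → X // f ∈ S}
  have hTc : CompactSpace T := isCompact_iff_compactSpace.mp hS
  have hTn : Nonempty T := ⟨⟨p ∘ p, p, hp, rfl⟩⟩
  let : Semigroup T :=
    { mul := fun f g => ⟨f.1 ∘ g.1, by
        obtain ⟨f', hf', hf⟩ := f.2
        obtain ⟨g', hg', hg⟩ := g.2
        have hgc : g.1 ∈ clo M := by
          rw [← hg]
          exact clo_comp hM hmul hg' hp
        have hfc : f.1 ∈ clo M := by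
          rw [← hf]
          exact clo_comp hM hmul hf' hp
        refine ⟨f.1 ∘ g', clo_comp hM hmul hfc hg', ?_⟩
        change (f.1 ∘ g') ∘ p = f.1 ∘ g.1
        rw [← hg]
        rfl⟩
      mul_assoc := fun f g h => rfl }
  obtain ⟨u, hu⟩ := exists_idempotent_of_compact_t2_of_continuous_mul_left (M := T) (by
    intro g
    refine Continuous.subtype_mk ?_ _
    have : Continuous (fun f : X → X => f ∘ g.1) :=
      continuous_pi fun x => continuous_apply (g.1 x)
    exact this.comp continuous_subtype_val)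
  have hu' : u.1 ∘ u.1 = u.1 := congrArg Subtype.val hu
  obtain ⟨q, hq, hqu⟩ := u.2
  have huc : u.1 ∈ clo M := by
    rw [← hqu]
    exact clo_comp hM hmul hq hp
  have hid : ∀ x, u.1 x = x := fun x => hinj _ huc (congrFun hu' x)
  have hqp : ∀ x, q (p x) = x := fun x => by
    have h1 := hid x
    rw [← hqu] at h1
    exact h1
  intro y
  exact ⟨q y, hinj q hq (hqp (q y))⟩

end Pool.Agent.MoufangHaar.Ellis
end

section

set_option autoImplicit false
set_option linter.unusedSectionVars false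

open Topology Set

namespace Pool.Agent.MoufangHaar.FA

variable {E : Type*} [AddCommGroup E] [Module ℝ E] [TopologicalSpace E] [T2Space E]
  [IsTopologicalAddGroup E] [ContinuousSMul ℝ E]

theorem isCompact_convexJoin {A B : Set E} (hA : IsCompact A) (hB : IsCompact B) :
    IsCompact (convexJoin ℝ A B) := by
  have h : convexJoin ℝ A B =
      (fun p : ℝ × E × E => (1 - p.1) • p.2.1 + p.1 • p.2.2) '' (Icc (0 : ℝ) 1 ×ˢ (A ×ˢ B)) := by
    ext x
    rw [mem_convexJoin]
    constructor
    · rintro ⟨a, ha, b, hb, hx⟩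
      rw [segment_eq_image] at hx
      obtain ⟨t, ht, rfl⟩ := hx
      exact ⟨(t, a, b), ⟨ht, ha, hb⟩, rfl⟩
    · rintro ⟨⟨t, a, b⟩, ⟨ht, ha, hb⟩, rfl⟩
      refine ⟨a, ha, b, hb, ?_⟩
      rw [segment_eq_image]
      exact ⟨t, ht, rfl⟩
  rw [h]
  refine (isCompact_Icc.prod (hA.prod hB)).image ?_
  fun_prop

theorem mem_of_segment {Q : Set E} {z a b : E} (hz : z ∈ Q.extremePoints ℝ) (ha : a ∈ Q)
    (hb : b ∈ Q) (h : z ∈ segment ℝ a b) : z = a ∨ z = b := by
  by_cases h1 : z = a
  · exact Or.inl h1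
  by_cases h2 : z = b
  · exact Or.inr h2
  have h3 : z ∈ openSegment ℝ a b :=
    mem_openSegment_of_ne_left_right (Ne.symm h1) (Ne.symm h2) h
  exact Or.inl ((mem_extremePoints.mp hz).2 a ha b hb h3).1.symm

theorem ext_union {A B : Set E} {z : E} (hc : IsCompact (closure (convexHull ℝ (A ∪ B))))
    (hz : z ∈ (closure (convexHull ℝ (A ∪ B))).extremePoints ℝ) :
    z ∈ closure (convexHull ℝ A) ∨ z ∈ closure (convexHull ℝ B) := by
  rcases A.eq_empty_or_nonempty with rfl | hA
  · rw [empty_union] at hz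
    exact Or.inr hz.1
  rcases B.eq_empty_or_nonempty with rfl | hB
  · rw [union_empty] at hz
    exact Or.inl hz.1
  have sA : closure (convexHull ℝ A) ⊆ closure (convexHull ℝ (A ∪ B)) :=
    closure_mono (convexHull_mono subset_union_left)
  have sB : closure (convexHull ℝ B) ⊆ closure (convexHull ℝ (A ∪ B)) :=
    closure_mono (convexHull_mono subset_union_right)
  have cA := hc.of_isClosed_subset isClosed_closure sA
  have cB := hc.of_isClosed_subset isClosed_closure sB
  have hJ := isCompact_convexJoin cA cB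
  have h1 : closure (convexHull ℝ (A ∪ B)) ⊆
      convexJoin ℝ (closure (convexHull ℝ A)) (closure (convexHull ℝ B)) := by
    refine closure_minimal ?_ hJ.isClosed
    rw [convexHull_union hA hB]
    exact convexJoin_mono subset_closure subset_closure
  obtain ⟨a, ha, b, hb, h⟩ := mem_convexJoin.mp (h1 hz.1)
  rcases mem_of_segment hz (sA ha) (sB hb) h with rfl | rfl
  · exact Or.inl ha
  · exact Or.inr hb

theorem ext_iUnion {ι : Type*} (s : Finset ι) (S : ι → Set E) {z : E}
    (hc : IsCompact (closure (convexHull ℝ (⋃ i ∈ s, S i))))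
    (hz : z ∈ (closure (convexHull ℝ (⋃ i ∈ s, S i))).extremePoints ℝ) :
    ∃ i ∈ s, z ∈ closure (convexHull ℝ (S i)) := by
  classical
  induction s using Finset.induction_on with
  | empty =>
    have h := hz.1
    simp at h
  | insert i s hi ih =>
    have hu : (⋃ j ∈ insert i s, S j) = S i ∪ ⋃ j ∈ s, S j := by
      rw [Finset.set_biUnion_insert]
    rw [hu] at hc hz
    have sub : closure (convexHull ℝ (⋃ j ∈ s, S j)) ⊆
        closure (convexHull ℝ (S i ∪ ⋃ j ∈ s, S j)) :=
      closure_mono (convexHull_mono subset_union_right)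
    rcases ext_union hc hz with h | h
    · exact ⟨i, Finset.mem_insert_self i s, h⟩
    · obtain ⟨j, hj, h⟩ := ih (hc.of_isClosed_subset isClosed_closure sub)
        (inter_extremePoints_subset_extremePoints_of_subset sub ⟨h, hz⟩)
      exact ⟨j, Finset.mem_insert_of_mem hj, h⟩

variable [LocallyConvexSpace ℝ E]

/-- Milman's partial converse -/
theorem milman {S : Set E} {z : E} (hc : IsCompact (closure (convexHull ℝ S)))
    (hz : z ∈ (closure (convexHull ℝ S)).extremePoints ℝ) : z ∈ closure S := by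
  by_contra hzS
  have hS : IsCompact (closure S) :=
    hc.of_isClosed_subset isClosed_closure (closure_mono (subset_convexHull ℝ S))
  have h1 : ∀ s : E, ∃ (f : E →L[ℝ] ℝ) (c : ℝ), s ≠ z → f s < c ∧ c < f z := by
    intro s
    by_cases h : s = z
    · exact ⟨0, 0, fun h' => absurd h h'⟩
    · obtain ⟨f, hf⟩ := geometric_hahn_banach_point_point h
      obtain ⟨c, hc1, hc2⟩ := exists_between hf
      exact ⟨f, c, fun _ => ⟨hc1, hc2⟩⟩
  choose f c hfc using h1
  have hne : ∀ s ∈ closure S, s ≠ z := fun s hs h => hzS (h ▸ hs)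
  obtain ⟨t, ht, hcov⟩ := hS.elim_nhds_subcover (fun s => {x | f s x < c s}) (fun s hs =>
    (isOpen_lt (f s).continuous continuous_const).mem_nhds (hfc s (hne s hs)).1)
  have hSu : S = ⋃ s ∈ t, S ∩ {x | f s x < c s} := by
    apply Subset.antisymm
    · intro x hx
      have h2 := hcov (subset_closure hx)
      simp only [mem_iUnion] at h2
      obtain ⟨s, hs, hx2⟩ := h2
      exact mem_biUnion hs ⟨hx, hx2⟩
    · exact iUnion₂_subset fun s _ => inter_subset_left
  rw [hSu] at hc hz
  obtain ⟨s, hs, hz2⟩ := ext_iUnion t _ hc hz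
  have h3 : closure (convexHull ℝ (S ∩ {x | f s x < c s})) ⊆ {x | f s x ≤ c s} := by
    refine closure_minimal (convexHull_min ?_ ?_) (isClosed_le (f s).continuous continuous_const)
    · intro x hx
      have h5 : f s x < c s := hx.2
      exact (h5.le : f s x ≤ c s)
    · exact convex_halfSpace_le (f s).isLinear _
  exact absurd (h3 hz2) (not_le.mpr (hfc s (hne s (ht s hs))).2)

omit [LocallyConvexSpace ℝ E] in
theorem ext_half {Q : Set E} (hQ : IsCompact Q) {z : E} (hz : z ∈ Q.extremePoints ℝ) {U : Set E}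
    (hU : U ∈ 𝓝 z) : ∃ U' ∈ 𝓝 z, ∀ a ∈ Q, ∀ b ∈ Q,
      (1 / 2 : ℝ) • a + (1 / 2 : ℝ) • b ∈ U' → a ∈ U ∧ b ∈ U := by
  let F : E × E → E := fun p => (1 / 2 : ℝ) • p.1 + (1 / 2 : ℝ) • p.2
  have hF : Continuous F := by fun_prop
  let K : Set (E × E) := (Q ×ˢ Q) \ (interior U ×ˢ interior U)
  have hK : IsCompact K := (hQ.prod hQ).diff (isOpen_interior.prod isOpen_interior)
  have hFK : IsClosed (F '' K) := (hK.image hF).isClosed
  have hzK : z ∉ F '' K := by
    rintro ⟨⟨a, b⟩, ⟨⟨ha, hb⟩, hab⟩, h⟩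
    have hseg : z ∈ openSegment ℝ a b := ⟨1 / 2, 1 / 2, by norm_num, by norm_num, by norm_num, h⟩
    obtain ⟨h1, h2⟩ := (mem_extremePoints.mp hz).2 a ha b hb hseg
    apply hab
    refine ⟨?_, ?_⟩
    · change a ∈ interior U
      rw [h1]
      exact mem_interior_iff_mem_nhds.mpr hU
    · change b ∈ interior U
      rw [h2]
      exact mem_interior_iff_mem_nhds.mpr hU
  refine ⟨(F '' K)ᶜ, hFK.isOpen_compl.mem_nhds hzK, fun a ha b hb hab => ?_⟩
  have h : (a, b) ∉ K := fun h => hab ⟨(a, b), h, rfl⟩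
  have h2 : (a, b) ∈ interior U ×ˢ interior U := by
    by_contra h3
    exact h ⟨⟨ha, hb⟩, h3⟩
  exact ⟨interior_subset h2.1, interior_subset h2.2⟩

/-- dyadic combination of a list -/
noncomputable def comb (q : E) : List E → E
  | [] => q
  | a :: l => (1 / 2 : ℝ) • a + (1 / 2 : ℝ) • comb q l

omit [TopologicalSpace E] [T2Space E] [IsTopologicalAddGroup E] [ContinuousSMul ℝ E]
  [LocallyConvexSpace ℝ E] in
theorem comb_mem {Q : Set E} (hQ : Convex ℝ Q) {q : E} (hq : q ∈ Q) {l : List E}
    (hl : ∀ a ∈ l, a ∈ Q) : comb q l ∈ Q := by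
  induction l with
  | nil => exact hq
  | cons a l ih =>
    refine hQ (hl a List.mem_cons_self) (ih fun b hb => hl b (List.mem_cons_of_mem _ hb)) ?_ ?_ ?_
    all_goals norm_num

omit [T2Space E] [IsTopologicalAddGroup E] [ContinuousSMul ℝ E] [LocallyConvexSpace ℝ E] in
theorem map_comb (g : E →L[ℝ] E) (q : E) (l : List E) :
    g (comb q l) = comb (g q) (l.map g) := by
  induction l with
  | nil => rfl
  | cons a l ih =>
    change g ((1 / 2 : ℝ) • a + (1 / 2 : ℝ) • comb q l) =
      (1 / 2 : ℝ) • g a + (1 / 2 : ℝ) • comb (g q) (l.map g)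
    rw [map_add, map_smul, map_smul, ih]

omit [LocallyConvexSpace ℝ E] in
theorem ext_comb {Q : Set E} (hQ : IsCompact Q) (hQc : Convex ℝ Q) {z : E}
    (hz : z ∈ Q.extremePoints ℝ) {U : Set E} (hU : U ∈ 𝓝 z) (n : ℕ) : ∃ U' ∈ 𝓝 z, ∀ q ∈ Q,
      ∀ l : List E, l.length = n → (∀ a ∈ l, a ∈ Q) → comb q l ∈ U' → ∀ a ∈ l, a ∈ U := by
  induction n with
  | zero =>
    refine ⟨univ, Filter.univ_mem, fun q _ l hl _ _ a ha => ?_⟩
    rw [List.length_eq_zero_iff.mp hl] at ha
    exact absurd ha (List.not_mem_nil)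
  | succ n ih =>
    obtain ⟨U1, hU1, h1⟩ := ih
    obtain ⟨U2, hU2, h2⟩ := ext_half hQ hz (Filter.inter_mem hU hU1)
    refine ⟨U2, hU2, fun q hq l hl hlQ hc a ha => ?_⟩
    match l, hl with
    | b :: l, hl =>
      have h3 := h2 b (hlQ b List.mem_cons_self) (comb q l)
        (comb_mem hQc hq fun c hc => hlQ c (List.mem_cons_of_mem _ hc)) hc
      rcases List.mem_cons.mp ha with rfl | ha
      · exact h3.1.1
      · exact h1 q hq l (by simpa using hl) (fun c hc => hlQ c (List.mem_cons_of_mem _ hc))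
          h3.2.2 a ha

/-- An irreducible affine action is strongly proximal. -/
theorem strongly_proximal (G : Set (E →L[ℝ] E)) (hid : ContinuousLinearMap.id ℝ E ∈ G)
    (hmul : ∀ g ∈ G, ∀ h ∈ G, g.comp h ∈ G) (K : Set E) (hK : IsCompact K) (hKc : Convex ℝ K)
    (hKn : K.Nonempty) (hinv : ∀ g ∈ G, ∀ x ∈ K, g x ∈ K) :
    ∃ z ∈ K, ∃ q ∈ K, ∀ l : List (E →L[ℝ] E), (∀ h ∈ l, h ∈ G) → ∀ U ∈ 𝓝 z,
      ∃ g ∈ G, ∀ h ∈ l, g (h q) ∈ U := by
  let S : Set (Set E) := {t | t ⊆ K ∧ t.Nonempty ∧ IsClosed t ∧ Convex ℝ t ∧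
    ∀ g ∈ G, ∀ x ∈ t, g x ∈ t}
  obtain ⟨Q, hQm⟩ : ∃ Q, Minimal (· ∈ S) Q := by
    refine zorn_superset _ fun F hFS hF => ?_
    rcases F.eq_empty_or_nonempty with rfl | hFn
    · exact ⟨K, ⟨Subset.rfl, hKn, hK.isClosed, hKc, hinv⟩, fun _ h => absurd h (notMem_empty _)⟩
    have hne : Nonempty F := hFn.to_subtype
    refine ⟨⋂₀ F, ⟨?_, ?_, isClosed_sInter fun t ht => (hFS ht).2.2.1,
      convex_sInter fun t ht => (hFS ht).2.2.2.1, ?_⟩, fun t ht => sInter_subset_of_mem ht⟩
    · obtain ⟨t, ht⟩ := hFn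
      exact (sInter_subset_of_mem ht).trans (hFS ht).1
    · rw [sInter_eq_iInter]
      refine IsCompact.nonempty_iInter_of_directed_nonempty_isCompact_isClosed _ (fun t u => ?_)
        (fun t => (hFS t.2).2.1)
        (fun t => hK.of_isClosed_subset (hFS t.2).2.2.1 (hFS t.2).1) fun t => (hFS t.2).2.2.1
      obtain htu | hut := hF.total t.2 u.2
      exacts [⟨t, Subset.rfl, htu⟩, ⟨u, hut, Subset.rfl⟩]
    · intro g hg x hx t ht
      exact (hFS ht).2.2.2.2 g hg x (hx t ht)
  obtain ⟨⟨hQK, hQn, hQcl, hQc, hQi⟩, hmin⟩ := hQm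
  have hQcomp : IsCompact Q := hK.of_isClosed_subset hQcl hQK
  obtain ⟨z, hz⟩ := hQcomp.extremePoints_nonempty hQn
  obtain ⟨q, hq⟩ := hQn
  refine ⟨z, hQK hz.1, q, hQK hq, fun l hl U hU => ?_⟩
  let x : E := comb q (l.map fun h => h q)
  have hlQ : ∀ a ∈ l.map (fun h => h q), a ∈ Q := by
    intro a ha
    obtain ⟨h, hh, rfl⟩ := List.mem_map.mp ha
    exact hQi h (hl h hh) q hq
  have hx : x ∈ Q := comb_mem hQc hq hlQ
  let O : Set E := {y | ∃ g ∈ G, y = g x}
  have hOQ : O ⊆ Q := by
    rintro y ⟨g, hg, rfl⟩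
    exact hQi g hg x hx
  have hsub : closure (convexHull ℝ O) ⊆ Q := closure_minimal (convexHull_min hOQ hQc) hQcl
  have hmem : closure (convexHull ℝ O) ∈ S := by
    refine ⟨hsub.trans hQK, ⟨x, subset_closure (subset_convexHull ℝ O
      ⟨ContinuousLinearMap.id ℝ E, hid, rfl⟩)⟩, isClosed_closure,
      (convex_convexHull ℝ O).closure, fun g hg y hy => ?_⟩
    have h1 : MapsTo g (convexHull ℝ O) (convexHull ℝ O) := by
      intro y hy
      have h2 : g y ∈ g '' convexHull ℝ O := ⟨y, hy, rfl⟩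
      have h3 : g '' convexHull ℝ O = convexHull ℝ (g '' O) :=
        g.toLinearMap.image_convexHull O
      rw [h3] at h2
      refine convexHull_mono ?_ h2
      rintro w ⟨y, ⟨h, hh, rfl⟩, rfl⟩
      exact ⟨g.comp h, hmul g hg h hh, rfl⟩
    exact h1.closure g.continuous hy
  have heq : closure (convexHull ℝ O) = Q := Subset.antisymm hsub (hmin hmem hsub)
  have hzO : z ∈ closure O := by
    apply milman
    · rw [heq]; exact hQcomp
    · rw [heq]; exact hz
  obtain ⟨U', hU', hU'U⟩ := ext_comb hQcomp hQc hz hU l.length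
  obtain ⟨y, hyU, g, hg, rfl⟩ := mem_closure_iff_nhds.mp hzO U' hU'
  refine ⟨g, hg, fun h hh => ?_⟩
  have h1 : g x = comb (g q) ((l.map fun h => h q).map g) := map_comb g q _
  rw [h1] at hyU
  refine hU'U (g q) (hQi g hg q hq) _ (by simp) ?_ hyU (g (h q)) ?_
  · intro a ha
    obtain ⟨b, hb, rfl⟩ := List.mem_map.mp ha
    exact hQi g hg b (hlQ b hb)
  · exact List.mem_map.mpr ⟨h q, List.mem_map.mpr ⟨h, hh, rfl⟩, rfl⟩

end Pool.Agent.MoufangHaar.FA
end
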