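import Mathlib
import Pool.Agent.Lib.MP_fd6bc6_al.NS.A1

section

set_option autoImplicit false
set_option linter.unusedSectionVars false

open Topology Uniformity

namespace Pool.Agent.MoufangHaar

section unif

variable {L : Type*} [MLoop L] [UniformSpace L] [CompactSpace L] [T2Space L] [TopMLoop L]

theorem Lim.refl {F : Filter (L → L)} (hF : ∀ᶠ g in F, TM g) (u : L) : Lim F u u := by
  intro A hA B hB
  filter_upwards [hF] with g hg
  obtain ⟨k, _, _, h2⟩ := hg.inverse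
  refine ⟨k u, k u, refl_mem_uniformity hA, ?_, ?_⟩ <;> rw [h2] <;> exact refl_mem_uniformity hB

theorem Lim.symm {F : Filter (L → L)} {u v : L} (h : Lim F u v) : Lim F v u := by
  intro A hA B hB
  filter_upwards [h _ (symm_le_uniformity hA) B hB] with g hg
  obtain ⟨x, y, h1, h2, h3⟩ := hg
  exact ⟨y, x, h1, h3, h2⟩

theorem Lim.trans {F : Filter (L → L)} (hF : ∀ᶠ g in F, TM g) {u v w : L} (h : Lim F u v)
    (h' : Lim F v w) : Lim F u w := by
  intro A hA B hB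
  obtain ⟨A1, hA1, hA1s, hAA⟩ := comp_symm_mem_uniformity_sets hA
  obtain ⟨B1, hB1, hB1s, hBB⟩ := comp_symm_mem_uniformity_sets hB
  obtain ⟨A2, hA2, HA2⟩ := equi_D (L := L) hA1
  obtain ⟨B2, hB2, HB2⟩ := small_D (L := L) hB1
  obtain ⟨B3, hB3, hB3s, hBB3⟩ := comp_symm_mem_uniformity_sets hB2
  filter_upwards [hF, h A1 hA1 (B ∩ B3) (Filter.inter_mem hB hB3),
    h' A2 hA2 (B1 ∩ B3) (Filter.inter_mem hB1 hB3)] with g hg h1 h2
  obtain ⟨k, hk, hkg, hgk⟩ := hg.inverse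
  obtain ⟨x, y, hxy, hux, hvy⟩ := h1
  obtain ⟨x', y', hxy', hvx', hwy'⟩ := h2
  obtain ⟨p, q, H⟩ := TM.conj_left hk hkg (g y) (g x')
  have e1 : p * (q⁻¹ * x') = y := by
    rw [← H, MLoop.inv_mul_self, MLoop.mul_one, hkg]
  have e2 : g (p * (q⁻¹ * y')) = g y * ((g x')⁻¹ * g y') := by
    rw [← H, hgk]
  refine ⟨x, p * (q⁻¹ * y'), hAA ⟨y, hxy, ?_⟩, hux.1, hBB ⟨g y', hwy'.1, ?_⟩⟩
  · rw [← e1]
    exact HA2 p q x' y' hxy'
  · rw [e2]
    refine hB1s.symm _ _ (HB2 _ _ ?_ _)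
    exact hBB3 ⟨v, hB3s.symm _ _ hvy.2, hvx'.2⟩

theorem Lim.left {F : Filter (L → L)} (hF : ∀ᶠ g in F, TM g) (a : L) {u v : L}
    (h : Lim F u v) : Lim F (a * u) (a * v) := by
  intro A hA B hB
  obtain ⟨A1, hA1, HA1⟩ := equi_D (L := L) hA
  obtain ⟨B1, hB1, HB1⟩ := equi_D (L := L) hB
  filter_upwards [hF, h A1 hA1 B1 hB1] with g hg h1
  obtain ⟨k, hk, hkg, hgk⟩ := hg.inverse
  obtain ⟨x, y, hxy, hux, hvy⟩ := h1
  obtain ⟨p, q, H⟩ := TM.conj_left hk hkg a 1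
  have e : ∀ z, g (p * (q⁻¹ * z)) = a * g z := fun z => by
    rw [← H, hgk]
    congr 1
    have h1 := MLoop.inv_mul_left 1 (g z)
    rwa [MLoop.one_mul] at h1
  have e2 : ∀ z : L, a * (1⁻¹ * z) = a * z := fun z => by
    have h1 := MLoop.inv_mul_left 1 z
    rw [MLoop.one_mul] at h1
    rw [h1]
  refine ⟨p * (q⁻¹ * x), p * (q⁻¹ * y), HA1 p q x y hxy, ?_, ?_⟩
  · rw [e, ← e2 u, ← e2 (g x)]
    exact HB1 a 1 _ _ hux
  · rw [e, ← e2 v, ← e2 (g y)]
    exact HB1 a 1 _ _ hvy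

theorem Lim.right {F : Filter (L → L)} (hF : ∀ᶠ g in F, TM g) (a : L) {u v : L}
    (h : Lim F u v) : Lim F (u * a) (v * a) := by
  intro A hA B hB
  obtain ⟨A1, hA1, HA1⟩ := equi_DR (L := L) hA
  obtain ⟨B1, hB1, HB1⟩ := equi_DR (L := L) hB
  filter_upwards [hF, h A1 hA1 B1 hB1] with g hg h1
  obtain ⟨k, hk, hkg, hgk⟩ := hg.inverse
  obtain ⟨x, y, hxy, hux, hvy⟩ := h1
  obtain ⟨p, q, H⟩ := TM.conj_right hk hkg a
  have e : ∀ z, g ((z * p) * q) = g z * a := fun z => by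
    rw [← H, hgk]
  refine ⟨(x * p) * q, (y * p) * q, HA1 p q x y hxy, ?_, ?_⟩
  · rw [e]
    have h2 := HB1 a 1 _ _ hux
    rwa [MLoop.mul_one, MLoop.mul_one] at h2
  · rw [e]
    have h2 := HB1 a 1 _ _ hvy
    rwa [MLoop.mul_one, MLoop.mul_one] at h2

theorem Lim.isClosed (F : Filter (L → L)) : IsClosed {p : L × L | Lim F p.1 p.2} := by
  rw [← isOpen_compl_iff, isOpen_iff_mem_nhds]
  intro p hp
  have hp' : ¬ Lim F p.1 p.2 := hp
  unfold Lim at hp'
  simp only [not_forall] at hp'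
  obtain ⟨A, hA, B, hB, hAB⟩ := hp'
  obtain ⟨B1, hB1, _, hBB⟩ := comp_symm_mem_uniformity_sets hB
  have h1 : {q : L × L | (p.1, q.1) ∈ B1 ∧ (p.2, q.2) ∈ B1} ∈ 𝓝 p := by
    have h2 : {q : L × L | (p.1, q.1) ∈ B1} ∈ 𝓝 p :=
      continuous_fst.continuousAt (UniformSpace.ball_mem_nhds p.1 hB1)
    have h3 : {q : L × L | (p.2, q.2) ∈ B1} ∈ 𝓝 p :=
      continuous_snd.continuousAt (UniformSpace.ball_mem_nhds p.2 hB1)
    exact Filter.inter_mem h2 h3
  refine Filter.mem_of_superset h1 fun q hq hlim => hAB ?_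
  filter_upwards [hlim A hA B1 hB1] with g hg
  obtain ⟨x, y, h4, h5, h6⟩ := hg
  exact ⟨x, y, h4, hBB ⟨q.1, hq.1, h5⟩, hBB ⟨q.2, hq.2, h6⟩⟩

/-- The congruence of limits of images of infinitely close points. -/
def limCC (F : Filter (L → L)) (hF : ∀ᶠ g in F, TM g) : CC L where
  r := Lim F
  equiv := ⟨Lim.refl hF, fun h => h.symm, fun h h' => h.trans hF h'⟩
  left a _ _ h := h.left hF a
  right a _ _ h := h.right hF a
  closed := Lim.isClosed F

/-- If all limit congruences are trivial, the maps are equicontinuous. -/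
theorem equi_of_lim (S : Set (L → L))
    (h : ∀ F : Ultrafilter (L → L), S ∈ F → ∀ u v, Lim (F : Filter (L → L)) u v → u = v) :
    Equi S := by
  intro B0 hB0
  by_contra hcon
  push Not at hcon
  obtain ⟨B, hB, hBo, hBB0⟩ : ∃ B ∈ 𝓤 L, IsOpen B ∧ B ⊆ B0 :=
    ⟨interior B0, interior_mem_uniformity hB0, isOpen_interior, interior_subset⟩
  let s : {A : Set (L × L) // A ∈ 𝓤 L} → Set (L → L) := fun A =>
    {g | g ∈ S ∧ ∃ x y, (x, y) ∈ A.1 ∧ (g x, g y) ∉ B}
  have hs : ∀ A, (s A).Nonempty := fun A => by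
    obtain ⟨g, hg, x, y, h1, h2⟩ := hcon A.1 A.2
    exact ⟨g, hg, x, y, h1, fun h3 => h2 (hBB0 h3)⟩
  have hdir : Directed (· ≥ ·) (fun A => Filter.principal (s A)) := by
    intro A A'
    refine ⟨⟨A.1 ∩ A'.1, Filter.inter_mem A.2 A'.2⟩, ?_, ?_⟩ <;>
      refine Filter.principal_mono.mpr ?_ <;> rintro g ⟨hg, x, y, h1, h2⟩
    · exact ⟨hg, x, y, h1.1, h2⟩
    · exact ⟨hg, x, y, h1.2, h2⟩
  have : Nonempty {A : Set (L × L) // A ∈ 𝓤 L} := ⟨⟨Set.univ, Filter.univ_mem⟩⟩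
  have hne : (⨅ A, Filter.principal (s A)).NeBot :=
    Filter.iInf_neBot_of_directed hdir fun A => Filter.principal_neBot_iff.mpr (hs A)
  let F : Ultrafilter (L → L) := Ultrafilter.of (⨅ A, Filter.principal (s A))
  have hF : ∀ A, s A ∈ F := fun A =>
    Ultrafilter.of_le _ (Filter.mem_iInf_of_mem A (Filter.mem_principal_self _))
  have hSF : S ∈ F := by
    refine Filter.mem_of_superset (hF ⟨Set.univ, Filter.univ_mem⟩) ?_
    rintro g ⟨hg, _⟩
    exact hg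
  have hlim := h F hSF
  -- pairs outside of the entourage are not limits
  have h1 : ∀ p : L × L, p ∈ Bᶜ → ∃ A ∈ 𝓤 L, ∃ V ∈ 𝓤 L,
      ∀ᶠ g in (F : Filter (L → L)), ¬ ∃ x y, (x, y) ∈ A ∧ (p.1, g x) ∈ V ∧ (p.2, g y) ∈ V := by
    intro p hp
    have h2 : ¬ Lim (F : Filter (L → L)) p.1 p.2 := by
      intro h3
      apply hp
      have h4 := hlim _ _ h3
      have h5 : p = (p.1, p.1) := Prod.ext rfl h4.symm
      rw [h5]
      exact refl_mem_uniformity hB
    unfold Lim at h2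
    simp only [not_forall] at h2
    obtain ⟨A, hA, V, hV, h3⟩ := h2
    refine ⟨A, hA, V, hV, ?_⟩
    exact Ultrafilter.eventually_not.mpr h3
  choose! A hA V hV H using h1
  obtain ⟨t, ht⟩ := (hBo.isClosed_compl.isCompact).elim_nhds_subcover'
    (fun p _ => {q : L × L | (p.1, q.1) ∈ V p ∧ (p.2, q.2) ∈ V p}) (fun p hp => by
      have h2 : {q : L × L | (p.1, q.1) ∈ V p} ∈ 𝓝 p :=
        continuous_fst.continuousAt (UniformSpace.ball_mem_nhds p.1 (hV p hp))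
      have h3 : {q : L × L | (p.2, q.2) ∈ V p} ∈ 𝓝 p :=
        continuous_snd.continuousAt (UniformSpace.ball_mem_nhds p.2 (hV p hp))
      exact Filter.inter_mem h2 h3)
  have hAt : (⋂ p ∈ t, A p.1) ∈ 𝓤 L := (Filter.biInter_finset_mem t).mpr fun p _ => hA p.1 p.2
  have h2 : ∀ᶠ g in (F : Filter (L → L)), ∀ p ∈ t, ¬ ∃ x y, (x, y) ∈ A p.1 ∧
      (p.1.1, g x) ∈ V p.1 ∧ (p.1.2, g y) ∈ V p.1 :=
    (Filter.eventually_all_finset t).mpr fun p _ => H p.1 p.2
  have h3 : ∀ᶠ g in (F : Filter (L → L)), g ∈ s ⟨_, hAt⟩ := hF _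
  obtain ⟨g, hg1, hg2⟩ := (h2.and h3).exists
  obtain ⟨_, x, y, hxy, hxB⟩ := hg2
  have h4 := ht (show (g x, g y) ∈ Bᶜ from hxB)
  simp only [Set.mem_iUnion] at h4
  obtain ⟨p, hp, hpx⟩ := h4
  simp only [Set.mem_iInter] at hxy
  exact hg1 p hp ⟨x, y, hxy p hp, hpx.1, hpx.2⟩

end unif

end Pool.Agent.MoufangHaar
end

section

set_option autoImplicit false
set_option linter.unusedSectionVars false

open Topology Uniformity

namespace Pool.Agent.MoufangHaar

/-- composites of left translations by elements of a set -/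
inductive TN {L : Type*} [MLoop L] (N : Set L) : (L → L) → Prop
  | id : TN N (fun x => x)
  | left (a : L) (ha : a ∈ N) {g : L → L} : TN N g → TN N (fun x => a * g x)

theorem TN.tm {L : Type*} [MLoop L] {N : Set L} {g : L → L} (hg : TN N g) : TM g := by
  induction hg with
  | id => exact TM.id
  | left a _ _ ih => exact TM.left a ih

theorem TN.comp {L : Type*} [MLoop L] {N : Set L} {f g : L → L} (hf : TN N f) (hg : TN N g) :
    TN N (fun x => f (g x)) := by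
  induction hf with
  | id => exact hg
  | left a ha _ ih => exact TN.left a ha ih

theorem TN.ker {L Q : Type*} [MLoop L] [MLoop Q] {φ : L → Q} (hφ : IsMHom φ) {g : L → L}
    (hg : TN {n | φ n = 1} g) (x : L) : φ (g x) = φ x := by
  induction hg with
  | id => rfl
  | @left a ha g _ ih =>
    have ha' : φ a = 1 := ha
    rw [hφ.map_mul, ha', MLoop.one_mul, ih]

section unif

variable {L : Type*} [MLoop L] [UniformSpace L] [CompactSpace L] [T2Space L] [TopMLoop L]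

theorem small_equi {Q : Type*} [MLoop Q] [TopologicalSpace Q] [T2Space Q] [TopMLoop Q]
    (φ : L → Q) (hφ : IsMHom φ) (hc : Continuous φ) (U : Set L) (hU : U ∈ 𝓝 (1 : L))
    (h : ∀ c : CC L, (∀ x, c.r x 1 → φ x = 1 ∧ x ∈ U) → ∀ x y, c.r x y → x = y) :
    ∃ A₀ ∈ 𝓤 L, Equi {g : L → L | TN {n | φ n = 1} g ∧ ∀ x, (x, g x) ∈ A₀} := by
  obtain ⟨V, hV, hVU⟩ := UniformSpace.mem_nhds_iff.mp hU
  obtain ⟨V1, hV1, hV1s, hVV1⟩ := comp_symm_mem_uniformity_sets hV
  obtain ⟨V2, hV2, hV2s, hVV2⟩ := comp_symm_mem_uniformity_sets hV1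
  obtain ⟨V3, hV3, hV3s, hVV3⟩ := comp_symm_mem_uniformity_sets hV2
  refine ⟨V3, hV3, equi_of_lim _ fun F hF => ?_⟩
  have hTM : ∀ᶠ g in (F : Filter (L → L)), TM g :=
    Filter.mem_of_superset hF fun g hg => hg.1.tm
  refine h (limCC (F : Filter (L → L)) hTM) fun u hu => ⟨?_, ?_⟩
  · have hu' : Lim (F : Filter (L → L)) u 1 := hu
    by_contra hne
    obtain ⟨O1, O2, hO1, hO2, huO, h1O, hdis⟩ := t2_separation hne
    have hcq : Continuous (fun q : L × L => φ q.1 * (φ q.2)⁻¹) :=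
      TopMLoop.cmul (hc.comp continuous_fst) (TopMLoop.cinv (hc.comp continuous_snd))
    have hA : {q : L × L | φ q.1 * (φ q.2)⁻¹ ∈ O2} ∈ 𝓤 L := by
      rw [compactSpace_uniformity, Filter.mem_iSup]
      intro x
      refine hcq.continuousAt.eventually (hO2.mem_nhds ?_)
      simp only [MLoop.mul_inv_self]
      exact h1O
    have hB : {q : L × L | φ q.1 * (φ q.2)⁻¹ ∈ O1} ∈ 𝓝 (u, (1 : L)) := by
      refine hcq.continuousAt.eventually (hO1.mem_nhds ?_)
      simp only [hφ.map_one]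
      have h1 := MLoop.mul_inv_self (1 : Q)
      rw [MLoop.one_mul] at h1
      rw [h1, MLoop.mul_one]
      exact huO
    rw [nhds_prod_eq, Filter.mem_prod_iff] at hB
    obtain ⟨t1, ht1, t2, ht2, h12⟩ := hB
    obtain ⟨B1, hB1, hBt1⟩ := UniformSpace.mem_nhds_iff.mp ht1
    obtain ⟨B2, hB2, hBt2⟩ := UniformSpace.mem_nhds_iff.mp ht2
    have h3 := hu' _ hA _ (Filter.inter_mem hB1 hB2)
    obtain ⟨g, ⟨x, y, hxy, h4, h5⟩, hgS⟩ := (h3.and hF).exists
    have h6 : φ (g x) * (φ (g y))⁻¹ ∈ O1 := h12 (show (g x, g y) ∈ t1 ×ˢ t2 from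
      ⟨hBt1 h4.1, hBt2 h5.2⟩)
    rw [hgS.1.ker hφ, hgS.1.ker hφ] at h6
    exact Set.disjoint_left.mp hdis h6 hxy
  · have hu' : Lim (F : Filter (L → L)) u 1 := hu
    have h3 := hu' _ hV3 _ hV3
    obtain ⟨g, ⟨x, y, hxy, h4, h5⟩, hgS⟩ := (h3.and hF).exists
    apply hVU
    have e1 : ((1 : L), y) ∈ V2 := hVV3 ⟨g y, h5, hV3s.symm _ _ (hgS.2 y)⟩
    have e2 : (y, g x) ∈ V2 := hVV3 ⟨x, hV3s.symm _ _ hxy, hgS.2 x⟩
    have e3 : (g x, u) ∈ V2 := hVV3 ⟨u, hV3s.symm _ _ h4, refl_mem_uniformity hV3⟩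
    have e4 : ((1 : L), g x) ∈ V1 := hVV2 ⟨y, e1, e2⟩
    have e5 : (g x, u) ∈ V1 := hVV2 ⟨u, e3, refl_mem_uniformity hV2⟩
    exact hVV1 ⟨g x, e4, e5⟩

end unif

end Pool.Agent.MoufangHaar
end

section

set_option autoImplicit false
set_option linter.unusedSectionVars false

open Topology Uniformity

namespace Pool.Agent.MoufangHaar

section alg

variable {L : Type*} [MLoop L]

/-- value of a word of left translations -/
def ev (l : List L) (x : L) : L := l.foldr (fun a y => a * y) x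

theorem ev_nil (x : L) : ev [] x = x := rfl
theorem ev_cons (a : L) (l : List L) (x : L) : ev (a :: l) x = a * ev l x := rfl

theorem ev_append (l l' : List L) (x : L) : ev (l ++ l') x = ev l (ev l' x) := by
  induction l with
  | nil => rfl
  | cons a t ih => rw [List.cons_append, ev_cons, ev_cons, ih]

/-- iterated inversion -/
def sg (k : ℕ) (a : L) : L := (fun x : L => x⁻¹)^[k] a

theorem sg_mem {N : Set L} (h1 : ∀ a ∈ N, a⁻¹ ∈ N) (k : ℕ) : ∀ a ∈ N, sg k a ∈ N := by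
  induction k with
  | zero => exact fun a ha => ha
  | succ k ih =>
    intro a ha
    unfold sg at *
    rw [Function.iterate_succ_apply]
    exact ih _ (h1 a ha)

theorem move {N : Set L} (h1 : ∀ a ∈ N, a⁻¹ ∈ N) (h2 : ∀ a ∈ N, ∀ s ∈ N, (a * s) * a ∈ N)
    (l : List L) : ∀ a ∈ N, (∀ b ∈ l, b ∈ N) → ∃ l' : List L, l'.length = l.length ∧
      (∀ b ∈ l', b ∈ N) ∧ ∀ x, a * ev l x = ev l' (sg l.length a * x) := by
  induction l with
  | nil => exact fun a _ _ => ⟨[], rfl, by simp, fun x => rfl⟩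
  | cons s t ih =>
    intro a ha hl
    obtain ⟨t', ht', ht'N, H⟩ := ih a⁻¹ (h1 a ha) (fun b hb => hl b (List.mem_cons_of_mem _ hb))
    refine ⟨((a * s) * a) :: t', by simp [ht'], ?_, fun x => ?_⟩
    · intro b hb
      rcases List.mem_cons.mp hb with rfl | hb
      · exact h2 a ha s (hl s List.mem_cons_self)
      · exact ht'N b hb
    · have h3 := MLoop.moufang s (a⁻¹ * ev t x) a
      rw [MLoop.mul_inv_left, H] at h3
      rw [ev_cons, ev_cons, h3]
      rfl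

theorem two {N : Set L} (h1 : ∀ a ∈ N, a⁻¹ ∈ N) (h2 : ∀ a ∈ N, ∀ s ∈ N, (a * s) * a ∈ N)
    (l1 l2 l3 : List L) (a b : L) (ha : a ∈ N) (hb : b ∈ N) (hl1 : ∀ b ∈ l1, b ∈ N)
    (hl2 : ∀ b ∈ l2, b ∈ N) (hl3 : ∀ b ∈ l3, b ∈ N) (ho : Odd l2.length) :
    ∃ l' : List L, l'.length = l1.length + l2.length + l3.length ∧ (∀ b ∈ l', b ∈ N) ∧
      ∀ x, ev (l1 ++ a :: (l2 ++ b :: l3)) x =
        ev l' ((sg l3.length a)⁻¹ * (sg l3.length b * x)) := by
  obtain ⟨l3', h3, h3N, H3⟩ := move h1 h2 l3 b hb hl3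
  obtain ⟨l4, h4, h4N, H4⟩ := move h1 h2 (l2 ++ l3') a ha (fun c hc => by
    rcases List.mem_append.mp hc with hc | hc
    · exact hl2 c hc
    · exact h3N c hc)
  refine ⟨l1 ++ l4, by simp [h4, h3]; omega, ?_, fun x => ?_⟩
  · intro c hc
    rcases List.mem_append.mp hc with hc | hc
    · exact hl1 c hc
    · exact h4N c hc
  · have e1 : sg (l2 ++ l3').length a = (sg l3.length a)⁻¹ := by
      rw [List.length_append, h3]
      unfold sg
      rw [Function.iterate_add_apply]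
      have hinv : Function.Involutive (fun x : L => x⁻¹) := fun x => MLoop.inv_inv x
      rw [hinv.iterate_odd ho]
    rw [ev_append, ev_append, ev_cons, ev_append, ev_cons, H3, ← ev_append, H4, e1]

theorem ev_TN {N : Set L} (l : List L) (hl : ∀ b ∈ l, b ∈ N) : TN N (ev l) := by
  induction l with
  | nil => exact TN.id
  | cons a t ih =>
    exact TN.left a (hl a List.mem_cons_self) (ih fun b hb => hl b (List.mem_cons_of_mem _ hb))

end alg

section unif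

variable {L : Type*} [MLoop L] [UniformSpace L] [CompactSpace L] [T2Space L] [TopMLoop L]

theorem reduce_one {N : Set L} (h1 : ∀ a ∈ N, a⁻¹ ∈ N) (h2 : ∀ a ∈ N, ∀ s ∈ N, (a * s) * a ∈ N)
    {A : Set (L × L)} (hA : A ∈ 𝓤 L) :
    ∃ m : ℕ, ∀ l : List L, (∀ b ∈ l, b ∈ N) → m ≤ l.length → ∃ (l' : List L) (v : L → L),
      l'.length + 2 = l.length ∧ (∀ b ∈ l', b ∈ N) ∧ TN N v ∧ (∀ x, (x, v x) ∈ A) ∧
        ∀ x, ev l x = ev l' (v x) := by
  classical
  obtain ⟨B, hB, HB⟩ := small_D' (L := L) hA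
  have hinvu : UniformContinuous (fun x : L => x⁻¹) :=
    CompactSpace.uniformContinuous_of_continuous TopMLoop.cont_inv
  have hB' : B ∩ ((fun p : L × L => (p.1⁻¹, p.2⁻¹)) ⁻¹' B) ∈ 𝓤 L :=
    Filter.inter_mem hB (hinvu hB)
  obtain ⟨C, hC, hCs, hCC⟩ := comp_symm_mem_uniformity_sets hB'
  obtain ⟨t, _, htc⟩ := isCompact_univ.elim_nhds_subcover (fun x : L => {y | (x, y) ∈ C})
    (fun x _ => UniformSpace.ball_mem_nhds x hC)
  have hcell : ∀ x : L, ∃ i : t, (i.1, x) ∈ C := fun x => by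
    have h3 := htc (Set.mem_univ x)
    simp only [Set.mem_iUnion] at h3
    obtain ⟨i, hi, hix⟩ := h3
    exact ⟨⟨i, hi⟩, hix⟩
  choose cell hcell using hcell
  have hclose : ∀ a b : L, cell a = cell b →
      (a, b) ∈ B ∩ ((fun p : L × L => (p.1⁻¹, p.2⁻¹)) ⁻¹' B) := fun a b hab =>
    hCC ⟨(cell a).1, hCs.symm _ _ (hcell a), by rw [hab]; exact hcell b⟩
  refine ⟨2 * t.card + 1, fun l hl hlen => ?_⟩
  have hget : ∀ j : Fin (t.card + 1), 2 * j.1 < l.length := fun j => by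
    have := j.2
    omega
  obtain ⟨j, j', hne, hjj⟩ := Fintype.exists_ne_map_eq_of_card_lt
    (fun j : Fin (t.card + 1) => cell (l[2 * j.1]'(hget j))) (by simp)
  -- order the two positions
  obtain ⟨i, i', hii, hi', hpar, hcl⟩ : ∃ (i i' : ℕ) (hi : i < i') (hi' : i' < l.length),
      Odd (i' - i - 1) ∧ cell (l[i]'(hi.trans hi')) = cell l[i'] := by
    rcases lt_or_gt_of_ne (fun h3 => hne (Fin.ext h3) : j.1 ≠ j'.1) with h3 | h3
    · refine ⟨2 * j.1, 2 * j'.1, by omega, hget j', ⟨j'.1 - j.1 - 1, by omega⟩, hjj⟩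
    · refine ⟨2 * j'.1, 2 * j.1, by omega, hget j, ⟨j.1 - j'.1 - 1, by omega⟩, hjj.symm⟩
  have hi : i < l.length := hii.trans hi'
  set l1 := l.take i with hl1
  set l2 := (l.drop (i + 1)).take (i' - i - 1) with hl2
  set l3 := l.drop (i' + 1) with hl3
  have hsplit : l = l1 ++ l[i] :: (l2 ++ l[i'] :: l3) := by
    have e1 : l.drop (i + 1) = l2 ++ l.drop i' := by
      conv_lhs => rw [← List.take_append_drop (i' - i - 1) (l.drop (i + 1))]
      rw [List.drop_drop]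
      congr 2
      omega
    rw [hl3, ← List.drop_eq_getElem_cons hi', ← e1, ← List.drop_eq_getElem_cons hi,
      List.take_append_drop]
  have hlen2 : l2.length = i' - i - 1 := by
    rw [hl2, List.length_take, List.length_drop]
    omega
  obtain ⟨l', hl', hl'N, H⟩ := two h1 h2 l1 l2 l3 l[i] l[i'] (hl _ (List.getElem_mem hi))
    (hl _ (List.getElem_mem hi')) (fun b hb => hl b (List.mem_of_mem_take hb))
    (fun b hb => hl b (List.mem_of_mem_drop (List.mem_of_mem_take hb)))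
    (fun b hb => hl b (List.mem_of_mem_drop hb)) (by rw [hlen2]; exact hpar)
  have hcN : sg l3.length l[i] ∈ N := sg_mem h1 _ _ (hl _ (List.getElem_mem hi))
  have hdN : sg l3.length l[i'] ∈ N := sg_mem h1 _ _ (hl _ (List.getElem_mem hi'))
  refine ⟨l', fun x => (sg l3.length l[i])⁻¹ * (sg l3.length l[i'] * x), ?_, hl'N,
    TN.left _ (h1 _ hcN) (TN.left _ hdN TN.id), ?_, fun x => ?_⟩
  · rw [hl', hlen2, hl1, hl3, List.length_take, List.length_drop]
    omega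
  · apply HB
    have h3 := hclose _ _ hcl
    have hinv : Function.Involutive (fun x : L => x⁻¹) := fun x => MLoop.inv_inv x
    unfold sg
    rcases Nat.even_or_odd l3.length with h4 | h4
    · rw [hinv.iterate_even h4]
      exact h3.1
    · rw [hinv.iterate_odd h4]
      exact h3.2
  · rw [← H, ← hsplit]

theorem reduce_many {N : Set L} (h1 : ∀ a ∈ N, a⁻¹ ∈ N) (h2 : ∀ a ∈ N, ∀ s ∈ N, (a * s) * a ∈ N)
    (J : ℕ) : ∀ {A : Set (L × L)}, A ∈ 𝓤 L →
    ∃ m : ℕ, ∀ l : List L, (∀ b ∈ l, b ∈ N) → m ≤ l.length → ∃ (l' : List L) (v : L → L),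
      l'.length + 2 * J = l.length ∧ (∀ b ∈ l', b ∈ N) ∧ TN N v ∧ (∀ x, (x, v x) ∈ A) ∧
        ∀ x, ev l x = ev l' (v x) := by
  induction J with
  | zero =>
    intro A hA
    exact ⟨0, fun l hl _ => ⟨l, fun x => x, by simp, hl, TN.id,
      fun x => refl_mem_uniformity hA, fun x => rfl⟩⟩
  | succ J ih =>
    intro A hA
    obtain ⟨A1, hA1, _, hAA⟩ := comp_symm_mem_uniformity_sets hA
    obtain ⟨m1, H1⟩ := ih hA1
    obtain ⟨m2, H2⟩ := reduce_one h1 h2 hA1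
    refine ⟨m1 + m2 + 2 * J, fun l hl hlen => ?_⟩
    obtain ⟨l', v, e1, e2, e3, e4, e5⟩ := H1 l hl (by omega)
    obtain ⟨l'', v', f1, f2, f3, f4, f5⟩ := H2 l' e2 (by omega)
    refine ⟨l'', fun x => v' (v x), by omega, f2, f3.comp e3, fun x => ?_, fun x => ?_⟩
    · exact hAA ⟨v x, e4 x, f4 (v x)⟩
    · rw [e5, f5]

end unif

end Pool.Agent.MoufangHaar
end
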