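import Mathlib

section

set_option autoImplicit false
set_option linter.unusedSectionVars false

open scoped Pointwise

namespace Pool.Agent.MoufangHaar.Pack

variable {G : Type*} [Group G]

/-- left separated finite sets -/
def Sep (W : Set G) (F : Finset G) : Prop := ∀ s ∈ F, ∀ t ∈ F, s⁻¹ * t ∈ W → s = t

/-- the cardinalities of separated finite subsets -/
def cards (S W : Set G) : Set ℕ := {n | ∃ F : Finset G, (F : Set G) ⊆ S ∧ Sep W F ∧ F.card = n}

/-- packing number -/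
noncomputable def P (S W : Set G) : ℕ := sSup (cards S W)

theorem P_le {S W : Set G} (h : BddAbove (cards S W)) {F : Finset G} (hF : (F : Set G) ⊆ S)
    (hs : Sep W F) : F.card ≤ P S W := le_csSup h ⟨F, hF, hs, rfl⟩

theorem P_spec {S W : Set G} (h : BddAbove (cards S W)) :
    ∃ F : Finset G, (F : Set G) ⊆ S ∧ Sep W F ∧ F.card = P S W :=
  Nat.sSup_mem (s := cards S W) ⟨0, ⟨∅, by simp, by intro s hs; simp at hs, rfl⟩⟩ h

theorem cards_mono {S S' W : Set G} (h : S ⊆ S') : cards S W ⊆ cards S' W := by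
  rintro n ⟨F, h1, h2, h3⟩
  exact ⟨F, h1.trans h, h2, h3⟩

theorem P_mono {S S' W : Set G} (h : S ⊆ S') (hb : BddAbove (cards S' W)) : P S W ≤ P S' W := by
  obtain ⟨F, h1, h2, h3⟩ := P_spec (hb.mono (cards_mono h))
  rw [← h3]
  exact P_le hb (h1.trans h) h2

theorem exists_cover {S W : Set G} (h : BddAbove (cards S W)) (h1 : (1 : G) ∈ W)
    (hW : ∀ w ∈ W, w⁻¹ ∈ W) : ∃ F : Finset G, (F : Set G) ⊆ S ∧ Sep W F ∧ F.card = P S W ∧
      ∀ g ∈ S, ∃ y ∈ F, y⁻¹ * g ∈ W := by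
  classical
  obtain ⟨F, hF, hs, hc⟩ := P_spec h
  refine ⟨F, hF, hs, hc, fun g hg => ?_⟩
  by_contra hcon
  push Not at hcon
  have hgF : g ∉ F := fun hgF => hcon g hgF (by rw [inv_mul_cancel]; exact h1)
  have h2 : Sep W (insert g F) := by
    intro s hs' t ht hst
    rcases Finset.mem_insert.mp hs' with h4 | h4
    · rcases Finset.mem_insert.mp ht with h5 | h5
      · rw [h4, h5]
      · exfalso
        apply hcon t h5
        have := hW _ hst
        rwa [mul_inv_rev, inv_inv, h4] at this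
    · rcases Finset.mem_insert.mp ht with h5 | h5
      · rw [h5] at hst
        exact absurd hst (hcon s h4)
      · exact hs s h4 t h5 hst
  have h3 := P_le h (F := insert g F) (by
    intro x hx
    rcases Finset.mem_insert.mp (Finset.mem_coe.mp hx) with rfl | hx
    · exact hg
    · exact hF hx) h2
  rw [Finset.card_insert_of_notMem hgF] at h3
  omega

/-- separated sets inside a left translate -/
theorem card_le_translate {U W : Set G} (h : BddAbove (cards U W)) (a : G) {F : Finset G}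
    (hF : ∀ x ∈ F, a⁻¹ * x ∈ U) (hs : Sep W F) : F.card ≤ P U W := by
  classical
  have h1 : (F.image (fun x => a⁻¹ * x)).card = F.card :=
    Finset.card_image_of_injective _ (mul_right_injective a⁻¹)
  rw [← h1]
  refine P_le h (fun x hx => ?_) ?_
  · obtain ⟨y, hy, rfl⟩ := Finset.mem_image.mp (Finset.mem_coe.mp hx)
    exact hF y hy
  · intro s hs' t ht hst
    obtain ⟨x, hx, rfl⟩ := Finset.mem_image.mp hs'
    obtain ⟨y, hy, rfl⟩ := Finset.mem_image.mp ht
    have h2 : (a⁻¹ * x)⁻¹ * (a⁻¹ * y) = x⁻¹ * y := by group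
    rw [h2] at hst
    rw [hs x hx y hy hst]

/-- the growth inequality -/
theorem growth {A U W : Set G} (h1U : (1 : G) ∈ U) (hUi : ∀ u ∈ U, u⁻¹ ∈ U) (h1W : (1 : G) ∈ W)
    (hWU : W ⊆ U)
    {Y : Finset G} (hY : ∀ g ∈ U * U * U * U * U, ∃ y ∈ Y, y⁻¹ * g ∈ U)
    (hbA : BddAbove (cards A (U * U * U))) (hbU : BddAbove (cards U W))
    (hbAU : BddAbove (cards (A * U) W)) {F : Finset G} (hF : (F : Set G) ⊆ A * U * U)
    (hs : Sep W F) : F.card ≤ Y.card * P (A * U) W := by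
  classical
  have h1Z : (1 : G) ∈ U * U * U := by
    have := Set.mul_mem_mul (Set.mul_mem_mul h1U h1U) h1U
    simpa using this
  obtain ⟨X, hXA, hXs, _, hXc⟩ := exists_cover hbA h1Z (by
    rintro _ ⟨_, ⟨u, hu, v, hv, rfl⟩, w, hw, rfl⟩
    refine ⟨w⁻¹ * v⁻¹, ⟨w⁻¹, hUi w hw, v⁻¹, hUi v hv, rfl⟩, u⁻¹, hUi u hu, ?_⟩
    simp only
    group)
  obtain ⟨V, hVU, hVs, hVc⟩ := P_spec hbU
  -- lower bound
  have hlow : X.card * P U W ≤ P (A * U) W := by
    have h2 : ∀ x ∈ X, ∀ y ∈ X, ∀ v ∈ V, ∀ w ∈ V, (x * v)⁻¹ * (y * w) ∈ W → x = y ∧ v = w := by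
      intro x hx y hy v hv w hw h
      have hxy : x = y := by
        refine hXs x hx y hy ?_
        refine ⟨v * ((x * v)⁻¹ * (y * w)), ⟨v, hVU hv, _, hWU h, rfl⟩, w⁻¹, hUi w (hVU hw), ?_⟩
        simp only
        group
      subst hxy
      refine ⟨rfl, hVs v hv w hw ?_⟩
      have h3 : (x * v)⁻¹ * (x * w) = v⁻¹ * w := by group
      rwa [h3] at h
    have hcard : ((X ×ˢ V).image (fun p => p.1 * p.2)).card = X.card * P U W := by
      rw [Finset.card_image_of_injOn, Finset.card_product, hVc]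
      rintro ⟨x, v⟩ hxv ⟨y, w⟩ hyw hxy
      simp only [Finset.coe_product, Set.mem_prod, Finset.mem_coe] at hxv hyw hxy
      have := h2 x hxv.1 y hyw.1 v hxv.2 w hyw.2 (by rw [hxy, inv_mul_cancel]; exact h1W)
      exact Prod.ext this.1 this.2
    rw [← hcard]
    refine P_le hbAU (fun z hz => ?_) ?_
    · obtain ⟨p, hp, rfl⟩ := Finset.mem_image.mp (Finset.mem_coe.mp hz)
      exact ⟨p.1, hXA (Finset.mem_product.mp hp).1, p.2, hVU (Finset.mem_product.mp hp).2, rfl⟩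
    · intro s hs' t ht hst
      obtain ⟨p, hp, rfl⟩ := Finset.mem_image.mp hs'
      obtain ⟨q, hq, rfl⟩ := Finset.mem_image.mp ht
      have := h2 p.1 (Finset.mem_product.mp hp).1 q.1 (Finset.mem_product.mp hq).1 p.2
        (Finset.mem_product.mp hp).2 q.2 (Finset.mem_product.mp hq).2 hst
      rw [this.1, this.2]
  -- upper bound
  have hcode : ∀ f ∈ F, ∃ p : G × G, p.1 ∈ X ∧ p.2 ∈ Y ∧ p.2⁻¹ * (p.1⁻¹ * f) ∈ U := by
    intro f hf
    obtain ⟨_, ⟨a, ha, u, hu, rfl⟩, v, hv, hf'⟩ := hF (Finset.mem_coe.mpr hf)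
    obtain ⟨x, hx, hxa⟩ := hXc a ha
    obtain ⟨y, hy, hyf⟩ := hY (x⁻¹ * f) (by
      refine ⟨x⁻¹ * a * u, ⟨x⁻¹ * a, hxa, u, hu, rfl⟩, v, hv, ?_⟩
      simp only at hf' ⊢
      rw [← hf']
      group)
    exact ⟨(x, y), hx, hy, hyf⟩
  choose! code hc1 hc2 hc3 using hcode
  have hup := Finset.card_le_mul_card_image_of_maps_to (s := F) (t := X ×ˢ Y) (f := code)
    (fun f hf => Finset.mem_product.mpr ⟨hc1 f hf, hc2 f hf⟩) (P U W) (by
      intro p hp
      refine card_le_translate hbU (p.1 * p.2) (fun x hx => ?_) ?_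
      · obtain ⟨hx1, hx2⟩ := Finset.mem_filter.mp hx
        have h3 := hc3 x hx1
        rw [hx2] at h3
        have h4 : (p.1 * p.2)⁻¹ * x = p.2⁻¹ * (p.1⁻¹ * x) := by group
        rw [h4]
        exact h3
      · intro s hs' t ht hst
        exact hs s (Finset.mem_filter.mp hs').1 t (Finset.mem_filter.mp ht).1 hst)
  rw [Finset.card_product] at hup
  calc F.card ≤ P U W * (X.card * Y.card) := hup
    _ = Y.card * (X.card * P U W) := by ring
    _ ≤ Y.card * P (A * U) W := Nat.mul_le_mul_left _ hlow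

/-- Hall's theorem for almost maximal separated sets: sums over a maximal separated set and a
translate of it almost agree. -/
theorem sum_le {W : Set G} (h1W : (1 : G) ∈ W) (hW : ∀ w ∈ W, w⁻¹ ∈ W) {A : Set G} (hb : BddAbove (cards A W))
    {S S' : Finset G} (hS : (S : Set G) ⊆ A) (hS' : (S' : Set G) ⊆ A) (hs : Sep W S)
    (hs' : Sep W S') (e : ℕ) (he : P A W ≤ S'.card + e) (F : G → ℝ) (K δ : ℝ)
    (hF0 : ∀ x, 0 ≤ F x) (hFK : ∀ x, F x ≤ K)
    (hF : ∀ s ∈ S, ∀ t ∈ S', s⁻¹ * t ∈ W → F s ≤ F t + δ) (hδ : 0 ≤ δ) :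
    ∑ s ∈ S, F s ≤ ∑ t ∈ S', F t + δ * S'.card + K * e := by
  classical
  -- the neighbours
  let N : G → Finset G := fun s => S'.filter (fun t => s⁻¹ * t ∈ W)
  let T : S → Finset (G ⊕ Fin e) := fun s => (N s.1).disjSum Finset.univ
  have hall : ∀ X : Finset S, X.card ≤ (X.biUnion T).card := by
    intro X
    rcases X.eq_empty_or_nonempty with rfl | hX
    · simp
    · let X' : Finset G := X.image Subtype.val
      have hX'c : X'.card = X.card := Finset.card_image_of_injective _ Subtype.val_injective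
      have hX'S : ∀ x ∈ X', x ∈ S := by
        intro x hx
        obtain ⟨y, _, rfl⟩ := Finset.mem_image.mp hx
        exact y.2
      let NX : Finset G := X'.biUnion N
      have h1 : X.biUnion T = NX.disjSum Finset.univ := by
        ext z
        rcases z with z | z
        · simp only [Finset.mem_biUnion, Finset.inl_mem_disjSum, T, NX, X', Finset.mem_image]
          constructor
          · rintro ⟨a, ha, hz⟩
            exact ⟨a.1, ⟨a, ha, rfl⟩, hz⟩
          · rintro ⟨_, ⟨a, ha, rfl⟩, hz⟩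
            exact ⟨a, ha, hz⟩
        · obtain ⟨a, ha⟩ := hX
          simp only [Finset.mem_biUnion, Finset.inr_mem_disjSum, T, Finset.mem_univ, and_true,
            iff_true]
          exact ⟨a, ha⟩
      rw [h1, Finset.card_disjSum, Finset.card_univ, Fintype.card_fin]
      -- the modified set
      have h2 : Sep W ((S' \ NX) ∪ X') := by
        intro s hs1 t ht1 hst
        rcases Finset.mem_union.mp hs1 with hs2 | hs2
        · rcases Finset.mem_union.mp ht1 with ht2 | ht2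
          · exact hs' s (Finset.mem_sdiff.mp hs2).1 t (Finset.mem_sdiff.mp ht2).1 hst
          · exfalso
            apply (Finset.mem_sdiff.mp hs2).2
            refine Finset.mem_biUnion.mpr ⟨t, ht2, Finset.mem_filter.mpr
              ⟨(Finset.mem_sdiff.mp hs2).1, ?_⟩⟩
            have := hW _ hst
            rwa [mul_inv_rev, inv_inv] at this
        · rcases Finset.mem_union.mp ht1 with ht2 | ht2
          · exfalso
            apply (Finset.mem_sdiff.mp ht2).2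
            exact Finset.mem_biUnion.mpr ⟨s, hs2, Finset.mem_filter.mpr
              ⟨(Finset.mem_sdiff.mp ht2).1, hst⟩⟩
          · exact hs s (hX'S s hs2) t (hX'S t ht2) hst
      have h3 : Disjoint (S' \ NX) X' := by
        rw [Finset.disjoint_left]
        intro x hx hx'
        apply (Finset.mem_sdiff.mp hx).2
        exact Finset.mem_biUnion.mpr ⟨x, hx', Finset.mem_filter.mpr
          ⟨(Finset.mem_sdiff.mp hx).1, by rw [inv_mul_cancel]; exact h1W⟩⟩
      have h4 : NX ⊆ S' := by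
        intro x hx
        obtain ⟨y, _, hy⟩ := Finset.mem_biUnion.mp hx
        exact (Finset.mem_filter.mp hy).1
      have h5 := P_le hb (F := (S' \ NX) ∪ X') (by
        intro x hx
        rcases Finset.mem_union.mp (Finset.mem_coe.mp hx) with hx | hx
        · exact hS' (Finset.mem_sdiff.mp hx).1
        · exact hS (hX'S x hx)) h2
      rw [Finset.card_union_of_disjoint h3, Finset.card_sdiff_of_subset h4, hX'c] at h5
      have h6 := Finset.card_le_card h4
      omega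
  obtain ⟨f, hfi, hf⟩ := (Finset.all_card_le_biUnion_card_iff_exists_injective T).mp hall
  let ψ : G ⊕ Fin e → ℝ := Sum.elim (fun t => F t + δ) (fun _ => K)
  have hψ0 : ∀ z, 0 ≤ ψ z := by
    rintro (z | z)
    · change 0 ≤ F z + δ
      linarith [hF0 z]
    · exact (hF0 1).trans (hFK 1)
  have h1 : ∑ s ∈ S, F s ≤ ∑ s : S, ψ (f s) := by
    rw [← Finset.sum_coe_sort S F]
    refine Finset.sum_le_sum fun s _ => ?_
    have h2 := hf s
    rcases hz : f s with z | z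
    · rw [hz] at h2
      have h3 := Finset.mem_filter.mp (Finset.inl_mem_disjSum.mp h2)
      exact hF s.1 s.2 z h3.1 h3.2
    · exact hFK _
  have h2 : ∑ s : S, ψ (f s) ≤ ∑ z ∈ S'.disjSum (Finset.univ : Finset (Fin e)), ψ z := by
    rw [← Finset.sum_image (s := Finset.univ) (g := f) (f := ψ) hfi.injOn]
    refine Finset.sum_le_sum_of_subset_of_nonneg ?_ fun z _ _ => hψ0 z
    intro z hz
    obtain ⟨s, _, rfl⟩ := Finset.mem_image.mp hz
    have h2 := hf s
    rcases hz : f s with z | z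
    · rw [hz] at h2
      exact Finset.inl_mem_disjSum.mpr (Finset.mem_filter.mp (Finset.inl_mem_disjSum.mp h2)).1
    · exact Finset.inr_mem_disjSum.mpr (Finset.mem_univ _)
  refine h1.trans (h2.trans (le_of_eq ?_))
  rw [Finset.sum_disjSum]
  simp only [ψ, Sum.elim_inl, Sum.elim_inr, Finset.sum_add_distrib, Finset.sum_const,
    Finset.card_univ, Fintype.card_fin, nsmul_eq_mul]
  ring

end Pool.Agent.MoufangHaar.Pack
end

section

set_option autoImplicit false
set_option linter.unusedSectionVars false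

open scoped Pointwise

namespace Pool.Agent.MoufangHaar.Pack

variable {G : Type*} [Group G]

/-- the scales -/
structure Good (T U W : Set G) : Prop where
  one : (1 : G) ∈ W
  inv : ∀ w ∈ W, w⁻¹ ∈ W
  sub : W ⊆ U
  bdd : ∀ n : ℕ, BddAbove (cards (T ^ n * U) W)

theorem growth_rate {T U : Set G} (h1T : (1 : G) ∈ T) (h1U : (1 : G) ∈ U)
    (hUi : ∀ u ∈ U, u⁻¹ ∈ U) {Y : Finset G} (hY : ∀ g ∈ U * U * U * U * U, ∃ y ∈ Y, y⁻¹ * g ∈ U)
    (hbT : ∀ n : ℕ, BddAbove (cards (T ^ n) (U * U * U)))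
    (hJ : ∀ J : ℕ, ∃ n : ℕ, 2 * J ≤ n ∧ T ^ n ⊆ T ^ (n - 2 * J) * U) {η : ℝ} (hη : 0 < η) :
    ∃ n₀ : ℕ, ∀ W : Set G, Good T U W →
      ∃ n < n₀, (P (T ^ (n + 1) * U) W : ℝ) ≤ (1 + η) * P (T ^ n * U) W := by
  obtain ⟨J, hJC⟩ := pow_unbounded_of_one_lt (Y.card : ℝ) (show 1 < (1 + η) ^ 2 by nlinarith)
  obtain ⟨n, h2J, hn⟩ := hJ J
  refine ⟨n, fun W hW => ?_⟩
  by_contra hcon
  push Not at hcon
  have hbU : BddAbove (cards U W) := by
    have := hW.bdd 0
    rwa [pow_zero, one_mul] at this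
  -- growth inequality
  have h1 : P (T ^ n * U) W ≤ Y.card * P (T ^ (n - 2 * J) * U) W := by
    obtain ⟨F, hF, hs, hc⟩ := P_spec (hW.bdd n)
    rw [← hc]
    refine growth h1U hUi hW.one hW.sub hY (hbT _) hbU (hW.bdd _) (hF.trans ?_) hs
    exact Set.mul_subset_mul_right hn
  have hpos : 0 < P (T ^ (n - 2 * J) * U) W := by
    have h2 := P_le (hW.bdd (n - 2 * J)) (F := {1}) (by
      intro x hx
      have hx1 : x = 1 := by simpa using hx
      subst hx1
      exact ⟨1, Set.one_mem_pow h1T, 1, h1U, one_mul 1⟩) (by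
      intro s hs t ht _
      rw [Finset.mem_singleton.mp hs, Finset.mem_singleton.mp ht])
    rw [Finset.card_singleton] at h2
    omega
  have h3 : ∀ i : ℕ, n - 2 * J + i ≤ n →
      (1 + η) ^ i * (P (T ^ (n - 2 * J) * U) W : ℝ) ≤ P (T ^ (n - 2 * J + i) * U) W := by
    intro i
    induction i with
    | zero => intro _; simp
    | succ i ih =>
      intro hi
      have h4 := ih (by omega)
      have h5 := hcon (n - 2 * J + i) (by omega)
      have h6 : (1 + η) ^ (i + 1) * (P (T ^ (n - 2 * J) * U) W : ℝ) =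
          (1 + η) * ((1 + η) ^ i * (P (T ^ (n - 2 * J) * U) W : ℝ)) := by ring
      rw [h6]
      refine (mul_le_mul_of_nonneg_left h4 (by linarith)).trans ?_
      exact h5.le
  have h4 := h3 (2 * J) (by omega)
  have h5 : n - 2 * J + 2 * J = n := by omega
  rw [h5, pow_mul] at h4
  have h6 : (P (T ^ n * U) W : ℝ) ≤ (Y.card : ℝ) * P (T ^ (n - 2 * J) * U) W := by
    exact_mod_cast h1
  have h7 : (0 : ℝ) < P (T ^ (n - 2 * J) * U) W := by exact_mod_cast hpos
  nlinarith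

theorem folner {T U : Set G} (h1T : (1 : G) ∈ T) (h1U : (1 : G) ∈ U)
    (hUi : ∀ u ∈ U, u⁻¹ ∈ U) {Y : Finset G} (hY : ∀ g ∈ U * U * U * U * U, ∃ y ∈ Y, y⁻¹ * g ∈ U)
    (hbT : ∀ n : ℕ, BddAbove (cards (T ^ n) (U * U * U)))
    (hJ : ∀ J : ℕ, ∃ n : ℕ, 2 * J ≤ n ∧ T ^ n ⊆ T ^ (n - 2 * J) * U) {η : ℝ} (hη : 0 < η) :
    ∃ n₀ : ℕ, ∀ W : Set G, Good T U W → ∃ S : Finset G, S.Nonempty ∧
      (S : Set G) ⊆ T ^ n₀ * U ∧ ∀ a ∈ T, ∀ (F : G → ℝ) (K δ : ℝ), (∀ x, 0 ≤ F x) →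
        (∀ x, F x ≤ K) → 0 ≤ δ → (∀ s ∈ T ^ n₀ * U, ∀ t ∈ T ^ n₀ * U, s⁻¹ * t ∈ W →
          |F s - F t| ≤ δ) →
        |∑ s ∈ S, F (a * s) - ∑ s ∈ S, F s| ≤ (δ + K * η) * S.card := by
  classical
  obtain ⟨n₀, H⟩ := growth_rate h1T h1U hUi hY hbT hJ hη
  refine ⟨n₀, fun W hW => ?_⟩
  obtain ⟨n, hn, hg⟩ := H W hW
  have hmono : ∀ m k : ℕ, m ≤ k → T ^ m * U ⊆ T ^ k * U := fun m k hmk =>
    Set.mul_subset_mul_right (Set.pow_subset_pow_right h1T hmk)
  obtain ⟨S, hS, hs, hc⟩ := P_spec (hW.bdd n)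
  have hSne : S.Nonempty := by
    rw [← Finset.card_pos, hc]
    have h2 := P_le (hW.bdd n) (F := {1}) (by
      intro x hx
      have hx1 : x = 1 := by simpa using hx
      subst hx1
      exact ⟨1, Set.one_mem_pow h1T, 1, h1U, one_mul 1⟩) (by
      intro s hs t ht _
      rw [Finset.mem_singleton.mp hs, Finset.mem_singleton.mp ht])
    rw [Finset.card_singleton] at h2
    omega
  refine ⟨S, hSne, hS.trans (hmono _ _ hn.le), fun a ha F K δ hF0 hFK hδ hF => ?_⟩
  have hinj : Function.Injective (fun s : G => a * s) := mul_right_injective a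
  let S' : Finset G := S.image (fun s => a * s)
  have hS'c : S'.card = S.card := Finset.card_image_of_injective _ hinj
  have hsum : ∑ s ∈ S, F (a * s) = ∑ t ∈ S', F t :=
    (Finset.sum_image (f := F) (g := fun s => a * s) hinj.injOn).symm
  have hS'A : (S' : Set G) ⊆ T ^ (n + 1) * U := by
    intro x hx
    obtain ⟨s, hs', rfl⟩ := Finset.mem_image.mp (Finset.mem_coe.mp hx)
    obtain ⟨t, ht, u, hu, rfl⟩ := hS hs'
    refine ⟨a * t, ?_, u, hu, by simp only [mul_assoc]⟩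
    rw [pow_succ']
    exact Set.mul_mem_mul ha ht
  have hSA : (S : Set G) ⊆ T ^ (n + 1) * U := hS.trans (hmono _ _ (Nat.le_succ n))
  have hs' : Sep W S' := by
    intro x hx y hy hxy
    obtain ⟨s, hs1, rfl⟩ := Finset.mem_image.mp hx
    obtain ⟨t, ht1, rfl⟩ := Finset.mem_image.mp hy
    have h2 : (a * s)⁻¹ * (a * t) = s⁻¹ * t := by group
    rw [h2] at hxy
    rw [hs s hs1 t ht1 hxy]
  let e : ℕ := P (T ^ (n + 1) * U) W - S.card
  have he : P (T ^ (n + 1) * U) W ≤ S.card + e := by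
    change _ ≤ S.card + (P (T ^ (n + 1) * U) W - S.card)
    omega
  have hle : S.card ≤ P (T ^ (n + 1) * U) W := P_le (hW.bdd (n + 1)) hSA hs
  have heη : (e : ℝ) ≤ η * S.card := by
    have h2 : (e : ℝ) = P (T ^ (n + 1) * U) W - S.card := by
      change ((P (T ^ (n + 1) * U) W - S.card : ℕ) : ℝ) = _
      rw [Nat.cast_sub hle]
    rw [h2]
    rw [← hc] at hg
    linarith
  have hK : 0 ≤ K := (hF0 1).trans (hFK 1)
  have hT : T ^ (n + 1) * U ⊆ T ^ n₀ * U := hmono _ _ hn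
  have hclose : ∀ s ∈ T ^ (n + 1) * U, ∀ t ∈ T ^ (n + 1) * U, s⁻¹ * t ∈ W → |F s - F t| ≤ δ :=
    fun s hs1 t ht1 => hF s (hT hs1) t (hT ht1)
  have e1 := sum_le hW.one hW.inv (hW.bdd (n + 1)) hSA hS'A hs hs' e (by rw [hS'c]; exact he) F K δ
    hF0 hFK (fun s hs1 t ht1 hst => by
      have := (abs_le.mp (hclose s (hSA hs1) t (hS'A ht1) hst)).2
      linarith) hδ
  have e2 := sum_le hW.one hW.inv (hW.bdd (n + 1)) hS'A hSA hs' hs e he F K δ
    hF0 hFK (fun s hs1 t ht1 hst => by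
      have := (abs_le.mp (hclose s (hS'A hs1) t (hSA ht1) hst)).2
      linarith) hδ
  rw [hsum]
  rw [hS'c] at e1
  have h8 : K * e ≤ K * (η * S.card) := mul_le_mul_of_nonneg_left heη hK
  rw [abs_le]
  constructor <;> nlinarith

end Pool.Agent.MoufangHaar.Pack
end

section

set_option autoImplicit false
set_option linter.unusedSectionVars false

open scoped Pointwise
open Topology Uniformity

namespace Pool.Agent.MoufangHaar.Pack

variable {G X : Type*} [Group G] [UniformSpace X] [MulAction G X]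

/-- equicontinuous sets of group elements -/
def EquiG (X : Type*) [UniformSpace X] [MulAction G X] (S : Set G) : Prop :=
  ∀ B ∈ 𝓤 X, ∃ A ∈ 𝓤 X, ∀ g ∈ S, ∀ x y : X, (x, y) ∈ A → (g • x, g • y) ∈ B

/-- group elements moving points by a small amount -/
def Small (G : Type*) [Group G] [MulAction G X] (B : Set (X × X)) : Set G :=
  {g | ∀ x : X, (x, g • x) ∈ B}

theorem EquiG.mono {S S' : Set G} (h : EquiG X S') (hS : S ⊆ S') : EquiG X S := fun B hB => by
  obtain ⟨A, hA, H⟩ := h B hB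
  exact ⟨A, hA, fun g hg => H g (hS hg)⟩

theorem EquiG.mul {S S' : Set G} (h : EquiG X S) (h' : EquiG X S') : EquiG X (S * S') := by
  intro B hB
  obtain ⟨A, hA, H⟩ := h B hB
  obtain ⟨A', hA', H'⟩ := h' A hA
  refine ⟨A', hA', ?_⟩
  rintro _ ⟨g, hg, g', hg', rfl⟩ x y hxy
  simp only [mul_smul]
  exact H g hg _ _ (H' g' hg' x y hxy)

theorem EquiG.pow {S : Set G} (h : EquiG X S) (n : ℕ) : EquiG X (S ^ n) := by
  induction n with
  | zero =>
    intro B hB
    refine ⟨B, hB, fun g hg x y hxy => ?_⟩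
    have hg1 : g = 1 := by simpa using hg
    rw [hg1, one_smul, one_smul]
    exact hxy
  | succ n ih =>
    rw [pow_succ]
    exact ih.mul h

/-- equicontinuous sets are totally bounded -/
theorem bdd_cards [CompactSpace X] {S : Set G} (hS : EquiG X S⁻¹) {B : Set (X × X)}
    (hB : B ∈ 𝓤 X) {W : Set G} (hW : Small G B ⊆ W) : BddAbove (cards S W) := by
  classical
  obtain ⟨B1, hB1, hB1s, hBB1⟩ := comp_symm_mem_uniformity_sets hB
  obtain ⟨B2, hB2, hB2s, hBB2⟩ := comp_symm_mem_uniformity_sets hB1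
  obtain ⟨A, hA, H⟩ := hS B2 hB2
  obtain ⟨t, _, htc⟩ := isCompact_univ.elim_nhds_subcover (fun x : X => {y | (x, y) ∈ A})
    (fun x _ => UniformSpace.ball_mem_nhds x hA)
  obtain ⟨u, _, huc⟩ := isCompact_univ.elim_nhds_subcover (fun x : X => {y | (x, y) ∈ B2})
    (fun x _ => UniformSpace.ball_mem_nhds x hB2)
  have ht : ∀ x : X, ∃ i : t, (i.1, x) ∈ A := fun x => by
    have h3 := htc (Set.mem_univ x)
    simp only [Set.mem_iUnion] at h3
    obtain ⟨i, hi, hix⟩ := h3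
    exact ⟨⟨i, hi⟩, hix⟩
  have hu : ∀ x : X, ∃ i : u, (i.1, x) ∈ B2 := fun x => by
    have h3 := huc (Set.mem_univ x)
    simp only [Set.mem_iUnion] at h3
    obtain ⟨i, hi, hix⟩ := h3
    exact ⟨⟨i, hi⟩, hix⟩
  choose cell hcell using hu
  let code : G → (t → u) := fun g i => cell (g⁻¹ • i.1)
  refine ⟨Fintype.card (t → u), ?_⟩
  rintro n ⟨F, hF, hs, rfl⟩
  have hinj : Set.InjOn code F := by
    intro g hg h hh hgh
    refine hs g hg h hh (hW fun y => ?_)
    obtain ⟨i, hi⟩ := ht (h • y)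
    have e1 : (g⁻¹ • i.1, g⁻¹ • h • y) ∈ B2 := H g⁻¹ (Set.inv_mem_inv.mpr (hF hg)) _ _ hi
    have e2 : (h⁻¹ • i.1, h⁻¹ • h • y) ∈ B2 := H h⁻¹ (Set.inv_mem_inv.mpr (hF hh)) _ _ hi
    rw [inv_smul_smul] at e2
    have e3 : (y, ((code h i).1 : X)) ∈ B1 := hBB2 ⟨h⁻¹ • i.1, hB2s.symm _ _ e2,
      hB2s.symm _ _ (hcell _)⟩
    have e4 : (((code h i).1 : X), g⁻¹ • h • y) ∈ B1 := by
      refine hBB2 ⟨g⁻¹ • i.1, ?_, e1⟩
      rw [← hgh]
      exact hcell _
    rw [mul_smul]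
    exact hBB1 ⟨_, e3, e4⟩
  have h1 : (F.image code).card = F.card := Finset.card_image_of_injOn hinj
  rw [← h1]
  exact Finset.card_le_univ _

theorem Small.inv {B : Set (X × X)} (hB : ∀ x y, (x, y) ∈ B → (y, x) ∈ B) :
    ∀ g ∈ Small G B, g⁻¹ ∈ Small G B := by
  intro g hg x
  have h1 := hB _ _ (hg (g⁻¹ • x))
  rwa [smul_inv_smul] at h1

/-- the Følner property for groups generated by a twisted equicontinuous set -/
theorem folnerX [CompactSpace X] {T : Set G} (h1T : (1 : G) ∈ T)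
    (hTi : ∀ t ∈ T, t⁻¹ ∈ T) (hT : EquiG X T) {A₀ : Set (X × X)} (hA₀ : A₀ ∈ 𝓤 X)
    (hA₀s : ∀ x y, (x, y) ∈ A₀ → (y, x) ∈ A₀) (hU : EquiG X (Small G A₀))
    (hJ : ∀ J : ℕ, ∃ n : ℕ, 2 * J ≤ n ∧ T ^ n ⊆ T ^ (n - 2 * J) * Small G A₀)
    {η : ℝ} (hη : 0 < η) (x₀ : X) {B : Set (X × X)} (hB : B ∈ 𝓤 X) :
    ∃ S : Finset G, S.Nonempty ∧ ∀ a ∈ T, ∀ (F : G → ℝ) (K δ : ℝ), (∀ x, 0 ≤ F x) →
      (∀ x, F x ≤ K) → 0 ≤ δ → (∀ s t, (s • x₀, t • x₀) ∈ B → |F s - F t| ≤ δ) →
        |∑ s ∈ S, F (a * s) - ∑ s ∈ S, F s| ≤ (δ + K * η) * S.card := by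
  set U : Set G := Small G A₀ with hUdef
  have h1U : (1 : G) ∈ U := fun x => by
    rw [one_smul]
    exact refl_mem_uniformity hA₀
  have hUi : ∀ u ∈ U, u⁻¹ ∈ U := Small.inv hA₀s
  have hUinv : U⁻¹ = U := by
    ext g
    refine ⟨fun h => ?_, fun h => hUi g h⟩
    have := hUi _ h
    rwa [inv_inv] at this
  have hTinv : T⁻¹ = T := by
    ext g
    refine ⟨fun h => ?_, fun h => hTi g h⟩
    have := hTi _ h
    rwa [inv_inv] at this
  have hTn : ∀ n : ℕ, (T ^ n)⁻¹ = T ^ n := fun n => by rw [← inv_pow, hTinv]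
  have hU5 : EquiG X (U * U * U * U * U)⁻¹ := by
    rw [mul_inv_rev, mul_inv_rev, mul_inv_rev, mul_inv_rev, hUinv]
    exact hU.mul (hU.mul (hU.mul (hU.mul hU)))
  obtain ⟨Y, _, _, _, hY⟩ := exists_cover (bdd_cards hU5 hA₀ (W := U) subset_rfl) h1U hUi
  obtain ⟨n₀, H⟩ := folner h1T h1U hUi hY (fun n => by
    refine bdd_cards (X := X) (B := A₀) ?_ hA₀ ?_
    · rw [hTn]
      exact hT.pow n
    · intro u hu
      refine ⟨u * 1, ⟨u, hu, 1, h1U, rfl⟩, 1, h1U, ?_⟩
      simp) hJ hη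
  -- the scale
  have hTU : EquiG X (T ^ n₀ * U) := (hT.pow n₀).mul hU
  obtain ⟨A, hA, HA⟩ := hTU B hB
  obtain ⟨A1, hA1, hA1s, hA1A⟩ : ∃ A1 ∈ 𝓤 X, SetRel.IsSymm A1 ∧ A1 ⊆ A ∩ A₀ :=
    symm_of_uniformity (Filter.inter_mem hA hA₀)
  obtain ⟨S, hSne, hS, HS⟩ := H (Small G A1) ⟨fun x => by
      rw [one_smul]
      exact refl_mem_uniformity hA1, Small.inv fun x y h => hA1s.symm _ _ h,
      fun g hg x => (hA1A (hg x)).2, fun n => by
        refine bdd_cards (X := X) (B := A1) ?_ hA1 subset_rfl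
        rw [mul_inv_rev, hUinv, hTn]
        exact hU.mul (hT.pow n)⟩
  refine ⟨S, hSne, fun a ha F K δ h0 hK hδ hF => HS a ha F K δ h0 hK hδ fun s hs t ht hst => ?_⟩
  refine hF s t ?_
  have h1 := HA s hs x₀ ((s⁻¹ * t) • x₀) (hA1A (hst x₀)).1
  rwa [smul_smul, mul_inv_cancel_left] at h1

end Pool.Agent.MoufangHaar.Pack
end
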