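import Mathlib
import Pool.Agent.Lib.MP_fd6bc6_al.Mg.G013
import Pool.Agent.Lib.MP_fd6bc6_al.Mg.G014
import Pool.Agent.Lib.MP_fd6bc6_al.Lim
import Pool.Agent.Lib.MP_fd6bc6_al.Prox
import Pool.Agent.Lib.MP_fd6bc6_al.NS.F1

section

set_option autoImplicit false
set_option linter.unusedSectionVars false

open scoped Pointwise
open Topology Uniformity

namespace Pool.Agent.MoufangHaar

section alg

variable {L Q : Type*} [MLoop L] [MLoop Q]

/-- left translation as a permutation -/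
def ltE (a : L) : Equiv.Perm L where
  toFun x := a * x
  invFun x := a⁻¹ * x
  left_inv x := MLoop.inv_mul_left a x
  right_inv x := MLoop.mul_inv_left a x

/-- the group generated by the left translations by elements of a set -/
def LG (N : Set L) : Subgroup (Equiv.Perm L) := Subgroup.closure {σ | ∃ n ∈ N, σ = ltE n}

/-- the generators -/
def LT (N : Set L) : Set (LG N) := {γ | ∃ n ∈ N, ∀ x : L, γ • x = n * x}

theorem TN.inverse {N : Set L} (h1 : ∀ a ∈ N, a⁻¹ ∈ N) {g : L → L} (hg : TN N g) :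
    ∃ k : L → L, TN N k ∧ (∀ x, k (g x) = x) ∧ ∀ x, g (k x) = x := by
  induction hg with
  | id => exact ⟨_, TN.id, fun _ => rfl, fun _ => rfl⟩
  | @left a ha g0 _ ih =>
    obtain ⟨k, hk, e1, e2⟩ := ih
    refine ⟨_, TN.comp hk (TN.left a⁻¹ (h1 a ha) TN.id), fun x => ?_, fun x => ?_⟩
    · change k (a⁻¹ * (a * g0 x)) = x
      rw [MLoop.inv_mul_left, e1]
    · change a * g0 (k (a⁻¹ * x)) = x
      rw [e2, MLoop.mul_inv_left]

theorem LG.tn {N : Set L} (h1 : ∀ a ∈ N, a⁻¹ ∈ N) (γ : LG N) : TN N (fun x => γ • x) := by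
  obtain ⟨σ, hσ⟩ := γ
  have key : ∀ σ ∈ Subgroup.closure {σ : Equiv.Perm L | ∃ n ∈ N, σ = ltE n},
      TN N (fun x => σ x) := by
    intro σ hσ
    refine Subgroup.closure_induction (p := fun σ _ => TN N (fun x => σ x)) ?_ ?_ ?_ ?_ hσ
    · rintro σ ⟨n, hn, rfl⟩
      exact TN.left n hn TN.id
    · exact TN.id
    · intro σ τ _ _ h2 h3
      have h4 : TN N (fun x => σ (τ x)) := TN.comp (f := fun x => σ x) (g := fun x => τ x) h2 h3
      exact h4
    · intro σ _ h2
      obtain ⟨k, hk, e1, _⟩ := h2.inverse h1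
      have : (fun x => σ⁻¹ x) = k := by
        funext x
        have h3 := e1 (σ⁻¹ x)
        have h4 : σ (σ⁻¹ x) = x := σ.apply_symm_apply x
        simp only [h4] at h3
        exact h3.symm
      rw [this]
      exact hk
  exact key σ hσ

theorem LG.ofTN {N : Set L} {g : L → L} (hg : TN N g) : ∃ γ : LG N, ∀ x, γ • x = g x := by
  induction hg with
  | id => exact ⟨1, fun x => one_smul _ x⟩
  | @left a ha g _ ih =>
    obtain ⟨γ, hγ⟩ := ih
    refine ⟨⟨ltE a, Subgroup.subset_closure ⟨a, ha, rfl⟩⟩ * γ, fun x => ?_⟩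
    rw [mul_smul, hγ]
    rfl

theorem LT.mk {N : Set L} (a : L) (ha : a ∈ N) : ∃ γ ∈ LT N, ∀ x : L, γ • x = a * x :=
  ⟨⟨ltE a, Subgroup.subset_closure ⟨a, ha, rfl⟩⟩, ⟨a, ha, fun _ => rfl⟩, fun _ => rfl⟩

theorem LT.pow_ev {N : Set L} (n : ℕ) : ∀ γ ∈ LT N ^ n, ∃ l : List L, l.length = n ∧
    (∀ b ∈ l, b ∈ N) ∧ ∀ x : L, γ • x = ev l x := by
  induction n with
  | zero =>
    intro γ hγ
    have h1 : γ = 1 := by simpa using hγ
    exact ⟨[], rfl, by simp, fun x => by rw [h1, one_smul]; rfl⟩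
  | succ n ih =>
    intro γ hγ
    rw [pow_succ'] at hγ
    obtain ⟨τ, ⟨a, ha, hτ⟩, γ', hγ', rfl⟩ := hγ
    obtain ⟨l, h2, h3, h4⟩ := ih γ' hγ'
    refine ⟨a :: l, by simp [h2], ?_, fun x => ?_⟩
    · intro b hb
      rcases List.mem_cons.mp hb with rfl | hb
      · exact ha
      · exact h3 b hb
    · change (τ * γ') • x = _
      rw [mul_smul, h4, hτ, ev_cons]

theorem LT.ev_pow {N : Set L} (l : List L) (hl : ∀ b ∈ l, b ∈ N) :
    ∃ γ ∈ LT N ^ l.length, ∀ x : L, γ • x = ev l x := by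
  induction l with
  | nil => exact ⟨1, by simp, fun x => by rw [one_smul]; rfl⟩
  | cons a t ih =>
    obtain ⟨γ, hγ, H⟩ := ih fun b hb => hl b (List.mem_cons_of_mem _ hb)
    obtain ⟨τ, hτ, H'⟩ := LT.mk (N := N) a (hl a List.mem_cons_self)
    refine ⟨τ * γ, ?_, fun x => ?_⟩
    · rw [List.length_cons, pow_succ']
      exact Set.mul_mem_mul hτ hγ
    · rw [mul_smul, H, H', ev_cons]

theorem LG.ext {N : Set L} {γ γ' : LG N} (h : ∀ x : L, γ • x = γ' • x) : γ = γ' :=
  Subtype.ext (Equiv.ext h)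

/-- the kernel as a Moufang loop -/
@[reducible] def kerM {φ : L → Q} (hφ : IsMHom φ) : MLoop {x : L // φ x = 1} where
  mul a b := ⟨a.1 * b.1, by rw [hφ.map_mul, a.2, b.2, MLoop.one_mul]⟩
  one := ⟨1, hφ.map_one⟩
  inv a := ⟨a.1⁻¹, by
    rw [hφ.map_inv, a.2]
    have h1 := MLoop.mul_inv_self (1 : Q)
    rwa [MLoop.one_mul] at h1⟩
  one_mul' x := Subtype.ext (MLoop.one_mul x.1)
  mul_one' x := Subtype.ext (MLoop.mul_one x.1)
  inv_mul_cancel_left' x y := Subtype.ext (MLoop.inv_mul_left x.1 y.1)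
  mul_inv_cancel_left' x y := Subtype.ext (MLoop.mul_inv_left x.1 y.1)
  moufang' x y z := Subtype.ext (MLoop.moufang x.1 y.1 z.1)

end alg

section top

variable {L Q : Type*} [MLoop L] [MLoop Q] [TopologicalSpace L] [TopMLoop L]

theorem kerT {φ : L → Q} (hφ : IsMHom φ) : @TopMLoop {x : L // φ x = 1} (kerM hφ) _ :=
  let _ : MLoop {x : L // φ x = 1} := kerM hφ
  ⟨(TopMLoop.cmul (continuous_subtype_val.comp continuous_fst)
      (continuous_subtype_val.comp continuous_snd)).subtype_mk _,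
    (TopMLoop.cinv continuous_subtype_val).subtype_mk _⟩

end top

section unif

variable {L Q : Type*} [MLoop L] [UniformSpace L] [CompactSpace L] [T2Space L] [TopMLoop L]
  [MLoop Q]

/-- Følner property of the left translations by elements of the kernel -/
theorem folnerL {φ : L → Q} (hφ : IsMHom φ) {A₁ : Set (L × L)} (hA₁ : A₁ ∈ 𝓤 L)
    (hE : Equi {g : L → L | TN {n | φ n = 1} g ∧ ∀ x, (x, g x) ∈ A₁}) {η : ℝ} (hη : 0 < η)
    {B : Set (L × L)} (hB : B ∈ 𝓤 L) :
    ∃ S : Finset (LG {n : L | φ n = 1}), S.Nonempty ∧ ∀ a ∈ LT {n : L | φ n = 1},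
      ∀ (F : LG {n : L | φ n = 1} → ℝ) (K δ : ℝ), (∀ x, 0 ≤ F x) →
      (∀ x, F x ≤ K) → 0 ≤ δ → (∀ s t, (s • (1 : L), t • (1 : L)) ∈ B → |F s - F t| ≤ δ) →
        |∑ s ∈ S, F (a * s) - ∑ s ∈ S, F s| ≤ (δ + K * η) * S.card := by
  set N : Set L := {n : L | φ n = 1} with hN
  have h1N : ∀ a ∈ N, a⁻¹ ∈ N := fun a ha => by
    change φ a⁻¹ = 1
    rw [hφ.map_inv, show φ a = 1 from ha]
    have h1 := MLoop.mul_inv_self (1 : Q)
    rwa [MLoop.one_mul] at h1
  have h2N : ∀ a ∈ N, ∀ s ∈ N, (a * s) * a ∈ N := fun a ha s hs => by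
    change φ ((a * s) * a) = 1
    rw [hφ.map_mul, hφ.map_mul, show φ a = 1 from ha, show φ s = 1 from hs, MLoop.one_mul,
      MLoop.one_mul]
  obtain ⟨A₀, hA₀, hA₀s, hA01⟩ := symm_of_uniformity hA₁
  refine Pack.folnerX (X := L) (T := LT N) (A₀ := A₀) ⟨1, hφ.map_one, fun x => ?_⟩ ?_ ?_ hA₀
    (fun x y h => hA₀s.symm _ _ h) ?_ ?_ hη 1 hB
  · rw [one_smul, MLoop.one_mul]
  · rintro γ ⟨n, hn, H⟩
    refine ⟨n⁻¹, h1N n hn, fun x => ?_⟩
    rw [inv_smul_eq_iff, H, MLoop.mul_inv_left]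
  · intro B hB
    obtain ⟨A, hA, HA⟩ := equi_D (L := L) hB
    refine ⟨A, hA, ?_⟩
    rintro γ ⟨n, _, H⟩ x y hxy
    have h1 := HA n 1 x y hxy
    have e2 : ∀ z : L, n * (1⁻¹ * z) = n * z := fun z => by
      have h1 := MLoop.inv_mul_left 1 z
      rw [MLoop.one_mul] at h1
      rw [h1]
    rw [e2, e2] at h1
    rw [H, H]
    exact h1
  · intro B hB
    obtain ⟨A, hA, HA⟩ := hE B hB
    refine ⟨A, hA, fun γ hγ x y hxy => ?_⟩
    exact HA (fun x => γ • x) ⟨LG.tn h1N γ, fun x => hA01 (hγ x)⟩ x y hxy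
  · intro J
    obtain ⟨m, H⟩ := reduce_many h1N h2N J hA₀
    refine ⟨m + 2 * J, by omega, fun γ hγ => ?_⟩
    obtain ⟨l, h1, h2, h3⟩ := LT.pow_ev _ γ hγ
    obtain ⟨l', v, e1, e2, e3, e4, e5⟩ := H l h2 (by omega)
    obtain ⟨γ', hγ', H'⟩ := LT.ev_pow l' e2
    obtain ⟨γv, Hv⟩ := LG.ofTN e3
    refine ⟨γ', ?_, γv, fun x => ?_, LG.ext fun x => ?_⟩
    · have : m + 2 * J - 2 * J = l'.length := by omega
      rw [this]
      exact hγ'
    · rw [Hv]
      exact e4 x
    · change (γ' * γv) • x = γ • x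
      rw [mul_smul, Hv, H', h3, e5]

/-- The kernel has an invariant mean. -/
theorem hasMean_ker [TopologicalSpace Q] [T2Space Q] {φ : L → Q} (hφ : IsMHom φ)
    (hc : Continuous φ) {A₁ : Set (L × L)} (hA₁ : A₁ ∈ 𝓤 L)
    (hE : Equi {g : L → L | TN {n | φ n = 1} g ∧ ∀ x, (x, g x) ∈ A₁}) :
    @HasMean {x : L // φ x = 1} (kerM hφ) _ (kerT hφ) := by
  classical
  let _ : MLoop {x : L // φ x = 1} := kerM hφ
  have _ : TopMLoop {x : L // φ x = 1} := kerT hφ
  have hcomp : CompactSpace {x : L // φ x = 1} :=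
    isCompact_iff_compactSpace.mp ((isClosed_eq hc continuous_const).isCompact)
  have h1N : ∀ a ∈ {n : L | φ n = 1}, a⁻¹ ∈ {n : L | φ n = 1} := fun a ha => by
    change φ a⁻¹ = 1
    rw [hφ.map_inv, show φ a = 1 from ha]
    have h1 := MLoop.mul_inv_self (1 : Q)
    rwa [MLoop.one_mul] at h1
  have hmem : ∀ s : LG {n : L | φ n = 1}, φ (s • (1 : L)) = 1 := fun s => by
    have h1 := (LG.tn h1N s).ker hφ 1
    rw [hφ.map_one] at h1
    exact h1
  obtain ⟨Λ, hΛ⟩ := mean_of_approx (X := {x : L // φ x = 1})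
    (ι := {x : L // φ x = 1} × C({x : L // φ x = 1}, ℝ))
    (fun p => cl p.2 p.1) (fun p => p.2) (by
      intro s ε hε
      -- bounds
      let K : ℝ := ∑ p ∈ s, ‖p.2‖
      have hK0 : 0 ≤ K := Finset.sum_nonneg fun p _ => norm_nonneg _
      have hKp : ∀ p ∈ s, ∀ x, |p.2 x| ≤ K := fun p hp x =>
        (p.2.norm_coe_le_norm x).trans
          (Finset.single_le_sum (f := fun p => ‖p.2‖) (fun p _ => norm_nonneg _) hp)
      have hBp : ∀ p ∈ s, ∃ B ∈ 𝓤 L, ∀ x y : {x : L // φ x = 1}, (x.1, y.1) ∈ B →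
          |p.2 x - p.2 y| ≤ ε / 2 := by
        intro p _
        have hu := CompactSpace.uniformContinuous_of_continuous p.2.continuous
        have h1 := hu (Metric.dist_mem_uniformity (half_pos hε))
        rw [Filter.mem_map, uniformity_subtype, Filter.mem_comap] at h1
        obtain ⟨B, hB, hBs⟩ := h1
        refine ⟨B, hB, fun x y hxy => ?_⟩
        have h3 : (x, y) ∈ (fun x : {x : L // φ x = 1} × {x : L // φ x = 1} =>
          (p.2 x.1, p.2 x.2)) ⁻¹' {p : ℝ × ℝ | dist p.1 p.2 < ε / 2} := hBs hxy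
        have h4 : dist (p.2 x) (p.2 y) < ε / 2 := h3
        rw [Real.dist_eq] at h4
        exact h4.le
      choose! B hB HB using hBp
      have hη : 0 < ε / 2 / (2 * K + 1) := by positivity
      obtain ⟨S, hSne, HS⟩ := folnerL hφ hA₁ hE hη
        ((Filter.biInter_finset_mem s).mpr fun p hp => hB p hp)
      have hcard : (0 : ℝ) < S.card := by exact_mod_cast hSne.card_pos
      refine ⟨Mean.ofWeights (κ := S) (fun _ => 1 / (S.card : ℝ)) (fun _ => by positivity) (by
        rw [Finset.sum_const, Finset.card_univ, Fintype.card_coe, nsmul_eq_mul]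
        field_simp) (fun s => ⟨s.1 • (1 : L), hmem s.1⟩), fun p hp => ?_⟩
      obtain ⟨a, ha, Ha⟩ := LT.mk (N := {n : L | φ n = 1}) p.1.1 p.1.2
      let F : LG {n : L | φ n = 1} → ℝ := fun s => p.2 ⟨s • (1 : L), hmem s⟩ + K
      have h1 := HS a ha F (2 * K) (ε / 2) (fun s => by
          have := (abs_le.mp (hKp p hp ⟨s • (1 : L), hmem s⟩)).1
          change 0 ≤ p.2 ⟨s • (1 : L), hmem s⟩ + K
          linarith) (fun s => by
          have := (abs_le.mp (hKp p hp ⟨s • (1 : L), hmem s⟩)).2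
          change p.2 ⟨s • (1 : L), hmem s⟩ + K ≤ 2 * K
          linarith) (half_pos hε).le (fun s t hst => by
          simp only [Set.mem_iInter] at hst
          have := HB p hp ⟨s • (1 : L), hmem s⟩ ⟨t • (1 : L), hmem t⟩ (hst p hp)
          change |p.2 ⟨s • (1 : L), hmem s⟩ + K - (p.2 ⟨t • (1 : L), hmem t⟩ + K)| ≤ ε / 2
          rw [add_sub_add_right_eq_sub]
          exact this)
      have e1 : ∑ s ∈ S, F (a * s) = ∑ s ∈ S, (cl p.2 p.1) ⟨s • (1 : L), hmem s⟩ + S.card * K := by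
        simp only [F, Finset.sum_add_distrib, Finset.sum_const, nsmul_eq_mul]
        congr 1
        refine Finset.sum_congr rfl fun s _ => ?_
        rw [cl_apply]
        congr 1
        apply Subtype.ext
        change (a * s) • (1 : L) = p.1.1 * (s • (1 : L))
        rw [mul_smul, Ha]
      have e2 : ∑ s ∈ S, F s = ∑ s ∈ S, p.2 ⟨s • (1 : L), hmem s⟩ + S.card * K := by
        simp only [F, Finset.sum_add_distrib, Finset.sum_const, nsmul_eq_mul]
      rw [e1, e2, add_sub_add_right_eq_sub] at h1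
      change |∑ s : S, 1 / (S.card : ℝ) * (cl p.2 p.1) ⟨s.1 • (1 : L), hmem s.1⟩ -
        ∑ s : S, 1 / (S.card : ℝ) * p.2 ⟨s.1 • (1 : L), hmem s.1⟩| ≤ ε
      rw [← Finset.mul_sum, ← Finset.mul_sum, ← mul_sub, abs_mul,
        Finset.sum_coe_sort S (fun s => (cl p.2 p.1) ⟨s • (1 : L), hmem s⟩),
        Finset.sum_coe_sort S (fun s => p.2 ⟨s • (1 : L), hmem s⟩), abs_of_pos (by positivity)]
      have h5 : 2 * K * (ε / 2 / (2 * K + 1)) ≤ ε / 2 := by
        rw [mul_div_assoc', div_le_iff₀ (by positivity)]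
        nlinarith
      have h6 : (ε / 2 + 2 * K * (ε / 2 / (2 * K + 1))) * S.card ≤ ε * S.card :=
        mul_le_mul_of_nonneg_right (by linarith) hcard.le
      rw [one_div, inv_mul_le_iff₀ hcard]
      linarith)
  exact hasMean_of_left (Λ := Λ.toFun) ⟨Λ.add, Λ.smul, Λ.mono, Λ.one⟩ fun a f => hΛ (a, f)

end unif

end Pool.Agent.MoufangHaar
end

section

set_option autoImplicit false
set_option linter.unusedSectionVars false

open Topology Uniformity MeasureTheory

namespace Pool.Agent.MoufangHaar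

/-- The relative theorem: an extension without small closed normal subloops in the kernel. -/
theorem hasMean_of_noSmall {L Q : Type*} [MLoop L] [TopologicalSpace L] [CompactSpace L]
    [T2Space L] [TopMLoop L] [MLoop Q] [TopologicalSpace Q] [T2Space Q] [TopMLoop Q]
    (φ : L → Q) (hφ : IsMHom φ) (hc : Continuous φ) (hs : Function.Surjective φ)
    (hQ : HasMean Q) (U : Set L) (hU : U ∈ 𝓝 (1 : L))
    (h : ∀ c : CC L, (∀ x, c.r x 1 → φ x = 1 ∧ x ∈ U) → ∀ x y, c.r x y → x = y) : HasMean L := by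
  have hCQ : CompactSpace Q := by
    rw [← isCompact_univ_iff, ← hs.range_eq]
    exact isCompact_range hc
  have hker : @HasMean {x : L // φ x = 1} (kerM hφ) _ (kerT hφ) := by
    let : UniformSpace L := uniformSpaceOfCompactR1
    obtain ⟨A₀, hA₀, hE⟩ := small_equi φ hφ hc U hU h
    exact hasMean_ker hφ hc hA₀ hE
  let _ : MLoop {x : L // φ x = 1} := kerM hφ
  have _ : TopMLoop {x : L // φ x = 1} := kerT hφ
  have hcomp : CompactSpace {x : L // φ x = 1} :=
    isCompact_iff_compactSpace.mp ((isClosed_eq hc continuous_const).isCompact)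
  let : MeasurableSpace L := borel L
  have : BorelSpace L := ⟨rfl⟩
  let : MeasurableSpace Q := borel Q
  have : BorelSpace Q := ⟨rfl⟩
  obtain ⟨m, hm⟩ := kerHaar_of_image (φ := φ) hker (Subtype.val : {x : L // φ x = 1} → L)
    ⟨fun _ _ => rfl⟩ continuous_subtype_val Subtype.range_coe
  exact hasInt_iff_hasMean.mp (extension φ hφ hc hs m hm (hasInt_iff_hasMean.mpr hQ))

end Pool.Agent.MoufangHaar
end

section

set_option autoImplicit false
set_option linter.unusedSectionVars false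

open Topology Uniformity MeasureTheory

namespace Pool.Agent.MoufangHaar

/-- a measure on the kernel gives an invariant mean of the kernel -/
theorem hasMean_ker_of_kerHaar {L Q : Type*} [MLoop L] [TopologicalSpace L] [CompactSpace L]
    [T2Space L] [TopMLoop L] [MeasurableSpace L] [BorelSpace L] [MLoop Q] [TopologicalSpace Q]
    [T2Space Q] {φ : L → Q} (hφ : IsMHom φ) (hc : Continuous φ) {m : Measure L}
    (hm : KerHaar φ m) : @HasMean {x : L // φ x = 1} (kerM hφ) _ (kerT hφ) := by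
  let _ : MLoop {x : L // φ x = 1} := kerM hφ
  have _ : TopMLoop {x : L // φ x = 1} := kerT hφ
  have := hm.prob
  have hcl : IsClosed {x : L | φ x = 1} := isClosed_eq hc continuous_const
  have hcomp : CompactSpace {x : L // φ x = 1} := isCompact_iff_compactSpace.mp hcl.isCompact
  have hext : ∀ f : C({x : L // φ x = 1}, ℝ), ∃ g : C(L, ℝ), ∀ x : {x : L // φ x = 1},
      g x.1 = f x := by
    intro f
    obtain ⟨g, hg⟩ := ContinuousMap.exists_extension hcl.isClosedEmbedding_subtypeVal f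
    exact ⟨g, fun x => DFunLike.congr_fun hg x⟩
  choose E hE using hext
  have hae : ∀ (g g' : C(L, ℝ)), (∀ x, φ x = 1 → g x = g' x) → ∫ x, g x ∂m = ∫ x, g' x ∂m :=
    fun g g' h => integral_congr_ae (hm.conc.mono fun x hx => h x hx)
  refine ⟨⟨fun f => ∫ x, E f x ∂m, fun f g => ?_, fun c f => ?_, fun f g hfg => ?_, ?_⟩,
    fun a f => ⟨?_, ?_⟩⟩
  · rw [← integral_add (integrable_cont _ m) (integrable_cont _ m)]
    refine hae (E (f + g)) (E f + E g) fun x hx => ?_
    rw [ContinuousMap.add_apply]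
    have h1 := hE (f + g) ⟨x, hx⟩
    have h2 := hE f ⟨x, hx⟩
    have h3 := hE g ⟨x, hx⟩
    rw [h1, h2, h3]
    rfl
  · rw [← integral_const_mul]
    refine hae (E (c • f)) (c • E f) fun x hx => ?_
    have h1 := hE (c • f) ⟨x, hx⟩
    have h2 := hE f ⟨x, hx⟩
    rw [ContinuousMap.smul_apply, h1, h2]
    rfl
  · refine integral_mono_ae (integrable_cont _ m) (integrable_cont _ m) ?_
    refine hm.conc.mono fun x hx => ?_
    have h1 := hE f ⟨x, hx⟩
    have h2 := hE g ⟨x, hx⟩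
    simp only [h1, h2]
    exact hfg _
  · have h1 : ∫ x, E 1 x ∂m = ∫ x, (1 : C(L, ℝ)) x ∂m := hae _ _ fun x hx => by
      have h1 := hE 1 ⟨x, hx⟩
      rw [h1]
      rfl
    rw [h1]
    simp
  · have h1 := hm.left a.1 a.2 (E f)
    change ∫ x, E (cl f a) x ∂m = ∫ x, E f x ∂m
    rw [← h1]
    refine hae (E (cl f a)) (cl (E f) a.1) fun x hx => ?_
    have h1 := hE (cl f a) ⟨x, hx⟩
    have h2 := hE f (a * ⟨x, hx⟩)
    rw [h1, cl_apply, cl_apply, ← h2]
    rfl
  · have h1 := hm.right a.1 a.2 (E f)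
    change ∫ x, E (cr f a) x ∂m = ∫ x, E f x ∂m
    rw [← h1]
    refine hae (E (cr f a)) (cr (E f) a.1) fun x hx => ?_
    have h1 := hE (cr f a) ⟨x, hx⟩
    have h2 := hE f (⟨x, hx⟩ * a)
    rw [h1, cr_apply, cr_apply, ← h2]
    rfl

namespace CC

variable {L : Type*} [MLoop L] [TopologicalSpace L] [CompactSpace L] [T2Space L] [TopMLoop L]

/-- the join of two closed congruences -/
def join (c d : CC L) : CC L where
  r x y := ∃ z, c.r x z ∧ d.r z y
  equiv := by
    have hperm : ∀ {c d : CC L} {x y : L}, (∃ z, c.r x z ∧ d.r z y) → ∃ w, d.r x w ∧ c.r w y := by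
      rintro c d x y ⟨z, h1, h2⟩
      refine ⟨x * (z⁻¹ * y), ?_, ?_⟩
      · have h3 := d.left x _ _ (d.left z⁻¹ _ _ h2)
        rw [MLoop.inv_mul_self, MLoop.mul_one] at h3
        exact h3
      · have h3 := c.right (z⁻¹ * y) _ _ h1
        rwa [MLoop.mul_inv_left] at h3
    refine ⟨fun x => ⟨x, c.equiv.refl x, d.equiv.refl x⟩, fun {x y} h => ?_, fun {x y z} h h' => ?_⟩
    · obtain ⟨w, h1, h2⟩ := hperm h
      exact ⟨w, c.equiv.symm h2, d.equiv.symm h1⟩
    · obtain ⟨w, h1, h2⟩ := h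
      obtain ⟨w', h3, h4⟩ := h'
      obtain ⟨v, h5, h6⟩ := hperm (c := d) (d := c) ⟨y, h2, h3⟩
      exact ⟨v, c.equiv.trans h1 h5, d.equiv.trans h6 h4⟩
  left a x y := by
    rintro ⟨z, h1, h2⟩
    exact ⟨a * z, c.left a _ _ h1, d.left a _ _ h2⟩
  right a x y := by
    rintro ⟨z, h1, h2⟩
    exact ⟨z * a, c.right a _ _ h1, d.right a _ _ h2⟩
  closed := by
    have h1 : IsClosed {p : L × L × L | c.r p.1 p.2.1 ∧ d.r p.2.1 p.2.2} :=
      (c.closed.preimage (continuous_fst.prodMk (continuous_fst.comp continuous_snd))).inter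
        (d.closed.preimage continuous_snd)
    have h2 : {p : L × L | ∃ z, c.r p.1 z ∧ d.r z p.2} =
        (fun p : L × L × L => (p.1, p.2.2)) '' {p : L × L × L | c.r p.1 p.2.1 ∧ d.r p.2.1 p.2.2} := by
      ext p
      constructor
      · rintro ⟨z, h3, h4⟩
        exact ⟨(p.1, z, p.2), ⟨h3, h4⟩, rfl⟩
      · rintro ⟨⟨x, z, y⟩, ⟨h3, h4⟩, rfl⟩
        exact ⟨z, h3, h4⟩
    rw [h2]
    exact (h1.isCompact.image (continuous_fst.prodMk (continuous_snd.comp continuous_snd))).isClosed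

theorem le_join_right (c d : CC L) : ∀ x y, d.r x y → (join c d).r x y := fun x _ h =>
  ⟨x, c.equiv.refl x, h⟩

/-- the meet -/
def meet (c d : CC L) : CC L := inf {c, d}

theorem meet_r {c d : CC L} {x y : L} : (meet c d).r x y ↔ c.r x y ∧ d.r x y := by
  constructor
  · intro h
    exact ⟨h c (Or.inl rfl), h d (Or.inr rfl)⟩
  · rintro ⟨h1, h2⟩ e (rfl | he)
    · exact h1
    · rw [Set.mem_singleton_iff.mp he]
      exact h2

/-- quotients with invariant means are closed under meets -/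
theorem hasMean_meet {c d : CC L} (hc : HasMean c.Q) (hd : HasMean d.Q) :
    HasMean (meet c d).Q := by
  set e := meet c d with he
  have hec : ∀ x y, e.r x y → c.r x y := fun x y h => (meet_r.mp h).1
  have hed : ∀ x y, e.r x y → d.r x y := fun x y h => (meet_r.mp h).2
  let ψ : d.Q → (join c d).Q := map (le_join_right c d)
  have hψ : IsMHom ψ := map_hom _
  have hψc : Continuous ψ := map_cont _
  let : MeasurableSpace d.Q := borel d.Q
  have : BorelSpace d.Q := ⟨rfl⟩
  obtain ⟨m, hm, _⟩ := exists_kerHaar ψ hψ hψc (hasInt_iff_hasMean.mpr hd).hasHaar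
  have hker := hasMean_ker_of_kerHaar hψ hψc hm
  let _ : MLoop {x : d.Q // ψ x = 1} := kerM hψ
  have _ : TopMLoop {x : d.Q // ψ x = 1} := kerT hψ
  have hcomp : CompactSpace {x : d.Q // ψ x = 1} :=
    isCompact_iff_compactSpace.mp ((isClosed_eq hψc continuous_const).isCompact)
  -- the kernel of the map to the first quotient
  let χ : e.Q → c.Q := map hec
  have hχ : IsMHom χ := map_hom _
  have hχc : Continuous χ := map_cont _
  let _ : MLoop {x : e.Q // χ x = 1} := kerM hχ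
  have hcomp' : CompactSpace {x : e.Q // χ x = 1} :=
    isCompact_iff_compactSpace.mp ((isClosed_eq hχc continuous_const).isCompact)
  have hmem : ∀ x : e.Q, χ x = 1 → ψ (map hed x) = 1 := by
    intro x hx
    obtain ⟨x, rfl⟩ := e.pr_surj x
    have h1 : c.r x 1 := c.pr_eq.mp hx
    exact (join c d).pr_eq.mpr ⟨1, h1, d.equiv.refl 1⟩
  let θ : {x : e.Q // χ x = 1} → {x : d.Q // ψ x = 1} := fun x => ⟨map hed x.1, hmem x.1 x.2⟩
  have hθc : Continuous θ := ((map_cont hed).comp continuous_subtype_val).subtype_mk _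
  have hθi : Function.Injective θ := by
    rintro ⟨x, hx⟩ ⟨y, hy⟩ hxy
    obtain ⟨x, rfl⟩ := e.pr_surj x
    obtain ⟨y, rfl⟩ := e.pr_surj y
    have h1 : c.r x 1 := c.pr_eq.mp hx
    have h2 : c.r y 1 := c.pr_eq.mp hy
    have h3 : d.r x y := d.pr_eq.mp (congrArg Subtype.val hxy)
    exact Subtype.ext (e.pr_eq.mpr (meet_r.mpr ⟨c.equiv.trans h1 (c.equiv.symm h2), h3⟩))
  have hθs : Function.Surjective θ := by
    rintro ⟨y, hy⟩
    obtain ⟨y, rfl⟩ := d.pr_surj y
    have h1 : (join c d).r y 1 := (join c d).pr_eq.mp hy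
    obtain ⟨z, h2, h3⟩ := (join c d).equiv.symm h1
    -- c.r 1 z, d.r z y
    exact ⟨⟨e.pr z, c.pr_eq.mpr (c.equiv.symm h2)⟩, Subtype.ext (d.pr_eq.mpr h3)⟩
  let Θ : {x : e.Q // χ x = 1} ≃ₜ {x : d.Q // ψ x = 1} :=
    (Continuous.homeoOfEquivCompactToT2 (f := Equiv.ofBijective θ ⟨hθi, hθs⟩) hθc)
  have hΘ : ∀ x, Θ x = θ x := fun _ => rfl
  let : MeasurableSpace e.Q := borel e.Q
  have : BorelSpace e.Q := ⟨rfl⟩
  let : MeasurableSpace c.Q := borel c.Q
  have : BorelSpace c.Q := ⟨rfl⟩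
  obtain ⟨m', hm'⟩ := kerHaar_of_image (φ := χ) hker (fun q => (Θ.symm q).1) ⟨fun q q' => by
      obtain ⟨x, rfl⟩ := Θ.surjective q
      obtain ⟨y, rfl⟩ := Θ.surjective q'
      have h1 : Θ x * Θ y = Θ (x * y) := by
        rw [hΘ, hΘ, hΘ]
        apply Subtype.ext
        exact ((map_hom hed).map_mul x.1 y.1).symm
      rw [h1, Θ.symm_apply_apply, Θ.symm_apply_apply, Θ.symm_apply_apply]
      rfl⟩ (continuous_subtype_val.comp Θ.symm.continuous) (by
      ext x
      constructor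
      · rintro ⟨q, rfl⟩
        exact (Θ.symm q).2
      · intro hx
        exact ⟨Θ ⟨x, hx⟩, by simp only [Θ.symm_apply_apply]⟩)
  exact hasInt_iff_hasMean.mp (extension χ hχ hχc (map_surj _) m' hm' (hasInt_iff_hasMean.mpr hc))

end CC

end Pool.Agent.MoufangHaar
end

section

set_option autoImplicit false
set_option linter.unusedSectionVars false

open Topology Uniformity MeasureTheory

namespace Pool.Agent.MoufangHaar

namespace CC

variable {L : Type*} [MLoop L] [TopologicalSpace L] [CompactSpace L] [T2Space L] [TopMLoop L]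

/-- the full congruence -/
def top (L : Type*) [MLoop L] [TopologicalSpace L] : CC L where
  r _ _ := True
  equiv := ⟨fun _ => trivial, fun _ => trivial, fun _ _ => trivial⟩
  left _ _ _ _ := trivial
  right _ _ _ _ := trivial
  closed := by simp

theorem hasMean_top : HasMean (top L).Q := by
  have h : ∀ x y : (top L).Q, x = y := by
    intro x y
    obtain ⟨x, rfl⟩ := (top L).pr_surj x
    obtain ⟨y, rfl⟩ := (top L).pr_surj y
    exact (top L).pr_eq.mpr trivial
  refine ⟨⟨fun f => f 1, fun _ _ => rfl, fun _ _ => rfl, fun f g hfg => hfg 1, rfl⟩,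
    fun a f => ⟨?_, ?_⟩⟩
  · exact congrArg f (h _ _)
  · exact congrArg f (h _ _)

/-- the congruence of the largest quotient with an invariant mean -/
def res (L : Type*) [MLoop L] [TopologicalSpace L] [CompactSpace L] [T2Space L] [TopMLoop L] :
    CC L := inf {c | HasMean c.Q}

theorem res_le {c : CC L} (hc : HasMean c.Q) : ∀ x y, (res L).r x y → c.r x y :=
  fun _ _ h => h c hc

theorem hasMean_res : HasMean (res L).Q := by
  refine HasMean.lim fun U hU h1U => ?_
  have : Nonempty {c : CC L | HasMean c.Q} := ⟨⟨top L, hasMean_top⟩⟩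
  obtain ⟨c, hc⟩ := IsCompact.elim_directed_family_closed
    (s := Uᶜ) hU.isClosed_compl.isCompact
    (fun c : {c : CC L | HasMean c.Q} => {q : (res L).Q | map (res_le c.2) q = 1})
    (fun c => isClosed_eq (map_cont _) continuous_const) (by
      ext q
      simp only [Set.mem_inter_iff, Set.mem_iInter, Set.mem_empty_iff_false, iff_false, not_and]
      intro hq hq'
      apply hq
      obtain ⟨x, rfl⟩ := (res L).pr_surj q
      have h2 : (res L).pr x = 1 := (res L).pr_eq.mpr fun c hc => c.pr_eq.mp (hq' ⟨c, hc⟩)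
      rw [h2]
      exact h1U) (by
      intro c d
      refine ⟨⟨meet c.1 d.1, hasMean_meet c.2 d.2⟩, fun q hq => ?_, fun q hq => ?_⟩
      · obtain ⟨x, rfl⟩ := (res L).pr_surj q
        have h2 : (meet c.1 d.1).r x 1 := (meet c.1 d.1).pr_eq.mp hq
        exact c.1.pr_eq.mpr (meet_r.mp h2).1
      · obtain ⟨x, rfl⟩ := (res L).pr_surj q
        have h2 : (meet c.1 d.1).r x 1 := (meet c.1 d.1).pr_eq.mp hq
        exact d.1.pr_eq.mpr (meet_r.mp h2).2)
  refine ⟨c.1.Q, inferInstance, inferInstance, inferInstance, inferInstance, map (res_le c.2),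
    c.2, map_hom _, map_cont _, map_surj _, fun x hx => ?_⟩
  by_contra hxU
  have h2 : x ∈ Uᶜ ∩ {q : (res L).Q | map (res_le c.2) q = 1} := ⟨hxU, hx⟩
  rw [hc] at h2
  exact h2

/-- quotients of a quotient with an invariant mean -/
theorem hasMean_of_le {c d : CC L} (h : ∀ x y, c.r x y → d.r x y) (hc : HasMean c.Q) :
    HasMean d.Q := hc.image (map h) (map_hom h) (map_cont h) (map_surj h)

/-- no congruence strictly inside the residual is isolated from above -/
theorem exists_between {c : CC L} (hle : ∀ x y, c.r x y → (res L).r x y)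
    (hne : ∃ x y, (res L).r x y ∧ ¬ c.r x y) (V : Set L) (hV : IsOpen V)
    (hcV : ∀ x, c.r x 1 → x ∈ V) :
    ∃ d : CC L, (∀ x y, c.r x y → d.r x y) ∧ (∃ x y, d.r x y ∧ ¬ c.r x y) ∧
      (∀ x y, d.r x y → (res L).r x y) ∧ ∀ x, d.r x 1 → x ∈ V := by
  by_contra hcon
  push Not at hcon
  obtain ⟨x₀, y₀, h1, h2⟩ := hne
  apply h2
  refine res_le ?_ _ _ h1
  let U : Set c.Q := (c.pr '' Vᶜ)ᶜ
  have hcl : IsClosed (c.pr '' Vᶜ) :=
    ((hV.isClosed_compl.isCompact).image c.pr_cont).isClosed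
  have hU : U ∈ 𝓝 (1 : c.Q) := by
    refine hcl.isOpen_compl.mem_nhds ?_
    rintro ⟨x, hx, hx1⟩
    exact hx (hcV x (c.pr_eq.mp hx1))
  refine hasMean_of_noSmall (map hle) (map_hom _) (map_cont _) (map_surj _) hasMean_res U hU
    fun d hd x y hxy => ?_
  obtain ⟨x, rfl⟩ := c.pr_surj x
  obtain ⟨y, rfl⟩ := c.pr_surj y
  by_contra hne
  have h3 := hcon (comap c.pr c.pr_hom c.pr_cont d) (fun x y h => by
      change d.r (c.pr x) (c.pr y)
      rw [c.pr_eq.mpr h]
      exact d.equiv.refl _) ⟨x, y, hxy, fun h => hne (c.pr_eq.mpr h)⟩ (fun x y h => by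
      have h4 : d.r (c.pr x) (c.pr y) := h
      have h5 := d.right (c.pr y)⁻¹ _ _ h4
      rw [MLoop.mul_inv_self] at h5
      have h6 := (hd _ h5).1
      rw [← c.pr_hom.map_inv, ← c.pr_hom.map_mul, map_pr] at h6
      have h7 : (res L).r (x * y⁻¹) 1 := (res L).pr_eq.mp h6
      have h8 := (res L).right y _ _ h7
      rwa [MLoop.mul_inv_mul, MLoop.one_mul] at h8)
  obtain ⟨z, hz, hzV⟩ := h3
  have h4 : d.r (c.pr z) 1 := hz
  exact (hd _ h4).2 ⟨z, hzV, rfl⟩

end CC

end Pool.Agent.MoufangHaar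
end

section

set_option autoImplicit false
set_option linter.unusedSectionVars false

open Topology Uniformity MeasureTheory

namespace Pool.Agent.MoufangHaar

theorem hasMean_of_subsingleton {L : Type*} [MLoop L] [TopologicalSpace L] [TopMLoop L]
    (h : ∀ x y : L, x = y) : HasMean L :=
  ⟨⟨fun f => f 1, fun _ _ => rfl, fun _ _ => rfl, fun _ _ hfg => hfg 1, rfl⟩,
    fun _ f => ⟨congrArg f (h _ _), congrArg f (h _ _)⟩⟩

/-- the extension theorem for means -/
theorem hasMean_ext {P P' : Type*} [MLoop P] [TopologicalSpace P] [CompactSpace P] [T2Space P]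
    [TopMLoop P] [MLoop P'] [TopologicalSpace P'] [T2Space P'] [TopMLoop P'] (π : P → P')
    (hπ : IsMHom π) (hc : Continuous π) (hs : Function.Surjective π) :
    HasMean P ↔ (@HasMean {x : P // π x = 1} (kerM hπ) _ (kerT hπ)) ∧ HasMean P' := by
  have hCQ : CompactSpace P' := by
    rw [← isCompact_univ_iff, ← hs.range_eq]
    exact isCompact_range hc
  let : MeasurableSpace P := borel P
  have : BorelSpace P := ⟨rfl⟩
  let : MeasurableSpace P' := borel P'
  have : BorelSpace P' := ⟨rfl⟩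
  let _ : MLoop {x : P // π x = 1} := kerM hπ
  have _ : TopMLoop {x : P // π x = 1} := kerT hπ
  have hcomp : CompactSpace {x : P // π x = 1} :=
    isCompact_iff_compactSpace.mp ((isClosed_eq hc continuous_const).isCompact)
  constructor
  · intro h
    refine ⟨?_, h.image π hπ hc hs⟩
    obtain ⟨m, hm, _⟩ := exists_kerHaar π hπ hc (hasInt_iff_hasMean.mpr h).hasHaar
    exact hasMean_ker_of_kerHaar hπ hc hm
  · rintro ⟨h1, h2⟩
    obtain ⟨m, hm⟩ := kerHaar_of_image (φ := π) h1 (Subtype.val : {x : P // π x = 1} → P)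
      ⟨fun _ _ => rfl⟩ continuous_subtype_val Subtype.range_coe
    exact hasInt_iff_hasMean.mp (extension π hπ hc hs m hm (hasInt_iff_hasMean.mpr h2))

namespace CC

section order

variable {L : Type*} [MLoop L] [TopologicalSpace L]

instance : PartialOrder (CC L) where
  le c d := ∀ x y, c.r x y → d.r x y
  le_refl _ _ _ h := h
  le_trans _ _ _ h h' x y hxy := h' x y (h x y hxy)
  le_antisymm _ _ h h' := ext' fun x y => ⟨h x y, h' x y⟩

end order

variable {L : Type*} [MLoop L] [TopologicalSpace L] [CompactSpace L] [T2Space L] [TopMLoop L]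

/-- the kernel of the map between two quotients -/
def KK {c d : CC L} (h : c ≤ d) : Type _ := {q : c.Q // map h q = 1}

instance {c d : CC L} (h : c ≤ d) : MLoop (KK h) := kerM (map_hom h)

instance {c d : CC L} (h : c ≤ d) : TopologicalSpace (KK h) :=
  inferInstanceAs (TopologicalSpace {q : c.Q // map h q = 1})

instance {c d : CC L} (h : c ≤ d) : TopMLoop (KK h) := kerT (map_hom h)

instance {c d : CC L} (h : c ≤ d) : T2Space (KK h) :=
  inferInstanceAs (T2Space {q : c.Q // map h q = 1})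

instance {c d : CC L} (h : c ≤ d) : CompactSpace (KK h) :=
  isCompact_iff_compactSpace.mp ((isClosed_eq (map_cont h) continuous_const).isCompact)

theorem kval_cont {c d : CC L} (h : c ≤ d) : Continuous (fun q : KK h => q.1) :=
  continuous_subtype_val

/-- elements of the kernel -/
def kk {c d : CC L} (h : c ≤ d) (x : L) (hx : d.r x 1) : KK h := ⟨c.pr x, d.pr_eq.mpr hx⟩

theorem exists_kk {c d : CC L} (h : c ≤ d) (q : KK h) : ∃ x, ∃ hx : d.r x 1, q = kk h x hx := by
  obtain ⟨q, hq⟩ := q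
  obtain ⟨x, rfl⟩ := c.pr_surj q
  exact ⟨x, d.pr_eq.mp hq, rfl⟩

/-- the factor has an invariant mean -/
def FH (c d : CC L) : Prop := ∃ h : c ≤ d, HasMean (KK h)

/-- the map between kernels -/
def kmap {c e d : CC L} (h1 : c ≤ e) (h2 : e ≤ d) (q : KK (h1.trans h2)) : KK h2 :=
  ⟨map h1 q.1, by
    obtain ⟨q, hq⟩ := q
    obtain ⟨x, rfl⟩ := c.pr_surj q
    exact hq⟩

theorem kmap_hom {c e d : CC L} (h1 : c ≤ e) (h2 : e ≤ d) : IsMHom (kmap h1 h2) :=
  ⟨fun x y => Subtype.ext ((map_hom h1).map_mul x.1 y.1)⟩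

theorem kmap_cont {c e d : CC L} (h1 : c ≤ e) (h2 : e ≤ d) : Continuous (kmap h1 h2) :=
  ((map_cont h1).comp continuous_subtype_val).subtype_mk _

theorem kmap_surj {c e d : CC L} (h1 : c ≤ e) (h2 : e ≤ d) :
    Function.Surjective (kmap h1 h2) := by
  intro q
  obtain ⟨x, hx, rfl⟩ := exists_kk h2 q
  exact ⟨kk _ x hx, rfl⟩

theorem hasMean_kmap {c e d : CC L} (h1 : c ≤ e) (h2 : e ≤ d) :
    HasMean (KK (h1.trans h2)) ↔ HasMean (KK h1) ∧ HasMean (KK h2) := by
  rw [hasMean_ext (kmap h1 h2) (kmap_hom h1 h2) (kmap_cont h1 h2) (kmap_surj h1 h2)]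
  refine and_congr_left fun _ => ?_
  let _ : MLoop {x : KK (h1.trans h2) // kmap h1 h2 x = 1} := kerM (kmap_hom h1 h2)
  have _ : TopMLoop {x : KK (h1.trans h2) // kmap h1 h2 x = 1} := kerT (kmap_hom h1 h2)
  constructor
  · intro h
    have hv : Continuous (fun x : {x : KK (h1.trans h2) // kmap h1 h2 x = 1} => x.1.1) :=
      (kval_cont (h1.trans h2)).comp continuous_subtype_val
    refine h.image (fun x => (⟨x.1.1, congrArg Subtype.val x.2⟩ : KK h1)) ⟨fun _ _ => rfl⟩
      (hv.subtype_mk _) ?_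
    rintro ⟨q, hq⟩
    obtain ⟨x, rfl⟩ := c.pr_surj q
    have hx : e.r x 1 := e.pr_eq.mp hq
    exact ⟨⟨⟨c.pr x, d.pr_eq.mpr (h2 _ _ hx)⟩, Subtype.ext (e.pr_eq.mpr hx)⟩, rfl⟩
  · intro h
    let i : KK h1 → KK (h1.trans h2) := fun q => ⟨q.1, by
      obtain ⟨x, hx, rfl⟩ := exists_kk h1 q
      exact d.pr_eq.mpr (h2 _ _ hx)⟩
    have hi : Continuous i := continuous_subtype_val.subtype_mk _
    have hi1 : ∀ q, kmap h1 h2 (i q) = 1 := fun q => Subtype.ext q.2
    let j : KK h1 → {x : KK (h1.trans h2) // kmap h1 h2 x = 1} := fun q => ⟨i q, hi1 q⟩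
    have hj : Continuous j := hi.subtype_mk hi1
    refine h.image j ⟨fun _ _ => rfl⟩ hj ?_
    rintro ⟨⟨q, hq⟩, hq'⟩
    exact ⟨⟨q, congrArg Subtype.val hq'⟩, rfl⟩

theorem FH.refl (c : CC L) : FH c c := ⟨le_refl c, hasMean_of_subsingleton fun q q' => by
  obtain ⟨x, hx, rfl⟩ := exists_kk _ q
  obtain ⟨y, hy, rfl⟩ := exists_kk _ q'
  exact Subtype.ext (c.pr_eq.mpr (c.equiv.trans hx (c.equiv.symm hy)))⟩

theorem FH.left {c e d : CC L} (h : FH c d) (h1 : c ≤ e) (h2 : e ≤ d) : FH c e :=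
  ⟨h1, ((hasMean_kmap h1 h2).mp h.2).1⟩

theorem FH.right {c e d : CC L} (h : FH c d) (h1 : c ≤ e) (h2 : e ≤ d) : FH e d :=
  ⟨h2, ((hasMean_kmap h1 h2).mp h.2).2⟩

theorem FH.trans {c e d : CC L} (h : FH c e) (h' : FH e d) : FH c d :=
  ⟨h.1.trans h'.1, (hasMean_kmap h.1 h'.1).mpr ⟨h.2, h'.2⟩⟩

/-- chief factors have invariant means -/
theorem FH.chief {c d : CC L} (h : c ≤ d) (hch : ∀ e, c ≤ e → e ≤ d → e = c ∨ e = d) :
    FH c d := by
  by_cases hcd : d ≤ c
  · rw [le_antisymm h hcd]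
    exact FH.refl d
  have h1 : ∃ x y, d.r x y ∧ ¬ c.r x y := by
    by_contra hcon
    push Not at hcon
    exact hcd hcon
  obtain ⟨x₀, y₀, h2, h3⟩ := h1
  let q₀ : c.Q := c.pr (x₀ * y₀⁻¹)
  have hq₀ : q₀ ≠ 1 := by
    intro h4
    apply h3
    have h5 := c.right y₀ _ _ (c.pr_eq.mp h4)
    rwa [MLoop.mul_inv_mul, MLoop.one_mul] at h5
  have hq₁ : d.r (x₀ * y₀⁻¹) 1 := by
    have h5 := d.right y₀⁻¹ _ _ h2
    rwa [MLoop.mul_inv_self] at h5
  refine ⟨h, ?_⟩
  let : UniformSpace c.Q := uniformSpaceOfCompactR1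
  obtain ⟨A₀, hA₀, hE⟩ := small_equi (map h) (map_hom h) (map_cont h) {q₀}ᶜ
    (isOpen_compl_singleton.mem_nhds fun h4 => hq₀ h4.symm) fun e he x y hxy => by
      obtain ⟨x, rfl⟩ := c.pr_surj x
      obtain ⟨y, rfl⟩ := c.pr_surj y
      let e' : CC L := comap c.pr c.pr_hom c.pr_cont e
      have h4 : c ≤ e' := fun x y h => by
        change e.r (c.pr x) (c.pr y)
        rw [c.pr_eq.mpr h]
        exact e.equiv.refl _
      have h5 : e' ≤ d := fun x y h => by
        have h4 : e.r (c.pr x) (c.pr y) := h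
        have h5 := e.right (c.pr y)⁻¹ _ _ h4
        rw [MLoop.mul_inv_self] at h5
        have h6 := (he _ h5).1
        rw [← c.pr_hom.map_inv, ← c.pr_hom.map_mul, map_pr] at h6
        have h8 := d.right y _ _ (d.pr_eq.mp h6)
        rwa [MLoop.mul_inv_mul, MLoop.one_mul] at h8
      rcases hch e' h4 h5 with h6 | h6
      · have h7 : e'.r x y := hxy
        rw [h6] at h7
        exact c.pr_eq.mpr h7
      · exfalso
        have h7 : e'.r (x₀ * y₀⁻¹) 1 := by
          rw [h6]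
          exact hq₁
        exact (he q₀ h7).2 rfl
  exact hasMean_ker (map_hom h) (map_cont h) hA₀ hE

end CC

end Pool.Agent.MoufangHaar
end

section

set_option autoImplicit false
set_option linter.unusedSectionVars false

open Topology Uniformity MeasureTheory

namespace Pool.Agent.MoufangHaar

namespace CC

variable {L : Type*} [MLoop L] [TopologicalSpace L] [CompactSpace L] [T2Space L] [TopMLoop L]

/-- the supremum of a chain of closed congruences -/
def csup (S : Set (CC L)) (hne : S.Nonempty) (hS : IsChain (· ≤ ·) S) : CC L where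
  r x y := (x, y) ∈ closure {p : L × L | ∃ c ∈ S, CC.r c p.1 p.2}
  equiv := by
    have hc1 : Continuous (fun p : (L × L) × (L × L) => ((p.1.1 * p.1.2⁻¹) * p.2.1, p.2.2)) :=
      (TopMLoop.cmul (TopMLoop.cmul (continuous_fst.comp continuous_fst)
        (TopMLoop.cinv (continuous_snd.comp continuous_fst)))
        (continuous_fst.comp continuous_snd)).prodMk (continuous_snd.comp continuous_snd)
    refine ⟨fun x => subset_closure ?_, fun {x y} h => ?_, fun {x y z} h h' => ?_⟩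
    · obtain ⟨c, hc⟩ := hne
      exact ⟨c, hc, c.equiv.refl x⟩
    · refine map_mem_closure (f := Prod.swap) continuous_swap h ?_
      rintro p ⟨c, hc, hp⟩
      exact ⟨c, hc, c.equiv.symm hp⟩
    · have h1 : ((x, y), (y, z)) ∈ closure ({p : L × L | ∃ c ∈ S, CC.r c p.1 p.2} ×ˢ
          {p : L × L | ∃ c ∈ S, CC.r c p.1 p.2}) := by
        rw [closure_prod_eq]
        exact ⟨h, h'⟩
      have h2 := map_mem_closure hc1 h1 (t := {p : L × L | ∃ c ∈ S, CC.r c p.1 p.2}) (by
        rintro ⟨p, q⟩ ⟨⟨c, hc, hp⟩, ⟨d, hd, hq⟩⟩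
        obtain ⟨e, he, hce, hde⟩ : ∃ e ∈ S, c ≤ e ∧ d ≤ e := by
          rcases hS.total hc hd with h3 | h3
          · exact ⟨d, hd, h3, le_rfl⟩
          · exact ⟨c, hc, le_rfl, h3⟩
        refine ⟨e, he, ?_⟩
        change e.r ((p.1 * p.2⁻¹) * q.1) q.2
        have h4 := e.right q.1 _ _ (e.right p.2⁻¹ _ _ (hce _ _ hp))
        rw [MLoop.mul_inv_self, MLoop.one_mul] at h4
        exact e.equiv.trans h4 (hde _ _ hq))
      simp only [MLoop.mul_inv_mul] at h2
      exact h2
  left a x y h := by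
    refine map_mem_closure (f := fun p : L × L => (a * p.1, a * p.2))
      (((TopMLoop.continuous_mul_left a).comp continuous_fst).prodMk
        ((TopMLoop.continuous_mul_left a).comp continuous_snd)) h ?_
    rintro p ⟨c, hc, hp⟩
    exact ⟨c, hc, c.left a _ _ hp⟩
  right a x y h := by
    refine map_mem_closure (f := fun p : L × L => (p.1 * a, p.2 * a))
      (((TopMLoop.continuous_mul_right a).comp continuous_fst).prodMk
        ((TopMLoop.continuous_mul_right a).comp continuous_snd)) h ?_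
    rintro p ⟨c, hc, hp⟩
    exact ⟨c, hc, c.right a _ _ hp⟩
  closed := isClosed_closure

theorem le_csup {S : Set (CC L)} (hne : S.Nonempty) (hS : IsChain (· ≤ ·) S) {c : CC L}
    (hc : c ∈ S) : c ≤ csup S hne hS := fun _ _ h => subset_closure ⟨c, hc, h⟩

theorem csup_le {S : Set (CC L)} (hne : S.Nonempty) (hS : IsChain (· ≤ ·) S) {d : CC L}
    (h : ∀ c ∈ S, c ≤ d) : csup S hne hS ≤ d := fun x y hxy => by
  have h1 : closure {p : L × L | ∃ c ∈ S, CC.r c p.1 p.2} ⊆ {p : L × L | d.r p.1 p.2} := by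
    refine closure_minimal ?_ d.closed
    rintro p ⟨c, hc, hp⟩
    exact h c hc _ _ hp
  exact h1 hxy

theorem inf_le' {S : Set (CC L)} {c : CC L} (hc : c ∈ S) : inf S ≤ c := fun _ _ h => h c hc

theorem le_inf' {S : Set (CC L)} {d : CC L} (h : ∀ c ∈ S, d ≤ c) : d ≤ inf S :=
  fun x y hxy c hc => h c hc x y hxy

/-- infima of chains -/
theorem FH.inf {S : Set (CC L)} (hne : S.Nonempty) (hS : IsChain (· ≤ ·) S) {d : CC L}
    (h : ∀ c ∈ S, FH c d) : FH (CC.inf S) d := by
  obtain ⟨c₀, hc₀⟩ := hne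
  have hle : CC.inf S ≤ d := (inf_le' hc₀).trans (h c₀ hc₀).1
  refine ⟨hle, HasMean.lim fun U hU h1U => ?_⟩
  have : Nonempty S := ⟨⟨c₀, hc₀⟩⟩
  let ρ : ∀ c : S, KK hle → KK (h c.1 c.2).1 := fun c => kmap (inf_le' c.2) (h c.1 c.2).1
  have hρ : ∀ (c : S) (x : L) (hx : d.r x 1), ρ c (kk hle x hx) = 1 ↔ c.1.r x 1 := by
    intro c x hx
    constructor
    · intro h1
      exact c.1.pr_eq.mp (congrArg Subtype.val h1)
    · intro h1
      exact Subtype.ext (c.1.pr_eq.mpr h1)
  obtain ⟨c, hc⟩ := IsCompact.elim_directed_family_closed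
    (s := Uᶜ) hU.isClosed_compl.isCompact
    (fun c : S => {q : KK hle | ρ c q = 1})
    (fun c => isClosed_eq (kmap_cont _ _) continuous_const) (by
      ext q
      simp only [Set.mem_inter_iff, Set.mem_iInter, Set.mem_empty_iff_false, iff_false, not_and]
      intro hq hq'
      apply hq
      obtain ⟨x, hx, rfl⟩ := exists_kk _ q
      have h2 : kk hle x hx = 1 := Subtype.ext ((CC.inf S).pr_eq.mpr fun c hc =>
        (hρ ⟨c, hc⟩ x hx).mp (hq' ⟨c, hc⟩))
      rw [h2]
      exact h1U) (by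
      intro c e
      rcases hS.total c.2 e.2 with h3 | h3
      · refine ⟨c, fun q hq => hq, fun q hq => ?_⟩
        obtain ⟨x, hx, rfl⟩ := exists_kk _ q
        exact (hρ e x hx).mpr (h3 _ _ ((hρ c x hx).mp hq))
      · refine ⟨e, fun q hq => ?_, fun q hq => hq⟩
        obtain ⟨x, hx, rfl⟩ := exists_kk _ q
        exact (hρ c x hx).mpr (h3 _ _ ((hρ e x hx).mp hq)))
  refine ⟨KK (h c.1 c.2).1, inferInstance, inferInstance, inferInstance, inferInstance, ρ c,
    (h c.1 c.2).2, kmap_hom _ _, kmap_cont _ _, kmap_surj _ _, fun x hx => ?_⟩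
  by_contra hxU
  have h2 : x ∈ Uᶜ ∩ {q : KK hle | ρ c q = 1} := ⟨hxU, hx⟩
  rw [hc] at h2
  exact h2

/-- suprema of chains -/
theorem FH.csup {S : Set (CC L)} (hne : S.Nonempty) (hS : IsChain (· ≤ ·) S) {c : CC L}
    (h : ∀ s ∈ S, FH c s) : FH c (CC.csup S hne hS) := by
  classical
  obtain ⟨s₀, hs₀⟩ := id hne
  have hle : c ≤ CC.csup S hne hS := (h s₀ hs₀).1.trans (le_csup hne hS hs₀)
  refine ⟨hle, ?_⟩
  -- inclusions
  let i : ∀ s : S, KK (h s.1 s.2).1 → KK hle := fun s q => ⟨q.1, by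
    obtain ⟨x, hx, rfl⟩ := exists_kk _ q
    exact (CC.csup S hne hS).pr_eq.mpr (le_csup hne hS s.2 _ _ hx)⟩
  have hi : ∀ s, Continuous (i s) := fun s => (kval_cont _).subtype_mk _
  let D : Set (KK hle) := {n | ∃ s : S, n ∈ Set.range (i s)}
  have hD : ∀ n : KK hle, n ∈ closure D := by
    intro n
    obtain ⟨x, hx, rfl⟩ := exists_kk _ n
    have hx' : (x, (1 : L)) ∈ closure {p : L × L | ∃ c ∈ S, CC.r c p.1 p.2} := hx
    have hind : IsInducing (fun q : KK hle => q.1) := IsInducing.subtypeVal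
    rw [hind.closure_eq_preimage_closure_image]
    have hF : Continuous (fun p : L × L => c.pr (p.1 * p.2⁻¹)) :=
      c.pr_cont.comp (TopMLoop.cmul continuous_fst (TopMLoop.cinv continuous_snd))
    have h1 := map_mem_closure hF hx' (t := (fun q : KK hle => q.1) '' D) (by
      rintro p ⟨s, hs, hp⟩
      have h2 : s.r (p.1 * p.2⁻¹) 1 := by
        have h3 := s.right p.2⁻¹ _ _ hp
        rwa [MLoop.mul_inv_self] at h3
      exact ⟨i ⟨s, hs⟩ (kk _ _ h2), ⟨⟨s, hs⟩, kk _ _ h2, rfl⟩, rfl⟩)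
    have h3 : x * (1 : L)⁻¹ = x := by
      have h4 := MLoop.mul_mul_inv x 1
      rwa [MLoop.mul_one] at h4
    simp only [h3] at h1
    exact h1
  obtain ⟨Λ, hΛ⟩ := mean_of_approx (X := KK hle) (ι := D × C(KK hle, ℝ) × Bool)
    (fun p => if p.2.2 then cl p.2.1 p.1.1 else cr p.2.1 p.1.1) (fun p => p.2.1) (by
      intro u ε hε
      -- one index for all elements
      have hone : ∃ s : S, ∀ p ∈ u, p.1.1 ∈ Set.range (i s) := by
        induction u using Finset.induction_on with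
        | empty => exact ⟨⟨s₀, hs₀⟩, by simp⟩
        | insert p u _ ih =>
          obtain ⟨s, hs⟩ := ih
          obtain ⟨s', hs'⟩ := p.1.2
          rcases hS.total s.2 s'.2 with h3 | h3
          · refine ⟨s', fun p' hp' => ?_⟩
            rcases Finset.mem_insert.mp hp' with rfl | hp'
            · exact hs'
            · obtain ⟨q, hq⟩ := hs p' hp'
              obtain ⟨x, hx, rfl⟩ := exists_kk _ q
              exact ⟨kk _ x (h3 _ _ hx), hq⟩
          · refine ⟨s, fun p' hp' => ?_⟩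
            rcases Finset.mem_insert.mp hp' with rfl | hp'
            · obtain ⟨q, hq⟩ := hs'
              obtain ⟨x, hx, rfl⟩ := exists_kk _ q
              exact ⟨kk _ x (h3 _ _ hx), hq⟩
            · exact hs p' hp'
      obtain ⟨s, hs⟩ := hone
      obtain ⟨M, hM⟩ := (h s.1 s.2).2
      let Λ : Mean (KK hle) := ⟨fun f => M (f.comp ⟨i s, hi s⟩),
        fun f g => M.add (f.comp ⟨i s, hi s⟩) (g.comp ⟨i s, hi s⟩),
        fun c f => M.smul c (f.comp ⟨i s, hi s⟩),
        fun f g hfg => M.mono _ _ fun x => hfg _, M.one⟩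
      refine ⟨Λ, fun p hp => ?_⟩
      obtain ⟨q, hq⟩ := hs p hp
      by_cases hb : p.2.2 = true
      · simp only [hb, if_true]
        have h4 : Λ (cl p.2.1 p.1.1) = Λ p.2.1 := by
          change M ((cl p.2.1 p.1.1).comp ⟨i s, hi s⟩) = M (p.2.1.comp ⟨i s, hi s⟩)
          rw [← (hM q (p.2.1.comp ⟨i s, hi s⟩)).1]
          congr 1
          ext x
          change p.2.1 (p.1.1 * i s x) = p.2.1 (i s (q * x))
          rw [← hq]
          rfl
        rw [h4, sub_self, abs_zero]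
        exact hε.le
      · simp only [hb]
        have h4 : Λ (cr p.2.1 p.1.1) = Λ p.2.1 := by
          change M ((cr p.2.1 p.1.1).comp ⟨i s, hi s⟩) = M (p.2.1.comp ⟨i s, hi s⟩)
          rw [← (hM q (p.2.1.comp ⟨i s, hi s⟩)).2]
          congr 1
          ext x
          change p.2.1 (i s x * p.1.1) = p.2.1 (i s (x * q))
          rw [← hq]
          rfl
        change |Λ (cr p.2.1 p.1.1) - Λ p.2.1| ≤ ε
        rw [h4, sub_self, abs_zero]
        exact hε.le)
  refine ⟨Λ, fun a f => ⟨?_, ?_⟩⟩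
  · have h1 : IsClosed {n : KK hle | Λ (cl f n) = Λ f} := by
      refine isClosed_eq ?_ continuous_const
      let F : C(KK hle, C(KK hle, ℝ)) := ContinuousMap.curry ⟨fun p : KK hle × KK hle =>
        f (p.1 * p.2), f.continuous.comp TopMLoop.cont_mul⟩
      exact Λ.continuous_family F
    have h2 : closure D ⊆ {n : KK hle | Λ (cl f n) = Λ f} := by
      refine closure_minimal (fun n hn => ?_) h1
      have := hΛ (⟨n, hn⟩, f, true)
      simpa using this
    exact h2 (hD a)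
  · have h1 : IsClosed {n : KK hle | Λ (cr f n) = Λ f} := by
      refine isClosed_eq ?_ continuous_const
      let F : C(KK hle, C(KK hle, ℝ)) := ContinuousMap.curry ⟨fun p : KK hle × KK hle =>
        f (p.2 * p.1), f.continuous.comp (TopMLoop.cmul continuous_snd continuous_fst)⟩
      exact Λ.continuous_family F
    have h2 : closure D ⊆ {n : KK hle | Λ (cr f n) = Λ f} := by
      refine closure_minimal (fun n hn => ?_) h1
      have := hΛ (⟨n, hn⟩, f, false)
      simpa using this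
    exact h2 (hD a)

end CC

end Pool.Agent.MoufangHaar
end
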