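import Mathlib
import Pool.Agent.Lib.MP_fd6bc6_al.T3.PW1
import Pool.Agent.Lib.MP_fd6bc6_al.Mlt

section

set_option autoImplicit false
set_option linter.unusedSectionVars false

open MeasureTheory Topology

namespace Pool.Agent.CGrp

variable {G : Type*} [Group G] [TopologicalSpace G] [IsTopologicalGroup G] [CompactSpace G]
  [T2Space G] [MeasurableSpace G] [BorelSpace G]
  (μ : Measure G) [IsProbabilityMeasure μ] [μ.IsMulLeftInvariant] [μ.IsOpenPosMeasure]

private theorem inner_cl (a b : C(G, ℂ)) :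
    inner ℂ (cl μ a) (cl μ b) = ∫ x, b x * (starRingEnd ℂ) (a x) ∂μ :=
  ContinuousMap.inner_toLp (𝕜 := ℂ) μ a b

private theorem opT_symm_cont (φ : C(G, ℂ))
    (hφ : ∀ x, φ x⁻¹ = (starRingEnd ℂ) (φ x)) (h h' : C(G, ℂ)) :
    inner ℂ (opT μ φ (cl μ h)) (cl μ h') = inner ℂ (cl μ h) (opT μ φ (cl μ h')) := by
  rw [opT_apply, opT_apply, inner_cl, inner_cl]
  have e1 : ∀ x, h' x * (starRingEnd ℂ) (opS μ φ (cl μ h) x) =
      ∫ y, h' x * ((starRingEnd ℂ) (h y) * φ (x⁻¹ * y)) ∂μ := by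
    intro x
    rw [opS_apply, inner_cl, ← integral_conj, ← integral_const_mul]
    congr 1
    funext y
    simp [lam_apply]
  have e2 : ∀ y, opS μ φ (cl μ h') y * (starRingEnd ℂ) (h y) =
      ∫ x, h' x * ((starRingEnd ℂ) (h y) * φ (x⁻¹ * y)) ∂μ := by
    intro y
    rw [opS_apply, inner_cl, ← integral_mul_const]
    congr 1
    funext x
    have := hφ (y⁻¹ * x)
    rw [mul_inv_rev, inv_inv] at this
    rw [this, lam_apply]
    ring
  simp_rw [e1, e2]
  apply integral_integral_swap_of_hasCompactSupport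
  · have c1 : Continuous (fun p : G × G => h' p.1) := h'.continuous.comp continuous_fst
    have c2 : Continuous (fun p : G × G => (starRingEnd ℂ) (h p.2)) :=
      Complex.continuous_conj.comp (h.continuous.comp continuous_snd)
    have c3 : Continuous (fun p : G × G => φ (p.1⁻¹ * p.2)) :=
      φ.continuous.comp (continuous_fst.inv.mul continuous_snd)
    exact c1.mul (c2.mul c3)
  · exact HasCompactSupport.of_compactSpace _

/-- Enough for f, f' in the dense range of cl (`ContinuousMap.toLp_denseRange`) since both sides are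
continuous in f and f'. For continuous f, f':
⟪T f, f'⟫ = ∫ conj (∫ conj (φ (x⁻¹ y)) f y dy) f' x dx = ∫∫ φ (x⁻¹ y) conj (f y) f' x dy dx,
⟪f, T f'⟫ = ∫ conj (f y) ∫ conj (φ (y⁻¹ x)) f' x dx dy; use hφ with x⁻¹ y and Fubini for a continuous
function on the compact space G × G (second countability of G is available here). -/
theorem opT_symm [SecondCountableTopology G] (φ : C(G, ℂ))
    (hφ : ∀ x, φ x⁻¹ = (starRingEnd ℂ) (φ x)) :
    (opT μ φ : Lp ℂ 2 μ →ₗ[ℂ] Lp ℂ 2 μ).IsSymmetric := by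
  intro f f'
  refine DenseRange.induction_on₂ (p := fun f f' : Lp ℂ 2 μ =>
    inner ℂ (opT μ φ f) f' = inner ℂ f (opT μ φ f'))
    (ContinuousMap.toLp_denseRange ℂ μ ℂ (p := 2) (by norm_num)) ?_ ?_ f f'
  · exact isClosed_eq (((opT μ φ).continuous.comp continuous_fst).inner continuous_snd)
      (continuous_fst.inner ((opT μ φ).continuous.comp continuous_snd))
  · intro h h'
    exact opT_symm_cont μ φ hφ h h'

end Pool.Agent.CGrp
end

section

set_option autoImplicit false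
set_option linter.unusedSectionVars false

open MeasureTheory Topology

namespace Pool.Agent.CGrp

variable {G : Type*} [Group G] [TopologicalSpace G] [IsTopologicalGroup G] [CompactSpace G]
  [T2Space G] [SecondCountableTopology G] [MeasurableSpace G] [BorelSpace G]
  (μ : Measure G) [IsProbabilityMeasure μ] [μ.IsMulLeftInvariant] [μ.IsOpenPosMeasure]

/-- left translation on L², an isometry (f ↦ f ∘ (g⁻¹ * ·)) -/
noncomputable def tr (g : G) : Lp ℂ 2 μ →ₗᵢ[ℂ] Lp ℂ 2 μ :=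
  Lp.compMeasurePreservingₗᵢ ℂ (fun x : G => g⁻¹ * x) (measurePreserving_mul_left μ g⁻¹)

/-- `Lp.ext`, a.e. equality of representatives: `Lp.coeFn_compMeasurePreserving`,
`ContinuousMap.coeFn_toLp`. -/
theorem tr_cl (g : G) (h : C(G, ℂ)) : tr μ g (cl μ h) = cl μ (lam g h) := by
  have hm := measurePreserving_mul_left μ g⁻¹
  apply Lp.ext
  have h1 : ((tr μ g (cl μ h) : Lp ℂ 2 μ) : G → ℂ) =ᵐ[μ] (cl μ h : G → ℂ) ∘ (fun x => g⁻¹ * x) :=
    Lp.coeFn_compMeasurePreserving (cl μ h) hm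
  have h2 : ((cl μ (lam g h) : Lp ℂ 2 μ) : G → ℂ) =ᵐ[μ] lam g h :=
    ContinuousMap.coeFn_toLp (p := 2) (𝕜 := ℂ) μ (lam g h)
  have h3 : ((cl μ h : Lp ℂ 2 μ) : G → ℂ) =ᵐ[μ] h :=
    ContinuousMap.coeFn_toLp (p := 2) (𝕜 := ℂ) μ h
  have h4 := hm.quasiMeasurePreserving.ae_eq_comp h3
  exact h1.trans (h4.trans h2.symm)

/-- Both sides are continuous linear in f; on the dense set of classes of continuous functions
(`ContinuousMap.toLp_denseRange`) this is tr_cl and lam_mul. -/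
theorem tr_mul (a b : G) (f : Lp ℂ 2 μ) : tr μ (a * b) f = tr μ a (tr μ b f) := by
  refine DenseRange.induction_on (p := fun f : Lp ℂ 2 μ => tr μ (a * b) f = tr μ a (tr μ b f))
    (ContinuousMap.toLp_denseRange ℂ μ ℂ (p := 2) (by norm_num)) f ?_ ?_
  · exact isClosed_eq (tr μ (a * b)).continuous ((tr μ a).continuous.comp (tr μ b).continuous)
  · intro h
    change tr μ (a * b) (cl μ h) = tr μ a (tr μ b (cl μ h))
    rw [tr_cl, tr_cl, tr_cl, lam_mul]

theorem tr_one (f : Lp ℂ 2 μ) : tr μ 1 f = f := by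
  refine DenseRange.induction_on (p := fun f : Lp ℂ 2 μ => tr μ 1 f = f)
    (ContinuousMap.toLp_denseRange ℂ μ ℂ (p := 2) (by norm_num)) f ?_ ?_
  · exact isClosed_eq (tr μ 1).continuous continuous_id
  · intro h
    change tr μ 1 (cl μ h) = cl μ h
    rw [tr_cl, lam_one]

/-- ⟪lam x φ, tr g f⟫ = ⟪tr g (lam (g⁻¹ x) φ), tr g f⟫ = ⟪lam (g⁻¹ x) φ, f⟫. -/
theorem opS_tr (φ : C(G, ℂ)) (g : G) (f : Lp ℂ 2 μ) :
    opS μ φ (tr μ g f) = lam g (opS μ φ f) := by
  ext x
  rw [lam_apply, opS_apply, opS_apply]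
  have h1 : cl μ (lam x φ) = tr μ g (cl μ (lam (g⁻¹ * x) φ)) := by
    rw [tr_cl, ← lam_mul, mul_inv_cancel_left]
  rw [h1, LinearIsometry.inner_map_map]

theorem opT_tr (φ : C(G, ℂ)) (g : G) (f : Lp ℂ 2 μ) :
    opT μ φ (tr μ g f) = tr μ g (opT μ φ f) := by
  rw [opT_apply, opT_apply, opS_tr, tr_cl]

end Pool.Agent.CGrp
end

section

set_option autoImplicit false
set_option linter.unusedSectionVars false

open MeasureTheory Topology

namespace Pool.Agent.CGrp

variable {G : Type*} [Group G] [TopologicalSpace G] [IsTopologicalGroup G] [CompactSpace G]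
  [T2Space G] [SecondCountableTopology G] [MeasurableSpace G] [BorelSpace G]
  (μ : Measure G) [IsProbabilityMeasure μ] [μ.IsMulLeftInvariant] [μ.IsOpenPosMeasure]

/-- If x ∉ V * V, V symmetric, and φ is a nonnegative symmetric function supported in V with φ 1 > 0,
then tr x does not fix opT φ (cl φ): otherwise lam x (opS φ (cl φ)) = opS φ (cl φ) (cl is
injective on continuous functions, `ContinuousMap.toLp_injective`; opS_tr), so at the point x
(opS φ (cl φ)) 1 = (opS φ (cl φ)) x; the left side is ∫ |φ y|² > 0 (open positive measure), the right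
side is ∫ conj (φ (x⁻¹ y)) φ y dy = 0, since φ y ≠ 0 and φ (x⁻¹ y) ≠ 0 give x = y (x⁻¹ y)⁻¹ ∈ V V. -/
theorem tr_ne (V : Set G) (hV : ∀ v ∈ V, v⁻¹ ∈ V) (φ : C(G, ℂ)) (hφ : ∀ y, φ y ≠ 0 → y ∈ V)
    (h1 : φ 1 ≠ 0) (x : G) (hx : ∀ v ∈ V, ∀ w ∈ V, x ≠ v * w) :
    tr μ x (opT μ φ (cl μ φ)) ≠ opT μ φ (cl μ φ) := by
  intro he
  rw [opT_apply, tr_cl] at he
  have hi : lam x (opS μ φ (cl μ φ)) = opS μ φ (cl μ φ) := ContinuousMap.toLp_injective μ he
  have hv : opS μ φ (cl μ φ) 1 = opS μ φ (cl μ φ) x := by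
    have h2 := DFunLike.congr_fun hi x
    rw [lam_apply, inv_mul_cancel] at h2
    exact h2
  rw [opS_apply, opS_apply, lam_one] at hv
  have hx0 : inner ℂ (cl μ (lam x φ)) (cl μ φ) = (0 : ℂ) := by
    unfold cl
    rw [ContinuousMap.inner_toLp]
    have hz : ∀ y, φ y * (starRingEnd ℂ) (lam x φ y) = 0 := by
      intro y
      by_cases h2 : φ y = 0
      · rw [h2, zero_mul]
      · by_cases h3 : φ (x⁻¹ * y) = 0
        · rw [lam_apply, h3, map_zero, mul_zero]
        · exfalso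
          have h4 := hV _ (hφ _ h3)
          refine hx y (hφ y h2) _ h4 ?_
          group
    simp only [hz, integral_zero]
  rw [hx0] at hv
  have h0 : cl μ φ = 0 := inner_self_eq_zero.1 hv
  have h2 : φ = 0 := by
    apply ContinuousMap.toLp_injective (𝕜 := ℂ) (p := 2) μ
    rw [map_zero]
    exact h0
  rw [h2] at h1
  exact h1 rfl

/-- The eigenspaces of opT for nonzero eigenvalues separate: if tr x acts trivially on all of them then
tr x (opT f) = opT f for all f: both sides are continuous in f, and L² is the closure of the span of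
the eigenspaces (`ContinuousLinearMap.orthogonalComplement_iSup_eigenspaces_eq_bot` or how it is called in
Mathlib/Analysis/InnerProductSpace/Spectrum.lean, for compact symmetric operators); on the eigenspace
of κ ≠ 0 by hypothesis (opT f = κ f), on the kernel both sides are 0. -/
theorem exists_eigen (φ : C(G, ℂ)) (hs : ∀ x, φ x⁻¹ = (starRingEnd ℂ) (φ x)) (x : G)
    (hx : ∃ f, tr μ x (opT μ φ f) ≠ opT μ φ f) :
    ∃ κ : ℂ, κ ≠ 0 ∧ ∃ f : Lp ℂ 2 μ, opT μ φ f = κ • f ∧ tr μ x f ≠ f := by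
  by_contra hcon
  push Not at hcon
  obtain ⟨f, hf⟩ := hx
  let A : Lp ℂ 2 μ →L[ℂ] Lp ℂ 2 μ :=
    ((tr μ x).toContinuousLinearMap.comp (opT μ φ)) - opT μ φ
  have hA : ∀ f, A f = tr μ x (opT μ φ f) - opT μ φ f := fun f => rfl
  have hle : (⨆ κ, Module.End.eigenspace (opT μ φ : Module.End ℂ (Lp ℂ 2 μ)) κ) ≤
      LinearMap.ker (A : Lp ℂ 2 μ →ₗ[ℂ] Lp ℂ 2 μ) := by
    refine iSup_le fun κ f hf => ?_
    rw [Module.End.mem_eigenspace_iff] at hf
    have hf' : opT μ φ f = κ • f := hf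
    rw [LinearMap.mem_ker]
    show A f = 0
    rw [hA, hf']
    by_cases hκ : κ = 0
    · rw [hκ, zero_smul, map_zero, sub_zero]
    · rw [map_smul, hcon κ hκ f hf', sub_self]
  have hbot := ContinuousLinearMap.orthogonalComplement_iSup_eigenspaces_eq_bot
    (opT_compact μ φ) (opT_symm μ φ hs)
  have hker : (LinearMap.ker (A : Lp ℂ 2 μ →ₗ[ℂ] Lp ℂ 2 μ))ᗮ = ⊥ := by
    rw [eq_bot_iff, ← hbot]
    exact Submodule.orthogonal_le hle
  have hclosed : IsClosed ((LinearMap.ker (A : Lp ℂ 2 μ →ₗ[ℂ] Lp ℂ 2 μ) : Submodule ℂ (Lp ℂ 2 μ)) :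
      Set (Lp ℂ 2 μ)) := A.isClosed_ker
  have : CompleteSpace (LinearMap.ker (A : Lp ℂ 2 μ →ₗ[ℂ] Lp ℂ 2 μ)) :=
    hclosed.completeSpace_coe
  have htop := (Submodule.orthogonal_eq_bot_iff).1 hker
  have h1 : f ∈ LinearMap.ker (A : Lp ℂ 2 μ →ₗ[ℂ] Lp ℂ 2 μ) := by
    rw [htop]
    trivial
  rw [LinearMap.mem_ker] at h1
  have h2 : A f = 0 := h1
  rw [hA] at h2
  exact hf (sub_eq_zero.1 h2)

end Pool.Agent.CGrp
end

section

set_option autoImplicit false
set_option linter.unusedSectionVars false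

open MeasureTheory Topology

namespace Pool.Agent.CGrp

variable {G : Type*} [Group G] [TopologicalSpace G] [IsTopologicalGroup G] [CompactSpace G]
  [T2Space G] [SecondCountableTopology G] [MeasurableSpace G] [BorelSpace G]
  (μ : Measure G) [IsProbabilityMeasure μ] [μ.IsMulLeftInvariant] [μ.IsOpenPosMeasure]

/-- Finite dimensional invariant subspaces. Choose V symmetric open with V V ⊆ interior of U... and
φ (x) = ψ (x) + ψ (x⁻¹), ψ : G → [0, 1] continuous, ψ 1 = 1, ψ = 0 outside V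
(`exists_continuous_zero_one_of_isClosed`). For x ∈ Uᶜ (take U open, so Uᶜ is compact) exists_eigen
and tr_ne give κ ≠ 0 and f in its eigenspace with tr x f ≠ f; tr y f ≠ f for y near x (continuity
of y ↦ tr y f: f = κ⁻¹ cl (opS f), tr_cl and continuous_lam). By compactness finitely many κ suffice; E is
the (finite) supremum of their eigenspaces, finite dimensional because opT is compact
(`IsCompactOperator...finite_dimensional_eigenspace`), invariant by opT_tr. Elements of E are classes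
of continuous functions, so the orbit maps are continuous (it is enough to check it on the eigenspaces). -/
theorem exists_subspace (U : Set G) (hU : U ∈ 𝓝 (1 : G)) :
    ∃ E : Submodule ℂ (Lp ℂ 2 μ), FiniteDimensional ℂ E ∧ (∀ g, ∀ f ∈ E, tr μ g f ∈ E) ∧
      (∀ f ∈ E, Continuous (fun g : G => tr μ g f)) ∧ ∀ x, (∀ f ∈ E, tr μ x f = f) → x ∈ U := by
  classical
  -- the neighbourhood
  have hU' : interior U ∈ 𝓝 (1 : G) := interior_mem_nhds.2 hU
  obtain ⟨V, hVo, hV1, hVV⟩ := exists_open_nhds_one_mul_subset hU'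
  let W : Set G := V ∩ V⁻¹
  have hWo : IsOpen W := hVo.inter hVo.inv
  have hW1 : (1 : G) ∈ W := ⟨hV1, by rw [Set.mem_inv, inv_one]; exact hV1⟩
  have hWi : ∀ v ∈ W, v⁻¹ ∈ W := fun v hv => ⟨hv.2, by rw [Set.mem_inv, inv_inv]; exact hv.1⟩
  -- the function
  obtain ⟨ψ, hψ0, hψ1, -⟩ := exists_continuous_zero_one_of_isClosed (s := Wᶜ) (t := {(1 : G)})
    hWo.isClosed_compl isClosed_singleton (by
      rw [Set.disjoint_singleton_right]
      exact fun h => h hW1)
  have hψW : ∀ y, ψ y ≠ 0 → y ∈ W := by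
    intro y hy
    by_contra hyW
    exact hy (hψ0 hyW)
  have hψone : ψ 1 = 1 := hψ1 rfl
  let φ : C(G, ℂ) := ⟨fun y => ((ψ y + ψ y⁻¹ : ℝ) : ℂ), by fun_prop⟩
  have hφa : ∀ y, φ y = ((ψ y + ψ y⁻¹ : ℝ) : ℂ) := fun y => rfl
  have hφW : ∀ y, φ y ≠ 0 → y ∈ W := by
    intro y hy
    by_cases h1 : ψ y = 0
    · by_cases h2 : ψ y⁻¹ = 0
      · exfalso
        apply hy
        rw [hφa, h1, h2, add_zero, Complex.ofReal_zero]
      · have h3 := hWi _ (hψW _ h2)
        rwa [inv_inv] at h3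
    · exact hψW y h1
  have hφ1 : φ 1 ≠ 0 := by
    rw [hφa, inv_one, hψone]
    norm_num
  have hφs : ∀ x, φ x⁻¹ = (starRingEnd ℂ) (φ x) := by
    intro x
    rw [hφa, hφa, inv_inv, Complex.conj_ofReal, add_comm]
  -- continuity of the orbit map for eigenvectors
  have hcont : ∀ (κ : ℂ) (f : Lp ℂ 2 μ), κ ≠ 0 → opT μ φ f = κ • f →
      Continuous (fun g : G => tr μ g f) := by
    intro κ f hκ hf
    have e : ∀ g : G, tr μ g f = κ⁻¹ • cl μ (lam g (opS μ φ f)) := by
      intro g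
      rw [← tr_cl, ← opT_apply, hf, map_smul, smul_smul, inv_mul_cancel₀ hκ, one_smul]
    simp only [e]
    exact ((ContinuousMap.toLp (E := ℂ) 2 μ ℂ).continuous.comp
      (continuous_lam (opS μ φ f))).const_smul κ⁻¹
  -- compactness
  have hK : IsCompact (interior U)ᶜ := isOpen_interior.isClosed_compl.isCompact
  have key : ∃ s : Finset ℂ, (∀ κ ∈ s, κ ≠ 0) ∧ ∀ x ∈ (interior U)ᶜ, ∃ κ ∈ s,
      ∃ f : Lp ℂ 2 μ, opT μ φ f = κ • f ∧ tr μ x f ≠ f := by
    refine hK.induction_on (p := fun S => ∃ s : Finset ℂ, (∀ κ ∈ s, κ ≠ 0) ∧ ∀ x ∈ S, ∃ κ ∈ s,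
      ∃ f : Lp ℂ 2 μ, opT μ φ f = κ • f ∧ tr μ x f ≠ f) ?_ ?_ ?_ ?_
    · exact ⟨∅, fun κ hκ => absurd hκ (Finset.notMem_empty κ), fun x hx => absurd hx
        (Set.notMem_empty x)⟩
    · rintro S T hST ⟨s, h1, h2⟩
      exact ⟨s, h1, fun x hx => h2 x (hST hx)⟩
    · rintro S T ⟨s, h1, h2⟩ ⟨t, h3, h4⟩
      refine ⟨s ∪ t, fun κ hκ => ?_, fun x hx => ?_⟩
      · rcases Finset.mem_union.1 hκ with h | h
        · exact h1 κ h
        · exact h3 κ h
      · rcases hx with hx | hx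
        · obtain ⟨κ, hκ, h⟩ := h2 x hx
          exact ⟨κ, Finset.mem_union_left _ hκ, h⟩
        · obtain ⟨κ, hκ, h⟩ := h4 x hx
          exact ⟨κ, Finset.mem_union_right _ hκ, h⟩
    · intro x hx
      have hxW : ∀ v ∈ W, ∀ w ∈ W, x ≠ v * w := by
        rintro v hv w hw rfl
        exact hx (hVV (Set.mul_mem_mul hv.1 hw.1))
      obtain ⟨κ, hκ, f, hf, hne⟩ := exists_eigen μ φ hφs x
        ⟨cl μ φ, tr_ne μ W hWi φ hφW hφ1 x hxW⟩
      refine ⟨{y | tr μ y f ≠ f}, mem_nhdsWithin_of_mem_nhds ?_, {κ}, fun κ' h => ?_, fun y hy => ?_⟩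
      · exact ((hcont κ f hκ hf).isOpen_preimage {w | w ≠ f} isOpen_ne).mem_nhds hne
      · rw [Finset.mem_singleton] at h
        rw [h]
        exact hκ
      · exact ⟨κ, Finset.mem_singleton_self κ, f, hf, hy⟩
  obtain ⟨s, hs0, hs⟩ := key
  let S : ℂ → Submodule ℂ (Lp ℂ 2 μ) := fun κ =>
    if κ = 0 then ⊥ else Module.End.eigenspace (opT μ φ : Module.End ℂ (Lp ℂ 2 μ)) κ
  have hfin : ∀ κ, FiniteDimensional ℂ (S κ) := by
    intro κ
    by_cases hκ : κ = 0
    · have : S κ = ⊥ := if_pos hκ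
      rw [this]
      infer_instance
    · have : S κ = Module.End.eigenspace (opT μ φ : Module.End ℂ (Lp ℂ 2 μ)) κ := if_neg hκ
      rw [this]
      exact ContinuousLinearMap.finite_dimensional_eigenspace (opT_compact μ φ) κ hκ
  have hSmem : ∀ κ f, f ∈ S κ → opT μ φ f = κ • f ∧ (κ = 0 → f = 0) := by
    intro κ f hf
    by_cases hκ : κ = 0
    · have : S κ = ⊥ := if_pos hκ
      rw [this, Submodule.mem_bot] at hf
      rw [hf, map_zero, smul_zero]
      exact ⟨rfl, fun _ => rfl⟩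
    · have : S κ = Module.End.eigenspace (opT μ φ : Module.End ℂ (Lp ℂ 2 μ)) κ := if_neg hκ
      rw [this, Module.End.mem_eigenspace_iff] at hf
      exact ⟨hf, fun h => absurd h hκ⟩
  have hSmem' : ∀ κ f, κ ≠ 0 → opT μ φ f = κ • f → f ∈ S κ := by
    intro κ f hκ hf
    have : S κ = Module.End.eigenspace (opT μ φ : Module.End ℂ (Lp ℂ 2 μ)) κ := if_neg hκ
    rw [this, Module.End.mem_eigenspace_iff]
    exact hf
  refine ⟨s.sup S, inferInstance, fun g f hf => ?_, fun f hf => ?_, fun x hx => ?_⟩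
  · have hle : s.sup S ≤ (s.sup S).comap (tr μ g).toLinearMap := by
      refine Finset.sup_le fun κ hκ f hf => ?_
      refine Finset.le_sup (f := S) hκ ?_
      have h1 := (hSmem κ f hf).1
      refine hSmem' κ _ (hs0 κ hκ) ?_
      show opT μ φ (tr μ g f) = κ • tr μ g f
      rw [opT_tr, h1, map_smul]
    exact hle hf
  · let C : Submodule ℂ (Lp ℂ 2 μ) :=
      { carrier := {f | Continuous (fun g : G => tr μ g f)}
        add_mem' := fun {f f'} hf hf' => by
          show Continuous (fun g : G => tr μ g (f + f'))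
          simp only [map_add]
          exact Continuous.add hf hf'
        zero_mem' := by
          show Continuous (fun g : G => tr μ g 0)
          simp only [map_zero]
          exact continuous_const
        smul_mem' := fun c f hf => by
          show Continuous (fun g : G => tr μ g (c • f))
          simp only [map_smul]
          exact Continuous.const_smul hf c }
    have hle : s.sup S ≤ C := by
      refine Finset.sup_le fun κ hκ f hf => ?_
      exact hcont κ f (hs0 κ hκ) (hSmem κ f hf).1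
    exact hle hf
  · by_contra hxU
    have hxK : x ∈ (interior U)ᶜ := fun h => hxU (interior_subset h)
    obtain ⟨κ, hκ, f, hf, hne⟩ := hs x hxK
    exact hne (hx f (Finset.le_sup (f := S) hκ (hSmem' κ f (hs0 κ hκ) hf)))

end Pool.Agent.CGrp
end

section

set_option autoImplicit false

open Topology

namespace Pool.Agent.CGrp

/-- If z ≠ 1 on the circle then some power z^n is at distance >= 1 from 1: otherwise write
z = exp(i t), 0 < |t| < π/3 (distance < 1), and take the least n with n|t| >= π/3: then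
π/3 <= n|t| < 2π/3 and |exp(i n t) - 1| = 2 sin(n|t|/2) >= 1. -/
theorem circle_small (z : Circle) (h : ∀ n : ℕ, ‖((z ^ n : Circle) : ℂ) - 1‖ < 1) : z = 1 := by
  by_contra hz
  have hne : (z : ℂ) - 1 ≠ 0 := by
    intro h0
    apply hz
    apply Circle.coe_injective
    rw [Circle.coe_one]
    exact sub_eq_zero.1 h0
  have hpos : 0 < ‖(z : ℂ) - 1‖ ^ 2 := by positivity
  -- doubling
  have hstep : ∀ w : Circle, ‖(w : ℂ) - 1‖ < 1 →
      3 * ‖(w : ℂ) - 1‖ ^ 2 ≤ ‖((w ^ 2 : Circle) : ℂ) - 1‖ ^ 2 := by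
    intro w hw
    have h1 := parallelogram_law_with_norm ℝ (w : ℂ) 1
    rw [Circle.norm_coe, norm_one] at h1
    have h2 : ((w ^ 2 : Circle) : ℂ) - 1 = ((w : ℂ) + 1) * ((w : ℂ) - 1) := by
      rw [Circle.coe_pow]
      ring
    rw [h2, norm_mul, mul_pow]
    have h3 : ‖(w : ℂ) - 1‖ ^ 2 ≤ 1 := pow_le_one₀ (norm_nonneg _) hw.le
    have h4 : 3 ≤ ‖(w : ℂ) + 1‖ ^ 2 := by nlinarith
    exact mul_le_mul_of_nonneg_right h4 (by positivity)
  have hgrow : ∀ k : ℕ, 3 ^ k * ‖(z : ℂ) - 1‖ ^ 2 ≤ ‖((z ^ 2 ^ k : Circle) : ℂ) - 1‖ ^ 2 := by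
    intro k
    induction k with
    | zero => simp
    | succ k ih =>
      have h1 := hstep (z ^ 2 ^ k) (h (2 ^ k))
      rw [← pow_mul, ← pow_succ] at h1
      calc (3 : ℝ) ^ (k + 1) * ‖(z : ℂ) - 1‖ ^ 2 = 3 * (3 ^ k * ‖(z : ℂ) - 1‖ ^ 2) := by ring
        _ ≤ 3 * ‖((z ^ 2 ^ k : Circle) : ℂ) - 1‖ ^ 2 := by linarith
        _ ≤ _ := h1
  obtain ⟨k, hk⟩ := pow_unbounded_of_one_lt (1 / ‖(z : ℂ) - 1‖ ^ 2) (by norm_num : (1 : ℝ) < 3)
  have h5 : 1 < 3 ^ k * ‖(z : ℂ) - 1‖ ^ 2 := (div_lt_iff₀ hpos).1 hk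
  have h6 : ‖((z ^ 2 ^ k : Circle) : ℂ) - 1‖ ^ 2 ≤ 1 :=
    pow_le_one₀ (norm_nonneg _) (h (2 ^ k)).le
  linarith [hgrow k]

/-- Two different characters are at sup distance >= 1 (circle_small for the quotient at a point), the
space C(G, Circle) is second countable (`ContinuousMap.instSecondCountableTopology` or similar), so
a discrete subset is countable. (Map χ to the continuous map; an injective map into a second countable
(or separable pseudo-metric) space whose image is 1-separated has countable domain.) -/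
theorem countable_chars {G : Type*} [Group G] [TopologicalSpace G]
    [CompactSpace G] [T2Space G] [SecondCountableTopology G] :
    {χ : G →* Circle | Continuous χ}.Countable := by
  classical
  set F : (G →* Circle) → C(G, ℂ) := fun χ =>
    if h : Continuous χ then ⟨fun x => (χ x : ℂ), continuous_subtype_val.comp h⟩ else 0 with hF
  have hFa : ∀ χ : G →* Circle, Continuous χ → ∀ x, F χ x = (χ x : ℂ) := by
    intro χ hχ x
    simp only [hF, dif_pos hχ]
    rfl
  refine Set.PairwiseDisjoint.countable_of_isOpen (s := fun χ => Metric.ball (F χ) (1 / 2)) ?_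
    (fun χ _ => Metric.isOpen_ball) (fun χ _ => ⟨F χ, Metric.mem_ball_self (by norm_num)⟩)
  intro χ hχ ψ hψ hne
  refine Set.disjoint_left.2 fun g hg1 hg2 => hne ?_
  have hdist : dist (F χ) (F ψ) < 1 := by
    have h1 := dist_triangle_left (F χ) (F ψ) g
    have h2 := Metric.mem_ball.1 hg1
    have h3 := Metric.mem_ball.1 hg2
    linarith
  have hpt : ∀ x, ‖(χ x : ℂ) - (ψ x : ℂ)‖ < 1 := by
    intro x
    have h1 := (ContinuousMap.dist_apply_le_dist (f := F χ) (g := F ψ) x).trans_lt hdist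
    rw [hFa χ hχ, hFa ψ hψ, dist_eq_norm] at h1
    exact h1
  ext1 x
  have h1 : χ x / ψ x = 1 := by
    apply circle_small
    intro n
    have h2 := hpt (x ^ n)
    have h3 : ((χ x / ψ x) ^ n : Circle) = χ (x ^ n) / ψ (x ^ n) := by
      rw [map_pow, map_pow, div_pow]
    rw [h3, Circle.coe_div]
    have h4 : (ψ (x ^ n) : ℂ) ≠ 0 := Circle.coe_ne_zero _
    have h5 : (χ (x ^ n) : ℂ) / (ψ (x ^ n) : ℂ) - 1 =
        ((χ (x ^ n) : ℂ) - (ψ (x ^ n) : ℂ)) / (ψ (x ^ n) : ℂ) := by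
      rw [sub_div, div_self h4]
    rw [h5, norm_div, Circle.norm_coe, div_one]
    exact h2
  exact div_eq_one.1 h1

end Pool.Agent.CGrp
end

section

set_option autoImplicit false
set_option linter.unusedSectionVars false

namespace Pool.Agent.MoufangHaar

variable {L : Type*} [MLoop L]

/-- subloops -/
structure IsSub (S : Set L) : Prop where
  one : (1 : L) ∈ S
  mul : ∀ x ∈ S, ∀ y ∈ S, x * y ∈ S
  inv : ∀ x ∈ S, x⁻¹ ∈ S

/-- Rotation of associating triples. By MLoop.autR with z := x: (x y) ((z x⁻¹) x) = (x (y (z x⁻¹))) x,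
the left side is (x y) z; and x (y z) = x (((y z) x⁻¹) x) = (x ((y z) x⁻¹)) x (flex, mul_inv_mul).
So (x y) z = x (y z) iff y (z x⁻¹) = (y z) x⁻¹ (cancel x on the right and on the left). -/
theorem T_rotate (x y z : L) :
    (x * y) * z = x * (y * z) ↔ (y * z) * x⁻¹ = y * (z * x⁻¹) := by
  have h1 := MLoop.autR x y (z * x⁻¹)
  rw [MLoop.mul_inv_mul] at h1
  have h2 : x * (y * z) = (x * ((y * z) * x⁻¹)) * x := by
    rw [MLoop.flex, MLoop.mul_inv_mul]
  rw [h1, h2]
  constructor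
  · intro h
    exact (MLoop.mul_left_cancel (MLoop.mul_right_cancel h)).symm
  · intro h
    rw [h]

/-- Three rotations give (x y) z = x (y z) ↔ (x⁻¹ y⁻¹) z⁻¹ = x⁻¹ (y⁻¹ z⁻¹); take inverses. -/
theorem T_reverse (x y z : L) :
    (x * y) * z = x * (y * z) ↔ (z * y) * x = z * (y * x) := by
  rw [T_rotate x y z, T_rotate y z x⁻¹, T_rotate z x⁻¹ y⁻¹]
  constructor
  · intro h
    have h2 := congrArg (fun w : L => w⁻¹) h
    simp only [MLoop.mul_inv_rev, MLoop.inv_inv] at h2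
    exact h2.symm
  · intro h
    have h2 := congrArg (fun w : L => w⁻¹) h
    simp only [MLoop.mul_inv_rev] at h2
    exact h2.symm

/-- left translation as a permutation -/
def lE (a : L) : Equiv.Perm L where
  toFun x := a * x
  invFun x := a⁻¹ * x
  left_inv x := MLoop.inv_mul_left a x
  right_inv x := MLoop.mul_inv_left a x

/-- right translation as a permutation -/
def rE (a : L) : Equiv.Perm L where
  toFun x := x * a
  invFun x := x * a⁻¹
  left_inv x := MLoop.mul_mul_inv x a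
  right_inv x := MLoop.mul_inv_mul x a

/-- integer powers -/
def zp (a : L) (i : ℤ) : L := (lE a ^ i) 1

private theorem EL1_pow (a : L) (k : ℕ) (x : L) : (lE a ^ k) x = (fun y => a * y)^[k] x := by
  rw [← Equiv.Perm.iterate_eq_pow]
  rfl

private theorem EL1_inv (a : L) : (lE a)⁻¹ = lE a⁻¹ := by
  ext x
  rfl

private theorem EL1_nat (a : L) (k : ℕ) (x : L) : (lE a ^ k) 1 * x = (lE a ^ k) x := by
  rw [EL1_pow, EL1_pow]
  exact npw_mul a k x

/-- For i >= 0 this is npw_mul (npw a k = zp a k); for i < 0 use lE a ^ (-k) = lE a⁻¹ ^ k. -/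
theorem zp_mul (a : L) (i : ℤ) (x : L) : zp a i * x = (lE a ^ i) x := by
  unfold zp
  obtain ⟨k, rfl | rfl⟩ := i.eq_nat_or_neg
  · rw [zpow_natCast]
    exact EL1_nat a k x
  · rw [zpow_neg, zpow_natCast, ← inv_pow, EL1_inv]
    exact EL1_nat a⁻¹ k x

private theorem EL1_zp_inv (a : L) (i : ℤ) : (zp a i)⁻¹ = zp a (-i) := by
  have h1 : zp a (-i) * zp a i = 1 := by
    rw [zp_mul]
    change (lE a ^ (-i)) ((lE a ^ i) 1) = 1
    rw [← Equiv.Perm.mul_apply, ← zpow_add, neg_add_cancel, zpow_zero]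
    rfl
  have h2 := MLoop.mul_mul_inv (zp a (-i)) (zp a i)
  rwa [h1, MLoop.one_mul] at h2

private def EL1_iota : Equiv.Perm L where
  toFun x := x⁻¹
  invFun x := x⁻¹
  left_inv x := MLoop.inv_inv x
  right_inv x := MLoop.inv_inv x

private theorem EL1_conj (a : L) : EL1_iota * rE a * EL1_iota⁻¹ = lE a⁻¹ := by
  ext x
  change (x⁻¹ * a)⁻¹ = a⁻¹ * x
  rw [MLoop.mul_inv_rev, MLoop.inv_inv]

/-- Apply zp_mul to a⁻¹ and take inverses ((x * y)⁻¹ = y⁻¹ * x⁻¹, lE a⁻¹ is conjugate to rE a by the inverse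
map; (zp a i)⁻¹ = zp a (-i) because zp a (-i) * zp a i = (lE a ^ (-i)) ((lE a ^ i) 1) = 1). -/
theorem mul_zp (a : L) (i : ℤ) (x : L) : x * zp a i = (rE a ^ i) x := by
  have h1 : (x * zp a i)⁻¹ = (lE a⁻¹ ^ i) x⁻¹ := by
    rw [MLoop.mul_inv_rev, EL1_zp_inv, zp_mul, ← EL1_inv, inv_zpow, zpow_neg]
  have h2 : ((rE a ^ i) x)⁻¹ = (lE a⁻¹ ^ i) x⁻¹ := by
    rw [← EL1_conj, conj_zpow]
    change _ = ((rE a ^ i) ((x⁻¹)⁻¹))⁻¹
    rw [MLoop.inv_inv]
  rw [← MLoop.inv_inv (x * zp a i), h1, ← h2, MLoop.inv_inv]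

end Pool.Agent.MoufangHaar
end

section

set_option autoImplicit false
set_option linter.unusedSectionVars false

open Topology

namespace Pool.Agent.CGrp

variable {A : Type*} [NormedRing A] [NormedAlgebra ℝ A] [CompleteSpace A]

/-- the exponential of a real Banach algebra (a wrapper around NormedSpace.exp) -/
noncomputable def ex (x : A) : A :=
  let _ : NormedAlgebra ℚ A := NormedAlgebra.restrictScalars ℚ ℝ A
  NormedSpace.exp x

/-- `NormedSpace.exp_eq_tsum ℝ` -/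
theorem ex_eq_tsum (x : A) : ex x = ∑' n : ℕ, ((n.factorial : ℝ)⁻¹) • x ^ n := by
  let _ : NormedAlgebra ℚ A := NormedAlgebra.restrictScalars ℚ ℝ A
  exact congrFun (NormedSpace.exp_eq_tsum ℝ) x

private theorem ex_hasSum (x : A) : HasSum (fun n : ℕ => ((n.factorial : ℝ)⁻¹) • x ^ n) (ex x) :=
  NormedSpace.exp_series_hasSum_exp' (𝕂 := ℝ) x

theorem ex_zero : ex (0 : A) = 1 := by
  let _ : NormedAlgebra ℚ A := NormedAlgebra.restrictScalars ℚ ℝ A
  exact NormedSpace.exp_zero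

theorem ex_add {x y : A} (h : Commute x y) : ex (x + y) = ex x * ex y := by
  let _ : NormedAlgebra ℚ A := NormedAlgebra.restrictScalars ℚ ℝ A
  exact NormedSpace.exp_add_of_commute h

theorem ex_neg_mul (x : A) : ex (-x) * ex x = 1 := by
  rw [← ex_add ((Commute.refl x).neg_left), neg_add_cancel, ex_zero]

theorem ex_mul_neg (x : A) : ex x * ex (-x) = 1 := by
  rw [← ex_add ((Commute.refl x).neg_right), add_neg_cancel, ex_zero]

theorem ex_add_smul (s t : ℝ) (x : A) : ex ((s + t) • x) = ex (s • x) * ex (t • x) := by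
  rw [add_smul]
  exact ex_add (((Commute.refl x).smul_left s).smul_right t)

theorem ex_nsmul (n : ℕ) (x : A) : ex (((n : ℕ) : ℝ) • x) = ex x ^ n := by
  induction n with
  | zero => rw [Nat.cast_zero, zero_smul, ex_zero, pow_zero]
  | succ n ih => rw [Nat.cast_succ, ex_add_smul, one_smul, ih, pow_succ]

theorem continuous_ex : Continuous (ex : A → A) := by
  let _ : NormedAlgebra ℚ A := NormedAlgebra.restrictScalars ℚ ℝ A
  exact NormedSpace.exp_continuous

theorem ex_commute {x y : A} (h : Commute x y) : Commute (ex x) y := by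
  let _ : NormedAlgebra ℚ A := NormedAlgebra.restrictScalars ℚ ℝ A
  exact h.exp_left

/-- conjugation by an invertible element -/
theorem ex_conj {u v : A} (h : u * v = 1) (h' : v * u = 1) (x : A) :
    ex (u * x * v) = u * ex x * v := by
  let _ : NormedAlgebra ℚ A := NormedAlgebra.restrictScalars ℚ ℝ A
  exact NormedSpace.exp_units_conj (⟨u, v, h, h'⟩ : Aˣ) x

/-- ‖Σ_(n >= 2) x^n / n!‖ <= Σ_(n >= 2) ‖x‖^n / n! <= ‖x‖² e^‖x‖ -/
theorem ex_rem (x : A) : ‖ex x - 1 - x‖ ≤ ‖x‖ ^ 2 * Real.exp ‖x‖ := by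
  have h1 := (hasSum_nat_add_iff' 2).2 (ex_hasSum x)
  have e : ex x - ∑ i ∈ Finset.range 2, ((i.factorial : ℝ)⁻¹) • x ^ i = ex x - 1 - x := by
    rw [Finset.sum_range_succ, Finset.sum_range_one]
    norm_num
    abel
  rw [e] at h1
  have h2 : HasSum (fun n : ℕ => ‖x‖ ^ 2 * (‖x‖ ^ n / (n.factorial : ℝ)))
      (‖x‖ ^ 2 * Real.exp ‖x‖) := by
    rw [Real.exp_eq_exp_ℝ]
    exact (NormedSpace.expSeries_div_hasSum_exp ‖x‖).mul_left _
  refine h1.norm_le_of_bounded h2 fun n => ?_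
  rw [norm_smul, norm_inv, Real.norm_natCast]
  have h3 : ‖x ^ (n + 2)‖ ≤ ‖x‖ ^ (n + 2) := norm_pow_le' x (Nat.succ_pos _)
  have h4 : (((n + 2).factorial : ℕ) : ℝ)⁻¹ ≤ ((n.factorial : ℕ) : ℝ)⁻¹ := by
    refine inv_anti₀ (by positivity) ?_
    exact_mod_cast Nat.factorial_le (Nat.le_add_right n 2)
  calc (((n + 2).factorial : ℕ) : ℝ)⁻¹ * ‖x ^ (n + 2)‖
      ≤ ((n.factorial : ℕ) : ℝ)⁻¹ * ‖x‖ ^ (n + 2) :=
        mul_le_mul h4 h3 (norm_nonneg _) (by positivity)
    _ = ‖x‖ ^ 2 * (‖x‖ ^ n / (n.factorial : ℝ)) := by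
        rw [pow_add, div_eq_mul_inv]
        ring

private theorem pow_lip {r : ℝ} {x y : A} (hx : ‖x‖ ≤ r) (hy : ‖y‖ ≤ r) (n : ℕ) :
    ‖x ^ (n + 1) - y ^ (n + 1)‖ ≤ ((n : ℝ) + 1) * r ^ n * ‖x - y‖ := by
  have hr : 0 ≤ r := (norm_nonneg x).trans hx
  induction n with
  | zero => simp
  | succ n ih =>
    have e : x ^ (n + 1 + 1) - y ^ (n + 1 + 1) =
        x ^ (n + 1) * (x - y) + (x ^ (n + 1) - y ^ (n + 1)) * y := by
      rw [pow_succ x (n + 1), pow_succ y (n + 1)]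
      noncomm_ring
    rw [e]
    have h1 : ‖x ^ (n + 1)‖ ≤ r ^ (n + 1) :=
      (norm_pow_le' x (Nat.succ_pos n)).trans (pow_le_pow_left₀ (norm_nonneg _) hx _)
    have h2 : ‖x ^ (n + 1) * (x - y)‖ ≤ r ^ (n + 1) * ‖x - y‖ :=
      (norm_mul_le _ _).trans (mul_le_mul_of_nonneg_right h1 (norm_nonneg _))
    have h3 : ‖(x ^ (n + 1) - y ^ (n + 1)) * y‖ ≤ ((n : ℝ) + 1) * r ^ n * ‖x - y‖ * r :=
      (norm_mul_le _ _).trans (mul_le_mul ih hy (norm_nonneg _) (by positivity))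
    refine (norm_add_le _ _).trans ((add_le_add h2 h3).trans (le_of_eq ?_))
    push_cast
    ring

/-- The remainder ex x - x is Lipschitz with constant e^r - 1 on the ball of radius r:
‖x^n - y^n‖ <= n r^(n-1) ‖x - y‖ for n >= 1 (telescoping), so the sum over n >= 2 of the differences of
x^n/n! is at most Σ_(n >= 2) r^(n-1)/(n-1)! ‖x - y‖ = (e^r - 1) ‖x - y‖. -/
theorem ex_lip {r : ℝ} {x y : A} (hx : ‖x‖ ≤ r) (hy : ‖y‖ ≤ r) :
    ‖(ex x - x) - (ex y - y)‖ ≤ (Real.exp r - 1) * ‖x - y‖ := by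
  have hr : 0 ≤ r := (norm_nonneg x).trans hx
  have h1 := (hasSum_nat_add_iff' 2).2 ((ex_hasSum x).sub (ex_hasSum y))
  have e : ex x - ex y - ∑ i ∈ Finset.range 2,
      (((i.factorial : ℝ)⁻¹) • x ^ i - ((i.factorial : ℝ)⁻¹) • y ^ i) =
      (ex x - x) - (ex y - y) := by
    rw [Finset.sum_range_succ, Finset.sum_range_one]
    norm_num
    abel
  rw [e] at h1
  have h2 : HasSum (fun n : ℕ => r ^ (n + 1) / ((n + 1).factorial : ℝ) * ‖x - y‖)
      ((Real.exp r - 1) * ‖x - y‖) := by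
    have h3 := (hasSum_nat_add_iff' 1).2 (NormedSpace.expSeries_div_hasSum_exp r)
    rw [← Real.exp_eq_exp_ℝ, Finset.sum_range_one, pow_zero, Nat.factorial_zero, Nat.cast_one,
      div_one] at h3
    exact h3.mul_right _
  refine h1.norm_le_of_bounded h2 fun n => ?_
  rw [← smul_sub, norm_smul, norm_inv, Real.norm_natCast]
  have h4 := pow_lip hx hy (n + 1)
  calc (((n + 2).factorial : ℕ) : ℝ)⁻¹ * ‖x ^ (n + 2) - y ^ (n + 2)‖
      ≤ (((n + 2).factorial : ℕ) : ℝ)⁻¹ * ((((n + 1 : ℕ) : ℝ) + 1) * r ^ (n + 1) * ‖x - y‖) :=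
        mul_le_mul_of_nonneg_left h4 (by positivity)
    _ = r ^ (n + 1) / ((n + 1).factorial : ℝ) * ‖x - y‖ := by
        rw [Nat.factorial_succ (n + 1)]
        push_cast
        have hf : ((n + 1).factorial : ℝ) ≠ 0 := by positivity
        field_simp

end Pool.Agent.CGrp
end

section

set_option autoImplicit false
set_option linter.unusedSectionVars false

open Topology

namespace Pool.Agent.CGrp

variable {A : Type*} [NormedRing A] [NormedAlgebra ℝ A] [CompleteSpace A]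

/-- strict differentiability at 0 (from ex_lip: the remainder has Lipschitz constant -> 0) -/
theorem hasStrictFDerivAt_ex_zero :
    HasStrictFDerivAt (ex : A → A) (ContinuousLinearMap.id ℝ A) 0 := by
  let _ : NormedAlgebra ℚ A := NormedAlgebra.restrictScalars ℚ ℝ A
  exact hasStrictFDerivAt_exp_zero (𝕂 := ℝ)

/-- derivative of a one parameter group at 0 -/
theorem hasDerivAt_ex_smul (x : A) : HasDerivAt (fun t : ℝ => ex (t • x)) x 0 := by
  have h1 : HasDerivAt (fun t : ℝ => t • x) x 0 := by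
    have h := (hasDerivAt_id (0 : ℝ)).smul_const x
    rw [one_smul] at h
    exact h
  have h2 : HasFDerivAt (ex : A → A) (ContinuousLinearMap.id ℝ A) ((0 : ℝ) • x) := by
    rw [zero_smul]
    exact hasStrictFDerivAt_ex_zero.hasFDerivAt
  exact h2.comp_hasDerivAt 0 h1

/-- the sequence version of the derivative at 0 -/
private theorem seq_deriv {f : ℝ → A} {f' : A} (h : HasDerivAt f f' 0) :
    Filter.Tendsto (fun n : ℕ => ((n : ℝ) + 1) • (f (((n : ℝ) + 1)⁻¹) - f 0)) Filter.atTop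
      (𝓝 f') := by
  have h1 := hasDerivAt_iff_tendsto_slope_zero.1 h
  have h2 : Filter.Tendsto (fun n : ℕ => ((n : ℝ) + 1)⁻¹) Filter.atTop (𝓝[≠] 0) := by
    refine tendsto_nhdsWithin_iff.2 ⟨?_, Filter.Eventually.of_forall fun n => ?_⟩
    · have := tendsto_one_div_add_atTop_nhds_zero_nat (𝕜 := ℝ)
      simpa only [one_div] using this
    · have : (0 : ℝ) < ((n : ℝ) + 1)⁻¹ := by positivity
      exact this.ne'
  refine (h1.comp h2).congr fun n => ?_
  simp only [Function.comp_apply, zero_add, inv_inv]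

/-- the telescoping estimate -/
private theorem pow_sub_pow {P Q : A} {K : ℝ} (hK : 0 ≤ K) (m : ℕ)
    (hQ : ∀ k ≤ m, ‖Q ^ k‖ ≤ K) (k : ℕ) (hk : k ≤ m) :
    ‖P ^ k - Q ^ k‖ ≤ (k : ℝ) * Real.exp (‖P - 1‖ * k) * K * ‖P - Q‖ := by
  induction k with
  | zero => simp
  | succ k ih =>
    have h0 := ih (by omega)
    have e : P ^ (k + 1) - Q ^ (k + 1) =
        ((P ^ k - Q ^ k) + (P - 1) * (P ^ k - Q ^ k)) + (P - Q) * Q ^ k := by
      rw [pow_succ' P k, pow_succ' Q k]
      noncomm_ring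
    have h1 : ‖(P ^ k - Q ^ k) + (P - 1) * (P ^ k - Q ^ k)‖ ≤
        Real.exp ‖P - 1‖ * ‖P ^ k - Q ^ k‖ := by
      refine (norm_add_le _ _).trans ?_
      have a := norm_mul_le (P - 1) (P ^ k - Q ^ k)
      have b := mul_le_mul_of_nonneg_right (Real.add_one_le_exp ‖P - 1‖)
        (norm_nonneg (P ^ k - Q ^ k))
      linarith
    have h2 : ‖(P - Q) * Q ^ k‖ ≤ ‖P - Q‖ * K :=
      (norm_mul_le _ _).trans (mul_le_mul_of_nonneg_left (hQ k (by omega)) (norm_nonneg _))
    have h3 : Real.exp ‖P - 1‖ * ‖P ^ k - Q ^ k‖ ≤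
        Real.exp ‖P - 1‖ * ((k : ℝ) * Real.exp (‖P - 1‖ * k) * K * ‖P - Q‖) :=
      mul_le_mul_of_nonneg_left h0 (Real.exp_pos _).le
    have h4 : Real.exp (‖P - 1‖ * ((k + 1 : ℕ) : ℝ)) =
        Real.exp ‖P - 1‖ * Real.exp (‖P - 1‖ * k) := by
      rw [← Real.exp_add]
      congr 1
      push_cast
      ring
    have h5 : 1 ≤ Real.exp (‖P - 1‖ * ((k + 1 : ℕ) : ℝ)) :=
      Real.one_le_exp (by positivity)
    rw [e]
    have h6 : ‖P - Q‖ * K ≤ Real.exp (‖P - 1‖ * ((k + 1 : ℕ) : ℝ)) * (‖P - Q‖ * K) :=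
      le_mul_of_one_le_left (by positivity) h5
    refine (norm_add_le _ _).trans ((add_le_add (h1.trans h3) (h2.trans h6)).trans (le_of_eq ?_))
    rw [h4]
    push_cast
    ring

/-- Lie's product formula. With h = 1/(n+1), P = ex (h x) ex (h y), Q = ex (h (x + y)):
‖P - Q‖ <= C h² for h <= 1 (ex_rem three times), ‖P‖^k, ‖Q‖^k for k <= n+1 are at most some constant C'
(‖ex z‖ <= ‖1‖ + ... is not good enough when ‖1‖ > 1; use ex (h x)^k = ex (k h x) for Q, and
P^k = Π; so better: choose the bound ‖ex z - 1‖ <= ‖z‖ e^‖z‖ and estimate P^(k) - Q^(k) recursively by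
P^(k+1) - Q^(k+1) = P (P^k - Q^k) + (P - Q) Q^k, with ‖P z‖ <= (1 + C h) ‖z‖ because P = 1 + (P - 1),
‖P - 1‖ <= C h; so ‖P^k - Q^k‖ <= C'' h² k (1 + C h)^k), so ‖P^(n+1) - Q^(n+1)‖ <= C''' h -> 0 and
Q^(n+1) = ex (x + y). -/
theorem trotter (x y : A) : Filter.Tendsto
    (fun n : ℕ => (ex (((n : ℝ) + 1)⁻¹ • x) * ex (((n : ℝ) + 1)⁻¹ • y)) ^ (n + 1))
    Filter.atTop (𝓝 (ex (x + y))) := by
  have hp : HasDerivAt (fun t : ℝ => ex (t • x) * ex (t • y)) (x + y) 0 := by
    have h := (hasDerivAt_ex_smul x).mul (hasDerivAt_ex_smul y)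
    simp only [zero_smul, ex_zero, mul_one, one_mul] at h
    exact h
  have hd : HasDerivAt (fun t : ℝ => ex (t • x) * ex (t • y) - ex (t • (x + y))) 0 0 := by
    have h := hp.sub (hasDerivAt_ex_smul (x + y))
    rw [sub_self] at h
    exact h
  have s1 := seq_deriv hp
  have s2 := seq_deriv hd
  simp only [zero_smul, ex_zero, mul_one, sub_self, sub_zero] at s1 s2
  obtain ⟨C, hC⟩ := (Metric.isBounded_range_of_tendsto _ s1).exists_norm_le
  obtain ⟨K, hK⟩ := isCompact_Icc.exists_bound_of_continuousOn (s := Set.Icc (0 : ℝ) 1)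
    (f := fun t : ℝ => ex (t • (x + y)))
    ((continuous_ex.comp (continuous_id.smul continuous_const)).continuousOn)
  have hK0 : 0 ≤ K := (norm_nonneg _).trans (hK 0 ⟨le_rfl, zero_le_one⟩)
  have hQ : ∀ (n k : ℕ), ex (((n : ℝ) + 1)⁻¹ • (x + y)) ^ k =
      ex (((k : ℝ) * ((n : ℝ) + 1)⁻¹) • (x + y)) := fun n k => by
    rw [← ex_nsmul, smul_smul]
  have hQ1 : ∀ n : ℕ, ex (((n : ℝ) + 1)⁻¹ • (x + y)) ^ (n + 1) = ex (x + y) := fun n => by
    rw [hQ, Nat.cast_succ, mul_inv_cancel₀ (by positivity), one_smul]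
  have key : ∀ n : ℕ, ‖(ex (((n : ℝ) + 1)⁻¹ • x) * ex (((n : ℝ) + 1)⁻¹ • y)) ^ (n + 1) -
      ex (x + y)‖ ≤ Real.exp C * K * ‖((n : ℝ) + 1) • (ex (((n : ℝ) + 1)⁻¹ • x) *
        ex (((n : ℝ) + 1)⁻¹ • y) - ex (((n : ℝ) + 1)⁻¹ • (x + y)))‖ := fun n => by
    have hn : (0 : ℝ) < (n : ℝ) + 1 := by positivity
    have h1 := pow_sub_pow (P := ex (((n : ℝ) + 1)⁻¹ • x) * ex (((n : ℝ) + 1)⁻¹ • y))
      (Q := ex (((n : ℝ) + 1)⁻¹ • (x + y))) hK0 (n + 1) (fun k hk => by
        rw [hQ]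
        refine hK _ ⟨by positivity, ?_⟩
        rw [← div_eq_mul_inv, div_le_one hn]
        exact_mod_cast hk) (n + 1) le_rfl
    rw [hQ1] at h1
    refine h1.trans ?_
    have h2 : ‖ex (((n : ℝ) + 1)⁻¹ • x) * ex (((n : ℝ) + 1)⁻¹ • y) - 1‖ *
        ((n + 1 : ℕ) : ℝ) ≤ C := by
      have h3 := hC _ ⟨n, rfl⟩
      rw [norm_smul, Real.norm_of_nonneg hn.le] at h3
      rw [Nat.cast_succ, mul_comm]
      exact h3
    have h4 := Real.exp_le_exp.2 h2
    rw [norm_smul, Real.norm_of_nonneg hn.le, Nat.cast_succ] at *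
    have h5 := mul_le_mul_of_nonneg_left h4 (show 0 ≤ ((n : ℝ) + 1) * K *
      ‖ex (((n : ℝ) + 1)⁻¹ • x) * ex (((n : ℝ) + 1)⁻¹ • y) -
        ex (((n : ℝ) + 1)⁻¹ • (x + y))‖ by positivity)
    linarith
  rw [tendsto_iff_norm_sub_tendsto_zero]
  have s3 := (s2.norm).const_mul (Real.exp C * K)
  rw [norm_zero, mul_zero] at s3
  exact squeeze_zero (fun n => norm_nonneg _) key s3

end Pool.Agent.CGrp
end
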