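import Mathlib
import Pool.Agent.Lib.MP_fd6bc6_al.Mg.G001

section

set_option autoImplicit false
set_option linter.unusedSectionVars false

open Topology

namespace Pool.Agent.CGrp

/-- Trace algebras: an involution and a trace from which the norm comes (model: complex matrices with
the Frobenius norm and τ = real part of the trace). -/
class TrA (A : Type*) [NormedRing A] [NormedAlgebra ℝ A] [StarRing A] where
  τ : A →ₗ[ℝ] ℝ
  τ_comm : ∀ a b : A, τ (a * b) = τ (b * a)
  τ_star : ∀ a : A, τ (star a) = τ a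
  norm_sq : ∀ a : A, τ (star a * a) = ‖a‖ ^ 2

open TrA

variable {A : Type*} [NormedRing A] [NormedAlgebra ℝ A] [StarRing A] [StarModule ℝ A]
  [FiniteDimensional ℝ A] [TrA A]

theorem norm_star' (a : A) : ‖star a‖ = ‖a‖ := by
  have h : ‖star a‖ ^ 2 = ‖a‖ ^ 2 := by
    rw [← norm_sq, ← norm_sq, star_star, τ_comm]
  exact (sq_eq_sq₀ (norm_nonneg _) (norm_nonneg _)).1 h

theorem continuous_star' : Continuous (star : A → A) := by
  have h : Isometry (starAddEquiv : A ≃+ A) :=
    AddMonoidHomClass.isometry_of_norm _ fun a => norm_star' a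
  exact h.continuous

theorem continuous_τ : Continuous (τ : A → ℝ) :=
  LinearMap.continuous_of_finiteDimensional _

/-- Cauchy-Schwarz for the positive form τ (star a * b): expand 0 <= ‖a - t b‖² for all real t. -/
theorem abs_τ_le (a b : A) : |τ (a * b)| ≤ ‖a‖ * ‖b‖ := by
  have h1 : τ (star b * star a) = τ (a * b) := by
    rw [← star_mul, τ_star]
  have h2 : ∀ t : ℝ, 0 ≤ ‖a‖ ^ 2 * (t * t) + (-(2 * τ (a * b))) * t + ‖b‖ ^ 2 := fun t => by
    have h3 : ‖b - t • star a‖ ^ 2 =
        ‖a‖ ^ 2 * (t * t) + (-(2 * τ (a * b))) * t + ‖b‖ ^ 2 := by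
      rw [← norm_sq, star_sub, star_smul, star_star, star_trivial t, sub_mul, mul_sub, mul_sub,
        smul_mul_assoc, smul_mul_assoc, mul_smul_comm, mul_smul_comm, map_sub, map_sub, map_sub,
        map_smul, map_smul, map_smul, map_smul, norm_sq, h1, τ_comm a (star a), norm_sq]
      simp only [smul_eq_mul]
      ring
    rw [← h3]
    positivity
  have h4 := discrim_le_zero h2
  unfold discrim at h4
  refine abs_le_of_sq_le_sq ?_ (by positivity)
  nlinarith

theorem τ_skew {x : A} (h : star x = -x) : τ (x * x) = -‖x‖ ^ 2 := by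
  rw [← norm_sq, h, neg_mul, map_neg, neg_neg]

/-- ‖u - 1‖² = 2 τ 1 - 2 τ u for unitary u -/
theorem norm_sub_one_sq {u : A} (h : star u * u = 1) : ‖u - 1‖ ^ 2 = 2 * τ (1 : A) - 2 * τ u := by
  rw [← norm_sq, star_sub, star_one, sub_mul, mul_sub, mul_sub, h, mul_one, one_mul, one_mul,
    map_sub, map_sub, map_sub, τ_star]
  ring

theorem norm_unitary {u : A} (h : star u * u = 1) : ‖u‖ ^ 2 = τ (1 : A) := by
  rw [← norm_sq, h]

theorem norm_unitary_mul {u : A} (h : star u * u = 1) (a : A) : ‖u * a‖ = ‖a‖ := by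
  have h1 : ‖u * a‖ ^ 2 = ‖a‖ ^ 2 := by
    rw [← norm_sq, ← norm_sq, star_mul, mul_assoc, ← mul_assoc (star u) u a, h, one_mul]
  exact (sq_eq_sq₀ (norm_nonneg _) (norm_nonneg _)).1 h1

theorem norm_mul_unitary {u : A} (h : u * star u = 1) (a : A) : ‖a * u‖ = ‖a‖ := by
  have h1 : ‖a * u‖ ^ 2 = ‖a‖ ^ 2 := by
    rw [← norm_sq, ← norm_sq, star_mul, ← mul_assoc, τ_comm, ← mul_assoc, ← mul_assoc, h,
      one_mul]
  exact (sq_eq_sq₀ (norm_nonneg _) (norm_nonneg _)).1 h1

end Pool.Agent.CGrp
end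

section

set_option autoImplicit false
set_option linter.unusedSectionVars false

open Topology

namespace Pool.Agent.CGrp

open TrA

variable {A : Type*} [NormedRing A] [NormedAlgebra ℝ A] [StarRing A] [StarModule ℝ A]
  [FiniteDimensional ℝ A] [TrA A] [CompleteSpace A]

theorem star_ex (x : A) : star (ex x) = ex (star x) := by
  have : ContinuousStar A := ⟨continuous_star'⟩
  rw [ex_eq_tsum, ex_eq_tsum, tsum_star]
  refine tsum_congr fun n => ?_
  rw [star_smul, star_pow, star_trivial]

/-- Groups of unitary elements, closed. -/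
structure MG (A : Type*) [NormedRing A] [StarRing A] where
  S : Set A
  closed : IsClosed S
  one : (1 : A) ∈ S
  mul : ∀ a ∈ S, ∀ b ∈ S, a * b ∈ S
  star_mem : ∀ a ∈ S, star a ∈ S
  unit : ∀ a ∈ S, star a * a = 1 ∧ a * star a = 1

namespace MG

/-- closed and bounded (norm_unitary) in a finite dimensional space -/
theorem isCompact (G : MG A) : IsCompact G.S := by
  have : ProperSpace A := FiniteDimensional.proper ℝ A
  refine Metric.isCompact_of_isClosed_isBounded G.closed ?_
  refine isBounded_iff_forall_norm_le.mpr ⟨Real.sqrt (τ (1 : A)), fun u hu => ?_⟩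
  exact Real.le_sqrt_of_sq_le (norm_unitary (G.unit u hu).1).le

theorem pow_mem (G : MG A) {a : A} (ha : a ∈ G.S) (n : ℕ) : a ^ n ∈ G.S := by
  induction n with
  | zero => rw [pow_zero]; exact G.one
  | succ n ih => rw [pow_succ]; exact G.mul _ ih _ ha

/-- the Lie algebra as a set -/
def lieS (G : MG A) : Set A := {x | ∀ t : ℝ, ex (t • x) ∈ G.S}

/-- ex (t x)⋆ = ex (t x⋆) is the inverse of ex (t x), that is ex (-t x), for all t; differentiate at
t = 0 (hasDerivAt_ex_smul, uniqueness of derivatives). -/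
theorem lie_skew (G : MG A) {x : A} (hx : x ∈ G.lieS) : star x = -x := by
  have h : ∀ t : ℝ, ex (t • star x) = ex (t • (-x)) := by
    intro t
    have h1 : ex (t • star x) = star (ex (t • x)) := by
      rw [star_ex, star_smul, star_trivial t]
    have h2 := (G.unit _ (hx t)).1
    have h3 : ex (t • x) * ex (t • (-x)) = 1 := by
      rw [smul_neg]
      exact ex_mul_neg _
    calc ex (t • star x) = star (ex (t • x)) * (ex (t • x) * ex (t • (-x))) := by
          rw [h3, mul_one, h1]
      _ = ex (t • (-x)) := by rw [← mul_assoc, h2, one_mul]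
  have h1 := hasDerivAt_ex_smul (star x)
  have h2 := hasDerivAt_ex_smul (-x)
  have h3 : (fun t : ℝ => ex (t • star x)) = fun t : ℝ => ex (t • (-x)) := funext h
  rw [h3] at h1
  exact h1.unique h2

/-- closed under limits: continuity of ex -/
theorem lie_closed (G : MG A) : IsClosed G.lieS := by
  have h : G.lieS = ⋂ t : ℝ, (fun x : A => ex (t • x)) ⁻¹' G.S := by
    ext x
    rw [Set.mem_iInter]
    exact Iff.rfl
  rw [h]
  exact isClosed_iInter fun t => G.closed.preimage (continuous_ex.comp (continuous_const_smul t))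

/-- Sums: ex (t (x + y)) is the limit of (ex (t x/(n+1)) ex (t y/(n+1)))^(n+1) ∈ G (trotter). -/
theorem lie_add (G : MG A) {x y : A} (hx : x ∈ G.lieS) (hy : y ∈ G.lieS) : x + y ∈ G.lieS := by
  intro t
  rw [smul_add]
  refine G.closed.mem_of_tendsto (trotter (t • x) (t • y)) (Filter.Eventually.of_forall fun n => ?_)
  refine G.pow_mem (G.mul _ ?_ _ ?_) _
  · rw [smul_smul]
    exact hx _
  · rw [smul_smul]
    exact hy _

/-- the Lie algebra -/
def lie (G : MG A) : Submodule ℝ A where
  carrier := G.lieS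
  add_mem' := fun hx hy => G.lie_add hx hy
  zero_mem' := fun t => by
    rw [smul_zero, ex_zero]
    exact G.one
  smul_mem' := fun c x hx t => by
    rw [smul_smul]
    exact hx (t * c)

theorem mem_lie (G : MG A) {x : A} : x ∈ G.lie ↔ ∀ t : ℝ, ex (t • x) ∈ G.S := Iff.rfl

theorem ex_mem (G : MG A) {x : A} (hx : x ∈ G.lie) : ex x ∈ G.S := by
  have h := hx 1
  rwa [one_smul] at h

end MG

end Pool.Agent.CGrp
end

section

set_option autoImplicit false
set_option linter.unusedSectionVars false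

open Topology

namespace Pool.Agent.CGrp

open TrA

variable {A : Type*} [NormedRing A] [NormedAlgebra ℝ A] [StarRing A] [StarModule ℝ A]
  [FiniteDimensional ℝ A] [TrA A] [CompleteSpace A]

namespace MG

theorem lie_Ad (G : MG A) {x g : A} (hx : x ∈ G.lie) (hg : g ∈ G.S) : g * x * star g ∈ G.lie := by
  intro t
  have h : t • (g * x * star g) = g * (t • x) * star g := by
    rw [mul_smul_comm, smul_mul_assoc]
  rw [h, ex_conj (G.unit g hg).2 (G.unit g hg).1]
  exact G.mul _ (G.mul _ hg _ (hx t)) _ (G.star_mem _ hg)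

private theorem star_ex_lie (G : MG A) {y : A} (hy : y ∈ G.lie) (t : ℝ) :
    star (ex (t • y)) = ex (t • (-y)) := by
  rw [star_ex, star_smul, star_trivial t, G.lie_skew hy]

/-- y x - x y is the derivative at 0 of t ↦ ex (t y) x ex (-t y) ∈ lie (a closed subspace:
difference quotients are in lie, the limit is in lie by lie_closed). -/
theorem lie_bracket (G : MG A) {x y : A} (hx : x ∈ G.lie) (hy : y ∈ G.lie) :
    x * y - y * x ∈ G.lie := by
  have h0 : ∀ t : ℝ, ex (t • y) * x * ex (t • (-y)) ∈ G.lie := by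
    intro t
    rw [← star_ex_lie G hy t]
    exact G.lie_Ad hx (hy t)
  have hd : HasDerivAt (fun t : ℝ => ex (t • y) * x * ex (t • (-y))) (y * x + x * (-y)) 0 := by
    have h1 := ((hasDerivAt_ex_smul y).mul_const x).mul (hasDerivAt_ex_smul (-y))
    simp only [zero_smul, ex_zero, mul_one, one_mul] at h1
    exact h1
  have hs := hasDerivAt_iff_tendsto_slope.mp hd
  have hm : y * x + x * (-y) ∈ G.lie := by
    refine G.lie_closed.mem_of_tendsto hs (Filter.Eventually.of_forall fun t => ?_)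
    rw [slope_def_module]
    exact G.lie.smul_mem _ (G.lie.sub_mem (h0 t) (h0 0))
  have h2 := G.lie.neg_mem hm
  have h3 : -(y * x + x * (-y)) = x * y - y * x := by
    rw [mul_neg]
    abel
  rwa [h3] at h2

private theorem ex_zsmul_mem (G : MG A) {x : A} (hx : ex x ∈ G.S) (m : ℤ) :
    ex ((m : ℝ) • x) ∈ G.S := by
  have hneg : ex (-x) = star (ex x) := by
    have h2 := (G.unit _ hx).1
    calc ex (-x) = (star (ex x) * ex x) * ex (-x) := by rw [h2, one_mul]
      _ = star (ex x) := by rw [mul_assoc, ex_mul_neg, mul_one]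
  obtain ⟨n, rfl | rfl⟩ := m.eq_nat_or_neg
  · rw [Int.cast_natCast, ex_nsmul]
    exact G.pow_mem hx n
  · rw [Int.cast_neg, Int.cast_natCast, neg_smul, ← smul_neg, ex_nsmul, hneg]
    exact G.pow_mem (G.star_mem _ hx) n

/-- The limit lemma: if x_k -> 0, x_k ≠ 0, ex (x_k) ∈ G and ‖x_k‖⁻¹ x_k -> x then x ∈ lie: for t : ℝ take
the integers m_k = ⌊t / ‖x_k‖⌋; m_k x_k -> t x, and ex (m_k x_k) = ex (x_k)^(m_k) ∈ G (for negative m_k
use the inverse, ex (-x_k) = star (ex x_k) ∈ G, see ex_neg_mul and unit); G is closed. -/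
theorem lie_limit (G : MG A) (x : ℕ → A) (z : A) (h0 : Filter.Tendsto x Filter.atTop (𝓝 0))
    (hne : ∀ k, x k ≠ 0) (hx : ∀ k, ex (x k) ∈ G.S)
    (hz : Filter.Tendsto (fun k => ‖x k‖⁻¹ • x k) Filter.atTop (𝓝 z)) : z ∈ G.lie := by
  intro t
  have hpos : ∀ k, 0 < ‖x k‖ := fun k => norm_pos_iff.mpr (hne k)
  have hn : Filter.Tendsto (fun k => ‖x k‖) Filter.atTop (𝓝 0) := by
    simpa using h0.norm
  -- the real numbers m_k ‖x_k‖ tend to t
  have hm : Filter.Tendsto (fun k => (⌊t / ‖x k‖⌋ : ℝ) * ‖x k‖) Filter.atTop (𝓝 t) := by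
    have h1 : Filter.Tendsto (fun k => t - ‖x k‖) Filter.atTop (𝓝 t) := by
      simpa using (tendsto_const_nhds (x := t)).sub hn
    refine tendsto_of_tendsto_of_tendsto_of_le_of_le h1 tendsto_const_nhds (fun k => ?_)
      (fun k => ?_)
    · have h2 : t / ‖x k‖ < ⌊t / ‖x k‖⌋ + 1 := Int.lt_floor_add_one _
      have h3 : t = t / ‖x k‖ * ‖x k‖ := by
        field_simp [(hpos k).ne']
      have h4 := mul_le_mul_of_nonneg_right h2.le (hpos k).le
      show t - ‖x k‖ ≤ (⌊t / ‖x k‖⌋ : ℝ) * ‖x k‖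
      linarith
    · have h2 : (⌊t / ‖x k‖⌋ : ℝ) ≤ t / ‖x k‖ := Int.floor_le _
      have h3 : t = t / ‖x k‖ * ‖x k‖ := by
        field_simp [(hpos k).ne']
      have h4 := mul_le_mul_of_nonneg_right h2 (hpos k).le
      show (⌊t / ‖x k‖⌋ : ℝ) * ‖x k‖ ≤ t
      linarith
  have hlim : Filter.Tendsto (fun k => ex ((⌊t / ‖x k‖⌋ : ℝ) • x k)) Filter.atTop
      (𝓝 (ex (t • z))) := by
    refine (continuous_ex.tendsto _).comp ?_
    have h1 := hm.smul hz
    refine h1.congr fun k => ?_
    rw [smul_smul, mul_assoc, mul_inv_cancel₀ (hpos k).ne', mul_one]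
  exact G.closed.mem_of_tendsto hlim (Filter.Eventually.of_forall fun k => ex_zsmul_mem G (hx k) _)

end MG

end Pool.Agent.CGrp
end

section

set_option autoImplicit false
set_option linter.unusedSectionVars false

open Topology

namespace Pool.Agent.CGrp

open TrA

variable {A : Type*} [NormedRing A] [NormedAlgebra ℝ A] [StarRing A] [StarModule ℝ A]
  [FiniteDimensional ℝ A] [TrA A] [CompleteSpace A]

namespace MG

/-- The admissible decompositions of g into N factors. -/
def Dec (G : MG A) (ε : ℝ) (N : ℕ) (g : A) : Set (Fin N → A) :=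
  {u | (∀ i, u i ∈ G.S ∧ ‖u i - 1‖ ≤ ε) ∧ (List.ofFn u).prod = g}

/-- Dec is closed in the compact set of all functions with values in G (isCompact, product), so it is
compact and the continuous energy has a minimum on it if it is nonempty. (The product is continuous:
`List.prod_ofFn` and `continuous_finset_prod` need commutativity; use `continuous_list_prod` or induction on N
with `List.ofFn_succ`.) -/
theorem exists_min (G : MG A) (ε : ℝ) (N : ℕ) (g : A) (h : (G.Dec ε N g).Nonempty) :
    ∃ u ∈ G.Dec ε N g, ∀ v ∈ G.Dec ε N g, ∑ i, ‖u i - 1‖ ^ 2 ≤ ∑ i, ‖v i - 1‖ ^ 2 := by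
  have hprod : Continuous (fun u : Fin N → A => (List.ofFn u).prod) := by
    have h1 : (fun u : Fin N → A => (List.ofFn u).prod) =
        fun u : Fin N → A => ((List.finRange N).map (fun i => u i)).prod := by
      funext u
      rw [List.ofFn_eq_map]
    rw [h1]
    exact continuous_list_prod _ fun i _ => continuous_apply i
  have hcl : IsClosed (G.Dec ε N g) := by
    have h1 : G.Dec ε N g = (⋂ i, {u : Fin N → A | u i ∈ G.S ∧ ‖u i - 1‖ ≤ ε}) ∩
        {u : Fin N → A | (List.ofFn u).prod = g} := by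
      ext u
      simp only [Dec, Set.mem_ofPred_eq, Set.mem_inter_iff, Set.mem_iInter]
    rw [h1]
    refine IsClosed.inter (isClosed_iInter fun i => ?_) (isClosed_eq hprod continuous_const)
    refine IsClosed.and ?_ ?_
    · exact G.closed.preimage (continuous_apply i)
    · exact isClosed_le (((continuous_apply i).sub continuous_const).norm) continuous_const
  have hcomp : IsCompact (G.Dec ε N g) := by
    refine IsCompact.of_isClosed_subset (isCompact_univ_pi fun _ : Fin N => G.isCompact) hcl ?_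
    intro u hu i _
    exact (hu.1 i).1
  have hen : Continuous (fun u : Fin N → A => ∑ i, ‖u i - 1‖ ^ 2) := by
    refine continuous_finsetSum _ fun i _ => ?_
    exact (((continuous_apply i).sub continuous_const).norm).pow 2
  obtain ⟨u, hu, hmin⟩ := hcomp.exists_isMinOn h hen.continuousOn
  exact ⟨u, hu, fun v hv => hmin hv⟩

omit [NormedAlgebra ℝ A] [StarRing A] [StarModule ℝ A] [FiniteDimensional ℝ A] [TrA A]
  [CompleteSpace A] in
private theorem prod_aux : ∀ (N : ℕ) (u v : Fin N → A) (i : ℕ) (hi : i + 1 < N) (w w' : A)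
    (_ : w * w' = 1) (_ : v ⟨i, by omega⟩ = u ⟨i, by omega⟩ * w)
    (_ : v ⟨i + 1, hi⟩ = w' * u ⟨i + 1, hi⟩)
    (_ : ∀ j : Fin N, (j : ℕ) ≠ i → (j : ℕ) ≠ i + 1 → v j = u j),
    (List.ofFn v).prod = (List.ofFn u).prod := by
  intro N
  induction N with
  | zero => intro u v i hi; omega
  | succ N ih =>
    intro u v i hi w w' h h1 h2 h3
    cases i with
    | zero =>
      obtain ⟨M, rfl⟩ : ∃ M, N = M + 1 := ⟨N - 1, by omega⟩
      have e1 : v 0 = u 0 * w := h1
      have e2 : v (Fin.succ 0) = w' * u (Fin.succ 0) := h2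
      have e3 : (fun i : Fin M => v i.succ.succ) = fun i : Fin M => u i.succ.succ := by
        funext i
        refine h3 _ ?_ ?_
        · simp
        · simp
      rw [List.ofFn_succ, List.ofFn_succ, List.ofFn_succ, List.ofFn_succ]
      simp only [List.prod_cons]
      rw [e1, e2, e3]
      calc u 0 * w * (w' * u (Fin.succ 0) * (List.ofFn fun i : Fin M => u i.succ.succ).prod)
          = u 0 * (w * w') * (u (Fin.succ 0) * (List.ofFn fun i : Fin M => u i.succ.succ).prod) := by
            simp only [mul_assoc]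
        _ = _ := by rw [h, mul_one]
    | succ i =>
      rw [List.ofFn_succ, List.ofFn_succ, List.prod_cons, List.prod_cons]
      have e0 : v 0 = u 0 := h3 0 (by simp) (by simp)
      rw [e0, ih (fun j => u j.succ) (fun j => v j.succ) i (by omega) w w' h h1 h2 ?_]
      intro j hj1 hj2
      refine h3 _ ?_ ?_
      · rw [Fin.val_succ]; omega
      · rw [Fin.val_succ]; omega

/-- Replacing two neighbours a, b in a product by a w, w⁻¹ b does not change the product. -/
theorem prod_update {N : ℕ} (u : Fin N → A) (i : ℕ) (hi : i + 1 < N) (w w' : A)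
    (h : w * w' = 1) :
    (List.ofFn (Function.update (Function.update u ⟨i, by omega⟩ (u ⟨i, by omega⟩ * w))
      ⟨i + 1, hi⟩ (w' * u ⟨i + 1, hi⟩))).prod = (List.ofFn u).prod := by
  have hne : (⟨i, by omega⟩ : Fin N) ≠ ⟨i + 1, hi⟩ := by
    intro h
    have := congrArg Fin.val h
    simp at this
  refine prod_aux N u _ i hi w w' h ?_ ?_ ?_
  · rw [Function.update_of_ne hne, Function.update_self]
  · rw [Function.update_self]
  · intro j hj1 hj2
    rw [Function.update_of_ne, Function.update_of_ne]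
    · intro h; exact hj1 (by rw [h])
    · intro h; exact hj2 (by rw [h])

end MG

end Pool.Agent.CGrp
end

section

set_option autoImplicit false
set_option linter.unusedSectionVars false

open Topology

namespace Pool.Agent.CGrp

section inst

attribute [local instance] Matrix.frobeniusNormedAddCommGroup Matrix.frobeniusNormedSpace
  Matrix.frobeniusNormedRing Matrix.frobeniusNormedAlgebra

/-- complex matrices with the Frobenius norm -/
def FMat (n : ℕ) : Type := Matrix (Fin n) (Fin n) ℂ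

noncomputable instance (n : ℕ) : NormedRing (FMat n) :=
  inferInstanceAs (NormedRing (Matrix (Fin n) (Fin n) ℂ))

noncomputable instance (n : ℕ) : NormedAlgebra ℝ (FMat n) :=
  inferInstanceAs (NormedAlgebra ℝ (Matrix (Fin n) (Fin n) ℂ))

noncomputable instance (n : ℕ) : StarRing (FMat n) :=
  inferInstanceAs (StarRing (Matrix (Fin n) (Fin n) ℂ))

instance (n : ℕ) : StarModule ℝ (FMat n) :=
  inferInstanceAs (StarModule ℝ (Matrix (Fin n) (Fin n) ℂ))

instance (n : ℕ) : FiniteDimensional ℝ (FMat n) :=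
  inferInstanceAs (FiniteDimensional ℝ (Matrix (Fin n) (Fin n) ℂ))

instance (n : ℕ) : CompleteSpace (FMat n) := FiniteDimensional.complete ℝ (FMat n)

/-- the real part of the trace -/
noncomputable def reTrace (n : ℕ) : FMat n →ₗ[ℝ] ℝ where
  toFun a := (Matrix.trace (show Matrix (Fin n) (Fin n) ℂ from a)).re
  map_add' a b := by
    have h : Matrix.trace ((show Matrix (Fin n) (Fin n) ℂ from a) +
        (show Matrix (Fin n) (Fin n) ℂ from b)) = _ := Matrix.trace_add _ _
    have h2 := congrArg Complex.re h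
    rw [Complex.add_re] at h2
    exact h2
  map_smul' c a := by
    have h : Matrix.trace (c • (show Matrix (Fin n) (Fin n) ℂ from a)) = _ :=
      Matrix.trace_smul c (show Matrix (Fin n) (Fin n) ℂ from a)
    have h2 := congrArg Complex.re h
    rw [Complex.smul_re] at h2
    exact h2

theorem reTrace_comm (n : ℕ) (a b : FMat n) : reTrace n (a * b) = reTrace n (b * a) := by
  have h := Matrix.trace_mul_comm (show Matrix (Fin n) (Fin n) ℂ from a)
    (show Matrix (Fin n) (Fin n) ℂ from b)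
  exact congrArg Complex.re h

theorem reTrace_star (n : ℕ) (a : FMat n) : reTrace n (star a) = reTrace n a := by
  have h := Matrix.trace_conjTranspose (show Matrix (Fin n) (Fin n) ℂ from a)
  have h2 := congrArg Complex.re h
  have h3 : (star (Matrix.trace (show Matrix (Fin n) (Fin n) ℂ from a))).re =
      (Matrix.trace (show Matrix (Fin n) (Fin n) ℂ from a)).re := Complex.conj_re _
  exact h2.trans h3

/-- `Matrix.frobenius_norm_def` or `Matrix.frobenius_nnnorm_def` -/
theorem reTrace_norm (n : ℕ) (a : FMat n) : reTrace n (star a * a) = ‖a‖ ^ 2 := by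
  have h1 : ‖a‖ = (∑ i, ∑ j, ‖(show Matrix (Fin n) (Fin n) ℂ from a) i j‖ ^ (2 : ℝ)) ^ (1 / 2 : ℝ) :=
    Matrix.frobenius_norm_def (show Matrix (Fin n) (Fin n) ℂ from a)
  have h2 : ‖a‖ ^ 2 = ∑ i, ∑ j, ‖(show Matrix (Fin n) (Fin n) ℂ from a) i j‖ ^ 2 := by
    rw [h1, ← Real.rpow_natCast, ← Real.rpow_mul (by positivity)]
    norm_num
  rw [h2]
  have h3 : reTrace n (star a * a) = (Matrix.trace
    (Matrix.conjTranspose (show Matrix (Fin n) (Fin n) ℂ from a) *
      (show Matrix (Fin n) (Fin n) ℂ from a))).re := rfl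
  rw [h3, Matrix.trace, Complex.re_sum, Finset.sum_comm]
  refine Finset.sum_congr rfl fun j _ => ?_
  rw [Matrix.diag_apply, Matrix.mul_apply, Complex.re_sum]
  refine Finset.sum_congr rfl fun i _ => ?_
  rw [Matrix.conjTranspose_apply]
  have h4 : star ((show Matrix (Fin n) (Fin n) ℂ from a) i j) * (show Matrix (Fin n) (Fin n) ℂ from a) i j
      = ((‖(show Matrix (Fin n) (Fin n) ℂ from a) i j‖ ^ 2 : ℝ) : ℂ) := by
    rw [Complex.star_def, Complex.conj_mul']
    push_cast
    rfl
  rw [h4, Complex.ofReal_re]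

noncomputable instance (n : ℕ) : TrA (FMat n) where
  τ := reTrace n
  τ_comm := reTrace_comm n
  τ_star := reTrace_star n
  norm_sq := reTrace_norm n

/-- the identity from matrices with the product topology is continuous (finite dimensional spaces:
every linear map from a finite dimensional T2 space is continuous) -/
theorem continuous_toF (n : ℕ) {X : Type*} [TopologicalSpace X]
    (f : X → Matrix (Fin n) (Fin n) ℂ) (hf : ∀ i j, Continuous fun x => f x i j) :
    Continuous (fun x => (show FMat n from f x)) := by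
  have h1 : ∀ x, (show FMat n from f x) =
      ∑ i, ∑ j, (f x i j).re • (show FMat n from Matrix.single i j (1 : ℂ)) +
        ∑ i, ∑ j, (f x i j).im • (show FMat n from Matrix.single i j Complex.I) := by
    intro x
    have h2 : ∀ i j, (f x i j).re • (show FMat n from Matrix.single i j (1 : ℂ)) +
        (f x i j).im • (show FMat n from Matrix.single i j Complex.I) =
        (show FMat n from Matrix.single i j (f x i j)) := by
      intro i j
      have : (f x i j).re • (Matrix.single i j (1 : ℂ) : Matrix (Fin n) (Fin n) ℂ) +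
        (f x i j).im • (Matrix.single i j Complex.I : Matrix (Fin n) (Fin n) ℂ) =
        Matrix.single i j (f x i j) := by
        rw [Matrix.smul_single, Matrix.smul_single, ← Matrix.single_add]
        congr 1
        apply Complex.ext <;> simp
      exact this
    rw [← Finset.sum_add_distrib]
    simp_rw [← Finset.sum_add_distrib, h2]
    exact Matrix.matrix_eq_sum_single (f x)
  refine Continuous.congr (f := fun x => ∑ i, ∑ j, (f x i j).re •
      (show FMat n from Matrix.single i j (1 : ℂ)) +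
        ∑ i, ∑ j, (f x i j).im • (show FMat n from Matrix.single i j Complex.I)) ?_
      (fun x => (h1 x).symm)
  refine Continuous.add ?_ ?_
  · refine continuous_finsetSum _ fun i _ => continuous_finsetSum _ fun j _ => ?_
    exact (Complex.continuous_re.comp (hf i j)).smul continuous_const
  · refine continuous_finsetSum _ fun i _ => continuous_finsetSum _ fun j _ => ?_
    exact (Complex.continuous_im.comp (hf i j)).smul continuous_const

end inst

end Pool.Agent.CGrp
end

section

set_option autoImplicit false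
set_option linter.unusedSectionVars false

open Topology

namespace Pool.Agent.CGrp

/-- the limit of a family of sets along an ultrafilter -/
def ulim {ι X : Type*} [TopologicalSpace X] (F : Filter ι) (S : ι → Set X) : Set X :=
  {x | ∀ V ∈ 𝓝 x, ∀ᶠ i in F, (S i ∩ V).Nonempty}

theorem ulim_closed {ι X : Type*} [TopologicalSpace X] (F : Filter ι) (S : ι → Set X) :
    IsClosed (ulim F S) := by
  rw [← isOpen_compl_iff, isOpen_iff_mem_nhds]
  intro x hx
  have hx' : ¬ ∀ V ∈ 𝓝 x, ∀ᶠ i in F, (S i ∩ V).Nonempty := hx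
  simp only [not_forall] at hx'
  obtain ⟨V, hV, hF⟩ := hx'
  have hVi : interior V ∈ 𝓝 x := interior_mem_nhds.mpr hV
  refine Filter.mem_of_superset hVi ?_
  intro y hy hyu
  have hyu' : ∀ V ∈ 𝓝 y, ∀ᶠ i in F, (S i ∩ V).Nonempty := hyu
  exact hF (hyu' V (mem_interior_iff_mem_nhds.mp hy))

/-- limits of points: if x i ∈ S i for F-many i and x i -> a along F then a ∈ ulim -/
theorem ulim_of_tendsto {ι X : Type*} [TopologicalSpace X] (F : Filter ι) (S : ι → Set X)
    (x : ι → X) (hx : ∀ᶠ i in F, x i ∈ S i) (a : X) (ha : Filter.Tendsto x F (𝓝 a)) :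
    a ∈ ulim F S := by
  intro V hV
  filter_upwards [hx, ha.eventually_mem hV] with i h1 h2
  exact ⟨x i, h1, h2⟩

/-- In a compact space, for an ultrafilter F: S i is contained in any neighbourhood O of the limit for
F-many i. (Otherwise pick x i ∈ S i \ O for F-many i; it converges along F to some a ∉ O (open), but
a ∈ ulim.) -/
theorem ulim_subset {ι X : Type*} [TopologicalSpace X] [CompactSpace X] (F : Ultrafilter ι)
    (S : ι → Set X) (O : Set X) (hO : IsOpen O) (h : ulim (F : Filter ι) S ⊆ O) :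
    ∀ᶠ i in (F : Filter ι), S i ⊆ O := by
  by_contra hcon
  have h1 : ∀ᶠ i in (F : Filter ι), ¬ S i ⊆ O := Ultrafilter.eventually_not.mpr hcon
  have h2 : ∀ᶠ i in (F : Filter ι), ∃ y, y ∈ S i ∧ y ∉ O := by
    filter_upwards [h1] with i hi
    exact Set.not_subset.mp hi
  obtain ⟨i0, y0, -⟩ := h2.exists
  classical
  let x : ι → X := fun i => if hi : ∃ y, y ∈ S i ∧ y ∉ O then hi.choose else y0
  have hx : ∀ᶠ i in (F : Filter ι), x i ∈ S i ∧ x i ∉ O := by
    filter_upwards [h2] with i hi
    have : x i = hi.choose := dif_pos hi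
    rw [this]
    exact hi.choose_spec
  obtain ⟨a, -, ha⟩ := isCompact_univ.ultrafilter_le_nhds (F.map x) (by simp)
  have ha' : Filter.Tendsto x (F : Filter ι) (𝓝 a) := ha
  have haO : a ∈ O := h (ulim_of_tendsto _ S x (hx.mono fun i hi => hi.1) a ha')
  have h3 := ha'.eventually_mem (hO.mem_nhds haO)
  obtain ⟨i, h4, h5⟩ := (h3.and hx).exists
  exact h5.2 h4

/-- Let G be compact, S i closed sets, K i subgroups with K i inside any neighbourhood of 1 for F-many i,
such that S i is not a disjoint union of two nonempty closed sets saturated for K i. Then the limit is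
connected (if it is nonempty, e.g. 1 ∈ S i). Proof: if ulim ⊆ U₁ ∪ U₂ disjoint... Suppose ulim = A₁ ∪ A₂
disjoint nonempty closed (so compact) sets. Take open O₁ ⊇ A₁, O₂ ⊇ A₂ with disjoint closures (normal
space), and a neighbourhood W of 1 such that x ∈ closure O₁, k ∈ W imply x k ∉ closure O₂ and conversely
(compactness). For F-many i: S i ⊆ O₁ ∪ O₂ (ulim_subset), S i meets O₁ and O₂, K i ⊆ W. Then
S i ∩ closure O_j (j = 1, 2) are nonempty disjoint closed sets with union S i; saturated if S i K i ⊆ S i. -/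
theorem ulim_connected {G : Type*} [Group G] [TopologicalSpace G] [IsTopologicalGroup G]
    [CompactSpace G] [T2Space G] {ι : Type*} (F : Ultrafilter ι) (S : ι → Set G)
    (K : ι → Set G) (hS : ∀ i, IsClosed (S i)) (h1 : ∀ i, (1 : G) ∈ S i)
    (hK : ∀ W ∈ 𝓝 (1 : G), ∀ᶠ i in (F : Filter ι), K i ⊆ W)
    (hSK : ∀ i, ∀ x ∈ S i, ∀ k ∈ K i, x * k ∈ S i)
    (h : ∀ i, ∀ A₁ A₂ : Set G, IsClosed A₁ → IsClosed A₂ → S i = A₁ ∪ A₂ → Disjoint A₁ A₂ →
        (∀ x ∈ A₁, ∀ k ∈ K i, x * k ∈ A₁) → (∀ x ∈ A₂, ∀ k ∈ K i, x * k ∈ A₂) →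
        A₁ = ∅ ∨ A₂ = ∅) : IsConnected (ulim (F : Filter ι) S) := by
  refine ⟨⟨1, ulim_of_tendsto _ S (fun _ => 1) (Filter.Eventually.of_forall h1) 1
    tendsto_const_nhds⟩, ?_⟩
  rw [isPreconnected_closed_iff]
  intro t t' ht ht' hsub hne hne'
  by_contra hcon
  rw [Set.not_nonempty_iff_eq_empty] at hcon
  have hcl := ulim_closed (F : Filter ι) S
  have hA1 : IsClosed (ulim (F : Filter ι) S ∩ t) := hcl.inter ht
  have hA2 : IsClosed (ulim (F : Filter ι) S ∩ t') := hcl.inter ht'
  have hdis : Disjoint (ulim (F : Filter ι) S ∩ t) (ulim (F : Filter ι) S ∩ t') := by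
    rw [Set.disjoint_left]
    intro x hx hx'
    have : x ∈ ulim (F : Filter ι) S ∩ (t ∩ t') := ⟨hx.1, hx.2, hx'.2⟩
    rw [hcon] at this
    exact this
  obtain ⟨O₁, O₂, hO₁, hA₁, hO₂, hA₂, hOO⟩ :
      ∃ O₁ O₂ : Set G, IsOpen O₁ ∧ ulim (F : Filter ι) S ∩ t ⊆ O₁ ∧ IsOpen O₂ ∧
        ulim (F : Filter ι) S ∩ t' ⊆ O₂ ∧ Disjoint (closure O₁) (closure O₂) := by
    obtain ⟨u, hu, hsu, hu'⟩ := normal_exists_closure_subset hA1 hA2.isOpen_compl
      (Set.disjoint_left.mp hdis)
    obtain ⟨v, hv, hsv, hv'⟩ := normal_exists_closure_subset hA2 (isClosed_closure (s := u)).isOpen_compl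
      (fun x hx hxu => hu' hxu hx)
    exact ⟨u, v, hu, hsu, hv, hsv, Set.disjoint_left.mpr fun x hx hx' => hv' hx' hx⟩
  have hc1 : IsCompact (closure O₁) := isClosed_closure.isCompact
  have hc2 : IsCompact (closure O₂) := isClosed_closure.isCompact
  obtain ⟨W₁, hW₁, hW₁'⟩ := compact_open_separated_mul_right hc1
    (isClosed_closure (s := O₂)).isOpen_compl (Set.disjoint_left.mp hOO)
  obtain ⟨W₂, hW₂, hW₂'⟩ := compact_open_separated_mul_right hc2
    (isClosed_closure (s := O₁)).isOpen_compl (Set.disjoint_left.mp hOO.symm)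
  have e1 : ∀ᶠ i in (F : Filter ι), S i ⊆ O₁ ∪ O₂ := by
    refine ulim_subset F S _ (hO₁.union hO₂) ?_
    intro x hx
    rcases hsub hx with h' | h'
    · exact Or.inl (hA₁ ⟨hx, h'⟩)
    · exact Or.inr (hA₂ ⟨hx, h'⟩)
  obtain ⟨x₁, hx₁⟩ := hne
  obtain ⟨x₂, hx₂⟩ := hne'
  have e2 : ∀ᶠ i in (F : Filter ι), (S i ∩ O₁).Nonempty := hx₁.1 O₁ (hO₁.mem_nhds (hA₁ hx₁))
  have e3 : ∀ᶠ i in (F : Filter ι), (S i ∩ O₂).Nonempty := hx₂.1 O₂ (hO₂.mem_nhds (hA₂ hx₂))
  have e4 := hK (W₁ ∩ W₂) (Filter.inter_mem hW₁ hW₂)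
  obtain ⟨i, i1, i2, i3, i4⟩ := (e1.and (e2.and (e3.and e4))).exists
  have key := h i (S i ∩ closure O₁) (S i ∩ closure O₂) ((hS i).inter isClosed_closure)
    ((hS i).inter isClosed_closure) ?_ ?_ ?_ ?_
  · rcases key with hk | hk
    · obtain ⟨x, hx⟩ := i2
      have : x ∈ S i ∩ closure O₁ := ⟨hx.1, subset_closure hx.2⟩
      rw [hk] at this
      exact this
    · obtain ⟨x, hx⟩ := i3
      have : x ∈ S i ∩ closure O₂ := ⟨hx.1, subset_closure hx.2⟩
      rw [hk] at this
      exact this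
  · ext x
    constructor
    · intro hx
      rcases i1 hx with h' | h'
      · exact Or.inl ⟨hx, subset_closure h'⟩
      · exact Or.inr ⟨hx, subset_closure h'⟩
    · rintro (hx | hx)
      · exact hx.1
      · exact hx.1
  · exact hOO.mono Set.inter_subset_right Set.inter_subset_right
  · intro x hx k hk
    have hS' := hSK i x hx.1 k hk
    refine ⟨hS', ?_⟩
    rcases i1 hS' with h' | h'
    · exact subset_closure h'
    · exact absurd (subset_closure h') (hW₁' (Set.mul_mem_mul hx.2 (i4 hk).1))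
  · intro x hx k hk
    have hS' := hSK i x hx.1 k hk
    refine ⟨hS', ?_⟩
    rcases i1 hS' with h' | h'
    · exact absurd (subset_closure h') (hW₂' (Set.mul_mem_mul hx.2 (i4 hk).2))
    · exact subset_closure h'

end Pool.Agent.CGrp
end

section

set_option autoImplicit false
set_option linter.unusedSectionVars false

open Topology

namespace Pool.Agent.CGrp

/-- In a compact Hausdorff space the ultrafilter limit of preconnected sets is preconnected.
`isPreconnected_closed_iff` or directly: if ulim = A₁ ∪ A₂ with disjoint nonempty closed sets choose disjoint open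
O₁ ⊇ A₁, O₂ ⊇ A₂; for F-many i: S i ⊆ O₁ ∪ O₂ (ulim_subset), S i meets O₁ and O₂: contradiction. -/
theorem ulim_preconnected {ι X : Type*} [TopologicalSpace X] [CompactSpace X] [T2Space X]
    (F : Ultrafilter ι) (S : ι → Set X) (h : ∀ i, IsPreconnected (S i)) :
    IsPreconnected (ulim (F : Filter ι) S) := by
  have hcl := ulim_closed (F : Filter ι) S
  rw [isPreconnected_closed_iff]
  rintro t t' ht ht' hsub ⟨x, hxA, hxt⟩ ⟨y, hyA, hyt⟩
  by_contra hne
  have hdis : Disjoint (ulim (F : Filter ι) S ∩ t) (ulim (F : Filter ι) S ∩ t') := by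
    rw [Set.disjoint_left]
    rintro z ⟨hz, hz1⟩ ⟨_, hz2⟩
    exact hne ⟨z, hz, hz1, hz2⟩
  obtain ⟨O₁, O₂, hO₁, hO₂, h₁, h₂, hd⟩ := normal_separation (hcl.inter ht) (hcl.inter ht') hdis
  have hO : ulim (F : Filter ι) S ⊆ O₁ ∪ O₂ := by
    intro z hz
    rcases hsub hz with h3 | h3
    · exact Or.inl (h₁ ⟨hz, h3⟩)
    · exact Or.inr (h₂ ⟨hz, h3⟩)
  have e1 := ulim_subset F S (O₁ ∪ O₂) (hO₁.union hO₂) hO
  have e2 := hxA O₁ (hO₁.mem_nhds (h₁ ⟨hxA, hxt⟩))
  have e3 := hyA O₂ (hO₂.mem_nhds (h₂ ⟨hyA, hyt⟩))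
  obtain ⟨i, ⟨h3, h4⟩, h5⟩ := ((e1.and e2).and e3).exists
  obtain ⟨z, _, hz1, hz2⟩ := h i O₁ O₂ hO₁ hO₂ h3 h4 h5
  exact Set.disjoint_left.1 hd hz1 hz2

/-- points of the limit are limits of points: for x ∈ ulim and a continuous f : X → Y (or any closed condition)
the usual way to use the definition is: for neighbourhoods V of x and W of y the set of i with
S i ∩ V and S i ∩ W nonempty is in F. Here: closed conditions in two variables pass to the limit. -/
theorem ulim_closed_condition₂ {ι X : Type*} [TopologicalSpace X] (F : Ultrafilter ι)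
    (S : ι → Set X) (P : X × X → Prop) (hP : IsClosed {p | P p})
    (h : ∀ i, ∀ x ∈ S i, ∀ y ∈ S i, P (x, y)) :
    ∀ x ∈ ulim (F : Filter ι) S, ∀ y ∈ ulim (F : Filter ι) S, P (x, y) := by
  intro x hx y hy
  by_contra hne
  have h1 : {p | P p}ᶜ ∈ 𝓝 (x, y) := hP.isOpen_compl.mem_nhds hne
  obtain ⟨V, hV, W, hW, hVW⟩ := mem_nhds_prod_iff.1 h1
  obtain ⟨i, ⟨x', hx', hx''⟩, ⟨y', hy', hy''⟩⟩ := ((hx V hV).and (hy W hW)).exists
  exact hVW (Set.mk_mem_prod hx'' hy'') (h i x' hx' y' hy')

/-- the same in three variables -/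
theorem ulim_closed_condition₃ {ι X : Type*} [TopologicalSpace X] (F : Ultrafilter ι)
    (S : ι → Set X) (P : X × X × X → Prop) (hP : IsClosed {p | P p})
    (h : ∀ i, ∀ x ∈ S i, ∀ y ∈ S i, ∀ z ∈ S i, P (x, y, z)) :
    ∀ x ∈ ulim (F : Filter ι) S, ∀ y ∈ ulim (F : Filter ι) S, ∀ z ∈ ulim (F : Filter ι) S,
      P (x, y, z) := by
  intro x hx y hy z hz
  by_contra hne
  have h1 : {p | P p}ᶜ ∈ 𝓝 (x, y, z) := hP.isOpen_compl.mem_nhds hne
  obtain ⟨V, hV, W, hW, hVW⟩ := mem_nhds_prod_iff.1 h1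
  obtain ⟨W₁, hW₁, W₂, hW₂, hWW⟩ := mem_nhds_prod_iff.1 hW
  obtain ⟨i, ⟨⟨x', hx', hx''⟩, ⟨y', hy', hy''⟩⟩, ⟨z', hz', hz''⟩⟩ :=
    (((hx V hV).and (hy W₁ hW₁)).and (hz W₂ hW₂)).exists
  exact hVW (Set.mk_mem_prod hx'' (hWW (Set.mk_mem_prod hy'' hz''))) (h i x' hx' y' hy' z' hz')

/-- continuous operations pass to the limit -/
theorem ulim_op {ι X : Type*} [TopologicalSpace X] (F : Ultrafilter ι) (S : ι → Set X)
    (f : X × X → X) (hf : Continuous f) (h : ∀ i, ∀ x ∈ S i, ∀ y ∈ S i, f (x, y) ∈ S i) :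
    ∀ x ∈ ulim (F : Filter ι) S, ∀ y ∈ ulim (F : Filter ι) S,
      f (x, y) ∈ ulim (F : Filter ι) S := by
  intro x hx y hy V hV
  have h1 : f ⁻¹' V ∈ 𝓝 (x, y) := hf.continuousAt.preimage_mem_nhds hV
  obtain ⟨V₁, hV₁, V₂, hV₂, hVV⟩ := mem_nhds_prod_iff.1 h1
  refine ((hx V₁ hV₁).and (hy V₂ hV₂)).mono ?_
  rintro i ⟨⟨x', hx', hx''⟩, ⟨y', hy', hy''⟩⟩
  exact ⟨f (x', y'), h i x' hx' y' hy', hVV (Set.mk_mem_prod hx'' hy'')⟩

end Pool.Agent.CGrp
end
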