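import Mathlib
import Pool.Agent.Lib.MP_fd6bc6_al.Mg.G001
import Pool.Agent.Lib.MP_fd6bc6_al.Mg.G003

section

set_option autoImplicit false
set_option linter.unusedSectionVars false

open MeasureTheory Topology

namespace Pool.Agent.CGrp

/-- PETER-WEYL: a compact group has finite dimensional unitary representations with small kernel.
Take μ = the normalised Haar measure (`Measure.haarMeasure ⊤`, a left invariant probability measure,
positive on open sets; use the Borel σ-algebra), E from exists_subspace, an orthonormal basis e_1..e_n of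
E (`stdOrthonormalBasis ℂ E`) and ρ g i j = ⟪e_i, tr g e_j⟫. Multiplicativity: tr a (tr b e_j) with
tr b e_j = Σ_k ⟪e_k, tr b e_j⟫ e_k. Unitarity: ρ(g)ᴴ ρ(g) has entries ⟪tr g e_i, tr g e_j⟫ = ⟪e_i, e_j⟫. If
ρ x = 1 then tr x e_j = e_j for all j, so tr x = id on E. -/
theorem exists_rep {G : Type*} [Group G] [TopologicalSpace G] [IsTopologicalGroup G]
    [CompactSpace G] [T2Space G] [SecondCountableTopology G] (U : Set G) (hU : U ∈ 𝓝 (1 : G)) :
    ∃ (n : ℕ) (ρ : G →* Matrix (Fin n) (Fin n) ℂ), Continuous ρ ∧
      (∀ g, Matrix.conjTranspose (ρ g) * ρ g = 1) ∧ ∀ x, ρ x = 1 → x ∈ U := by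
  let _ : MeasurableSpace G := borel G
  have : BorelSpace G := ⟨rfl⟩
  let μ : Measure G := Measure.haarMeasure (⊤ : TopologicalSpace.PositiveCompacts G)
  have : IsProbabilityMeasure μ := ⟨by
    have h := Measure.haarMeasure_self (K₀ := (⊤ : TopologicalSpace.PositiveCompacts G))
    exact h⟩
  obtain ⟨E, hfd, hinv, hcont, hsep⟩ := exists_subspace μ U hU
  have := hfd
  let b := stdOrthonormalBasis ℂ E
  have hexp : ∀ f ∈ E, ∑ k, inner ℂ (b k : Lp ℂ 2 μ) f • (b k : Lp ℂ 2 μ) = f := by
    intro f hf
    have h := congrArg (Subtype.val) (b.sum_repr' ⟨f, hf⟩)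
    rw [Submodule.coe_sum] at h
    exact h
  have horth : ∀ i j, inner ℂ (b i : Lp ℂ 2 μ) (b j : Lp ℂ 2 μ) = if i = j then (1 : ℂ) else 0 := by
    intro i j
    have h := (orthonormal_iff_ite.mp b.orthonormal) i j
    rw [Submodule.coe_inner] at h
    exact h
  have hmem : ∀ g j, tr μ g (b j : Lp ℂ 2 μ) ∈ E := fun g j => hinv g _ (b j).2
  let r : G → Matrix (Fin (Module.finrank ℂ E)) (Fin (Module.finrank ℂ E)) ℂ := fun g =>
    Matrix.of fun i j => inner ℂ (b i : Lp ℂ 2 μ) (tr μ g (b j : Lp ℂ 2 μ))
  have hr : ∀ g i j, r g i j = inner ℂ (b i : Lp ℂ 2 μ) (tr μ g (b j : Lp ℂ 2 μ)) :=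
    fun g i j => rfl
  have hone : r 1 = 1 := by
    ext i j
    rw [hr, tr_one, horth, Matrix.one_apply]
  have hmul : ∀ x y, r (x * y) = r x * r y := by
    intro x y
    ext i j
    rw [hr, tr_mul, ← hexp _ (hmem y j), map_sum, inner_sum, Matrix.mul_apply]
    refine Finset.sum_congr rfl fun k _ => ?_
    rw [map_smul, inner_smul_right, hr, hr, mul_comm]
  refine ⟨_, { toFun := r, map_one' := hone, map_mul' := hmul }, ?_, ?_, ?_⟩
  · change Continuous r
    refine continuous_matrix fun i j => ?_
    exact Continuous.inner (𝕜 := ℂ) continuous_const (hcont _ (b j).2)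
  · intro g
    change Matrix.conjTranspose (r g) * r g = 1
    ext i j
    rw [Matrix.mul_apply, Matrix.one_apply, ← horth i j,
      ← (tr μ g).inner_map_map (b i : Lp ℂ 2 μ) (b j : Lp ℂ 2 μ)]
    conv_rhs => rw [← hexp _ (hmem g j)]
    rw [inner_sum]
    refine Finset.sum_congr rfl fun k _ => ?_
    rw [inner_smul_right, Matrix.conjTranspose_apply, hr, hr, mul_comm]
    congr 1
    exact inner_conj_symm _ _
  · intro x hx
    change r x = 1 at hx
    apply hsep
    have hb : ∀ j, tr μ x (b j : Lp ℂ 2 μ) = b j := by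
      intro j
      rw [← hexp _ (hmem x j)]
      have h1 : ∀ k, inner ℂ (b k : Lp ℂ 2 μ) (tr μ x (b j : Lp ℂ 2 μ)) =
          if k = j then (1 : ℂ) else 0 := by
        intro k
        rw [← hr, hx, Matrix.one_apply]
      simp only [h1, ite_smul, one_smul, zero_smul, Finset.sum_ite_eq', Finset.mem_univ, if_true]
    intro f hf
    conv_lhs => rw [← hexp f hf]
    rw [map_sum]
    conv_rhs => rw [← hexp f hf]
    refine Finset.sum_congr rfl fun k _ => ?_
    rw [map_smul, hb]

end Pool.Agent.CGrp
end

section

set_option autoImplicit false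

open Topology

namespace Pool.Agent.CGrp

open scoped ComplexOrder in
private lemma form_zero {n : ℕ} (v : Fin n → ℂ) (h : star v ⬝ᵥ v = 0) : v = 0 :=
  dotProduct_star_self_eq_zero.mp h

private lemma unit_form {n : ℕ} (A : Matrix (Fin n) (Fin n) ℂ) (hA : Matrix.conjTranspose A * A = 1)
    (v w : Fin n → ℂ) :
    star (Matrix.mulVec A v) ⬝ᵥ (Matrix.mulVec A w) = star v ⬝ᵥ w := by
  rw [Matrix.star_mulVec, ← Matrix.dotProduct_mulVec, Matrix.mulVec_mulVec, hA, Matrix.one_mulVec]

private lemma eig_of_sq {n : ℕ} (A : Matrix (Fin n) (Fin n) ℂ)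
    (hA : Matrix.conjTranspose A * A = 1) (μ : ℂ) (v : Fin n → ℂ)
    (h : Matrix.mulVec A (Matrix.mulVec A v - μ • v) = μ • (Matrix.mulVec A v - μ • v)) :
    Matrix.mulVec A v = μ • v := by
  set w := Matrix.mulVec A v - μ • v with hw
  have h1 : star w ⬝ᵥ w = star w ⬝ᵥ Matrix.mulVec A v - μ * (star w ⬝ᵥ v) := by
    conv_lhs => rw [show w = Matrix.mulVec A v - μ • v from hw]
    rw [dotProduct_sub, dotProduct_smul, smul_eq_mul, ← hw]
  have h2 : star μ * (star w ⬝ᵥ Matrix.mulVec A v) = star w ⬝ᵥ v := by
    rw [← unit_form A hA w v, h, star_smul, smul_dotProduct, smul_eq_mul]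
  have h3 : star μ * μ * (star w ⬝ᵥ w) = star w ⬝ᵥ w := by
    conv_rhs => rw [← unit_form A hA w w, h, star_smul, smul_dotProduct, dotProduct_smul]
    simp only [smul_eq_mul]
    ring
  have h4 : star w ⬝ᵥ w = 0 := by
    by_contra hne
    have h5 : star μ * μ = 1 := by
      have := mul_right_cancel₀ hne (h3.trans (one_mul _).symm)
      exact this
    have h6 : star w ⬝ᵥ Matrix.mulVec A v = μ * (star w ⬝ᵥ v) := by
      rw [← h2, ← mul_assoc, mul_comm μ, h5, one_mul]
    exact hne (by rw [h1, h6, sub_self])
  have h7 : w = 0 := form_zero w h4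
  exact sub_eq_zero.mp (hw ▸ h7)

private lemma eig_of_pow {n : ℕ} (A : Matrix (Fin n) (Fin n) ℂ)
    (hA : Matrix.conjTranspose A * A = 1) (μ : ℂ) (v : Fin n → ℂ) (k : ℕ)
    (h : ((Matrix.toLin' A - μ • (1 : Module.End ℂ (Fin n → ℂ))) ^ k) v = 0) :
    Matrix.mulVec A v = μ • v := by
  induction k generalizing v with
  | zero =>
    have h0 : v = 0 := by simpa using h
    simp [h0]
  | succ k ih =>
    have hT : ∀ u : Fin n → ℂ, (Matrix.toLin' A - μ • (1 : Module.End ℂ (Fin n → ℂ))) u =
        Matrix.mulVec A u - μ • u := by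
      intro u
      simp [Matrix.toLin'_apply]
    rw [pow_succ] at h
    have h' := ih _ h
    rw [hT] at h'
    exact eig_of_sq A hA μ v h'

/-- Commuting unitary matrices have a common eigenspace decomposition; here the version that is needed.
Let S be the set of subspaces W of E = EuclideanSpace ℂ (Fin n) (or of Fin n → ℂ with the form
⟪v, w⟫ = star v ⬝ᵥ w) invariant under all ρ g and on which ρ x is not the identity; ⊤ ∈ S. Take W in S of
minimal dimension. For b : G the operator ρ b on W ≠ 0 has an eigenvalue c; W_c = {w ∈ W : ρ b w = c w}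
is invariant (commutativity), so is its orthogonal complement W' in W (unitarity), W = W_c ⊕ W'. ρ x is
not the identity on one of them, so by minimality W_c = W or W' = W, the latter is impossible. So
every ρ b is a scalar c b on W, |c b| = 1, c is multiplicative, c b = ⟪w, ρ b w⟫ / ‖w‖² for a fixed
w ≠ 0 in W is continuous, and c x ≠ 1. -/
theorem char_of_rep {G : Type*} [CommGroup G] [TopologicalSpace G] {n : ℕ}
    (ρ : G →* Matrix (Fin n) (Fin n) ℂ) (hc : Continuous ρ)
    (hu : ∀ g, Matrix.conjTranspose (ρ g) * ρ g = 1) (x : G) (hx : ρ x ≠ 1) :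
    ∃ χ : G →* Circle, Continuous χ ∧ χ x ≠ 1 := by
  classical
  let f : G → Module.End ℂ (Fin n → ℂ) := fun g => Matrix.toLin' (ρ g)
  have hcomm : Pairwise fun i j => Commute (f i) (f j) := by
    intro i j _
    change Matrix.toLin' (ρ i) ∘ₗ Matrix.toLin' (ρ j) = Matrix.toLin' (ρ j) ∘ₗ Matrix.toLin' (ρ i)
    rw [← Matrix.toLin'_mul, ← Matrix.toLin'_mul, ← map_mul, ← map_mul, mul_comm]
  have htop := Module.End.iSup_iInf_maxGenEigenspace_eq_top_of_iSup_maxGenEigenspace_eq_top_of_commute
    f hcomm (fun i => Module.End.iSup_maxGenEigenspace_eq_top (f i))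
  have hex : ∃ (c : G → ℂ) (v : Fin n → ℂ), v ∈ ⨅ i, (f i).maxGenEigenspace (c i) ∧
      Matrix.mulVec (ρ x) v ≠ v := by
    by_contra hcon
    push Not at hcon
    apply hx
    have hle : (⊤ : Submodule ℂ (Fin n → ℂ)) ≤ LinearMap.eqLocus (f x) LinearMap.id := by
      rw [← htop]
      refine iSup_le fun c v hv => ?_
      rw [LinearMap.mem_eqLocus]
      simpa [f, Matrix.toLin'_apply] using hcon c v hv
    have hid : Matrix.toLin' (ρ x) = LinearMap.id := by
      ext1 i
      apply LinearMap.ext
      intro u
      have := hle (Submodule.mem_top (x := (LinearMap.single ℂ (fun _ : Fin n => ℂ) i u)))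
      rw [LinearMap.mem_eqLocus] at this
      exact this
    have h1 : Matrix.toLin' (ρ x) = Matrix.toLin' (1 : Matrix (Fin n) (Fin n) ℂ) := by
      rw [hid, Matrix.toLin'_one]
    exact Matrix.toLin'.injective h1
  obtain ⟨c, v, hv, hvx⟩ := hex
  have heig : ∀ g, Matrix.mulVec (ρ g) v = c g • v := by
    intro g
    have h1 := (Submodule.mem_iInf _).mp hv g
    rw [Module.End.mem_maxGenEigenspace] at h1
    obtain ⟨k, hk⟩ := h1
    exact eig_of_pow (ρ g) (hu g) (c g) v k hk
  have hv0 : v ≠ 0 := by
    rintro rfl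
    exact hvx (Matrix.mulVec_zero _)
  have hN : star v ⬝ᵥ v ≠ 0 := fun h => hv0 (form_zero v h)
  have hcg : ∀ g, c g = (star v ⬝ᵥ Matrix.mulVec (ρ g) v) / (star v ⬝ᵥ v) := by
    intro g
    rw [heig g, dotProduct_smul, smul_eq_mul, mul_div_cancel_right₀ _ hN]
  have hinj : ∀ a b : ℂ, a • v = b • v → a = b := fun a b h => smul_left_injective ℂ hv0 h
  have hmul : ∀ g h, c (g * h) = c g * c h := by
    intro g h
    apply hinj
    rw [← heig, map_mul, ← Matrix.mulVec_mulVec, heig h, Matrix.mulVec_smul, heig g, smul_smul,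
      mul_comm]
  have hone : c 1 = 1 := by
    apply hinj
    rw [← heig, map_one, Matrix.one_mulVec, one_smul]
  have hnorm : ∀ g, ‖c g‖ = 1 := by
    intro g
    have h1 := unit_form (ρ g) (hu g) v v
    rw [heig, star_smul, smul_dotProduct, dotProduct_smul, smul_smul, smul_eq_mul] at h1
    have h2 : star (c g) * c g = 1 := mul_right_cancel₀ hN (h1.trans (one_mul _).symm)
    have h3 : ((‖c g‖ ^ 2 : ℝ) : ℂ) = 1 := by
      rw [← h2]
      have := Complex.conj_mul' (c g)
      rw [show star (c g) = (starRingEnd ℂ) (c g) from rfl, this]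
      push_cast
      rfl
    have h4 : ‖c g‖ ^ 2 = 1 := by exact_mod_cast h3
    have h5 := norm_nonneg (c g)
    nlinarith
  have hcc : Continuous c := by
    have : c = fun g => (star v ⬝ᵥ Matrix.mulVec (ρ g) v) / (star v ⬝ᵥ v) := funext hcg
    rw [this]
    apply Continuous.div_const
    exact Continuous.dotProduct continuous_const (Continuous.matrix_mulVec hc continuous_const)
  refine ⟨{ toFun := fun g => ⟨c g, mem_sphere_zero_iff_norm.mpr (hnorm g)⟩
            map_one' := Subtype.ext hone
            map_mul' := fun g h => Subtype.ext (hmul g h) }, ?_, ?_⟩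
  · exact Continuous.subtype_mk hcc _
  · intro h
    apply hvx
    have h1 : c x = 1 := congrArg (fun z : Circle => (z : ℂ)) h
    rw [heig, h1, one_smul]

/-- characters separate the points of a compact abelian group (exists_rep with U = {x}ᶜ) -/
theorem exists_char {G : Type*} [CommGroup G] [TopologicalSpace G] [IsTopologicalGroup G]
    [CompactSpace G] [T2Space G] [SecondCountableTopology G] (x : G) (hx : x ≠ 1) :
    ∃ χ : G →* Circle, Continuous χ ∧ χ x ≠ 1 := by
  obtain ⟨n, ρ, hc, hu, hρ⟩ := exists_rep ({x}ᶜ : Set G)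
    (isOpen_compl_singleton.mem_nhds (fun h => hx (Set.mem_singleton_iff.mp h).symm))
  exact char_of_rep ρ hc hu x fun h => hρ x h rfl

end Pool.Agent.CGrp
end

section

set_option autoImplicit false

open Topology

namespace Pool.Agent.CGrp

variable {G : Type*} [CommGroup G] [TopologicalSpace G] [IsTopologicalGroup G] [CompactSpace G]
  [T2Space G]

/-- A character which is trivial on a nonempty open set is trivial on a connected group: the kernel is
an open and closed subgroup. -/
theorem char_eq_one [ConnectedSpace G] (χ : G →* Circle) (hχ : Continuous χ) (V : Set G)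
    (hV : IsOpen V) (hne : V.Nonempty) (h : ∀ x ∈ V, χ x = 1) (x : G) : χ x = 1 := by
  have h1 : (χ.ker : Set G) ∈ 𝓝 hne.some :=
    Filter.mem_of_superset (hV.mem_nhds hne.some_mem) fun y hy => MonoidHom.mem_ker.2 (h y hy)
  have h2 : IsOpen (χ.ker : Set G) := Subgroup.isOpen_of_mem_nhds _ h1
  have h3 : IsClopen (χ.ker : Set G) := ⟨Subgroup.isClosed_of_isOpen _ h2, h2⟩
  have h4 : (χ.ker : Set G) = Set.univ := h3.eq_univ ⟨1, χ.ker.one_mem⟩
  have h5 : x ∈ (χ.ker : Set G) := by
    rw [h4]
    trivial
  exact MonoidHom.mem_ker.1 h5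

/-- A compact connected metrizable abelian group is monothetic. The kernels of the countably many
(countable_chars) nontrivial continuous characters are closed with empty interior (char_eq_one), so by
the Baire category theorem (`IsGδ`/`dense_iInter_of_isOpen`, G is compact Hausdorff and nonempty) some
b lies in none of them. If H is a closed subgroup with b ∈ H ≠ ⊤, the compact group G ⧸ H (Hausdorff,
second countable: `QuotientGroup` instances) is nontrivial, so it has a nontrivial continuous character
(exists_char); composed with the projection it is a nontrivial character of G which is 1 at b. -/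
theorem exists_generator [SecondCountableTopology G] [ConnectedSpace G] :
    ∃ b : G, ∀ H : Subgroup G, IsClosed (H : Set G) → b ∈ H → H = ⊤ := by
  have hcount : {χ : G →* Circle | Continuous χ ∧ χ ≠ 1}.Countable :=
    (countable_chars (G := G)).mono fun χ hχ => hχ.1
  have hdense := dense_biInter_of_isOpen (S := {χ : G →* Circle | Continuous χ ∧ χ ≠ 1})
    (f := fun χ => {x : G | χ x ≠ 1})
    (fun χ hχ => isOpen_ne_fun hχ.1 continuous_const) hcount (fun χ hχ => by
      rw [dense_iff_inter_open]
      intro V hV hne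
      by_contra hcon
      apply hχ.2
      ext1 x
      refine char_eq_one χ hχ.1 V hV hne (fun y hy => ?_) x
      by_contra hy1
      exact hcon ⟨y, hy, hy1⟩)
  obtain ⟨b, hb⟩ := hdense.nonempty
  refine ⟨b, fun H hH hbH => ?_⟩
  by_contra hne
  obtain ⟨x, hx⟩ : ∃ x, x ∉ H := by
    by_contra hcon
    push Not at hcon
    exact hne ((Subgroup.eq_top_iff' H).2 hcon)
  have : IsClosed (H : Set G) := hH
  have hx1 : (x : G ⧸ H) ≠ 1 := fun h => hx ((QuotientGroup.eq_one_iff x).1 h)
  obtain ⟨χ, hχ, hχx⟩ := exists_char (x : G ⧸ H) hx1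
  have h1 : (χ.comp (QuotientGroup.mk' H)) ∈ {χ : G →* Circle | Continuous χ ∧ χ ≠ 1} := by
    refine ⟨hχ.comp QuotientGroup.continuous_mk, fun h => hχx ?_⟩
    have h2 := congrArg (fun f : G →* Circle => f x) h
    exact h2
  have h2 := Set.mem_iInter₂.1 hb _ h1
  apply h2
  show χ (b : G ⧸ H) = 1
  rw [(QuotientGroup.eq_one_iff b).2 hbH, map_one]

end Pool.Agent.CGrp
end

section

set_option autoImplicit false

open Topology

namespace Pool.Agent.CGrp

variable {G : Type*} [CommGroup G] [TopologicalSpace G] [IsTopologicalGroup G] [CompactSpace G]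
  [T2Space G]

/-- A compact connected metrizable abelian group is divisible: H = range of the n-th power map is a
closed subgroup; if H ≠ ⊤ there is a nontrivial character χ of G with χ = 1 on H (as above), so
χ x ^ n = 1 for all x; the image of χ is connected and contained in the finite set of n-th roots of
unity, so χ = 1, contradiction. -/
theorem divisible_of_connected [SecondCountableTopology G] [ConnectedSpace G] (n : ℕ) (hn : 0 < n)
    (x : G) : ∃ y : G, y ^ n = x := by
  set H : Subgroup G := (powMonoidHom n : G →* G).range with hH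
  have hcl : IsClosed (H : Set G) := by
    have h1 : (H : Set G) = Set.range fun y : G => y ^ n := rfl
    rw [h1]
    exact (isCompact_range (continuous_pow n)).isClosed
  by_contra hcon
  have hx : x ∉ H := fun h => hcon h
  have : IsClosed (H : Set G) := hcl
  have hx1 : (x : G ⧸ H) ≠ 1 := fun h => hx ((QuotientGroup.eq_one_iff x).1 h)
  obtain ⟨χ, hχ, hχx⟩ := exists_char (x : G ⧸ H) hx1
  set ψ : G →* Circle := χ.comp (QuotientGroup.mk' H) with hψ
  have hψc : Continuous ψ := hχ.comp QuotientGroup.continuous_mk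
  have hψn : ∀ y, ψ y ^ n = 1 := by
    intro y
    rw [← map_pow]
    show χ ((y ^ n : G) : G ⧸ H) = 1
    have hy : y ^ n ∈ H := ⟨y, rfl⟩
    rw [(QuotientGroup.eq_one_iff (y ^ n)).2 hy, map_one]
  have hfin : {z : Circle | z ^ n = 1}.Finite := by
    have h1 : {z : ℂ | z ^ n = 1}.Finite := by
      refine (Polynomial.nthRootsFinset n (1 : ℂ)).finite_toSet.subset fun z hz => ?_
      exact (Polynomial.mem_nthRootsFinset hn 1).2 hz
    refine (h1.preimage Circle.coe_injective.injOn).subset fun z hz => ?_
    have hz' : z ^ n = 1 := hz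
    have h2 := congrArg (fun w : Circle => (w : ℂ)) hz'
    simpa using h2
  have : Finite ψ.range := by
    refine (hfin.subset fun z hz => ?_ : (ψ.range : Set Circle).Finite).to_subtype
    obtain ⟨y, rfl⟩ := hz
    exact hψn y
  have hker : IsClosed (ψ.ker : Set G) := isClosed_singleton.preimage hψc
  have hop : IsOpen (ψ.ker : Set G) := Subgroup.isOpen_of_isClosed_of_finiteIndex _ hker
  have h4 : (ψ.ker : Set G) = Set.univ := IsClopen.eq_univ ⟨hker, hop⟩ ⟨1, ψ.ker.one_mem⟩
  have h5 : x ∈ (ψ.ker : Set G) := by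
    rw [h4]
    trivial
  exact hχx (MonoidHom.mem_ker.1 h5)

/-- A compact abelian group with a dense divisible subgroup is connected. The range of the n-th power map
is compact and contains D, so it is everything: G is divisible. If G is not connected there is a
clopen W with 1 ∈ W ≠ univ and an open subgroup H ⊆ W (`TopologicalGroup.exist_openSubgroup_sub_clopen_nhds_of_one`
or `IsTopologicalGroup...`), of finite index m (compactness); every x is y ^ m ∈ H, so H = ⊤, a
contradiction. -/
theorem connected_of_divisible (D : Subgroup G) (hd : Dense (D : Set G))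
    (hdiv : ∀ n : ℕ, 0 < n → ∀ x ∈ D, ∃ y ∈ D, y ^ n = x) : ConnectedSpace G := by
  have hG : ∀ n : ℕ, 0 < n → ∀ x : G, ∃ y : G, y ^ n = x := by
    intro n hn x
    have h1 : IsClosed (Set.range fun y : G => y ^ n) :=
      (isCompact_range (continuous_pow n)).isClosed
    have h2 : (D : Set G) ⊆ Set.range fun y : G => y ^ n := fun x hx => by
      obtain ⟨y, -, hy⟩ := hdiv n hn x hx
      exact ⟨y, hy⟩
    have h3 : closure (D : Set G) ⊆ Set.range fun y : G => y ^ n := closure_minimal h2 h1
    rw [hd.closure_eq] at h3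
    exact h3 (Set.mem_univ x)
  have key : ∀ s : Set G, IsClopen s → 1 ∈ s → s = Set.univ := by
    intro s hs h1
    obtain ⟨H, hH⟩ := IsTopologicalGroup.exist_openSubgroup_sub_clopen_nhds_of_one hs h1
    have : Finite (G ⧸ H.toSubgroup) := Subgroup.quotient_finite_of_isOpen _ H.isOpen
    have hidx : 0 < H.toSubgroup.index := Nat.pos_of_ne_zero Subgroup.index_ne_zero_of_finite
    refine Set.eq_univ_of_forall fun x => hH ?_
    obtain ⟨y, rfl⟩ := hG _ hidx x
    exact Subgroup.pow_index_mem H.toSubgroup y
  have : PreconnectedSpace G := by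
    rw [preconnectedSpace_iff_clopen]
    intro s hs
    by_cases h1 : (1 : G) ∈ s
    · exact Or.inr (key s hs h1)
    · have h2 := key sᶜ hs.compl h1
      exact Or.inl (Set.compl_univ_iff.1 h2)
  exact { toNonempty := ⟨1⟩ }

end Pool.Agent.CGrp
end

section

set_option autoImplicit false
set_option linter.unusedSectionVars false

namespace Pool.Agent.MoufangHaar

variable {L : Type*} [MLoop L]

/-- value of a word, right nested -/
def wv (l : List L) : L := l.foldr (fun c y => c * y) 1

private theorem zp_one (a : L) : zp a 1 = a := by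
  unfold zp
  rw [zpow_one]
  exact MLoop.mul_one a

private theorem zp_neg_one (a : L) : zp a (-1) = a⁻¹ := by
  unfold zp
  rw [zpow_neg, zpow_one]
  exact MLoop.mul_one a⁻¹

private theorem zp_zp_mul (a : L) (i k : ℤ) (y : L) :
    zp a i * (zp a k * y) = zp a (i + k) * y := by
  rw [zp_mul, zp_mul, zp_mul, zpow_add]
  rfl

private theorem step_first (a b : L) (v : L) (k : ℤ)
    (ih : ∀ i j : ℤ, (zp a i * v) * zp b j = zp a i * (v * zp b j)) (i j : ℤ) :
    (zp a i * (zp a k * v)) * zp b j = zp a i * ((zp a k * v) * zp b j) := by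
  rw [zp_zp_mul, ih (i + k) j, ih k j, zp_zp_mul]

/-- KEY INDUCTION for Moufang's theorem. Words in the letters a, a⁻¹, b, b⁻¹. Induction on the length of the word.
Base: wv [] = 1. Step: u = c * v, v = wv of the tail, for which the claim holds for ALL i, j. Let c = a^±1
= zp a k, k = ±1. First claim: ((a^i (a^k v)) b^j) = ((a^(i+k) v) b^j) = a^(i+k) (v b^j) = a^i (a^k (v b^j)) =
a^i ((a^k v) b^j) (zp_mul: a^i (a^k y) = a^(i+k) y for all y; the induction hypothesis twice). The second
claim for u, (b^i u) a^j = b^i (u a^j), is by T_reverse the same as (a^j u) b^i = a^j (u b^i), the first claim.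
For c = b^±1 exchange the roles of a and b. -/
theorem word_assoc (a b : L) (l : List L)
    (hl : ∀ c ∈ l, c = a ∨ c = a⁻¹ ∨ c = b ∨ c = b⁻¹) (i j : ℤ) :
    (zp a i * wv l) * zp b j = zp a i * (wv l * zp b j) ∧
      (zp b i * wv l) * zp a j = zp b i * (wv l * zp a j) := by
  induction l generalizing i j with
  | nil =>
    have h : wv ([] : List L) = 1 := rfl
    rw [h]
    simp only [MLoop.mul_one, MLoop.one_mul, and_self]
  | cons c v ih =>
    have h : wv (c :: v) = c * wv v := rfl
    rw [h]
    have ih' := fun i j => ih (fun d hd => hl d (List.mem_cons_of_mem c hd)) i j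
    have hA : ∀ k : ℤ, c = zp a k → (zp a i * (c * wv v)) * zp b j = zp a i * ((c * wv v) * zp b j) ∧
      (zp b i * (c * wv v)) * zp a j = zp b i * ((c * wv v) * zp a j) := by
      intro k hk
      subst hk
      refine ⟨step_first a b (wv v) k (fun i j => (ih' i j).1) i j, ?_⟩
      rw [T_reverse]
      exact step_first a b (wv v) k (fun i j => (ih' i j).1) j i
    have hB : ∀ k : ℤ, c = zp b k → (zp a i * (c * wv v)) * zp b j = zp a i * ((c * wv v) * zp b j) ∧
      (zp b i * (c * wv v)) * zp a j = zp b i * ((c * wv v) * zp a j) := by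
      intro k hk
      subst hk
      refine ⟨?_, step_first b a (wv v) k (fun i j => (ih' i j).2) i j⟩
      rw [T_reverse]
      exact step_first b a (wv v) k (fun i j => (ih' i j).2) j i
    rcases hl c List.mem_cons_self with hc | hc | hc | hc
    · exact hA 1 (by rw [hc, zp_one])
    · exact hA (-1) (by rw [hc, zp_neg_one])
    · exact hB 1 (by rw [hc, zp_one])
    · exact hB (-1) (by rw [hc, zp_neg_one])

private theorem same_gen (a u : L) (k m : ℤ) :
    (zp a k * u) * zp a m = zp a k * (u * zp a m) := by
  have hc : Commute (lE a) (rE a) := by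
    unfold Commute SemiconjBy
    ext x
    exact (MLoop.flex a x).symm
  have h2 := hc.zpow_zpow k m
  rw [mul_zp, mul_zp, zp_mul, zp_mul]
  have h3 := congrArg (fun f : Equiv.Perm L => f u) h2.eq
  exact h3.symm

/-- letters -/
private def IsLet (a b : L) (c : L) : Prop := c = a ∨ c = a⁻¹ ∨ c = b ∨ c = b⁻¹

private theorem IsLet.cases {a b c : L} (h : IsLet a b c) : (∃ k : ℤ, c = zp a k) ∨ (∃ k : ℤ, c = zp b k) := by
  rcases h with hc | hc | hc | hc
  · exact Or.inl ⟨1, by rw [hc, zp_one]⟩
  · exact Or.inl ⟨-1, by rw [hc, zp_neg_one]⟩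
  · exact Or.inr ⟨1, by rw [hc, zp_one]⟩
  · exact Or.inr ⟨-1, by rw [hc, zp_neg_one]⟩

private theorem IsLet.inv {a b c : L} (h : IsLet a b c) : IsLet a b c⁻¹ := by
  rcases h with hc | hc | hc | hc
  · exact Or.inr (Or.inl (by rw [hc]))
  · exact Or.inl (by rw [hc, MLoop.inv_inv])
  · exact Or.inr (Or.inr (Or.inr (by rw [hc])))
  · exact Or.inr (Or.inr (Or.inl (by rw [hc, MLoop.inv_inv])))

private theorem wv_append_one (a b : L) (l : List L) (hl : ∀ c ∈ l, IsLet a b c) (d : L)
    (hd : IsLet a b d) : wv l * d = wv (l ++ [d]) := by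
  induction l with
  | nil =>
    change (1 : L) * d = d * 1
    rw [MLoop.mul_one, MLoop.one_mul]
  | cons c v ih =>
    change (c * wv v) * d = c * wv (v ++ [d])
    have hv : ∀ c ∈ v, IsLet a b c := fun c hc => hl c (List.mem_cons_of_mem _ hc)
    rw [← ih hv]
    rcases (hl c List.mem_cons_self).cases with ⟨k, hk⟩ | ⟨k, hk⟩ <;>
      rcases hd.cases with ⟨m, hm⟩ | ⟨m, hm⟩
    · rw [hk, hm]; exact same_gen a (wv v) k m
    · rw [hk, hm]; exact (word_assoc a b v hv k m).1
    · rw [hk, hm]; exact (word_assoc a b v hv k m).2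
    · rw [hk, hm]; exact same_gen b (wv v) k m

private theorem wv_append (a b : L) (l : List L) (hl : ∀ c ∈ l, IsLet a b c) (l' : List L)
    (hl' : ∀ c ∈ l', IsLet a b c) : wv l * wv l' = wv (l ++ l') := by
  induction l using List.reverseRecOn generalizing l' with
  | nil =>
    change (1 : L) * wv l' = wv l'
    rw [MLoop.one_mul]
  | append_singleton l₁ d ih =>
    have hl1 : ∀ c ∈ l₁, IsLet a b c := fun c hc => hl c (List.mem_append_left _ hc)
    have hd : IsLet a b d := hl d (List.mem_append_right _ (List.mem_singleton.mpr rfl))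
    have hdl : ∀ c ∈ d :: l', IsLet a b c := by
      intro c hc
      rcases List.mem_cons.mp hc with h | h
      · rw [h]; exact hd
      · exact hl' c h
    have hdld : ∀ c ∈ (d :: l') ++ [d], IsLet a b c := by
      intro c hc
      rcases List.mem_append.mp hc with h | h
      · exact hdl c h
      · rw [List.mem_singleton.mp h]; exact hd
    have hbig : ∀ c ∈ l₁ ++ (d :: l'), IsLet a b c := by
      intro c hc
      rcases List.mem_append.mp hc with h | h
      · exact hl1 c h
      · exact hdl c h
    rw [← wv_append_one a b l₁ hl1 d hd]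
    have key := autR' d (wv l₁ * d) (wv l')
    rw [MLoop.mul_mul_inv] at key
    have h1 : (d * wv l') * d = wv ((d :: l') ++ [d]) := by
      rw [← wv_append_one a b (d :: l') hdl d hd]
      rfl
    rw [h1, ih hl1 _ hdld, ← List.append_assoc, ← wv_append_one a b _ hbig d hd] at key
    have h2 := MLoop.mul_right_cancel key
    rw [← h2, List.append_assoc]
    rfl

private theorem wv_inv (a b : L) (l : List L) (hl : ∀ c ∈ l, IsLet a b c) :
    (wv l)⁻¹ = wv ((l.map (fun c => c⁻¹)).reverse) := by
  induction l with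
  | nil =>
    change (1 : L)⁻¹ = 1
    have h := MLoop.mul_inv_self (1 : L)
    rwa [MLoop.one_mul] at h
  | cons c v ih =>
    have hv : ∀ c ∈ v, IsLet a b c := fun c hc => hl c (List.mem_cons_of_mem _ hc)
    have hr : ∀ c ∈ (v.map (fun c => c⁻¹)).reverse, IsLet a b c := by
      intro e he
      rw [List.mem_reverse, List.mem_map] at he
      obtain ⟨f, hf, rfl⟩ := he
      exact (hv f hf).inv
    change (c * wv v)⁻¹ = _
    rw [MLoop.mul_inv_rev, ih hv, List.map_cons, List.reverse_cons]
    exact wv_append_one a b _ hr c⁻¹ (hl c List.mem_cons_self).inv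

/-- MOUFANG'S THEOREM for two generators. S = set of all wv l, l a word in a, a⁻¹, b, b⁻¹. (1) wv l * d = wv (l ++ [d])
for a letter d: induction on l, (c wv l') d = c (wv l' d) by word_assoc with exponents ±1 if c and d belong to
different generators, and by zp_mul, mul_zp/flex (powers of the same generator: (a u) a = a (u a),
(a⁻¹ u) a = a⁻¹ (u a)) otherwise. (2) wv l * wv l' = wv (l ++ l') by induction on the length of l (from the right):
l = l₁ ++ [d]: wv l = wv l₁ * d, and (x d) w = (x (d w d)) d⁻¹ (autR' or MLoop.autL mirrored) with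
d w d = wv (d :: l' ++ [d]) by (1), so by induction it is wv (l₁ ++ d :: l' ++ [d]) d⁻¹ = wv (l₁ ++ d :: l')
by (1) and mul_mul_inv. (3) So S is closed under products, associative ((2) and associativity of ++), and closed under
inverses (reverse the word and invert the letters). -/
theorem moufang_two (a b : L) : ∃ S : Set L, IsSub S ∧ a ∈ S ∧ b ∈ S ∧
    ∀ x ∈ S, ∀ y ∈ S, ∀ z ∈ S, (x * y) * z = x * (y * z) := by
  refine ⟨{x | ∃ l : List L, (∀ c ∈ l, IsLet a b c) ∧ x = wv l}, ⟨?_, ?_, ?_⟩, ?_, ?_, ?_⟩
  · exact ⟨[], fun c hc => absurd hc List.not_mem_nil, rfl⟩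
  · rintro x ⟨l, hl, rfl⟩ y ⟨l', hl', rfl⟩
    refine ⟨l ++ l', ?_, wv_append a b l hl l' hl'⟩
    intro c hc
    rcases List.mem_append.mp hc with h | h
    · exact hl c h
    · exact hl' c h
  · rintro x ⟨l, hl, rfl⟩
    refine ⟨(l.map (fun c => c⁻¹)).reverse, ?_, wv_inv a b l hl⟩
    intro e he
    rw [List.mem_reverse, List.mem_map] at he
    obtain ⟨f, hf, rfl⟩ := he
    exact (hl f hf).inv
  · refine ⟨[a], ?_, ?_⟩
    · intro c hc
      rw [List.mem_singleton.mp hc]
      exact Or.inl rfl
    · exact (MLoop.mul_one a).symm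
  · refine ⟨[b], ?_, ?_⟩
    · intro c hc
      rw [List.mem_singleton.mp hc]
      exact Or.inr (Or.inr (Or.inl rfl))
    · exact (MLoop.mul_one b).symm
  · rintro x ⟨l, hl, rfl⟩ y ⟨l', hl', rfl⟩ z ⟨l'', hl'', rfl⟩
    have h1 : ∀ c ∈ l ++ l', IsLet a b c := by
      intro c hc
      rcases List.mem_append.mp hc with h | h
      · exact hl c h
      · exact hl' c h
    have h2 : ∀ c ∈ l' ++ l'', IsLet a b c := by
      intro c hc
      rcases List.mem_append.mp hc with h | h
      · exact hl' c h
      · exact hl'' c h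
    rw [wv_append a b l hl l' hl', wv_append a b _ h1 l'' hl'', wv_append a b l' hl' l'' hl'',
      wv_append a b l hl _ h2, List.append_assoc]

/-- A composite of translations which fixes 1 preserves powers: by TM.first there are g, h with
g (x y) = f x * h y; x = 1 gives g = h, so f x * g y = g (x y); with c = g 1: f x * c = g x and
f x * (f y * c) = f (x y) * c. Hence f (n^(k+1)) c = f n (f (n^k) c) = f n ((f n)^k c) = (f n)^(k+1) c (npw_mul). -/
theorem TM.pow {f : L → L} (hf : TM f) (h1 : f 1 = 1) (x : L) (k : ℕ) :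
    f (npw x k) = npw (f x) k := by
  obtain ⟨g, h, _, _, H⟩ := hf.first
  have hgh : ∀ y, g y = h y := by
    intro y
    have h2 := H 1 y
    rwa [MLoop.one_mul, h1, MLoop.one_mul] at h2
  have H2 : ∀ x y, g (x * y) = f x * g y := fun x y => by rw [hgh y, H]
  have H3 : ∀ x, g x = f x * g 1 := fun x => by
    have h3 := H2 x 1
    rwa [MLoop.mul_one] at h3
  have key : ∀ k : ℕ, f (npw x k) * g 1 = npw (f x) k * g 1 := by
    intro k
    induction k with
    | zero =>
      change f 1 * g 1 = 1 * g 1
      rw [h1]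
    | succ k ih =>
      have e1 : npw x (k + 1) = x * npw x k := by
        unfold npw
        rw [Function.iterate_succ_apply']
      rw [e1, ← H3, H2, H3 (npw x k), ih, npw_mul, npw_mul, Function.iterate_succ_apply']
  exact MLoop.mul_right_cancel (key k)

end Pool.Agent.MoufangHaar
end

section

set_option autoImplicit false
set_option linter.unusedSectionVars false

open Topology

namespace Pool.Agent.MoufangHaar

variable {L : Type*} [MLoop L] [TopologicalSpace L]

/-- closed subloop generated by a set -/
def cgen (X : Set L) : Set L := ⋂₀ {S : Set L | IsSub S ∧ IsClosed S ∧ X ⊆ S}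

theorem cgen_sub (X : Set L) : IsSub (cgen X) :=
  ⟨fun _ hS => hS.1.one, fun x hx y hy S hS => hS.1.mul x (hx S hS) y (hy S hS),
    fun x hx S hS => hS.1.inv x (hx S hS)⟩

theorem cgen_closed (X : Set L) : IsClosed (cgen X) :=
  isClosed_sInter fun _ hS => hS.2.1

theorem subset_cgen (X : Set L) : X ⊆ cgen X := fun _ hx _ hS => hS.2.2 hx

theorem cgen_le {X S : Set L} (h : IsSub S) (hc : IsClosed S) (hX : X ⊆ S) : cgen X ⊆ S :=
  fun _ hx => hx S ⟨h, hc, hX⟩

/-- closed subsets which are groups under the product of the loop -/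
structure IsGp (S : Set L) : Prop where
  sub : IsSub S
  closed : IsClosed S
  assoc : ∀ x ∈ S, ∀ y ∈ S, ∀ z ∈ S, (x * y) * z = x * (y * z)

/-- closed connected abelian subgroups -/
structure IsCCA (B : Set L) : Prop where
  gp : IsGp B
  conn : IsConnected B
  comm : ∀ x ∈ B, ∀ y ∈ B, x * y = y * x

/-- characters of B -/
structure IsChar (B : Set L) (χ : L → Circle) : Prop where
  cont : ContinuousOn χ B
  mul : ∀ x ∈ B, ∀ y ∈ B, χ (x * y) = χ x * χ y

/-- the group structure -/
@[reducible] def IsGp.grp {S : Set L} (h : IsGp S) : Group S where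
  mul a b := ⟨a.1 * b.1, h.sub.mul _ a.2 _ b.2⟩
  one := ⟨1, h.sub.one⟩
  inv a := ⟨a.1⁻¹, h.sub.inv _ a.2⟩
  mul_assoc a b c := Subtype.ext (h.assoc _ a.2 _ b.2 _ c.2)
  one_mul a := Subtype.ext (MLoop.one_mul a.1)
  mul_one a := Subtype.ext (MLoop.mul_one a.1)
  inv_mul_cancel a := Subtype.ext (MLoop.inv_mul_self a.1)

/-- the commutative group structure -/
@[reducible] def IsCCA.cgrp {B : Set L} (h : IsCCA B) : CommGroup B where
  toGroup := h.gp.grp
  mul_comm a b := Subtype.ext (h.comm _ a.2 _ b.2)

variable [TopMLoop L]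

theorem IsGp.topGrp {S : Set L} (h : IsGp S) :
    letI := h.grp
    IsTopologicalGroup S := by
  letI := h.grp
  exact
    { continuous_mul := Continuous.subtype_mk
        (TopMLoop.cmul (continuous_subtype_val.comp continuous_fst)
          (continuous_subtype_val.comp continuous_snd)) _
      continuous_inv := Continuous.subtype_mk (TopMLoop.cinv continuous_subtype_val) _ }

theorem IsSub.closure {S : Set L} (h : IsSub S) : IsSub (closure S) := by
  refine ⟨subset_closure h.one, fun x hx y hy => ?_, fun x hx => ?_⟩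
  · exact map_mem_closure₂ (f := fun a b : L => a * b) (TopMLoop.cont_mul (L := L)) hx hy
      fun a ha b hb => h.mul a ha b hb
  · exact map_mem_closure (TopMLoop.cont_inv (L := L)) hx fun a ha => h.inv a ha

/-- The closure of a subloop which is a group is a group (associativity is a closed condition; three
variables: use `closure_prod_eq` or one variable at a time). -/
theorem gp_closure [T2Space L] {S : Set L} (h : IsSub S)
    (ha : ∀ x ∈ S, ∀ y ∈ S, ∀ z ∈ S, (x * y) * z = x * (y * z)) :
    IsGp (closure S) := by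
  refine ⟨h.closure, isClosed_closure, ?_⟩
  have h1 : ∀ x ∈ closure S, ∀ y ∈ S, ∀ z ∈ S, (x * y) * z = x * (y * z) := by
    intro x hx y hy z hz
    have hc : IsClosed {x : L | (x * y) * z = x * (y * z)} :=
      isClosed_eq (TopMLoop.cmul (TopMLoop.cmul continuous_id continuous_const) continuous_const)
        (TopMLoop.cmul continuous_id continuous_const)
    exact closure_minimal (fun x hx => ha x hx y hy z hz) hc hx
  have h2 : ∀ x ∈ closure S, ∀ y ∈ closure S, ∀ z ∈ S, (x * y) * z = x * (y * z) := by
    intro x hx y hy z hz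
    have hc : IsClosed {y : L | (x * y) * z = x * (y * z)} :=
      isClosed_eq (TopMLoop.cmul (TopMLoop.cmul continuous_const continuous_id) continuous_const)
        (TopMLoop.cmul continuous_const (TopMLoop.cmul continuous_id continuous_const))
    exact closure_minimal (fun y hy => h1 x hx y hy z hz) hc hy
  intro x hx y hy z hz
  have hc : IsClosed {z : L | (x * y) * z = x * (y * z)} :=
    isClosed_eq (TopMLoop.cmul continuous_const continuous_id)
      (TopMLoop.cmul continuous_const (TopMLoop.cmul continuous_const continuous_id))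
  exact closure_minimal (fun z hz => h2 x hx y hy z hz) hc hz

theorem comm_closure [T2Space L] {S : Set L} (h : ∀ x ∈ S, ∀ y ∈ S, x * y = y * x) :
    ∀ x ∈ closure S, ∀ y ∈ closure S, x * y = y * x := by
  have h1 : ∀ x ∈ closure S, ∀ y ∈ S, x * y = y * x := by
    intro x hx y hy
    have hc : IsClosed {x : L | x * y = y * x} :=
      isClosed_eq (TopMLoop.cmul continuous_id continuous_const)
        (TopMLoop.cmul continuous_const continuous_id)
    exact closure_minimal (fun x hx => h x hx y hy) hc hx
  intro x hx y hy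
  have hc : IsClosed {y : L | x * y = y * x} :=
    isClosed_eq (TopMLoop.cmul continuous_const continuous_id)
      (TopMLoop.cmul continuous_id continuous_const)
  exact closure_minimal (fun y hy => h1 x hx y hy) hc hy

theorem cca_one [T2Space L] : IsCCA ({1} : Set L) := by
  refine ⟨⟨⟨rfl, ?_, ?_⟩, isClosed_singleton, ?_⟩, isConnected_singleton, ?_⟩
  · rintro x rfl y rfl
    exact MLoop.one_mul 1
  · rintro x rfl
    have := MLoop.mul_inv_self (1 : L)
    rw [MLoop.one_mul] at this
    exact this
  · rintro x rfl y rfl z rfl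
    rw [MLoop.one_mul]
  · rintro x rfl y rfl
    rfl

end Pool.Agent.MoufangHaar
end

section

set_option autoImplicit false
set_option linter.unusedSectionVars false

open Topology

namespace Pool.Agent.MoufangHaar

variable {L : Type*} [MLoop L] [TopologicalSpace L] [TopMLoop L]

/-- moufang_two and gp_closure: cgen {a, b} ⊆ closure S. -/
theorem cgen_pair_gp [T2Space L] (a b : L) : IsGp (cgen ({a, b} : Set L)) := by
  obtain ⟨S, hS, ha, hb, hass⟩ := moufang_two a b
  have hgp := gp_closure hS hass
  have hsub : cgen ({a, b} : Set L) ⊆ closure S := by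
    refine cgen_le hgp.sub isClosed_closure ?_
    intro x hx
    rcases hx with rfl | hx
    · exact subset_closure ha
    · rw [Set.mem_singleton_iff] at hx
      rw [hx]
      exact subset_closure hb
  exact ⟨cgen_sub _, cgen_closed _, fun x hx y hy z hz =>
    hgp.assoc x (hsub hx) y (hsub hy) z (hsub hz)⟩

private theorem EL2b_npw (b : L) (k : ℕ) : npw b (k + 1) = b * npw b k := by
  unfold npw
  rw [Function.iterate_succ_apply']

private theorem EL2b_pow {S : Set L} (h : IsGp S) (b : S) (k : ℕ) :
    letI := h.grp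
    ((b ^ k : S) : L) = npw (b : L) k := by
  letI := h.grp
  induction k with
  | zero =>
    rw [pow_zero]
    rfl
  | succ k ih =>
    rw [pow_succ', EL2b_npw, ← ih]
    rfl

private theorem EL2b_aux [CompactSpace L] {S : Set L} (h : IsGp S) (b : L) (hb : b ∈ S) :
    ∃ T : Set L, IsSub T ∧ IsClosed T ∧ b ∈ T ∧ T ⊆ closure (Set.range (npw b)) := by
  letI := h.grp
  haveI := h.topGrp
  haveI : CompactSpace S := isCompact_iff_compactSpace.1 h.closed.isCompact
  obtain ⟨b', hb'⟩ : ∃ b' : S, b' = ⟨b, hb⟩ := ⟨_, rfl⟩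
  have hbb : (b' : L) = b := by rw [hb']
  obtain ⟨Z, hZ⟩ : ∃ Z : Subgroup S, Z = (Subgroup.zpowers b').topologicalClosure := ⟨_, rfl⟩
  have hZc : IsClosed (Z : Set S) := by
    rw [hZ]
    exact Subgroup.isClosed_topologicalClosure _
  have hZb : b' ∈ Z := by
    rw [hZ]
    exact Subgroup.le_topologicalClosure _ (Subgroup.mem_zpowers b')
  have hZs : (Z : Set S) ⊆ closure (Set.range fun k : ℕ => b' ^ k) := by
    rw [hZ, Subgroup.topologicalClosure_coe, Subgroup.coe_zpowers]
    exact (closure_range_zpow_eq_pow b').le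
  refine ⟨Subtype.val '' (Z : Set S), ⟨?_, ?_, ?_⟩, ?_, ?_, ?_⟩
  · exact ⟨1, Z.one_mem, rfl⟩
  · rintro _ ⟨x, hx, rfl⟩ _ ⟨y, hy, rfl⟩
    exact ⟨x * y, Z.mul_mem hx hy, rfl⟩
  · rintro _ ⟨x, hx, rfl⟩
    exact ⟨x⁻¹, Z.inv_mem hx, rfl⟩
  · exact h.closed.isClosedEmbedding_subtypeVal.isClosedMap _ hZc
  · exact ⟨b', hZb, hbb⟩
  · refine (Set.image_mono hZs).trans ?_
    refine (image_closure_subset_closure_image continuous_subtype_val).trans ?_
    refine closure_mono ?_
    rintro _ ⟨_, ⟨k, rfl⟩, rfl⟩
    refine ⟨k, ?_⟩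
    show npw b k = ((b' ^ k : S) : L)
    rw [EL2b_pow h b' k, hbb]

/-- The powers of b: in a compact group the closure of the set of the powers b^k, k >= 0, is the closed
subgroup generated by b (if V is a symmetric neighbourhood of 1 two powers b^m, b^n, m < n, are close,
so b^(n-m-1) is close to b⁻¹). Work in the group cgen {b, b} (cgen_pair_gp). -/
theorem cgen_single [CompactSpace L] [T2Space L] (b : L) :
    cgen ({b} : Set L) = closure (Set.range (npw b)) := by
  refine Set.Subset.antisymm ?_ ?_
  · obtain ⟨T, h1, h2, h3, h4⟩ := EL2b_aux (cgen_pair_gp b b) b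
      (subset_cgen _ (Set.mem_insert _ _))
    refine (cgen_le h1 h2 ?_).trans h4
    intro x hx
    rw [Set.mem_singleton_iff] at hx
    rw [hx]
    exact h3
  · refine closure_minimal ?_ (cgen_closed _)
    rintro _ ⟨k, rfl⟩
    induction k with
    | zero => exact (cgen_sub _).one
    | succ k ih =>
      rw [EL2b_npw]
      exact (cgen_sub _).mul _ (subset_cgen _ (Set.mem_singleton b)) _ ih

end Pool.Agent.MoufangHaar
end

section

set_option autoImplicit false
set_option linter.unusedSectionVars false

open Topology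

namespace Pool.Agent.CGrp

open TrA

variable {A : Type*} [NormedRing A] [NormedAlgebra ℝ A] [StarRing A] [StarModule ℝ A]
  [FiniteDimensional ℝ A] [TrA A] [CompleteSpace A]

/-- T is a closed connected abelian subgroup of G -/
structure Tor (G T : MG A) : Prop where
  sub : T.S ⊆ G.S
  conn : IsConnected T.S
  comm : ∀ a ∈ T.S, ∀ b ∈ T.S, a * b = b * a

/-- a maximal one -/
def MaxTor (G T : MG A) : Prop := Tor G T ∧ ∀ T' : MG A, Tor G T' → T.S ⊆ T'.S → T'.S ⊆ T.S

/-- The closure of a connected set of commuting elements of G closed under products and adjoints,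
containing 1, is a closed connected abelian subgroup (continuity of multiplication and star). -/
theorem exists_tor_closure (G : MG A) (X : Set A) (hX : X ⊆ G.S) (h1 : (1 : A) ∈ X)
    (hmul : ∀ a ∈ X, ∀ b ∈ X, a * b ∈ X) (hstar : ∀ a ∈ X, star a ∈ X)
    (hcomm : ∀ a ∈ X, ∀ b ∈ X, a * b = b * a) (hconn : IsPreconnected X) :
    ∃ T : MG A, T.S = closure X ∧ Tor G T := by
  have hcl : closure X ⊆ G.S := closure_minimal hX G.closed
  have hc1 : ∀ a ∈ closure X, ∀ b ∈ X, a * b = b * a := by
    intro a ha b hb
    have h2 : IsClosed {a : A | a * b = b * a} :=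
      isClosed_eq (continuous_id.mul continuous_const) (continuous_const.mul continuous_id)
    exact closure_minimal (fun x hx => hcomm x hx b hb) h2 ha
  have hc2 : ∀ a ∈ closure X, ∀ b ∈ closure X, a * b = b * a := by
    intro a ha b hb
    have h2 : IsClosed {b : A | a * b = b * a} :=
      isClosed_eq (continuous_const.mul continuous_id) (continuous_id.mul continuous_const)
    exact closure_minimal (fun x hx => hc1 a ha x hx) h2 hb
  refine ⟨{ S := closure X
            closed := isClosed_closure
            one := subset_closure h1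
            mul := fun a ha b hb => map_mem_closure₂ continuous_mul ha hb hmul
            star_mem := fun a ha => map_mem_closure continuous_star' ha hstar
            unit := fun a ha => G.unit a (hcl ha) }, rfl, ?_⟩
  exact { sub := hcl
          conn := ⟨⟨1, subset_closure h1⟩, hconn.closure⟩
          comm := hc2 }

/-- Zorn (`zorn_subset` on the sets T.S, chains: exists_tor_closure for the union; a union of a chain of
connected sets containing 1 is connected, `isPreconnected_sUnion`). Start with {1}. -/
theorem exists_maxTor (G : MG A) : ∃ T : MG A, MaxTor G T := by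
  obtain ⟨m, hm⟩ := zorn_subset {S : Set A | ∃ T : MG A, T.S = S ∧ Tor G T} (by
    intro c hc hchain
    rcases c.eq_empty_or_nonempty with hce | ⟨s0, hs0⟩
    · obtain ⟨T, -, hT⟩ := exists_tor_closure G {1} (Set.singleton_subset_iff.2 G.one) rfl
        (fun a ha b hb => by
          rw [Set.mem_singleton_iff] at ha hb ⊢
          rw [ha, hb, one_mul])
        (fun a ha => by
          rw [Set.mem_singleton_iff] at ha ⊢
          rw [ha, star_one])
        (fun a ha b hb => by
          rw [Set.mem_singleton_iff] at ha hb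
          rw [ha, hb])
        isPreconnected_singleton
      refine ⟨T.S, ⟨T, rfl, hT⟩, fun s hs => ?_⟩
      rw [hce] at hs
      exact absurd hs (Set.notMem_empty s)
    · have hex : ∀ s ∈ c, ∃ T : MG A, T.S = s ∧ Tor G T := fun s hs => hc hs
      obtain ⟨T, hTS, hT⟩ := exists_tor_closure G (⋃₀ c)
        (Set.sUnion_subset fun s hs => by
          obtain ⟨T, rfl, hT⟩ := hex s hs
          exact hT.sub)
        (by
          obtain ⟨T, hT1, hT⟩ := hex s0 hs0
          refine ⟨s0, hs0, ?_⟩
          rw [← hT1]
          exact T.one)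
        (by
          rintro a ⟨s, hs, ha⟩ b ⟨s', hs', hb⟩
          rcases hchain.total hs hs' with hss | hss
          · obtain ⟨T, rfl, hT⟩ := hex s' hs'
            exact ⟨T.S, hs', T.mul a (hss ha) b hb⟩
          · obtain ⟨T, rfl, hT⟩ := hex s hs
            exact ⟨T.S, hs, T.mul a ha b (hss hb)⟩)
        (by
          rintro a ⟨s, hs, ha⟩
          obtain ⟨T, rfl, hT⟩ := hex s hs
          exact ⟨T.S, hs, T.star_mem a ha⟩)
        (by
          rintro a ⟨s, hs, ha⟩ b ⟨s', hs', hb⟩
          rcases hchain.total hs hs' with hss | hss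
          · obtain ⟨T, rfl, hT⟩ := hex s' hs'
            exact hT.comm a (hss ha) b hb
          · obtain ⟨T, rfl, hT⟩ := hex s hs
            exact hT.comm a ha b (hss hb))
        (isPreconnected_sUnion 1 c (fun s hs => by
          obtain ⟨T, rfl, hT⟩ := hex s hs
          exact T.one) (fun s hs => by
          obtain ⟨T, rfl, hT⟩ := hex s hs
          exact hT.conn.isPreconnected))
      refine ⟨T.S, ⟨T, rfl, hT⟩, fun s hs => ?_⟩
      rw [hTS]
      exact (Set.subset_sUnion_of_mem hs).trans subset_closure)
  obtain ⟨⟨T, hTS, hT⟩, hmax⟩ := hm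
  refine ⟨T, hT, fun T' hT' hsub => ?_⟩
  rw [hTS] at hsub ⊢
  exact hmax ⟨T', rfl, hT'⟩ hsub

/-- the commutative group T.S -/
@[reducible] def torGroup (T : MG A) (hc : ∀ a ∈ T.S, ∀ b ∈ T.S, a * b = b * a) :
    CommGroup T.S where
  mul a b := ⟨a.1 * b.1, T.mul _ a.2 _ b.2⟩
  one := ⟨1, T.one⟩
  inv a := ⟨star a.1, T.star_mem _ a.2⟩
  mul_assoc a b c := Subtype.ext (mul_assoc a.1 b.1 c.1)
  one_mul a := Subtype.ext (one_mul a.1)
  mul_one a := Subtype.ext (mul_one a.1)
  inv_mul_cancel a := Subtype.ext (T.unit _ a.2).1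
  mul_comm a b := Subtype.ext (hc _ a.2 _ b.2)

/-- T is topologically generated by one element: exists_generator for the group torGroup (compact by
MG.isCompact, metrizable, a topological group because star is continuous). For D consider the closed
subgroup {x : T.S | x.1 ∈ D.S}. -/
theorem exists_gen (G T : MG A) (hT : Tor G T) :
    ∃ b ∈ T.S, ∀ D : MG A, b ∈ D.S → T.S ⊆ D.S := by
  letI : CommGroup T.S := torGroup T hT.comm
  have : CompactSpace T.S := isCompact_iff_compactSpace.1 T.isCompact
  have : ConnectedSpace T.S := isConnected_iff_connectedSpace.1 hT.conn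
  have : ProperSpace A := FiniteDimensional.proper ℝ A
  have : IsTopologicalGroup T.S :=
    { continuous_mul := by
        refine Continuous.subtype_mk ?_ _
        exact (continuous_subtype_val.comp continuous_fst).mul
          (continuous_subtype_val.comp continuous_snd)
      continuous_inv := by
        refine Continuous.subtype_mk ?_ _
        exact continuous_star'.comp continuous_subtype_val }
  obtain ⟨b, hb⟩ := exists_generator (G := T.S)
  refine ⟨b.1, b.2, fun D hD x hx => ?_⟩
  have h1 := hb
    { carrier := {x : T.S | x.1 ∈ D.S}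
      mul_mem' := fun {a b} ha hb => D.mul _ ha _ hb
      one_mem' := D.one
      inv_mem' := fun {a} ha => D.star_mem _ ha } (D.closed.preimage continuous_subtype_val) hD
  have h2 : (⟨x, hx⟩ : T.S) ∈ (⊤ : Subgroup T.S) := Subgroup.mem_top _
  rw [← h1] at h2
  exact h2

end Pool.Agent.CGrp
end

section

set_option autoImplicit false
set_option linter.unusedSectionVars false

open Topology

namespace Pool.Agent.MoufangHaar

section alg

variable {L : Type*} [MLoop L]

/-- (y^a)^b = y^(a b), from npw_mul -/
theorem npw_npw (y : L) (a b : ℕ) : npw (npw y a) b = npw y (a * b) := by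
  have h : (fun x => npw y a * x) = (fun x => y * x)^[a] := funext fun x => npw_mul y a x
  unfold npw at h ⊢
  rw [h, Function.iterate_mul]

theorem IsMHom.npw {Q : Type*} [MLoop Q] {φ : L → Q} (h : IsMHom φ) (x : L) (k : ℕ) :
    φ (npw x k) = npw (φ x) k := by
  induction k with
  | zero => exact h.map_one
  | succ k ih =>
    unfold MoufangHaar.npw at ih ⊢
    rw [Function.iterate_succ_apply', Function.iterate_succ_apply', ← ih, h.map_mul]

theorem npw_one (x : L) : npw x 1 = x := MLoop.mul_one x

end alg

variable {L : Type*} [MLoop L] [TopologicalSpace L] [TopMLoop L]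

theorem continuous_npw (k : ℕ) : Continuous (fun x : L => npw x k) := by
  induction k with
  | zero => exact continuous_const
  | succ k ih =>
    have e : (fun x : L => npw x (k + 1)) = fun x : L => x * npw x k := by
      funext x
      unfold npw
      rw [Function.iterate_succ_apply']
    rw [e]
    exact (TopMLoop.cont_mul (L := L)).comp (continuous_id.prodMk ih)

/-- the set of elements with roots of all orders -/
def Div (L : Type*) [MLoop L] : Set L := {x | ∀ n : ℕ, 0 < n → ∃ y : L, npw y n = x}

/-- x ∈ Div L iff x is an n!-th power for all n (npw_npw) -/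
theorem mem_div_iff (x : L) : x ∈ Div L ↔ ∀ n : ℕ, ∃ y : L, npw y n.factorial = x := by
  constructor
  · intro h n
    exact h _ n.factorial_pos
  · intro h n hn
    obtain ⟨y, hy⟩ := h n
    refine ⟨npw y (n - 1).factorial, ?_⟩
    rw [npw_npw, mul_comm, Nat.mul_factorial_pred hn.ne']
    exact hy

/-- intersection of the compact sets of n-th powers -/
theorem div_closed [CompactSpace L] [T2Space L] : IsClosed (Div L) := by
  have e : Div L = ⋂ n : ℕ, ⋂ _ : 0 < n, Set.range (fun x : L => npw x n) := by
    ext x
    simp only [Div, Set.mem_setOf_eq, Set.mem_iInter, Set.mem_range]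
  rw [e]
  exact isClosed_iInter fun n => isClosed_iInter fun _ =>
    (isCompact_range (continuous_npw n)).isClosed

end Pool.Agent.MoufangHaar
end
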