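import Mathlib
import Pool.Agent.Lib.MP_fd6bc6_al.NS.H1
import Pool.Agent.Lib.MP_fd6bc6_al.Mlt

section

set_option autoImplicit false
set_option linter.unusedSectionVars false

/-!
The conjugation invariant size of the elements of the multiplication group.
-/

namespace Pool.Agent.MoufangHaar

section

variable {L : Type*} [MLoop L]

/-- right translation as a permutation -/
def rtE (a : L) : Equiv.Perm L where
  toFun x := x * a
  invFun x := x * a⁻¹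
  left_inv x := MLoop.mul_mul_inv x a
  right_inv x := MLoop.mul_inv_mul x a

/-- the multiplication group -/
def MG (L : Type*) [MLoop L] : Subgroup (Equiv.Perm L) :=
  Subgroup.closure {σ | ∃ a : L, σ = ltE a ∨ σ = rtE a}

theorem ltE_mem (a : L) : ltE a ∈ MG L := Subgroup.subset_closure ⟨a, Or.inl rfl⟩

theorem rtE_mem (a : L) : rtE a ∈ MG L := Subgroup.subset_closure ⟨a, Or.inr rfl⟩

theorem perm_apply_inv (h : Equiv.Perm L) (x : L) : h (h⁻¹ x) = x := Equiv.apply_symm_apply h x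

theorem perm_inv_apply (h : Equiv.Perm L) (x : L) : h⁻¹ (h x) = x := Equiv.symm_apply_apply h x

variable {E : Type*} [NormedAddCommGroup E]

/-- all conjugates of `g` move the values of `F` by at most `r` -/
def Sz (F : L → E) (g : Equiv.Perm L) (r : ℝ) : Prop :=
  ∀ h ∈ MG L, ∀ x, ‖F (h (g (h⁻¹ x))) - F x‖ ≤ r

theorem Sz.one {F : L → E} : Sz F (1 : Equiv.Perm L) 0 := by
  intro h _ x
  rw [Equiv.Perm.one_apply, perm_apply_inv, sub_self, norm_zero]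

theorem Sz.mono {F : L → E} {g : Equiv.Perm L} {r s : ℝ} (hg : Sz F g r) (h : r ≤ s) :
    Sz F g s := fun k hk x => (hg k hk x).trans h

theorem Sz.mul {F : L → E} {g g' : Equiv.Perm L} {r r' : ℝ} (hg : Sz F g r)
    (hg' : Sz F g' r') : Sz F (g * g') (r + r') := by
  intro h hh x
  have h1 := hg h hh (h (g' (h⁻¹ x)))
  have h2 := hg' h hh x
  rw [perm_inv_apply] at h1
  rw [Equiv.Perm.mul_apply]
  calc ‖F (h (g (g' (h⁻¹ x)))) - F x‖
      = ‖(F (h (g (g' (h⁻¹ x)))) - F (h (g' (h⁻¹ x)))) + (F (h (g' (h⁻¹ x))) - F x)‖ := by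
        rw [sub_add_sub_cancel]
    _ ≤ _ := (norm_add_le _ _).trans (add_le_add h1 h2)

theorem Sz.inv {F : L → E} {g : Equiv.Perm L} {r : ℝ} (hg : Sz F g r) : Sz F g⁻¹ r := by
  intro h hh x
  have h1 := hg h hh (h (g⁻¹ (h⁻¹ x)))
  rw [perm_inv_apply, perm_apply_inv, perm_apply_inv,
    norm_sub_rev] at h1
  exact h1

theorem Sz.conj {F : L → E} {g k : Equiv.Perm L} {r : ℝ} (hk : k ∈ MG L) (hg : Sz F g r) :
    Sz F (k * g * k⁻¹) r := by
  intro h hh x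
  have h1 := hg (h * k) ((MG L).mul_mem hh hk) x
  rw [mul_inv_rev] at h1
  exact h1

theorem Sz.conj' {F : L → E} {g k : Equiv.Perm L} {r : ℝ} (hk : k ∈ MG L) (hg : Sz F g r) :
    Sz F (k⁻¹ * g * k) r := by
  have h1 := Sz.conj ((MG L).inv_mem hk) hg
  rwa [inv_inv] at h1

theorem Sz.pow {F : L → E} {g k : Equiv.Perm L} {r : ℝ} (hg : g ∈ MG L)
    (h : Sz F (g * k⁻¹) r) (n : ℕ) : Sz F (g ^ n * (k ^ n)⁻¹) (n * r) := by
  induction n with
  | zero =>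
    rw [pow_zero, pow_zero, inv_one, mul_one, Nat.cast_zero, zero_mul]
    exact Sz.one
  | succ n ih =>
    have e : g ^ (n + 1) * (k ^ (n + 1))⁻¹
        = (g ^ n * (g * k⁻¹) * (g ^ n)⁻¹) * (g ^ n * (k ^ n)⁻¹) := by
      rw [pow_succ, pow_succ]
      group
    rw [e]
    have h1 := (Sz.conj ((MG L).pow_mem hg n) h).mul ih
    refine h1.mono (le_of_eq ?_)
    push_cast
    ring

theorem Sz.zpow {F : L → E} {g k : Equiv.Perm L} {r : ℝ} (hg : g ∈ MG L) (_hk : k ∈ MG L)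
    (h : Sz F (g * k⁻¹) r) (c : ℤ) : Sz F (g ^ c * (k ^ c)⁻¹) (|c| * r) := by
  rw [Int.cast_abs]
  rcases Int.eq_nat_or_neg c with ⟨n, rfl | rfl⟩
  · have h1 := Sz.pow hg h n
    rw [zpow_natCast, zpow_natCast, Int.cast_natCast, Nat.abs_cast]
    exact h1
  · have h0 : Sz F (g⁻¹ * (k⁻¹)⁻¹) r := by
      have e : g⁻¹ * (k⁻¹)⁻¹ = g⁻¹ * (g * k⁻¹)⁻¹ * g := by group
      rw [e]
      exact Sz.conj' hg h.inv
    have h1 := Sz.pow ((MG L).inv_mem hg) h0 n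
    rw [zpow_neg, zpow_neg, zpow_natCast, zpow_natCast, ← inv_pow, ← inv_pow, Int.cast_neg,
      Int.cast_natCast, abs_neg, Nat.abs_cast]
    exact h1

end

end Pool.Agent.MoufangHaar
end

section

set_option autoImplicit false
set_option linter.unusedSectionVars false

/-!
The conjugates of the left translations in the multiplication group.
-/

namespace Pool.Agent.MoufangHaar

variable {L : Type*} [MLoop L]

theorem ltE_apply (a x : L) : ltE a x = a * x := rfl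

theorem ltE_inv (a : L) : (ltE a)⁻¹ = ltE a⁻¹ := by
  rw [inv_eq_iff_mul_eq_one]
  ext x
  exact MLoop.mul_inv_left a x

theorem rtE_inv (a : L) : (rtE a)⁻¹ = rtE a⁻¹ := by
  rw [inv_eq_iff_mul_eq_one]
  ext x
  exact MLoop.mul_inv_mul x a

theorem ltE_inv_apply (a x : L) : (ltE a)⁻¹ x = a⁻¹ * x := rfl

theorem ltE_one : ltE (1 : L) = 1 := by
  ext x
  exact MLoop.one_mul x

theorem ltE_aba (a b : L) : ltE a * ltE b * ltE a = ltE ((a * b) * a) := by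
  ext x
  exact MLoop.moufang b x a

/-- `P_q L_z P_q⁻¹ = L_{qz} L_q⁻¹` with `P_q = L_q R_q` -/
theorem P_conj (q z : L) :
    (ltE q * rtE q) * ltE z * (ltE q * rtE q)⁻¹ = ltE (q * z) * (ltE q)⁻¹ := by
  rw [mul_inv_eq_iff_eq_mul]
  ext x
  change q * ((z * x) * q) = (q * z) * (q⁻¹ * (q * (x * q)))
  rw [MLoop.inv_mul_left, MLoop.autR, MLoop.flex]

theorem P_mem (q : L) : ltE q * rtE q ∈ MG L := (MG L).mul_mem (ltE_mem q) (rtE_mem q)

/-- the form `L_a L_b⁻¹` is invariant under conjugation by left translations -/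
theorem conj_ltE (c a b : L) : ltE c * (ltE a * (ltE b)⁻¹) * (ltE c)⁻¹
    = ltE ((c * a) * c) * (ltE ((c * b) * c))⁻¹ := by
  rw [← ltE_aba, ← ltE_aba]
  group

/-- `R_c L_a R_c⁻¹ = L_c⁻¹ L_{ca}` -/
theorem conj_rtE_one (c a : L) : rtE c * ltE a * (rtE c)⁻¹ = (ltE c)⁻¹ * ltE (c * a) := by
  have h := P_conj c a
  rw [mul_inv_rev] at h
  have h1 : rtE c * ltE a * (rtE c)⁻¹ = (ltE c)⁻¹ * (ltE (c * a) * (ltE c)⁻¹) * ltE c := by
    rw [← h]
    group
  rw [h1]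
  group

theorem conj_rtE (c a b : L) : rtE c * (ltE a * (ltE b)⁻¹) * (rtE c)⁻¹
    = (ltE c)⁻¹ * (ltE (c * a) * (ltE (c * b))⁻¹) * ltE c := by
  have h1 : rtE c * (ltE a * (ltE b)⁻¹) * (rtE c)⁻¹
      = (rtE c * ltE a * (rtE c)⁻¹) * (rtE c * ltE b * (rtE c)⁻¹)⁻¹ := by group
  rw [h1, conj_rtE_one, conj_rtE_one]
  group

/-- the set of the `L_a L_b⁻¹` is invariant under conjugation by the multiplication group -/
theorem conj_MG {h : Equiv.Perm L} (hh : h ∈ MG L) :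
    ∀ a b : L, ∃ a' b' : L, h * (ltE a * (ltE b)⁻¹) * h⁻¹ = ltE a' * (ltE b')⁻¹ := by
  have hl : ∀ c a b : L, ∃ a' b' : L,
      ltE c * (ltE a * (ltE b)⁻¹) * (ltE c)⁻¹ = ltE a' * (ltE b')⁻¹ := fun c a b =>
    ⟨_, _, conj_ltE c a b⟩
  have hr : ∀ c a b : L, ∃ a' b' : L,
      rtE c * (ltE a * (ltE b)⁻¹) * (rtE c)⁻¹ = ltE a' * (ltE b')⁻¹ := by
    intro c a b
    obtain ⟨a', b', e⟩ := hl c⁻¹ (c * a) (c * b)
    refine ⟨a', b', ?_⟩
    rw [conj_rtE, ← e, ltE_inv c, ltE_inv c⁻¹, MLoop.inv_inv]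
  have key : (∀ a b : L, ∃ a' b' : L, h * (ltE a * (ltE b)⁻¹) * h⁻¹ = ltE a' * (ltE b')⁻¹) ∧
      (∀ a b : L, ∃ a' b' : L, h⁻¹ * (ltE a * (ltE b)⁻¹) * h = ltE a' * (ltE b')⁻¹) := by
    refine Subgroup.closure_induction (p := fun h _ =>
      (∀ a b : L, ∃ a' b' : L, h * (ltE a * (ltE b)⁻¹) * h⁻¹ = ltE a' * (ltE b')⁻¹) ∧
      (∀ a b : L, ∃ a' b' : L, h⁻¹ * (ltE a * (ltE b)⁻¹) * h = ltE a' * (ltE b')⁻¹))
      ?_ ?_ ?_ ?_ hh
    · rintro σ ⟨c, rfl | rfl⟩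
      · refine ⟨hl c, fun a b => ?_⟩
        obtain ⟨a', b', e⟩ := hl c⁻¹ a b
        refine ⟨a', b', ?_⟩
        rw [← e, ltE_inv c⁻¹, MLoop.inv_inv, ltE_inv c]
      · refine ⟨hr c, fun a b => ?_⟩
        obtain ⟨a', b', e⟩ := hr c⁻¹ a b
        refine ⟨a', b', ?_⟩
        rw [← e, rtE_inv c⁻¹, MLoop.inv_inv, rtE_inv c]
    · refine ⟨fun a b => ⟨a, b, ?_⟩, fun a b => ⟨a, b, ?_⟩⟩ <;> simp
    · rintro σ τ _ _ ⟨h1, h2⟩ ⟨h3, h4⟩
      refine ⟨fun a b => ?_, fun a b => ?_⟩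
      · obtain ⟨a', b', e⟩ := h3 a b
        obtain ⟨a'', b'', e'⟩ := h1 a' b'
        refine ⟨a'', b'', ?_⟩
        rw [← e', ← e]
        group
      · obtain ⟨a', b', e⟩ := h2 a b
        obtain ⟨a'', b'', e'⟩ := h4 a' b'
        refine ⟨a'', b'', ?_⟩
        rw [← e', ← e]
        group
    · rintro σ _ ⟨h1, h2⟩
      refine ⟨fun a b => ?_, fun a b => ?_⟩
      · obtain ⟨a', b', e⟩ := h2 a b
        exact ⟨a', b', by rw [inv_inv]; exact e⟩
      · obtain ⟨a', b', e⟩ := h1 a b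
        exact ⟨a', b', by rw [inv_inv]; exact e⟩
  exact key.1

/-- every conjugate of a left translation is `P_q L_z P_q⁻¹` -/
theorem conj_ltE_eq {h : Equiv.Perm L} (hh : h ∈ MG L) (x : L) :
    ∃ q z : L, h * ltE x * h⁻¹ = (ltE q * rtE q) * ltE z * (ltE q * rtE q)⁻¹ := by
  obtain ⟨a, b, e⟩ := conj_MG hh x 1
  refine ⟨b, b⁻¹ * a, ?_⟩
  rw [P_conj, MLoop.mul_inv_left, ← e, ltE_one]
  simp

theorem ltE_pow (x : L) (n : ℕ) : ltE x ^ n = ltE (npw x n) := by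
  ext y
  rw [ltE_apply, npw_mul]
  induction n with
  | zero => rfl
  | succ n ih =>
    rw [pow_succ', Equiv.Perm.mul_apply, ih, Function.iterate_succ_apply', ltE_apply]

theorem npw_npw_cf (x : L) (m n : ℕ) : npw (npw x m) n = npw x (m * n) := by
  have h : ltE (npw (npw x m) n) = ltE (npw x (m * n)) := by
    rw [← ltE_pow, ← ltE_pow, ← ltE_pow, pow_mul]
  have h1 := Equiv.ext_iff.mp h 1
  rwa [ltE_apply, ltE_apply, MLoop.mul_one, MLoop.mul_one] at h1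

/-- `L_{x w^m} L_x⁻¹` is a conjugate of `L_w^m` -/
theorem step (x w : L) (m : ℕ) : ltE (x * npw w m) * (ltE x)⁻¹
    = (ltE x * rtE x) * ltE w ^ m * (ltE x * rtE x)⁻¹ := by
  rw [ltE_pow, P_conj]

theorem step_conj (x y z : L) (m : ℕ) : ltE (x * npw y m) * (ltE (x * npw z m))⁻¹
    = (ltE x * rtE x) * (ltE y ^ m * (ltE z ^ m)⁻¹) * (ltE x * rtE x)⁻¹ := by
  have h1 := step x y m
  have h2 := step x z m
  have e : ltE (x * npw y m) * (ltE (x * npw z m))⁻¹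
      = (ltE (x * npw y m) * (ltE x)⁻¹) * (ltE (x * npw z m) * (ltE x)⁻¹)⁻¹ := by group
  rw [e, h1, h2]
  group

end Pool.Agent.MoufangHaar
end

section

set_option autoImplicit false
set_option linter.unusedSectionVars false

open Topology Filter

/-!
Powers are small for the conjugation invariant size.
-/

namespace Pool.Agent.MoufangHaar

variable {L : Type*} [MLoop L] [TopologicalSpace L] [CompactSpace L] [TopMLoop L]
variable {E : Type*} [NormedAddCommGroup E]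

/-- translations `w ↦ (q u)(q⁻¹ w)` with small `u` are small -/
theorem exists_nhds_small {F : L → E} (hF : Continuous F) {ε : ℝ} (hε : 0 < ε) :
    ∃ U ∈ 𝓝 (1 : L), ∀ u ∈ U, ∀ q w : L, ‖F ((q * u) * (q⁻¹ * w)) - F w‖ ≤ ε := by
  have hc : Continuous (fun p : L × (L × L) =>
      ‖F ((p.2.1 * p.1) * (p.2.1⁻¹ * p.2.2)) - F p.2.2‖) := by
    refine ((hF.comp (TopMLoop.cmul (TopMLoop.cmul continuous_snd.fst continuous_fst)
      (TopMLoop.cmul (TopMLoop.cinv continuous_snd.fst) continuous_snd.snd))).sub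
      (hF.comp continuous_snd.snd)).norm
  have hopen : IsOpen {p : L × (L × L) |
      ‖F ((p.2.1 * p.1) * (p.2.1⁻¹ * p.2.2)) - F p.2.2‖ < ε} :=
    isOpen_lt hc continuous_const
  have hsub : ({1} : Set L) ×ˢ (Set.univ : Set (L × L)) ⊆ {p : L × (L × L) |
      ‖F ((p.2.1 * p.1) * (p.2.1⁻¹ * p.2.2)) - F p.2.2‖ < ε} := by
    rintro ⟨u, q, w⟩ ⟨hu, _⟩
    have hu' : u = 1 := hu
    subst hu'
    change ‖F ((q * 1) * (q⁻¹ * w)) - F w‖ < ε
    rw [MLoop.mul_one, MLoop.mul_inv_left, sub_self, norm_zero]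
    exact hε
  obtain ⟨U, V, hU, _, h1, h2, h3⟩ := generalized_tube_lemma isCompact_singleton
    isCompact_univ hopen hsub
  refine ⟨U, hU.mem_nhds (h1 rfl), fun u hu q w => ?_⟩
  have h4 : (u, (q, w)) ∈ U ×ˢ V := ⟨hu, h2 trivial⟩
  exact le_of_lt (h3 h4)

/-- all powers `x^(n l)` are small for the conjugation invariant size -/
theorem small_pow [T2Space L] {F : L → E}
    (hL : ∀ U ∈ 𝓝 (1 : L), ∃ n : ℕ, 0 < n ∧ ∀ x : L, npw x n ∈ U)
    (hF : Continuous F) {ε : ℝ} (hε : 0 < ε) :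
    ∃ n : ℕ, 0 < n ∧ ∀ (x : L) (l : ℤ), Sz F (ltE x ^ ((n : ℤ) * l)) ε := by
  obtain ⟨U, hU, H⟩ := exists_nhds_small hF hε
  obtain ⟨n, hn, hx⟩ := hL U hU
  refine ⟨n, hn, ?_⟩
  -- the case of a power `y^n`
  have key : ∀ y : L, Sz F (ltE y ^ n) ε := by
    intro y h hh w
    obtain ⟨q, z, e⟩ := conj_ltE_eq hh y
    have e2 : h * ltE y ^ n * h⁻¹ = ltE (q * npw z n) * (ltE q)⁻¹ := by
      rw [← conj_pow, e, conj_pow, ltE_pow, P_conj]
    have e3 : h ((ltE y ^ n) (h⁻¹ w)) = (q * npw z n) * (q⁻¹ * w) := by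
      have h1 := congrArg (fun σ : Equiv.Perm L => σ w) e2
      exact h1
    rw [e3]
    exact H _ (hx z) q w
  have key2 : ∀ (x : L) (l : ℕ), Sz F (ltE x ^ ((n : ℤ) * (l : ℤ))) ε := by
    intro x l
    have e : ltE x ^ ((n : ℤ) * (l : ℤ)) = ltE (npw x l) ^ n := by
      rw [← Nat.cast_mul, zpow_natCast, mul_comm n l, pow_mul, ltE_pow x l]
    rw [e]
    exact key _
  intro x l
  rcases Int.eq_nat_or_neg l with ⟨k, rfl | rfl⟩
  · exact key2 x k
  · have e : ltE x ^ ((n : ℤ) * -(k : ℤ)) = (ltE x ^ ((n : ℤ) * (k : ℤ)))⁻¹ := by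
      rw [mul_neg, zpow_neg]
    rw [e]
    exact (key2 x k).inv

end Pool.Agent.MoufangHaar
end
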