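import Mathlib
import Pool.Agent.Lib.MP_fd6bc6_al.Mg.G010
import Pool.Agent.Lib.MP_fd6bc6_al.CF.M3
import Pool.Agent.Lib.MP_fd6bc6_al.Mg.G002

section

/-! # Interface of part (C): all statements are proved in M0-M3 -/
end

section

set_option autoImplicit false
set_option linter.unusedSectionVars false

open Topology

namespace Pool.Agent.MoufangHaar

section phi

variable {G : Type*} [Group G]

/-- The product `X k ^ (a (k-1) - c) * X (k-1) ^ (a (k-2) - a (k-1)) * ... * X 1 ^ (a 0 - a 1)`. -/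
def Ph (X : ℕ → G) (a : ℕ → ℤ) : ℕ → ℤ → G
  | 0, _ => 1
  | k + 1, c => X (k + 1) ^ (a k - c) * Ph X a k (a k)

theorem Ph_zero (X : ℕ → G) (a : ℕ → ℤ) (c : ℤ) : Ph X a 0 c = 1 := rfl

theorem Ph_succ (X : ℕ → G) (a : ℕ → ℤ) (k : ℕ) (c : ℤ) :
    Ph X a (k + 1) c = X (k + 1) ^ (a k - c) * Ph X a k (a k) := rfl

theorem Ph_congr (X : ℕ → G) {a a' : ℕ → ℤ} (k : ℕ) (h : ∀ p < k, a p = a' p) (c : ℤ) :
    Ph X a k c = Ph X a' k c := by
  induction k generalizing c with
  | zero => rfl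
  | succ k ih =>
    rw [Ph_succ, Ph_succ, h k (Nat.lt_succ_self k), ih fun p hp => h p (hp.trans k.lt_succ_self)]

theorem Ph_sub {X : ℕ → G} (h0 : X 0 = 1) (a : ℕ → ℤ) (k : ℕ) (c d : ℤ) :
    Ph X a k (c - d) = X k ^ d * Ph X a k c := by
  cases k with
  | zero => rw [Ph_zero, Ph_zero, h0, one_zpow, one_mul]
  | succ k =>
    rw [Ph_succ, Ph_succ, ← mul_assoc, ← zpow_add]
    congr 2
    ring

theorem Ph_add {X : ℕ → G} (a : ℕ → ℤ) (k : ℕ) (c d : ℤ) :
    Ph X (fun p => a p + d) k (c + d) = Ph X a k c := by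
  induction k generalizing c with
  | zero => rfl
  | succ k ih =>
    rw [Ph_succ, Ph_succ, ih]
    congr 2
    ring

/-- equivariance -/
theorem Ph_shift {X : ℕ → G} (h0 : X 0 = 1) (a : ℕ → ℤ) (k : ℕ) (c : ℤ) :
    Ph X (fun p => a p + 1) k c = X k * Ph X a k c := by
  have h1 := Ph_add (X := X) a k (c - 1) 1
  rw [sub_add_cancel] at h1
  rw [h1, Ph_sub h0, zpow_one]

theorem Ph_const {X : ℕ → G} (h0 : X 0 = 1) (a : ℕ → ℤ) (s t : ℕ) (hst : s ≤ t) (v : ℤ)
    (hv : ∀ p, s ≤ p → p < t → a p = v) (e : ℤ) :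
    Ph X a t e = X t ^ (v - e) * Ph X a s v := by
  induction t, hst using Nat.le_induction generalizing e with
  | base =>
    have h1 := Ph_sub h0 a s v (v - e)
    rw [sub_sub_cancel] at h1
    exact h1
  | succ t hst ih =>
    rw [Ph_succ, hv t hst t.lt_succ_self, ih (fun p h1 h2 => hv p h1 (h2.trans t.lt_succ_self)),
      sub_self, zpow_zero, one_mul]

/-- changing `a` by the constant `c` on an interval on which it is constant -/
theorem Ph_interval {X : ℕ → G} (h0 : X 0 = 1) {S : Subgroup G} (hX : ∀ i, X i ∈ S)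
    {a a' : ℕ → ℤ} {s t : ℕ} (hst : s ≤ t) {v c : ℤ} (hv : ∀ p, s ≤ p → p < t → a p = v)
    (hc : ∀ p, s ≤ p → p < t → a' p = v + c) (ho : ∀ p, ¬ (s ≤ p ∧ p < t) → a' p = a p)
    {k : ℕ} (hk : t ≤ k) (e : ℤ) :
    ∃ H ∈ S, Ph X a' k e = H * (X t ^ c * (X s ^ c)⁻¹) * H⁻¹ * Ph X a k e := by
  induction k, hk using Nat.le_induction generalizing e with
  | base =>
    refine ⟨X t ^ (v - e), S.zpow_mem (hX t) _, ?_⟩
    have h1 : Ph X a' s (v + c) = X s ^ (-c) * Ph X a s v := by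
      rw [Ph_congr X s (fun p hp => ho p fun h => absurd hp (not_lt_of_ge h.1)), ← Ph_sub h0,
        sub_neg_eq_add]
    rw [Ph_const h0 a' s t hst (v + c) hc, Ph_const h0 a s t hst v hv, h1, zpow_neg,
      show v + c - e = (v - e) + c by ring, zpow_add]
    group
  | succ k hk ih =>
    have h1 : a' k = a k := ho k fun h => absurd h.2 (not_lt_of_ge hk)
    obtain ⟨H, hH, h2⟩ := ih (a k)
    refine ⟨X (k + 1) ^ (a k - e) * H, S.mul_mem (S.zpow_mem (hX _) _) hH, ?_⟩
    rw [Ph_succ, Ph_succ, h1, h2]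
    group

end phi

section size

variable {L : Type*} [MLoop L] {E : Type*} [NormedAddCommGroup E] {F : L → E}

theorem Sz.eval {g : Equiv.Perm L} {r : ℝ} (hg : Sz F g r) (x : L) : ‖F (g x) - F x‖ ≤ r := by
  have h1 := hg 1 (MG L).one_mem x
  simpa using h1

/-- the change of the value of `Ph` if `a` is changed by a constant on an interval -/
theorem Ph_move {X : ℕ → Equiv.Perm L} (h0 : X 0 = 1) (hX : ∀ i, X i ∈ MG L)
    {a a' : ℕ → ℤ} {s t : ℕ} (hst : s ≤ t) {v c : ℤ} (hv : ∀ p, s ≤ p → p < t → a p = v)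
    (hc : ∀ p, s ≤ p → p < t → a' p = v + c) (ho : ∀ p, ¬ (s ≤ p ∧ p < t) → a' p = a p)
    {T : ℕ} (hT : t ≤ T) {r : ℝ} (hr : Sz F (X t ^ c * (X s ^ c)⁻¹) r) (x : L) :
    ‖F (Ph X a' T 0 x) - F (Ph X a T 0 x)‖ ≤ r := by
  obtain ⟨H, hH, h1⟩ := Ph_interval h0 hX hst hv hc ho hT 0
  have h2 := (hr.conj hH).eval (Ph X a T 0 x)
  rw [h1]
  exact h2

end size

end Pool.Agent.MoufangHaar
end

section

set_option autoImplicit false
set_option linter.unusedSectionVars false

open Topology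

namespace Pool.Agent.MoufangHaar

theorem npw_unit {L : Type*} [MLoop L] (m : ℕ) : npw (1 : L) m = 1 := by
  unfold npw
  induction m with
  | zero => rfl
  | succ m ih => rw [Function.iterate_succ_apply', ih, MLoop.mul_one]

section chain

variable {L : Type*} [MLoop L] [TopologicalSpace L]

/-- `v` is reached from the unit by `n` steps -/
def Lv (R : CC L) (m : ℕ) : ℕ → L → Prop
  | 0, v => v = 1
  | n + 1, v => ∃ x w, Lv R m n x ∧ R.r w 1 ∧ v = x * npw w m

theorem exists_lv {R : CC L} {m : ℕ} {v : L} (h : Relation.ReflTransGen (St R m) 1 v) :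
    ∃ n, Lv R m n v := by
  induction h with
  | refl => exact ⟨0, rfl⟩
  | tail _ hbc ih =>
    obtain ⟨n, hn⟩ := ih
    obtain ⟨w, hw, rfl⟩ := hbc
    exact ⟨n + 1, _, w, hn, hw, rfl⟩

theorem St.refl (R : CC L) (m : ℕ) (x : L) : St R m x x :=
  ⟨1, R.equiv.refl 1, by rw [npw_unit, MLoop.mul_one]⟩

theorem exists_seq {R : CC L} {m : ℕ} {v : L} (h : Relation.ReflTransGen (St R m) 1 v) :
    ∃ (y : ℕ → L) (K : ℕ), y 0 = 1 ∧ (∀ j, St R m (y j) (y (j + 1))) ∧ ∀ j, K ≤ j → y j = v := by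
  induction h with
  | refl => exact ⟨fun _ => 1, 0, rfl, fun _ => St.refl R m 1, fun _ _ => rfl⟩
  | @tail b c _ hbc ih =>
    obtain ⟨y, K, h0, h1, h2⟩ := ih
    refine ⟨fun j => if j ≤ K then y j else c, K + 1, ?_, fun j => ?_, fun j hj => ?_⟩
    · simp [h0]
    · rcases Nat.lt_trichotomy j K with h3 | h3 | h3
      · have h4 : j + 1 ≤ K := h3
        simp only [if_pos h3.le, if_pos h4]
        exact h1 j
      · have h4 : ¬ (j + 1 ≤ K) := by omega
        simp only [if_pos h3.le, if_neg h4]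
        rw [h2 j h3.ge]
        exact hbc
      · have h4 : ¬ (j + 1 ≤ K) := by omega
        simp only [if_neg (not_le.mpr h3), if_neg h4]
        exact St.refl R m c
    · have h4 : ¬ (j ≤ K) := by omega
      simp only [if_neg h4]

variable [CompactSpace L] [T2Space L] [TopMLoop L]

/-- the chain with two levels -/
theorem two_level {m m' : ℕ} (hm' : 0 < m') (n : ℕ) (v : L) (hv : Lv (CC.res L) m n v)
    (O : Set L) (hO : O ∈ 𝓝 v) :
    ∃ (x : ℕ → L) (y : ℕ → ℕ → L) (K : ℕ), x 0 = 1 ∧ x n ∈ O ∧ (∀ i, y i 0 = 1) ∧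
      (∀ i j, St (CC.res L) m' (y i j) (y i (j + 1))) ∧
      ∀ i < n, ∀ j, K ≤ j → x (i + 1) = x i * npw (y i j) m := by
  induction n generalizing v O with
  | zero =>
    refine ⟨fun _ => 1, fun _ _ => 1, 0, rfl, ?_, fun _ => rfl, fun _ _ => St.refl _ _ 1,
      fun i hi => absurd hi (Nat.not_lt_zero i)⟩
    have h1 : v = 1 := hv
    rw [← h1]
    exact mem_of_mem_nhds hO
  | succ n ih =>
    obtain ⟨x₀, w, h1, hw, rfl⟩ := hv
    have hc : Continuous fun p : L × L => p.1 * npw p.2 m :=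
      TopMLoop.cmul continuous_fst ((continuous_npw m).comp continuous_snd)
    have h2 : (fun p : L × L => p.1 * npw p.2 m) ⁻¹' O ∈ 𝓝 (x₀, w) := hc.continuousAt hO
    rw [nhds_prod_eq, Filter.mem_prod_iff] at h2
    obtain ⟨O₀, hO₀, O₁, hO₁, h3⟩ := h2
    obtain ⟨x, y, K, hx0, hxn, hy0, hy1, hy2⟩ := ih x₀ h1 O₀ hO₀
    obtain ⟨w', hw', h4⟩ := exists_chain hm' hw hO₁
    obtain ⟨y', K', e0, e1, e2⟩ := exists_seq h4
    refine ⟨fun i => if i ≤ n then x i else x n * npw w' m,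
      fun i => if i = n then y' else y i, max K K', ?_, ?_, fun i => ?_, fun i j => ?_,
      fun i hi j hj => ?_⟩
    · simp [hx0]
    · have h5 : ¬ (n + 1 ≤ n) := by omega
      simp only [if_neg h5]
      exact h3 (Set.mk_mem_prod hxn hw')
    · dsimp only
      split_ifs with h5
      · exact e0
      · exact hy0 i
    · dsimp only
      split_ifs with h5
      · exact e1 j
      · exact hy1 i j
    · dsimp only
      rcases Nat.lt_or_ge i n with h5 | h5
      · rw [if_pos (by omega : i + 1 ≤ n), if_pos h5.le, if_neg (by omega : ¬ i = n)]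
        exact hy2 i h5 j ((le_max_left _ _).trans hj)
      · have h6 : i = n := by omega
        subst h6
        rw [if_neg (by omega : ¬ i + 1 ≤ i), if_pos le_rfl, if_pos rfl,
          e2 j ((le_max_right _ _).trans hj)]

end chain

end Pool.Agent.MoufangHaar
end

section

set_option autoImplicit false
set_option linter.unusedSectionVars false

open Topology

universe u

namespace Pool.Agent.MoufangHaar

section sep

variable {L : Type u} [MLoop L] [TopologicalSpace L] [CompactSpace L] [T2Space L] [TopMLoop L]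

/-- a continuous map to a finite dimensional space which sees that `u` moves all points -/
theorem exists_sep {u : L} (hu : u ≠ 1) :
    ∃ (ι : Type u) (_ : Fintype ι) (F : L → ι → ℝ), Continuous F ∧
      ∀ z, 1 / 2 < ‖F (u * z) - F z‖ := by
  have h1 : ∀ z : L, u * z ≠ z := fun z hz => hu (by
    have h2 : u * z = 1 * z := by rw [hz, MLoop.one_mul]
    exact MLoop.mul_right_cancel h2)
  have h2 : ∀ z : L, ∃ f : C(L, ℝ), f (u * z) = 1 ∧ f z = 0 := by
    intro z
    obtain ⟨f, hf0, hf1, _⟩ := exists_continuous_zero_one_of_isClosed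
      (isClosed_singleton (x := z)) (isClosed_singleton (x := u * z))
      (Set.disjoint_singleton.mpr (h1 z).symm)
    exact ⟨f, hf1 rfl, hf0 rfl⟩
  choose f hf1 hf0 using h2
  have h3 : ∀ z : L, {z' : L | 1 / 2 < ‖f z (u * z') - f z z'‖} ∈ 𝓝 z := by
    intro z
    have hc : Continuous fun z' => ‖f z (u * z') - f z z'‖ :=
      (((f z).continuous.comp (TopMLoop.continuous_mul_left u)).sub (f z).continuous).norm
    refine (isOpen_lt continuous_const hc).mem_nhds ?_
    change 1 / 2 < ‖f z (u * z) - f z z‖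
    rw [hf1, hf0, sub_zero, norm_one]
    norm_num
  obtain ⟨T, _, hT⟩ := isCompact_univ.elim_nhds_subcover _ fun z _ => h3 z
  refine ⟨{x // x ∈ T}, inferInstance, fun x t => f t.1 x, continuous_pi fun t => (f t.1).continuous,
    fun z => ?_⟩
  have h4 := hT (Set.mem_univ z)
  simp only [Set.mem_iUnion, Set.mem_ofPred_eq] at h4
  obtain ⟨t, ht, h5⟩ := h4
  exact h5.trans_le (norm_le_pi_norm ((fun s : T => f s.1 (u * z)) - fun s : T => f s.1 z) ⟨t, ht⟩)

theorem sep_open {E : Type*} [NormedAddCommGroup E] {F : L → E} (hF : Continuous F) {u : L}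
    (hu : ∀ z, 1 / 2 < ‖F (u * z) - F z‖) : {v : L | ∀ z, 1 / 2 < ‖F (v * z) - F z‖} ∈ 𝓝 u := by
  have hc : Continuous fun p : L × L => ‖F (p.1 * p.2) - F p.2‖ :=
    ((hF.comp TopMLoop.cont_mul).sub (hF.comp continuous_snd)).norm
  have h1 : ∀ᶠ v in 𝓝 u, ∀ z ∈ (Set.univ : Set L), 1 / 2 < ‖F (v * z) - F z‖ := by
    refine isCompact_univ.eventually_forall_of_forall_eventually fun z _ => ?_
    exact hc.continuousAt.eventually (lt_mem_nhds (hu z))
  filter_upwards [h1] with v hv z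
  exact hv z (Set.mem_univ z)

/-- colours -/
theorem exists_colour {E : Type*} [NormedAddCommGroup E] {F : L → E} (hF : Continuous F) :
    ∃ (N : ℕ) (c : L → Fin N), ∀ x y, c x = c y → ‖F x - F y‖ ≤ 1 / 8 := by
  have h3 : ∀ z : L, {z' : L | ‖F z' - F z‖ < 1 / 16} ∈ 𝓝 z := by
    intro z
    have hc : Continuous fun z' => ‖F z' - F z‖ := (hF.sub continuous_const).norm
    refine (isOpen_lt hc continuous_const).mem_nhds ?_
    change ‖F z - F z‖ < 1 / 16
    rw [sub_self, norm_zero]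
    norm_num
  obtain ⟨T, _, hT⟩ := isCompact_univ.elim_nhds_subcover _ fun z _ => h3 z
  have h4 : ∀ x : L, ∃ t : T, ‖F x - F t.1‖ < 1 / 16 := by
    intro x
    have h4 := hT (Set.mem_univ x)
    simp only [Set.mem_iUnion, Set.mem_ofPred_eq] at h4
    obtain ⟨t, ht, h5⟩ := h4
    exact ⟨⟨t, ht⟩, h5⟩
  choose c hc using h4
  refine ⟨_, fun x => Fintype.equivFin T (c x), fun x y hxy => ?_⟩
  have h5 : c x = c y := (Fintype.equivFin T).injective hxy
  have h6 := hc x
  have h7 := hc y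
  rw [← h5] at h7
  have h8 : F x - F y = (F x - F (c x).1) - (F y - F (c x).1) := by abel
  rw [h8]
  linarith [norm_sub_le (F x - F (c x).1) (F y - F (c x).1)]

end sep

section size

variable {L : Type*} [MLoop L] {E : Type*} [NormedAddCommGroup E] {F : L → E}

theorem Sz.conj_eq {g g' k : Equiv.Perm L} {r : ℝ} (hk : k ∈ MG L) (hg : Sz F g r)
    (h : g' = k * g * k⁻¹) : Sz F g' r := by
  rw [h]
  exact hg.conj hk

/-- uniformity in the exponent -/
theorem Sz.uniform {X Y : Equiv.Perm L} (hX : X ∈ MG L) (hY : Y ∈ MG L) {ρ δ : ℝ} (hρ : 0 ≤ ρ)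
    (h : Sz F (X * Y⁻¹) ρ) {n : ℕ} (hn : 0 < n) (h1 : ∀ l : ℤ, Sz F (X ^ ((n : ℤ) * l)) δ)
    (h2 : ∀ l : ℤ, Sz F (Y ^ ((n : ℤ) * l)) δ) (c : ℤ) :
    Sz F (X ^ c * (Y ^ c)⁻¹) (δ + δ + n * ρ) := by
  have hn' : (0 : ℤ) < n := by exact_mod_cast hn
  have h3 : c = c % n + n * (c / n) := (Int.emod_add_mul_ediv c n).symm
  set c₀ := c % n with hc₀
  have h4 : 0 ≤ c₀ := Int.emod_nonneg _ hn'.ne'
  have h5 : c₀ < n := Int.emod_lt_of_pos _ hn'
  have h6 : X ^ c * (Y ^ c)⁻¹ = (X ^ c₀ * (X ^ ((n : ℤ) * (c / n)) * (Y ^ ((n : ℤ) * (c / n)))⁻¹) *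
      (X ^ c₀)⁻¹) * (X ^ c₀ * (Y ^ c₀)⁻¹) := by
    conv_lhs => rw [h3, zpow_add, zpow_add]
    group
  rw [h6]
  refine Sz.mono ((((h1 _).mul (h2 _).inv).conj ((MG L).zpow_mem hX c₀)).mul
    (h.zpow hX hY c₀)) ?_
  have h7 : (|c₀| : ℤ) ≤ n := by
    rw [abs_of_nonneg h4]
    exact h5.le
  have h8 : ((|c₀| : ℤ) : ℝ) ≤ n := by exact_mod_cast h7
  have h9 := mul_le_mul_of_nonneg_right h8 hρ
  push_cast at h9 ⊢
  linarith

end size

end Pool.Agent.MoufangHaar
end
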