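import Mathlib
import Pool.Agent.Lib.MP_fd6bc6_al.Mg.G011
import Pool.Agent.Lib.MP_fd6bc6_al.Mg.G007

section

set_option autoImplicit false
set_option linter.unusedSectionVars false

open Topology Pool.Agent.MP_fd6bc6_al.BU

universe u

namespace Pool.Agent.MoufangHaar

section flat

variable {n m : ℕ}

/-- the function on natural numbers given by the leaves in their order -/
def flat (a : (Fin n × Fin m) → ℤ) (p : ℕ) : ℤ :=
  if h : p < n * m then a (finProdFinEquiv.symm ⟨p, h⟩) else 0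

theorem pos_lt (i : Fin n) (s : Fin m) : s.val + m * i.val < n * m :=
  (finProdFinEquiv (i, s)).isLt

theorem flat_pos (a : (Fin n × Fin m) → ℤ) (i : Fin n) (s : Fin m) :
    flat a (s.val + m * i.val) = a (i, s) := by
  have h1 : (⟨s.val + m * i.val, pos_lt i s⟩ : Fin (n * m)) = finProdFinEquiv (i, s) := rfl
  rw [flat, dif_pos (pos_lt i s), h1, Equiv.symm_apply_apply]

theorem exists_pos {p : ℕ} (h : p < n * m) : ∃ (i : Fin n) (s : Fin m), p = s.val + m * i.val := by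
  refine ⟨(finProdFinEquiv.symm ⟨p, h⟩).1, (finProdFinEquiv.symm ⟨p, h⟩).2, ?_⟩
  have h1 : finProdFinEquiv (finProdFinEquiv.symm (⟨p, h⟩ : Fin (n * m))) = ⟨p, h⟩ :=
    Equiv.apply_symm_apply _ _
  have h2 := congrArg Fin.val h1
  exact h2.symm

theorem pos_inj {i i' : Fin n} {s s' : Fin m} (h : s.val + m * i.val = s'.val + m * i'.val) :
    i = i' ∧ s = s' := by
  have h1 : finProdFinEquiv (i, s) = finProdFinEquiv (i', s') := Fin.ext h
  have h2 := finProdFinEquiv.injective h1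
  exact ⟨congrArg Prod.fst h2, congrArg Prod.snd h2⟩

theorem flat_out {a : (Fin n × Fin m) → ℤ} {p : ℕ} (h : ¬ p < n * m) : flat a p = 0 := dif_neg h

theorem flat_add_one (a : (Fin n × Fin m) → ℤ) {p : ℕ} (h : p < n * m) :
    flat (fun l => a l + 1) p = flat a p + 1 := by
  rw [flat, flat, dif_pos h, dif_pos h]

end flat

section move

variable {L : Type*} [MLoop L] {E : Type*} [NormedAddCommGroup E] {F : L → E} {n m : ℕ}

/-- the value of the function Phi -/
def Val (X : ℕ → Equiv.Perm L) (a : (Fin n × Fin m) → ℤ) : L := Ph X (flat a) (n * m) 0 1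

theorem Val_shift {X : ℕ → Equiv.Perm L} (h0 : X 0 = 1) (a : (Fin n × Fin m) → ℤ) :
    Val X (fun p => a p + 1) = X (n * m) (Val X a) := by
  unfold Val
  rw [Ph_congr X (n * m) (fun p hp => flat_add_one a hp), Ph_shift h0]
  rfl

theorem Val_St2 {X : ℕ → Equiv.Perm L} (h0 : X 0 = 1) (hX : ∀ i, X i ∈ MG L) {ρ : ℝ} (hρ : 0 ≤ ρ)
    (h : ∀ p < n * m, Sz F (X (p + 1) * (X p)⁻¹) ρ) {q : ℕ} {g g' : (Fin n × Fin m) → ℤ}
    (hg : St2 q g g') : ‖F (Val X g') - F (Val X g)‖ ≤ q * ρ := by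
  obtain ⟨⟨i, s⟩, d, hd, rfl⟩ := hg
  have hp := pos_lt i s
  have h1 := (h _ hp).zpow (hX _) (hX _) d
  have h2 : Sz F (X (s.val + m * i.val + 1) ^ d * (X (s.val + m * i.val) ^ d)⁻¹) (q * ρ) := by
    refine h1.mono (mul_le_mul_of_nonneg_right ?_ hρ)
    exact_mod_cast hd
  refine Ph_move h0 hX (Nat.le_succ (s.val + m * i.val)) (v := g (i, s)) (c := d) ?_ ?_ ?_
    (Nat.succ_le_of_lt hp) h2 1
  · intro p h3 h4
    have h5 : p = s.val + m * i.val := by omega
    rw [h5, flat_pos]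
  · intro p h3 h4
    have h5 : p = s.val + m * i.val := by omega
    rw [h5, flat_pos, Function.update_self]
  · intro p h3
    by_cases h4 : p < n * m
    · obtain ⟨i', s', rfl⟩ := exists_pos h4
      rw [flat_pos, flat_pos, Function.update_of_ne]
      intro h5
      apply h3
      rw [(Prod.mk.inj h5).1, (Prod.mk.inj h5).2]
      exact ⟨le_rfl, Nat.lt_succ_self _⟩
    · rw [flat_out h4, flat_out h4]

theorem Val_St1 {X : ℕ → Equiv.Perm L} (h0 : X 0 = 1) (hX : ∀ i, X i ∈ MG L) {ρ : ℝ} (hρ : 0 ≤ ρ)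
    (h : ∀ i < n, ∀ s ≤ m, ∀ t ≤ m, ∀ c : ℤ,
      Sz F (X (t + m * i) ^ c * (X (s + m * i) ^ c)⁻¹) ρ) {q : ℕ} {g g' : (Fin n × Fin m) → ℤ}
    (hg : St1 q g g') : ‖F (Val X g') - F (Val X g)‖ ≤ ρ := by
  obtain ⟨i, S, v, hS, hv, hg'⟩ := hg
  rcases S.eq_empty_or_nonempty with rfl | hne
  · have h1 : g' = g := by
      rw [hg']
      funext p
      simp
    rw [h1, sub_self, norm_zero]
    exact hρ
  set s₀ := S.min' hne with hs₀
  set s₁ := S.max' hne with hs₁
  have h1 : s₀ ∈ S := S.min'_mem hne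
  have h2 : s₁ ∈ S := S.max'_mem hne
  have hmem : ∀ s : Fin m, s ∈ S ↔ s₀.val ≤ s.val ∧ s.val < s₁.val + 1 := by
    intro s
    constructor
    · intro hs
      exact ⟨S.min'_le s hs, Nat.lt_succ_of_le (S.le_max' s hs)⟩
    · rintro ⟨h3, h4⟩
      exact hS s₀ h1 s₁ h2 s h3 (Nat.le_of_lt_succ h4)
  have hle : s₀.val ≤ s₁.val := ((hmem s₁).mp h2).1
  have hst : s₀.val + m * i.val ≤ s₁.val + 1 + m * i.val := by omega
  have hT : s₁.val + 1 + m * i.val ≤ n * m := by
    have := pos_lt i s₁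
    omega
  have key : ∀ p : ℕ, s₀.val + m * i.val ≤ p → p < s₁.val + 1 + m * i.val →
      ∃ s : Fin m, s ∈ S ∧ p = s.val + m * i.val := by
    intro p h3 h4
    have h5 : p - m * i.val < m := by
      have := s₁.isLt
      omega
    refine ⟨⟨p - m * i.val, h5⟩, (hmem _).mpr ⟨?_, ?_⟩, ?_⟩
    · change s₀.val ≤ p - m * i.val
      omega
    · change p - m * i.val < s₁.val + 1
      omega
    · change p = p - m * i.val + m * i.val
      omega
  refine Ph_move h0 hX hst (v := v) (c := -q) ?_ ?_ ?_ hT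
    (h i.val i.isLt s₀.val s₀.isLt.le (s₁.val + 1) s₁.isLt (-q)) 1
  · intro p h3 h4
    obtain ⟨s, hs, rfl⟩ := key p h3 h4
    rw [flat_pos, hv s hs]
  · intro p h3 h4
    obtain ⟨s, hs, rfl⟩ := key p h3 h4
    rw [flat_pos, hg']
    simp only [hs, and_self, if_true]
    rw [hv s hs]
    ring
  · intro p h3
    by_cases h4 : p < n * m
    · obtain ⟨i', s', rfl⟩ := exists_pos h4
      rw [flat_pos, flat_pos, hg']
      have h5 : ¬ (i' = i ∧ s' ∈ S) := by
        rintro ⟨rfl, h6⟩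
        apply h3
        have h7 := (hmem s').mp h6
        omega
      simp only [if_neg h5]
    · rw [flat_out h4, flat_out h4]

theorem It_norm {α : Type*} {R : α → α → Prop} (f : α → E) {ρ : ℝ}
    (h : ∀ a b, R a b → ‖f b - f a‖ ≤ ρ) (k : ℕ) (a b : α) (hab : It R k a b) :
    ‖f b - f a‖ ≤ k * ρ := by
  induction k generalizing a with
  | zero =>
    have h1 : a = b := hab
    rw [h1, sub_self, norm_zero, Nat.cast_zero, zero_mul]
  | succ k ih =>
    obtain ⟨c, h1, h2⟩ := hab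
    have h3 := ih c h2
    have h4 := h a c h1
    have h5 : f b - f a = (f b - f c) + (f c - f a) := by abel
    rw [h5]
    push_cast
    linarith [norm_add_le (f b - f c) (f c - f a)]

end move

end Pool.Agent.MoufangHaar
end

section

set_option autoImplicit false
set_option linter.unusedSectionVars false

open Topology Pool.Agent.MP_fd6bc6_al.BU

universe u

namespace Pool.Agent.MoufangHaar

section points

variable {L : Type*} [MLoop L]

/-- the points of the chain with two levels -/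
def pt (x : ℕ → L) (y : ℕ → ℕ → L) (m K p : ℕ) : Equiv.Perm L :=
  ltE (x (p / K) * npw (y (p / K) (p % K)) m)

theorem ltE_unit : ltE (1 : L) = 1 := Equiv.ext fun x => MLoop.one_mul x

theorem pt_in {x : ℕ → L} {y : ℕ → ℕ → L} {m K n : ℕ} (hK : 0 < K) (hy : ∀ i, y i 0 = 1)
    (h : ∀ i < n, x (i + 1) = x i * npw (y i K) m) {i s : ℕ} (hi : i < n) (hs : s ≤ K) :
    pt x y m K (s + K * i) = ltE (x i * npw (y i s) m) := by
  unfold pt
  rcases hs.lt_or_eq with h1 | rfl
  · rw [Nat.add_mul_div_left _ _ hK, Nat.div_eq_of_lt h1, zero_add, Nat.add_mul_mod_self_left,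
      Nat.mod_eq_of_lt h1]
  · have h2 : s + s * i = s * (i + 1) := by ring
    rw [h2, Nat.mul_div_cancel_left _ hK, Nat.mul_mod_right, hy, npw_unit, MLoop.mul_one, h i hi]

theorem pt_zero {x : ℕ → L} {y : ℕ → ℕ → L} {m K : ℕ} (hx : x 0 = 1) (hy : ∀ i, y i 0 = 1) :
    pt x y m K 0 = 1 := by
  unfold pt
  rw [Nat.zero_div, Nat.zero_mod, hx, hy, npw_unit, MLoop.mul_one, ltE_unit]

theorem pt_last {x : ℕ → L} {y : ℕ → ℕ → L} {m K n : ℕ} (hK : 0 < K) (hy : ∀ i, y i 0 = 1) :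
    pt x y m K (n * K) = ltE (x n) := by
  unfold pt
  rw [Nat.mul_div_cancel _ hK, Nat.mul_mod_left, hy, npw_unit, MLoop.mul_one]

end points

variable {L : Type u} [MLoop L] [TopologicalSpace L] [CompactSpace L] [T2Space L] [TopMLoop L]

theorem Sz.ltE_div {E : Type*} [NormedAddCommGroup E] {F : L → E} {x y z : L} {m : ℕ} {ρ : ℝ}
    (h : Sz F (ltE y ^ m * (ltE z ^ m)⁻¹) ρ) :
    Sz F (ltE (x * npw y m) * (ltE (x * npw z m))⁻¹) ρ :=
  h.conj_eq ((MG L).mul_mem (ltE_mem x) (rtE_mem x)) (step_conj x y z m)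

/-- the contradiction -/
theorem res_trivial
    (hC2 : ∀ (N n : ℕ), 0 < n → ∃ q : ℕ, ∀ m, 0 < m → ∀ c : ((Fin n × Fin m) → ℤ) → Fin N,
      ∃ a a' g, c a = c a' ∧ It (St2 q) (q * N) (fun p => a p + 1) g ∧ It (St1 q) (2 * N) g a')
    (hL : ∀ U ∈ 𝓝 (1 : L), ∃ n : ℕ, 0 < n ∧ ∀ x : L, npw x n ∈ U) (u : L)
    (hu : (CC.res L).r u 1) : u = 1 := by
  by_contra hne
  obtain ⟨ι, _, F, hF, hsep⟩ := exists_sep hne
  obtain ⟨N, c, hc⟩ := exists_colour hF
  -- the outer level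
  have hN : (0 : ℝ) < 16 * (N + 1) := by positivity
  set ε : ℝ := 1 / (16 * (N + 1)) with hε
  have hε0 : 0 < ε := by positivity
  obtain ⟨n₁, hn₁, h1⟩ := small_pow hL hF (ε := ε / 4) (by positivity)
  have hn₁' : (0 : ℝ) < n₁ := by exact_mod_cast hn₁
  obtain ⟨m, hm, h2⟩ := small_pow hL hF (ε := ε / (4 * n₁)) (by positivity)
  obtain ⟨v, hv, hchain⟩ := exists_chain hm hu (sep_open hF hsep)
  obtain ⟨n, hn⟩ := exists_lv hchain
  have hvO : {v : L | ∀ z, 1 / 2 < ‖F (v * z) - F z‖} ∈ 𝓝 v := sep_open hF hv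
  have hn0 : 0 < n := by
    rcases Nat.eq_zero_or_pos n with h3 | h3
    · subst h3
      have h4 : v = 1 := hn
      have h5 := hv 1
      rw [h4, MLoop.mul_one, sub_self, norm_zero] at h5
      norm_num at h5
    · exact h3
  obtain ⟨q, hq⟩ := hC2 N n hn0
  -- the inner level
  set ρ : ℝ := 1 / (8 * (q * N * q + 1)) with hρ
  have hρ0 : 0 < ρ := by positivity
  have hm0 : (0 : ℝ) < m := by exact_mod_cast hm
  obtain ⟨m', hm', h3⟩ := small_pow hL hF (ε := ρ / m) (by positivity)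
  obtain ⟨x, y, K₀, hx0, hxn, hy0, hy1, hy2⟩ := two_level hm' n v hn _ hvO
  set K := K₀ + 1 with hK
  have hK0 : 0 < K := Nat.succ_pos _
  have hy3 : ∀ i < n, x (i + 1) = x i * npw (y i K) m := fun i hi => hy2 i hi K (by omega)
  set X : ℕ → Equiv.Perm L := pt x y m K with hXdef
  have hX0 : X 0 = 1 := pt_zero hx0 hy0
  have hX : ∀ i, X i ∈ MG L := fun i => ltE_mem _
  have hXn : X (n * K) = ltE (x n) := pt_last hK0 hy0
  -- m-th powers
  have hpow : ∀ w : L, Sz F (ltE w ^ m) (ε / (4 * n₁)) := fun w => by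
    have h4 := h2 w 1
    rwa [mul_one, zpow_natCast] at h4
  have hpow' : ∀ w : L, Sz F (ltE w ^ m') (ρ / m) := fun w => by
    have h4 := h3 w 1
    rwa [mul_one, zpow_natCast] at h4
  -- intervals inside a block
  have hA : ∀ i < n, ∀ s ≤ K, ∀ t ≤ K, ∀ e : ℤ,
      Sz F (X (t + K * i) ^ e * (X (s + K * i) ^ e)⁻¹) ε := by
    intro i hi s hs t ht e
    have h4 : X (t + K * i) = ltE (x i * npw (y i t) m) := pt_in hK0 hy0 hy3 hi ht
    have h5 : X (s + K * i) = ltE (x i * npw (y i s) m) := pt_in hK0 hy0 hy3 hi hs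
    have h6 : Sz F (X (t + K * i) * (X (s + K * i))⁻¹) (ε / (4 * n₁) + ε / (4 * n₁)) := by
      rw [h4, h5]
      exact Sz.ltE_div ((hpow _).mul (hpow _).inv)
    have h7 := h6.uniform (hX _) (hX _) (by positivity) hn₁
      (fun l => by rw [h4]; exact h1 _ l) (fun l => by rw [h5]; exact h1 _ l) e
    refine h7.mono (le_of_eq ?_)
    field_simp
    ring
  -- single leaves
  have hB : ∀ p < n * K, Sz F (X (p + 1) * (X p)⁻¹) ρ := by
    intro p hp
    obtain ⟨i, s, rfl⟩ := exists_pos hp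
    have h4 : X (s.val + K * i.val) = ltE (x i * npw (y i s) m) :=
      pt_in hK0 hy0 hy3 i.isLt s.isLt.le
    have h5 : X (s.val + K * i.val + 1) = ltE (x i * npw (y i (s.val + 1)) m) := by
      have h5 := pt_in (x := x) (y := y) (m := m) hK0 hy0 hy3 i.isLt (s := s.val + 1) s.isLt
      rw [← h5]
      congr 1
      ring
    obtain ⟨w, _, hw⟩ := hy1 i s
    have h6 : Sz F (ltE (y i (s.val + 1)) * (ltE (y i s))⁻¹) (ρ / m) := by
      have h7 : Sz F (ltE w ^ m' * (ltE (1 : L) ^ m')⁻¹) (ρ / m) := by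
        rw [ltE_unit, one_pow, inv_one, mul_one]
        exact hpow' w
      have h8 := Sz.ltE_div (x := y i s) h7
      rw [npw_unit, MLoop.mul_one, ← hw] at h8
      exact h8
    have h7 := h6.zpow (ltE_mem _) (ltE_mem _) (m : ℤ)
    rw [zpow_natCast, zpow_natCast] at h7
    have h8 : Sz F (ltE (y i (s.val + 1)) ^ m * (ltE (y i s) ^ m)⁻¹) ρ := by
      refine h7.mono (le_of_eq ?_)
      rw [Nat.abs_cast, Int.cast_natCast]
      field_simp
    rw [h4, h5]
    exact Sz.ltE_div h8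
  obtain ⟨a, a', g, h4, h5, h6⟩ := hq K hK0 fun a => c (Val X a)
  have h7 := hc _ _ h4
  have h8 := It_norm (fun a => F (Val X a))
    (fun b b' hb => Val_St2 (F := F) hX0 hX hρ0.le hB hb) _ _ _ h5
  have h9 := It_norm (fun a => F (Val X a))
    (fun b b' hb => Val_St1 (F := F) hX0 hX hε0.le hA hb) _ _ _ h6
  have h10 : Val X (fun p => a p + 1) = x n * Val X a := by
    rw [Val_shift hX0, hXn]
    rfl
  rw [h10] at h8
  have h11 := hxn (Val X a)
  have h12 : F (x n * Val X a) - F (Val X a) = (F (x n * Val X a) - F (Val X g)) +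
      (F (Val X g) - F (Val X a')) + (F (Val X a') - F (Val X a)) := by abel
  rw [norm_sub_rev] at h7 h8 h9
  have h13 : ‖F (x n * Val X a) - F (Val X a)‖ ≤ ‖F (x n * Val X a) - F (Val X g)‖ +
      ‖F (Val X g) - F (Val X a')‖ + ‖F (Val X a') - F (Val X a)‖ := by
    rw [h12]
    exact norm_add₃_le
  have h14 : ((q * N : ℕ) : ℝ) * (q * ρ) ≤ 1 / 8 := by
    rw [hρ]
    push_cast
    rw [mul_one_div, ← mul_div_assoc, div_le_div_iff₀ (by positivity) (by norm_num)]
    nlinarith [(Nat.cast_nonneg q : (0 : ℝ) ≤ q), (Nat.cast_nonneg N : (0 : ℝ) ≤ N)]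
  have h15 : ((2 * N : ℕ) : ℝ) * ε ≤ 1 / 8 := by
    rw [hε]
    push_cast
    rw [mul_one_div, div_le_div_iff₀ (by positivity) (by norm_num)]
    nlinarith [(Nat.cast_nonneg N : (0 : ℝ) ≤ N)]
  linarith

end Pool.Agent.MoufangHaar
end
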