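import Mathlib
import Pool.Agent.Lib.MP_fd6bc6_al.Mg.G003
import Pool.Agent.Lib.MP_fd6bc6_al.Mg.G002
import Pool.Agent.Lib.MP_fd6bc6_al.NS.F1

section

set_option autoImplicit false
set_option linter.unusedSectionVars false

open Topology

namespace Pool.Agent.CGrp

open TrA

variable {A : Type*} [NormedRing A] [NormedAlgebra ℝ A] [StarRing A] [StarModule ℝ A]
  [FiniteDimensional ℝ A] [TrA A] [CompleteSpace A]

namespace MG

/-- A linear complement of the Lie algebra (`Submodule.exists_isCompl`, e.g. q), and the map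
(x, y) ↦ ex x * ex y on p × q, with strict derivative (x, y) ↦ x + y at (0, 0), an isomorphism
(`Submodule.prodEquivOfIsCompl`), so by the inverse function theorem
(`HasStrictFDerivAt.map_nhds_eq_of_equiv` / `toOpenPartialHomeomorph`) every element near 1 is ex x * ex y with small x ∈ p,
y ∈ q. -/
theorem exists_factor_ex (p q : Submodule ℝ A) (h : IsCompl p q) (r : ℝ) (hr : 0 < r) :
    ∃ ε > 0, ∀ g : A, ‖g - 1‖ < ε → ∃ x ∈ p, ∃ y ∈ q, ‖x‖ < r ∧ ‖y‖ < r ∧ g = ex x * ex y := by
  have hp : HasStrictFDerivAt (fun z : p × q => ex (z.1 : A))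
      (p.subtypeL.comp (ContinuousLinearMap.fst ℝ p q)) 0 := by
    have h1 : HasStrictFDerivAt (fun z : p × q => (z.1 : A))
        (p.subtypeL.comp (ContinuousLinearMap.fst ℝ p q)) 0 :=
      (p.subtypeL.comp (ContinuousLinearMap.fst ℝ p q)).hasStrictFDerivAt
    have h2 : HasStrictFDerivAt (ex : A → A) (ContinuousLinearMap.id ℝ A)
        ((fun z : p × q => (z.1 : A)) 0) := hasStrictFDerivAt_ex_zero
    have h3 := h2.comp (0 : p × q) h1
    rw [ContinuousLinearMap.id_comp] at h3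
    exact h3
  have hq : HasStrictFDerivAt (fun z : p × q => ex (z.2 : A))
      (q.subtypeL.comp (ContinuousLinearMap.snd ℝ p q)) 0 := by
    have h1 : HasStrictFDerivAt (fun z : p × q => (z.2 : A))
        (q.subtypeL.comp (ContinuousLinearMap.snd ℝ p q)) 0 :=
      (q.subtypeL.comp (ContinuousLinearMap.snd ℝ p q)).hasStrictFDerivAt
    have h2 : HasStrictFDerivAt (ex : A → A) (ContinuousLinearMap.id ℝ A)
        ((fun z : p × q => (z.2 : A)) 0) := hasStrictFDerivAt_ex_zero
    have h3 := h2.comp (0 : p × q) h1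
    rw [ContinuousLinearMap.id_comp] at h3
    exact h3
  let e : (p × q) ≃L[ℝ] A := (Submodule.prodEquivOfIsCompl p q h).toContinuousLinearEquiv
  have hf : HasStrictFDerivAt (fun z : p × q => ex (z.1 : A) * ex (z.2 : A))
      (e : (p × q) →L[ℝ] A) 0 := by
    have h1 := hp.mul' hq
    have hE : (e : (p × q) →L[ℝ] A) = ex (((0 : p × q).1 : A)) •
          (q.subtypeL.comp (ContinuousLinearMap.snd ℝ p q)) +
        MulOpposite.op (ex (((0 : p × q).2 : A))) •
          (p.subtypeL.comp (ContinuousLinearMap.fst ℝ p q)) := by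
      refine ContinuousLinearMap.ext fun z => ?_
      have h2 : (e : (p × q) →L[ℝ] A) z = (z.1 : A) + (z.2 : A) := rfl
      rw [h2]
      simp [ex_zero]
      exact add_comm _ _
    rw [hE]
    exact h1
  have hmap := hf.map_nhds_eq_of_equiv
  have h0 : ex (((0 : p × q).1 : A)) * ex (((0 : p × q).2 : A)) = 1 := by
    simp [ex_zero]
  rw [h0] at hmap
  have hV : {z : p × q | ‖z‖ < r} ∈ 𝓝 (0 : p × q) := by
    have h1 := Metric.ball_mem_nhds (0 : p × q) hr
    have h2 : {z : p × q | ‖z‖ < r} = Metric.ball (0 : p × q) r := by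
      ext z
      simp
    rw [h2]
    exact h1
  have hV' := Filter.image_mem_map (m := fun z : p × q => ex (z.1 : A) * ex (z.2 : A)) hV
  rw [hmap, Metric.mem_nhds_iff] at hV'
  obtain ⟨ε, hε, hball⟩ := hV'
  refine ⟨ε, hε, ?_⟩
  intro g hg
  have hgb : g ∈ Metric.ball (1 : A) ε := by
    rw [Metric.mem_ball, dist_eq_norm]
    exact hg
  obtain ⟨⟨x, y⟩, hz, hgz⟩ := hball hgb
  have hz' : ‖((x, y) : p × q)‖ < r := hz
  rw [Prod.norm_def, max_lt_iff] at hz'
  exact ⟨x, x.2, y, y.2, hz'.1, hz'.2, hgz.symm⟩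

/-- CLOSED SUBGROUP THEOREM: small elements of G are exponentials of small elements of its Lie algebra.
Otherwise there are r > 0 and g_k ∈ G, g_k -> 1, which are not; by exists_factor_ex (with a complement q
of G.lie, radii 1/k) g_k = ex x_k ex y_k with x_k, y_k -> 0, x_k ∈ lie, y_k ∈ q. Then y_k ≠ 0 (else
g_k = ex x_k) for large k, ex y_k = ex (-x_k) g_k ∈ G. A subsequence of ‖y_k‖⁻¹ y_k converges (unit
sphere compact) to z, ‖z‖ = 1, z ∈ q (closed subspace), z ∈ lie by lie_limit: contradiction to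
lie ∩ q = 0. -/
theorem small_eq_ex (G : MG A) (r : ℝ) (hr : 0 < r) :
    ∃ ε > 0, ∀ g ∈ G.S, ‖g - 1‖ < ε → ∃ x ∈ G.lie, ‖x‖ < r ∧ g = ex x := by
  by_contra hcon
  push Not at hcon
  obtain ⟨q, hq⟩ := Submodule.exists_isCompl G.lie
  have hstep : ∀ k : ℕ, ∃ y ∈ q, y ≠ 0 ∧ ‖y‖ < 1 / ((k : ℝ) + 1) ∧ ex y ∈ G.S := by
    intro k
    have hrk : 0 < min r (1 / ((k : ℝ) + 1)) := lt_min hr (by positivity)
    obtain ⟨ε, hε, hfac⟩ := exists_factor_ex G.lie q hq _ hrk
    obtain ⟨g, hg, hg1, hgne⟩ := hcon ε hε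
    obtain ⟨x, hx, y, hy, hxr, hyr, hgxy⟩ := hfac g hg1
    refine ⟨y, hy, ?_, lt_of_lt_of_le hyr (min_le_right _ _), ?_⟩
    · rintro rfl
      rw [ex_zero, mul_one] at hgxy
      exact hgne x hx (lt_of_lt_of_le hxr (min_le_left _ _)) hgxy
    · have h1 : ex y = ex (-x) * g := by
        rw [hgxy, ← mul_assoc, ex_neg_mul, one_mul]
      rw [h1]
      exact G.mul _ (G.ex_mem (G.lie.neg_mem hx)) _ hg
  choose y hyq hy0 hyn hyG using hstep
  have : ProperSpace A := FiniteDimensional.proper ℝ A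
  have hsph : ∀ k, ‖y k‖⁻¹ • y k ∈ Metric.sphere (0 : A) 1 := by
    intro k
    rw [mem_sphere_zero_iff_norm, norm_smul, norm_inv, norm_norm,
      inv_mul_cancel₀ (norm_ne_zero_iff.mpr (hy0 k))]
  obtain ⟨z, hz, φ, hφ, hlim⟩ := (isCompact_sphere (0 : A) 1).tendsto_subseq hsph
  have hzq : z ∈ q := by
    have hcl : IsClosed (q : Set A) := q.closed_of_finiteDimensional
    refine hcl.mem_of_tendsto hlim (Filter.Eventually.of_forall fun k => ?_)
    exact q.smul_mem _ (hyq _)
  have hy00 : Filter.Tendsto y Filter.atTop (𝓝 0) := by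
    refine squeeze_zero_norm (fun k => (hyn k).le) tendsto_one_div_add_atTop_nhds_zero_nat
  have hzl : z ∈ G.lie :=
    G.lie_limit (fun k => y (φ k)) z (hy00.comp hφ.tendsto_atTop) (fun k => hy0 _)
      (fun k => hyG _) hlim
  have hz0 : z = 0 := by
    have h1 : z ∈ G.lie ⊓ q := ⟨hzl, hzq⟩
    rw [hq.inf_eq_bot] at h1
    exact (Submodule.mem_bot ℝ).mp h1
  rw [hz0, mem_sphere_zero_iff_norm, norm_zero] at hz
  exact zero_ne_one hz

end MG

end Pool.Agent.CGrp
end

section

set_option autoImplicit false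
set_option linter.unusedSectionVars false

open Topology

namespace Pool.Agent.CGrp

open TrA

variable {A : Type*} [NormedRing A] [NormedAlgebra ℝ A] [StarRing A] [StarModule ℝ A]
  [FiniteDimensional ℝ A] [TrA A] [CompleteSpace A]

namespace MG

/-- A connected group is generated by its small elements: the set P of finite products of elements g of G
with ‖g - 1‖ < ε is open in G (p g' is near p if ‖p⁻¹ p' - 1‖ < ε, see norm_unitary_mul) and its
complement in G is a union of cosets p P, also open; 1 ∈ P, so P = G by connectedness. -/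
theorem exists_list (G : MG A) (hG : IsConnected G.S) (ε : ℝ) (hε : 0 < ε) (g : A) (hg : g ∈ G.S) :
    ∃ l : List A, (∀ u ∈ l, u ∈ G.S ∧ ‖u - 1‖ < ε) ∧ l.prod = g := by
  classical
  set P : Set A := {x | x ∈ G.S ∧ ∃ l : List A, (∀ u ∈ l, u ∈ G.S ∧ ‖u - 1‖ < ε) ∧ l.prod = x} with hP
  have key : ∀ x ∈ P, ∀ x' ∈ G.S, ‖x' - x‖ < ε → x' ∈ P := by
    rintro x ⟨hxG, l, hl, hlx⟩ x' hx' hd
    refine ⟨hx', l ++ [star x * x'], ?_, ?_⟩
    · intro u hu
      rw [List.mem_append, List.mem_singleton] at hu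
      rcases hu with hu | hu
      · exact hl u hu
      · rw [hu]
        refine ⟨G.mul _ (G.star_mem _ hxG) _ hx', ?_⟩
        have h1 : star x * x' - 1 = star x * (x' - x) := by
          rw [mul_sub, (G.unit x hxG).1]
        have h2 : star (star x) * star x = 1 := by
          rw [star_star]; exact (G.unit x hxG).2
        rw [h1, norm_unitary_mul h2]
        exact hd
    · rw [List.prod_append, List.prod_singleton, hlx, ← mul_assoc, (G.unit x hxG).2, one_mul]
  by_contra hcon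
  have hgP : g ∉ P := fun h => hcon h.2
  have h1P : (1 : A) ∈ P := ⟨G.one, [], by simp, by simp⟩
  have hpre := hG.isPreconnected
  have hU : IsOpen (⋃ x ∈ P, Metric.ball x (ε / 2)) :=
    isOpen_biUnion fun _ _ => Metric.isOpen_ball
  have hV : IsOpen (⋃ x ∈ (G.S \ P), Metric.ball x (ε / 2)) :=
    isOpen_biUnion fun _ _ => Metric.isOpen_ball
  have hε2 : 0 < ε / 2 := half_pos hε
  obtain ⟨a, haG, haU, haV⟩ := hpre _ _ hU hV
    (by
      intro a ha
      by_cases haP : a ∈ P
      · left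
        exact Set.mem_biUnion haP (Metric.mem_ball_self hε2)
      · right
        exact Set.mem_biUnion (show a ∈ G.S \ P from ⟨ha, haP⟩) (Metric.mem_ball_self hε2))
    ⟨1, G.one, Set.mem_biUnion h1P (Metric.mem_ball_self hε2)⟩
    ⟨g, hg, Set.mem_biUnion (show g ∈ G.S \ P from ⟨hg, hgP⟩) (Metric.mem_ball_self hε2)⟩
  simp only [Set.mem_iUnion, exists_prop] at haU haV
  obtain ⟨x, hxP, hax⟩ := haU
  obtain ⟨y, hyP, hay⟩ := haV
  apply hyP.2
  apply key x hxP y hyP.1
  rw [Metric.mem_ball] at hax hay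
  calc ‖y - x‖ = dist y x := (dist_eq_norm y x).symm
    _ ≤ dist y a + dist a x := dist_triangle _ _ _
    _ < ε / 2 + ε / 2 := by rw [dist_comm y a]; exact add_lt_add hay hax
    _ = ε := add_halves ε

omit [StarRing A] [StarModule ℝ A] [FiniteDimensional ℝ A] [TrA A] in
private theorem norm_ex_sub_one_le {y : A} (hy : ‖y‖ ≤ 1 / 4) : ‖ex y - 1‖ ≤ 2 * ‖y‖ := by
  have h1 := ex_rem y
  have h2 : ‖ex y - 1‖ ≤ ‖ex y - 1 - y‖ + ‖y‖ := by
    calc ‖ex y - 1‖ = ‖(ex y - 1 - y) + y‖ := by rw [sub_add_cancel]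
      _ ≤ _ := norm_add_le _ _
  have h3 : Real.exp ‖y‖ ≤ 4 := by
    have h4 : Real.exp ‖y‖ ≤ Real.exp 1 := Real.exp_le_exp.mpr (by linarith)
    have h5 := Real.exp_one_lt_d9
    linarith
  have h6 : 0 ≤ ‖y‖ := norm_nonneg y
  have h7 : ‖y‖ ^ 2 * Real.exp ‖y‖ ≤ ‖y‖ := by
    have h8 : ‖y‖ ^ 2 * Real.exp ‖y‖ ≤ ‖y‖ ^ 2 * 4 :=
      mul_le_mul_of_nonneg_left h3 (sq_nonneg _)
    have h9 : ‖y‖ ^ 2 * 4 ≤ ‖y‖ := by nlinarith
    linarith
  linarith

private theorem prod_flatMap_rep (k : ℕ) (f h : A → A) (l : List A)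
    (hf : ∀ v ∈ l, f v ^ k = h v) :
    (l.flatMap fun v => List.replicate k (f v)).prod = (l.map h).prod := by
  induction l with
  | nil => simp
  | cons a l ih =>
    rw [List.flatMap_cons, List.prod_append, List.prod_replicate, List.map_cons, List.prod_cons,
      ih (fun v hv => hf v (List.mem_cons_of_mem _ hv)), hf a List.mem_cons_self]

private theorem length_flatMap_rep (k : ℕ) (f : A → A) (l : List A) :
    (l.flatMap fun v => List.replicate k (f v)).length = l.length * k := by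
  induction l with
  | nil => simp
  | cons a l ih =>
    rw [List.flatMap_cons, List.length_append, List.length_replicate, ih, List.length_cons]
    ring

/-- Decompositions of small energy: take ε' from small_eq_ex with r = 1/4, a list v_1..v_m from exists_list
with ‖v_j - 1‖ < ε', v_j = ex x_j, ‖x_j‖ < 1/4, and replace every v_j by k copies of ex (x_j / k) (product
v_j by ex_nsmul). ‖ex y - 1‖ <= 2 ‖y‖ for ‖y‖ <= 1/4 (ex_rem), so every term is at distance at most
1/(2k) from 1 and the sum of the squares is at most m k / (4 k²) = m / (4k) -> 0. -/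
theorem exists_short (G : MG A) (hG : IsConnected G.S) (ε : ℝ) (hε : 0 < ε) (g : A)
    (hg : g ∈ G.S) : ∃ (N : ℕ) (u : Fin N → A), (∀ i, u i ∈ G.S ∧ ‖u i - 1‖ ≤ ε) ∧
      (List.ofFn u).prod = g ∧ ∑ i, ‖u i - 1‖ ^ 2 < ε ^ 2 := by
  classical
  obtain ⟨ε', hε', hsm⟩ := G.small_eq_ex (1 / 4) (by norm_num)
  obtain ⟨l, hl, hlg⟩ := G.exists_list hG ε' hε' g hg
  have hch : ∀ v : A, ∃ x : A, v ∈ l → (x ∈ G.lie ∧ ‖x‖ < 1 / 4 ∧ v = ex x) := by
    intro v
    by_cases hv : v ∈ l
    · obtain ⟨x, hx, hxr, hvx⟩ := hsm v (hl v hv).1 (hl v hv).2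
      exact ⟨x, fun _ => ⟨hx, hxr, hvx⟩⟩
    · exact ⟨0, fun h => absurd h hv⟩
  choose X hX using hch
  obtain ⟨k, hk⟩ := exists_nat_gt (max (1 / (2 * ε)) ((l.length : ℝ) / (4 * ε ^ 2)))
  have hk1 : 1 / (2 * ε) < (k : ℝ) := lt_of_le_of_lt (le_max_left _ _) hk
  have hk2 : (l.length : ℝ) / (4 * ε ^ 2) < (k : ℝ) := lt_of_le_of_lt (le_max_right _ _) hk
  have hkpos : (0 : ℝ) < k := lt_trans (by positivity) hk1
  have hk0 : k ≠ 0 := by
    intro h
    rw [h] at hkpos
    simp at hkpos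
  set f : A → A := fun v => ex ((k : ℝ)⁻¹ • X v) with hf
  set L : List A := l.flatMap fun v => List.replicate k (f v) with hL
  have hpow : ∀ v ∈ l, f v ^ k = v := by
    intro v hv
    rw [hf]
    dsimp only
    rw [← ex_nsmul, smul_smul, mul_inv_cancel₀ hkpos.ne', one_smul]
    exact (hX v hv).2.2.symm
  have hLprod : L.prod = g := by
    rw [hL, prod_flatMap_rep k f id l hpow, List.map_id, hlg]
  have hLlen : L.length = l.length * k := length_flatMap_rep k f l
  have hmem : ∀ w ∈ L, w ∈ G.S ∧ ‖w - 1‖ ≤ 1 / (2 * k) := by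
    intro w hw
    rw [hL, List.mem_flatMap] at hw
    obtain ⟨v, hv, hw⟩ := hw
    rw [List.mem_replicate] at hw
    rw [hw.2]
    obtain ⟨hx, hxr, -⟩ := hX v hv
    refine ⟨hx _, ?_⟩
    have hn : ‖(k : ℝ)⁻¹ • X v‖ = (k : ℝ)⁻¹ * ‖X v‖ := by
      rw [norm_smul, Real.norm_eq_abs, abs_of_pos (inv_pos.mpr hkpos)]
    have hk1' : (k : ℝ)⁻¹ ≤ 1 := by
      apply inv_le_one_of_one_le₀
      exact_mod_cast Nat.one_le_iff_ne_zero.mpr hk0
    have hle : ‖(k : ℝ)⁻¹ • X v‖ ≤ (k : ℝ)⁻¹ * (1 / 4) := by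
      rw [hn]
      exact mul_le_mul_of_nonneg_left hxr.le (inv_pos.mpr hkpos).le
    have hle4 : ‖(k : ℝ)⁻¹ • X v‖ ≤ 1 / 4 := by
      refine le_trans hle ?_
      linarith
    refine le_trans (norm_ex_sub_one_le hle4) ?_
    calc 2 * ‖(k : ℝ)⁻¹ • X v‖ ≤ 2 * ((k : ℝ)⁻¹ * (1 / 4)) := by linarith
      _ = 1 / (2 * k) := by field_simp; norm_num
  have hεk : 1 / (2 * (k : ℝ)) ≤ ε := by
    rw [div_lt_iff₀ (by positivity)] at hk1
    rw [div_le_iff₀ (by positivity)]
    nlinarith
  refine ⟨L.length, L.get, ?_, ?_, ?_⟩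
  · intro i
    have h := hmem (L.get i) (List.get_mem L i)
    exact ⟨h.1, le_trans h.2 hεk⟩
  · rw [List.ofFn_get]
    exact hLprod
  · calc ∑ i, ‖L.get i - 1‖ ^ 2 ≤ ∑ _i : Fin L.length, (1 / (2 * (k : ℝ))) ^ 2 := by
          apply Finset.sum_le_sum
          intro i _
          exact pow_le_pow_left₀ (norm_nonneg _) (hmem (L.get i) (List.get_mem L i)).2 2
      _ = (l.length : ℝ) / (4 * k) := by
          rw [Finset.sum_const, Finset.card_univ, Fintype.card_fin, nsmul_eq_mul, hLlen]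
          push_cast
          field_simp
          norm_num
      _ < ε ^ 2 := by
          rw [div_lt_iff₀ (by positivity)] at hk2
          rw [div_lt_iff₀ (by positivity)]
          nlinarith

/-- Elements of G near 1 with the same pairing with the Lie algebra are equal. Take ε from small_eq_ex
with r = 1/2: u = ex x, u' = ex x', D = x - x' ∈ lie is skew, so 0 = τ ((u - u') D) = τ (D D) +
τ (((ex x - x) - (ex x' - x')) D) <= -‖D‖² + (e^(1/2) - 1) ‖D‖² (τ_skew, abs_τ_le, ex_lip), and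
e^(1/2) - 1 < 1, so D = 0. -/
theorem eq_of_pairing (G : MG A) : ∃ ε > 0, ∀ u ∈ G.S, ∀ u' ∈ G.S, ‖u - 1‖ < ε → ‖u' - 1‖ < ε →
    (∀ z ∈ G.lie, τ (u * z) = τ (u' * z)) → u = u' := by
  obtain ⟨ε, hε, hsm⟩ := G.small_eq_ex (1 / 2) (by norm_num)
  refine ⟨ε, hε, ?_⟩
  intro u hu u' hu' hu1 hu1' hp
  obtain ⟨x, hx, hxr, rfl⟩ := hsm u hu hu1
  obtain ⟨x', hx', hxr', rfl⟩ := hsm u' hu' hu1'
  have hD : x - x' ∈ G.lie := G.lie.sub_mem hx hx'
  have h0 := hp _ hD
  have hsk : star (x - x') = -(x - x') := G.lie_skew hD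
  have h1 := τ_skew hsk
  have h2 := abs_τ_le ((ex x - x) - (ex x' - x')) (x - x')
  have h3 := ex_lip hxr.le hxr'.le
  have h4 : τ (((ex x - x) - (ex x' - x')) * (x - x')) = -τ ((x - x') * (x - x')) := by
    have h5 : ((ex x - x) - (ex x' - x')) * (x - x') =
        ex x * (x - x') - ex x' * (x - x') - (x - x') * (x - x') := by
      noncomm_ring
    rw [h5, map_sub, map_sub, h0]
    ring
  have h6 : Real.exp (1 / 2) < 2 := by
    have h7 : Real.exp (1 / 2) ^ 2 = Real.exp 1 := by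
      rw [← Real.exp_nat_mul]
      norm_num
    have h8 := Real.exp_one_lt_d9
    have h9 := Real.exp_pos (1 / 2)
    nlinarith
  rw [h4, h1, neg_neg, abs_of_nonneg (sq_nonneg _)] at h2
  have h10 : ‖(ex x - x) - (ex x' - x')‖ * ‖x - x'‖ ≤
      ((Real.exp (1 / 2) - 1) * ‖x - x'‖) * ‖x - x'‖ :=
    mul_le_mul_of_nonneg_right h3 (norm_nonneg _)
  have h11 : ‖x - x'‖ = 0 := by
    have h12 := norm_nonneg (x - x')
    by_contra hne
    have h13 : 0 < ‖x - x'‖ := lt_of_le_of_ne h12 (Ne.symm hne)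
    nlinarith [mul_pos h13 h13]
  rw [sub_eq_zero.mp (norm_eq_zero.mp h11)]

end MG

end Pool.Agent.CGrp
end

section

set_option autoImplicit false
set_option linter.unusedSectionVars false

open Topology

namespace Pool.Agent.CGrp

open TrA

variable {A : Type*} [NormedRing A] [NormedAlgebra ℝ A] [StarRing A] [StarModule ℝ A]
  [FiniteDimensional ℝ A] [TrA A] [CompleteSpace A]

private theorem to4b_sum {N : ℕ} (f g : Fin N → ℝ) (i i' : Fin N) (hne : i ≠ i')
    (h : ∀ j, j ≠ i → j ≠ i' → f j = g j) (hs : ∑ j, f j ≤ ∑ j, g j) :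
    f i + f i' ≤ g i + g i' := by
  have h1 : ∀ e : Fin N → ℝ, ∑ j, e j =
      e i' + (e i + ∑ j ∈ (Finset.univ.erase i').erase i, e j) := by
    intro e
    rw [Finset.add_sum_erase _ e (Finset.mem_erase.2 ⟨hne, Finset.mem_univ i⟩),
      Finset.add_sum_erase _ e (Finset.mem_univ i')]
  rw [h1 f, h1 g] at hs
  have h2 : ∑ j ∈ (Finset.univ.erase i').erase i, f j =
      ∑ j ∈ (Finset.univ.erase i').erase i, g j := by
    refine Finset.sum_congr rfl fun j hj => ?_
    rw [Finset.mem_erase, Finset.mem_erase] at hj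
    exact h j hj.1 hj.2.1
  linarith

namespace MG

/-- First variation at a minimum u with all ‖u i - 1‖ < ε: for z ∈ lie and small real t the modified
decomposition u_i ex (t z), ex (-t z) u_(i+1) is admissible (prod_update), so
f t = ‖u_i ex (t z) - 1‖² + ‖ex (-t z) u_(i+1) - 1‖² has a local minimum at t = 0. By norm_sub_one_sq
f t = 4 τ 1 - 2 τ (u_i ex (t z)) - 2 τ (ex (-t z) u_(i+1)), and f' 0 = -2 τ (u_i z) + 2 τ (z u_(i+1)) = 0
(hasDerivAt_ex_smul, τ is a continuous linear map, τ_comm). -/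
theorem pairing_of_min (G : MG A) (ε : ℝ) (N : ℕ) (g : A) (u : Fin N → A)
    (hu : u ∈ G.Dec ε N g) (hlt : ∀ i, ‖u i - 1‖ < ε)
    (hmin : ∀ v ∈ G.Dec ε N g, ∑ i, ‖u i - 1‖ ^ 2 ≤ ∑ i, ‖v i - 1‖ ^ 2)
    (i : ℕ) (hi : i + 1 < N) (z : A) (hz : z ∈ G.lie) :
    τ (u ⟨i, by omega⟩ * z) = τ (u ⟨i + 1, hi⟩ * z) := by
  set i0 : Fin N := ⟨i, by omega⟩ with hi0
  set i1 : Fin N := ⟨i + 1, hi⟩ with hi1
  have hne : i0 ≠ i1 := by
    intro h
    have h1 := congrArg Fin.val h
    simp only [hi0, hi1] at h1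
    omega
  have huG : ∀ j, u j ∈ G.S := fun j => (hu.1 j).1
  have hz1 : ∀ t : ℝ, ex (t • z) ∈ G.S := hz
  have hz2 : ∀ t : ℝ, ex (-(t • z)) ∈ G.S := fun t => by
    have h1 := hz (-t)
    rwa [neg_smul] at h1
  -- the functions
  have hc1 : Continuous fun t : ℝ => u i0 * ex (t • z) :=
    continuous_const.mul (continuous_ex.comp (continuous_id.smul continuous_const))
  have hc2 : Continuous fun t : ℝ => ex (-(t • z)) * u i1 :=
    (continuous_ex.comp (continuous_id.smul continuous_const).neg).mul continuous_const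
  have he1 : ∀ᶠ t : ℝ in 𝓝 0, ‖u i0 * ex (t • z) - 1‖ < ε := by
    have h1 : Filter.Tendsto (fun t : ℝ => ‖u i0 * ex (t • z) - 1‖) (𝓝 0)
        (𝓝 ‖u i0 * ex ((0 : ℝ) • z) - 1‖) := ((hc1.sub continuous_const).norm).tendsto 0
    rw [zero_smul, ex_zero, mul_one] at h1
    exact h1.eventually (gt_mem_nhds (hlt i0))
  have he2 : ∀ᶠ t : ℝ in 𝓝 0, ‖ex (-(t • z)) * u i1 - 1‖ < ε := by
    have h1 : Filter.Tendsto (fun t : ℝ => ‖ex (-(t • z)) * u i1 - 1‖) (𝓝 0)
        (𝓝 ‖ex (-((0 : ℝ) • z)) * u i1 - 1‖) := ((hc2.sub continuous_const).norm).tendsto 0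
    rw [zero_smul, neg_zero, ex_zero, one_mul] at h1
    exact h1.eventually (gt_mem_nhds (hlt i1))
  have hmax : IsLocalMax (fun t : ℝ => (τ (u i0 * ex (t • z)) : ℝ) + τ (ex (-(t • z)) * u i1)) 0 := by
    filter_upwards [he1, he2] with t ht1 ht2
    set v : Fin N → A := Function.update (Function.update u i0 (u i0 * ex (t • z)))
      i1 (ex (-(t • z)) * u i1) with hv
    have hv1 : v i1 = ex (-(t • z)) * u i1 := by
      rw [hv, Function.update_self]
    have hv0 : v i0 = u i0 * ex (t • z) := by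
      rw [hv, Function.update_of_ne hne, Function.update_self]
    have hvj : ∀ j, j ≠ i0 → j ≠ i1 → v j = u j := by
      intro j h0 h1
      rw [hv, Function.update_of_ne h1, Function.update_of_ne h0]
    have hvD : v ∈ G.Dec ε N g := by
      refine ⟨fun j => ?_, ?_⟩
      · by_cases h1 : j = i1
        · rw [h1, hv1]
          exact ⟨G.mul _ (hz2 t) _ (huG i1), ht2.le⟩
        · by_cases h0 : j = i0
          · rw [h0, hv0]
            exact ⟨G.mul _ (huG i0) _ (hz1 t), ht1.le⟩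
          · rw [hvj j h0 h1]
            exact hu.1 j
      · have h1 := prod_update u i hi (ex (t • z)) (ex (-(t • z))) (ex_mul_neg _)
        exact h1.trans hu.2
    have h2 := to4b_sum (fun j => ‖u j - 1‖ ^ 2) (fun j => ‖v j - 1‖ ^ 2) i0 i1 hne
      (fun j h0 h1 => by simp only [hvj j h0 h1]) (hmin v hvD)
    simp only [hv0, hv1] at h2
    rw [norm_sub_one_sq (G.unit _ (huG i0)).1, norm_sub_one_sq (G.unit _ (huG i1)).1,
      norm_sub_one_sq (G.unit _ (G.mul _ (huG i0) _ (hz1 t))).1,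
      norm_sub_one_sq (G.unit _ (G.mul _ (hz2 t) _ (huG i1))).1] at h2
    show (τ (u i0 * ex (t • z)) : ℝ) + τ (ex (-(t • z)) * u i1) ≤
      τ (u i0 * ex ((0 : ℝ) • z)) + τ (ex (-((0 : ℝ) • z)) * u i1)
    rw [zero_smul, neg_zero, ex_zero, mul_one, one_mul]
    linarith
  have hd1 : HasDerivAt (fun t : ℝ => u i0 * ex (t • z)) (u i0 * z) 0 :=
    (hasDerivAt_ex_smul z).const_mul _
  have hd2 : HasDerivAt (fun t : ℝ => ex (-(t • z)) * u i1) (-z * u i1) 0 := by
    have h1 := (hasDerivAt_ex_smul (-z)).mul_const (u i1)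
    simp only [smul_neg] at h1
    exact h1
  have hτ : ∀ (c : ℝ → A) (c' : A), HasDerivAt c c' 0 →
      HasDerivAt (fun t => (τ (c t) : ℝ)) (τ c') 0 := by
    intro c c' hc
    exact ((LinearMap.toContinuousLinearMap (τ : A →ₗ[ℝ] ℝ)).hasFDerivAt (x := c 0)).comp_hasDerivAt
      0 hc
  have h3 := hmax.hasDerivAt_eq_zero ((hτ _ _ hd1).add (hτ _ _ hd2))
  rw [neg_mul, map_neg, τ_comm z] at h3
  linarith

/-- EVERY element of a connected group of unitary elements is an exponential. Let ε be the minimum of the ε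
of eq_of_pairing and the ε of small_eq_ex (r = 1). exists_short with this ε gives N and an element of Dec ε N g
with energy < ε²; a minimiser u (exists_min) has energy < ε², so every ‖u i - 1‖ < ε; by pairing_of_min
and eq_of_pairing all u i are equal to one u₀ = ex x, x ∈ lie (if N = 0 then g = 1 = ex 0), and
g = u₀^N = ex (N x). -/
theorem exists_log (G : MG A) (hG : IsConnected G.S) (g : A) (hg : g ∈ G.S) :
    ∃ x ∈ G.lie, g = ex x := by
  obtain ⟨ε1, hε1, h1⟩ := G.eq_of_pairing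
  obtain ⟨ε2, hε2, h2⟩ := G.small_eq_ex 1 one_pos
  have hε : 0 < min ε1 ε2 := lt_min hε1 hε2
  obtain ⟨N, u, hu1, hu2, hu3⟩ := G.exists_short hG (min ε1 ε2) hε g hg
  obtain ⟨v, hv, hmin⟩ := G.exists_min (min ε1 ε2) N g ⟨u, hu1, hu2⟩
  have hlt : ∀ i, ‖v i - 1‖ < min ε1 ε2 := by
    intro i
    have h3 : ‖v i - 1‖ ^ 2 ≤ ∑ j, ‖v j - 1‖ ^ 2 :=
      Finset.single_le_sum (f := fun j => ‖v j - 1‖ ^ 2) (fun _ _ => sq_nonneg _)
        (Finset.mem_univ i)
    have h4 := hmin u ⟨hu1, hu2⟩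
    exact lt_of_pow_lt_pow_left₀ 2 hε.le (by linarith)
  have hstep : ∀ (i : ℕ) (hi : i + 1 < N), v ⟨i, by omega⟩ = v ⟨i + 1, hi⟩ := by
    intro i hi
    exact h1 _ (hv.1 _).1 _ (hv.1 _).1 ((hlt _).trans_le (min_le_left _ _))
      ((hlt _).trans_le (min_le_left _ _))
      (fun z hz => pairing_of_min G (min ε1 ε2) N g v hv hlt hmin i hi z hz)
  rcases Nat.eq_zero_or_pos N with hN | hN
  · subst hN
    refine ⟨0, G.lie.zero_mem, ?_⟩
    rw [ex_zero, ← hv.2]
    simp
  · have hall : ∀ (i : ℕ) (hi : i < N), v ⟨i, hi⟩ = v ⟨0, hN⟩ := by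
      intro i
      induction i with
      | zero => intro _; rfl
      | succ i ih =>
        intro hi
        rw [← hstep i hi]
        exact ih (by omega)
    have hconst : v = fun _ => v ⟨0, hN⟩ := by
      funext i
      exact hall i.val i.isLt
    obtain ⟨x, hx, -, hxv⟩ := h2 _ (hv.1 ⟨0, hN⟩).1 ((hlt ⟨0, hN⟩).trans_le (min_le_right _ _))
    refine ⟨((N : ℕ) : ℝ) • x, G.lie.smul_mem _ hx, ?_⟩
    rw [ex_nsmul, ← hxv, ← hv.2]
    conv_lhs => rw [hconst]
    rw [List.ofFn_const, List.prod_replicate]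

end MG

end Pool.Agent.CGrp
end

section

set_option autoImplicit false
set_option linter.unusedSectionVars false

open Topology

namespace Pool.Agent.CGrp

open TrA

variable {A : Type*} [NormedRing A] [NormedAlgebra ℝ A] [StarRing A] [StarModule ℝ A]
  [FiniteDimensional ℝ A] [TrA A] [CompleteSpace A]

/-- A generic element of the Lie algebra of a maximal torus. b from exists_gen is ex y, y ∈ T.lie
(exists_log). Let x ∈ G.lie commute with y. Then all ex (s x) commute with b (ex_commute), so with all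
elements of T (apply exists_gen to the closed group D of the elements of G which commute with all
ex (s x)). The set X of all ex (s x) t, s real, t ∈ T, is an abelian connected group (image of
ℝ × T.S), its closure is a torus containing T (exists_tor_closure), so ex (s x) ∈ T for all s. -/
theorem exists_generic (G T : MG A) (h : MaxTor G T) :
    ∃ y ∈ T.lie, ∀ x ∈ G.lie, x * y = y * x → x ∈ T.lie := by
  obtain ⟨b, hb, hgen⟩ := exists_gen G T h.1
  obtain ⟨y, hy, hby⟩ := T.exists_log h.1.conn b hb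
  refine ⟨y, hy, ?_⟩
  intro x hx hxy
  have hsk : star x = -x := G.lie_skew hx
  have hcb : ∀ s : ℝ, b * ex (s • x) = ex (s • x) * b := by
    intro s
    have h1 : Commute (s • x) y := Commute.smul_left hxy s
    have h2 : Commute (ex (s • x)) y := ex_commute h1
    have h3 : Commute (ex y) (ex (s • x)) := ex_commute h2.symm
    rw [hby]
    exact h3
  have hclosed : IsClosed {g : A | g ∈ G.S ∧ ∀ s : ℝ, g * ex (s • x) = ex (s • x) * g} := by
    have h1 : {g : A | g ∈ G.S ∧ ∀ s : ℝ, g * ex (s • x) = ex (s • x) * g} =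
        G.S ∩ ⋂ s : ℝ, {g : A | g * ex (s • x) = ex (s • x) * g} := by
      ext g
      simp [Set.mem_iInter]
    rw [h1]
    refine G.closed.inter (isClosed_iInter fun s => ?_)
    exact isClosed_eq (continuous_id.mul continuous_const) (continuous_const.mul continuous_id)
  let D : MG A :=
    { S := {g : A | g ∈ G.S ∧ ∀ s : ℝ, g * ex (s • x) = ex (s • x) * g}
      closed := hclosed
      one := ⟨G.one, fun s => by rw [one_mul, mul_one]⟩
      mul := fun a ha c hc => ⟨G.mul a ha.1 c hc.1, fun s => by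
        rw [mul_assoc, hc.2 s, ← mul_assoc, ha.2 s, mul_assoc]⟩
      star_mem := fun a ha => ⟨G.star_mem a ha.1, fun s => by
        have h1 := (G.unit a ha.1).1
        have h2 := (G.unit a ha.1).2
        calc star a * ex (s • x) = star a * ex (s • x) * (a * star a) := by rw [h2, mul_one]
          _ = star a * (ex (s • x) * a) * star a := by simp only [mul_assoc]
          _ = star a * (a * ex (s • x)) * star a := by rw [ha.2 s]
          _ = (star a * a) * ex (s • x) * star a := by simp only [mul_assoc]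
          _ = ex (s • x) * star a := by rw [h1, one_mul]⟩
      unit := fun a ha => G.unit a ha.1 }
  have hTD : T.S ⊆ D.S := hgen D ⟨h.1.sub hb, hcb⟩
  have hcom : ∀ t ∈ T.S, ∀ s : ℝ, t * ex (s • x) = ex (s • x) * t := fun t ht => (hTD ht).2
  have hstar : ∀ s : ℝ, star (ex (s • x)) = ex ((-s) • x) := by
    intro s
    rw [star_ex, star_smul, hsk, star_trivial, smul_neg, neg_smul]
  have hexG : ∀ s : ℝ, ex (s • x) ∈ G.S := fun s => hx s
  obtain ⟨T', hT', hTor⟩ := exists_tor_closure G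
    {a | ∃ s : ℝ, ∃ t ∈ T.S, a = ex (s • x) * t}
    (by
      rintro a ⟨s, t, ht, rfl⟩
      exact G.mul _ (hexG s) _ (h.1.sub ht))
    ⟨0, 1, T.one, by rw [zero_smul, ex_zero, mul_one]⟩
    (by
      rintro a ⟨s, t, ht, rfl⟩ c ⟨s', t', ht', rfl⟩
      refine ⟨s + s', t * t', T.mul _ ht _ ht', ?_⟩
      rw [ex_add_smul]
      calc ex (s • x) * t * (ex (s' • x) * t') = ex (s • x) * (t * ex (s' • x)) * t' := by
            simp only [mul_assoc]
        _ = ex (s • x) * (ex (s' • x) * t) * t' := by rw [hcom t ht s']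
        _ = ex (s • x) * ex (s' • x) * (t * t') := by simp only [mul_assoc])
    (by
      rintro a ⟨s, t, ht, rfl⟩
      refine ⟨-s, star t, T.star_mem _ ht, ?_⟩
      rw [star_mul, hstar, hcom _ (T.star_mem _ ht)])
    (by
      rintro a ⟨s, t, ht, rfl⟩ c ⟨s', t', ht', rfl⟩
      have h1 : ex (s • x) * ex (s' • x) = ex (s' • x) * ex (s • x) := by
        rw [← ex_add_smul, ← ex_add_smul, add_comm]
      calc ex (s • x) * t * (ex (s' • x) * t') = ex (s • x) * (t * ex (s' • x)) * t' := by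
            simp only [mul_assoc]
        _ = ex (s • x) * (ex (s' • x) * t) * t' := by rw [hcom t ht s']
        _ = ex (s • x) * ex (s' • x) * (t * t') := by simp only [mul_assoc]
        _ = ex (s' • x) * ex (s • x) * (t' * t) := by rw [h1, h.1.comm t ht t' ht']
        _ = ex (s' • x) * (ex (s • x) * t') * t := by simp only [mul_assoc]
        _ = ex (s' • x) * (t' * ex (s • x)) * t := by rw [hcom t' ht' s]
        _ = ex (s' • x) * t' * (ex (s • x) * t) := by simp only [mul_assoc])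
    (by
      have h1 : {a | ∃ s : ℝ, ∃ t ∈ T.S, a = ex (s • x) * t} =
          (fun p : ℝ × A => ex (p.1 • x) * p.2) '' (Set.univ ×ˢ T.S) := by
        ext a
        constructor
        · rintro ⟨s, t, ht, rfl⟩
          exact ⟨(s, t), ⟨Set.mem_univ _, ht⟩, rfl⟩
        · rintro ⟨⟨s, t⟩, ⟨-, ht⟩, rfl⟩
          exact ⟨s, t, ht, rfl⟩
      rw [h1]
      refine (isPreconnected_univ.prod h.1.conn.isPreconnected).image _ ?_
      have h2 : Continuous (fun p : ℝ × A => ex (p.1 • x) * p.2) :=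
        (continuous_ex.comp (continuous_fst.smul continuous_const)).mul continuous_snd
      exact h2.continuousOn)
  have hTT' : T.S ⊆ T'.S := by
    rw [hT']
    intro t ht
    exact subset_closure ⟨0, t, ht, by rw [zero_smul, ex_zero, one_mul]⟩
  have hT'T : T'.S ⊆ T.S := h.2 T' hTor hTT'
  intro s
  apply hT'T
  rw [hT']
  exact subset_closure ⟨s, 1, T.one, by rw [mul_one]⟩

/-- HUNT'S LEMMA. Let y be generic and let g₀ maximise F g = τ (g x g⋆ y) on the compact set G.S,
x' = g₀ x g₀⋆ ∈ lie. For z ∈ lie the function t ↦ F (ex (t z) g₀) = τ (ex (t z) x' ex (-t z) y) has a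
maximum at t = 0, its derivative there is τ ((z x' - x' z) y) = τ (z (x' y - y x')) (τ_comm) = 0. Take
z = x' y - y x' ∈ lie (lie_bracket): τ (z z) = -‖z‖² = 0, so x' commutes with y, x' ∈ T.lie. -/
theorem hunt (G T : MG A) (h : MaxTor G T) (x : A) (hx : x ∈ G.lie) :
    ∃ g ∈ G.S, g * x * star g ∈ T.lie := by
  obtain ⟨y, hy, hgen⟩ := exists_generic G T h
  have hyG : y ∈ G.lie := fun t => h.1.sub (hy t)
  have hcont : Continuous (fun g : A => τ (g * x * star g * y)) := by
    have h1 : Continuous (fun g : A => g * x * star g * y) :=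
      ((continuous_id.mul continuous_const).mul continuous_star').mul continuous_const
    exact continuous_τ.comp h1
  obtain ⟨g₀, hg₀, hmax⟩ := G.isCompact.exists_isMaxOn ⟨1, G.one⟩ hcont.continuousOn
  refine ⟨g₀, hg₀, ?_⟩
  set x' : A := g₀ * x * star g₀ with hx'
  have hx'G : x' ∈ G.lie := G.lie_Ad hx hg₀
  refine hgen x' hx'G ?_
  have hz : x' * y - y * x' ∈ G.lie := G.lie_bracket hx'G hyG
  have hzs : star (x' * y - y * x') = -(x' * y - y * x') := G.lie_skew hz
  have hkey : ∀ z ∈ G.lie, τ ((z * x' - x' * z) * y) = 0 := by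
    intro z hz
    have hzsk : star z = -z := G.lie_skew hz
    have hstar : ∀ t : ℝ, star (ex (t • z)) = ex ((-t) • z) := by
      intro t
      rw [star_ex, star_smul, hzsk, star_trivial, smul_neg, neg_smul]
    have hd1 : HasDerivAt (fun t : ℝ => ex (t • z)) z 0 := hasDerivAt_ex_smul z
    have hd2 : HasDerivAt (fun t : ℝ => ex ((-t) • z)) (-z) 0 := by
      have h1 := hasDerivAt_ex_smul (-z)
      have h2 : (fun t : ℝ => ex ((-t) • z)) = fun t : ℝ => ex (t • (-z)) := by
        funext t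
        rw [smul_neg, neg_smul]
      rw [h2]
      exact h1
    have hd3 := ((hd1.mul_const x').mul hd2).mul_const y
    have hd4 := ((⟨(τ : A →ₗ[ℝ] ℝ), continuous_τ⟩ : A →L[ℝ] ℝ).hasFDerivAt.comp_hasDerivAt
      (0 : ℝ) hd3)
    have hloc : IsLocalMax (fun t : ℝ => τ (ex (t • z) * x' * ex ((-t) • z) * y)) 0 := by
      refine Filter.Eventually.of_forall ?_
      intro t
      have h1 := hmax (G.mul _ (hz t) _ hg₀)
      have h2 : ex (t • z) * g₀ * x * star (ex (t • z) * g₀) * y =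
          ex (t • z) * x' * ex ((-t) • z) * y := by
        rw [star_mul, hstar, hx']
        simp only [mul_assoc]
      have h3 : ex ((0 : ℝ) • z) * x' * ex ((-(0 : ℝ)) • z) * y = g₀ * x * star g₀ * y := by
        rw [neg_zero, zero_smul, ex_zero, one_mul, mul_one]
      change τ (ex (t • z) * x' * ex ((-t) • z) * y) ≤
        τ (ex ((0 : ℝ) • z) * x' * ex ((-(0 : ℝ)) • z) * y)
      rw [h3, ← h2]
      exact h1
    have h5 := hloc.hasDerivAt_eq_zero hd4
    simpa [ex_zero, sub_mul, add_mul, mul_assoc, sub_eq_add_neg] using h5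
  have h1 := hkey _ hz
  have h2 : τ (((x' * y - y * x') * x' - x' * (x' * y - y * x')) * y) =
      τ ((x' * y - y * x') * (x' * y - y * x')) := by
    have h3 : ((x' * y - y * x') * x' - x' * (x' * y - y * x')) * y =
        (x' * y - y * x') * (x' * y) - x' * ((x' * y - y * x') * y) := by
      noncomm_ring
    have h4 : (x' * y - y * x') * (x' * y - y * x') =
        (x' * y - y * x') * (x' * y) - ((x' * y - y * x') * y) * x' := by
      noncomm_ring
    rw [h3, h4, map_sub, map_sub, τ_comm x' ((x' * y - y * x') * y)]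
  rw [h2, τ_skew hzs] at h1
  have h5 : ‖x' * y - y * x'‖ = 0 := by
    have h6 : ‖x' * y - y * x'‖ ^ 2 = 0 := by linarith
    exact pow_eq_zero_iff (two_ne_zero) |>.mp h6
  exact sub_eq_zero.mp (norm_eq_zero.mp h5)

/-- The maximal torus theorem for groups of unitary elements: exists_log, hunt and ex_conj. -/
theorem torus_MG (G T : MG A) (hG : IsConnected G.S) (h : MaxTor G T) (g : A) (hg : g ∈ G.S) :
    ∃ k ∈ G.S, k * g * star k ∈ T.S := by
  obtain ⟨x, hx, rfl⟩ := G.exists_log hG g hg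
  obtain ⟨k, hk, hkx⟩ := hunt G T h x hx
  refine ⟨k, hk, ?_⟩
  rw [← ex_conj (G.unit k hk).2 (G.unit k hk).1 x]
  exact T.ex_mem hkx

end Pool.Agent.CGrp
end

section

set_option autoImplicit false
set_option linter.unusedSectionVars false

open Topology Uniformity

namespace Pool.Agent.MoufangHaar

variable {L : Type*} [MLoop L] [TopologicalSpace L] [TopMLoop L] [CompactSpace L] [T2Space L]

/-- quotients of second countable loops (c.isOpenMap_pr) -/
instance [SecondCountableTopology L] (c : CC L) : SecondCountableTopology c.Q :=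
  c.isQuotientMap_pr.secondCountableTopology c.isOpenMap_pr

private theorem RM1_step {M : Type*} [MLoop M] [UniformSpace M] [TopMLoop M] [CompactSpace M]
    (V : Set (M × M)) (hV : V ∈ 𝓤 M) : ∃ W : Set (M × M), W ∈ 𝓤 M ∧ IsClosed W ∧
      (∀ x y, (x, y) ∈ W → (y, x) ∈ W) ∧
      (∀ x y z, (x, y) ∈ W → (y, z) ∈ W → (x, z) ∈ V) ∧
      (∀ a x y, (x, y) ∈ W → (a * x, a * y) ∈ V) ∧
      (∀ a x y, (x, y) ∈ W → (x * a, y * a) ∈ V) := by
  obtain ⟨C, hC, hCV⟩ := comp_mem_uniformity_sets hV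
  obtain ⟨A, hA, hAV⟩ := equi_param (P := M) (X := M) (fun z : M × M => z.1 * z.2)
    (TopMLoop.cmul continuous_fst continuous_snd) hV
  obtain ⟨A', hA', hAV'⟩ := equi_param (P := M) (X := M) (fun z : M × M => z.2 * z.1)
    (TopMLoop.cmul continuous_snd continuous_fst) hV
  obtain ⟨D, ⟨hD, hDc⟩, hDs⟩ := uniformity_hasBasis_closed.mem_iff.1
    (Filter.inter_mem hC (Filter.inter_mem hA hA'))
  have hDsw : Prod.swap ⁻¹' D ∈ 𝓤 M := tendsto_swap_uniformity hD
  refine ⟨D ∩ Prod.swap ⁻¹' D, Filter.inter_mem hD hDsw,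
    hDc.inter (hDc.preimage continuous_swap), ?_, ?_, ?_, ?_⟩
  · rintro x y ⟨h1, h2⟩
    exact ⟨h2, h1⟩
  · rintro x y z ⟨h1, _⟩ ⟨h2, _⟩
    exact hCV ⟨y, (hDs h1).1, (hDs h2).1⟩
  · rintro a x y ⟨h1, _⟩
    exact hAV a x y (hDs h1).2.1
  · rintro a x y ⟨h1, _⟩
    exact hAV' a x y (hDs h1).2.2

private theorem RM1_seq {M : Type*} [MLoop M] [UniformSpace M] [TopMLoop M] [CompactSpace M]
    (A : Set (M × M)) (hA : A ∈ 𝓤 M) : ∃ V : ℕ → Set (M × M), V 0 ⊆ A ∧ (∀ n, V n ∈ 𝓤 M) ∧
      (∀ n, IsClosed (V n)) ∧ (∀ n x y, (x, y) ∈ V n → (y, x) ∈ V n) ∧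
      (∀ n x y z, (x, y) ∈ V (n + 1) → (y, z) ∈ V (n + 1) → (x, z) ∈ V n) ∧
      (∀ n a x y, (x, y) ∈ V (n + 1) → (a * x, a * y) ∈ V n) ∧
      (∀ n a x y, (x, y) ∈ V (n + 1) → (x * a, y * a) ∈ V n) := by
  choose! f hf using RM1_step (M := M)
  obtain ⟨V, hV0, hVs⟩ : ∃ V : ℕ → Set (M × M), V 0 = f A ∧ ∀ n, V (n + 1) = f (V n) :=
    ⟨fun n => Nat.rec (f A) (fun _ W => f W) n, rfl, fun _ => rfl⟩
  have hVu : ∀ n, V n ∈ 𝓤 M := by
    intro n
    induction n with
    | zero =>
      rw [hV0]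
      exact (hf A hA).1
    | succ n ih =>
      rw [hVs]
      exact (hf _ ih).1
  have hpre : ∀ n, ∃ W ∈ 𝓤 M, V n = f W := by
    intro n
    cases n with
    | zero => exact ⟨A, hA, hV0⟩
    | succ n => exact ⟨V n, hVu n, hVs n⟩
  refine ⟨V, ?_, hVu, ?_, ?_, ?_, ?_, ?_⟩
  · rintro ⟨x, y⟩ h
    rw [hV0] at h
    exact (hf A hA).2.2.2.1 x y y h (refl_mem_uniformity (hf A hA).1)
  · intro n
    obtain ⟨W, hW, e⟩ := hpre n
    rw [e]
    exact (hf W hW).2.1
  · intro n x y h
    obtain ⟨W, hW, e⟩ := hpre n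
    rw [e] at h ⊢
    exact (hf W hW).2.2.1 x y h
  · intro n x y z h1 h2
    rw [hVs] at h1 h2
    exact (hf _ (hVu n)).2.2.2.1 x y z h1 h2
  · intro n a x y h1
    rw [hVs] at h1
    exact (hf _ (hVu n)).2.2.2.2.1 a x y h1
  · intro n a x y h1
    rw [hVs] at h1
    exact (hf _ (hVu n)).2.2.2.2.2 a x y h1

/-- SMALL CLOSED CONGRUENCES WITH METRIZABLE QUOTIENT. Use the unique uniformity of L (uniformSpaceOfCompactR1). Choose
closed symmetric entourages V_0 ⊇ V_1 ⊇ ... with V_0 contained in {(x, y) | x y⁻¹ ∈ interior of U}, V_(n+1) ∘ V_(n+1) ⊆ V_n and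
(x, y) ∈ V_(n+1) → (a x, a y), (x a, y a) ∈ V_n for all a (equi_param in NS/A1, compactness). r x y := ∀ n, (x, y) ∈ V_n
is a closed congruence, and r x 1 implies x ∈ U. Second countability of the quotient: for every open neighbourhood O of
the diagonal of Q × Q the preimage in L × L contains V_n for some n (compactness: the V_n are closed, decreasing and
their intersection r is in the preimage), so the images of the V_n are a countable basis of the filter of
neighbourhoods of the diagonal, i.e. of the uniformity of the compact space Q (`compactSpace_uniformity`,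
`nhdsSet_diagonal_eq_uniformity`), which is therefore metrizable (`UniformSpace.pseudoMetrizableSpace`,
countably generated uniformity), and a compact metrizable space is second countable. (Alternatively: a countable
basis directly: finite unions of images of V_n-balls around a finite V_n-net.) -/
theorem exists_small_metrizable (U : Set L) (hU : U ∈ 𝓝 (1 : L)) :
    ∃ c : CC L, SecondCountableTopology c.Q ∧ ∀ x, c.r x 1 → x ∈ U := by
  letI : UniformSpace L := uniformSpaceOfCompactR1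
  -- the first entourage
  have hA : {p : L × L | p.1 * p.2⁻¹ ∈ U} ∈ 𝓤 L := by
    obtain ⟨B, hB, hBU⟩ := UniformSpace.mem_nhds_iff.1 hU
    obtain ⟨A, hA, hAB⟩ := equi_param (P := L) (X := L) (fun z : L × L => z.2 * z.1⁻¹)
      (TopMLoop.cmul continuous_snd (TopMLoop.cinv continuous_fst)) hB
    refine Filter.mem_of_superset (tendsto_swap_uniformity hA) ?_
    rintro ⟨x, y⟩ h
    have h1 := hAB y y x h
    simp only [MLoop.mul_inv_self] at h1
    exact hBU h1
  obtain ⟨V, hV0, hVu, hVc, hVs, hVt, hVl, hVr⟩ := RM1_seq _ hA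
  have hanti : ∀ n, V (n + 1) ⊆ V n := by
    rintro n ⟨x, y⟩ h
    exact hVt n x y y h (refl_mem_uniformity (hVu _))
  let c : CC L :=
    { r := fun x y => ∀ n, (x, y) ∈ V n
      equiv := ⟨fun x n => refl_mem_uniformity (hVu n), fun h n => hVs n _ _ (h n),
        fun h h' n => hVt n _ _ _ (h (n + 1)) (h' (n + 1))⟩
      left := fun a x y h n => hVl n a x y (h (n + 1))
      right := fun a x y h n => hVr n a x y (h (n + 1))
      closed := by
        have e : {p : L × L | ∀ n, (p.1, p.2) ∈ V n} = ⋂ n, V n := by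
          ext p
          rw [Set.mem_iInter]
          rfl
        rw [e]
        exact isClosed_iInter hVc }
  refine ⟨c, ?_, ?_⟩
  · letI : UniformSpace c.Q := uniformSpaceOfCompactR1
    have hbasis : (𝓤 c.Q).HasBasis (fun _ : ℕ => True)
        (fun n => Prod.map c.pr c.pr '' V n) := by
      rw [Filter.hasBasis_iff]
      intro O
      constructor
      · intro hO
        rw [← nhdsSet_diagonal_eq_uniformity, mem_nhdsSet_iff_exists] at hO
        obtain ⟨O', hO'o, hO'd, hO'O⟩ := hO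
        have hP : IsOpen (Prod.map c.pr c.pr ⁻¹' O') :=
          hO'o.preimage (c.pr_cont.prodMap c.pr_cont)
        obtain ⟨n, hn⟩ := exists_subset_nhds_of_isCompact' (V := V)
          (antitone_nat_of_succ_le hanti).directed_ge (fun n => (hVc n).isCompact) hVc
          (U := Prod.map c.pr c.pr ⁻¹' O') (by
            rintro ⟨x, y⟩ hxy
            refine hP.mem_nhds (hO'd ?_)
            rw [Set.mem_iInter] at hxy
            exact c.pr_eq.2 hxy)
        refine ⟨n, trivial, ?_⟩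
        rintro _ ⟨p, hp, rfl⟩
        exact hO'O (hn hp)
      · rintro ⟨n, -, hn⟩
        refine Filter.mem_of_superset ?_ hn
        rw [compactSpace_uniformity, Filter.mem_iSup]
        intro q
        obtain ⟨x, rfl⟩ := c.pr_surj q
        have h1 : V n ∈ 𝓝 (x, x) := by
          have h2 := hVu n
          rw [compactSpace_uniformity, Filter.mem_iSup] at h2
          exact h2 x
        exact (c.isOpenMap_pr.prodMap c.isOpenMap_pr).image_mem_nhds h1
    haveI : (𝓤 c.Q).IsCountablyGenerated := hbasis.isCountablyGenerated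
    infer_instance
  · intro x hx
    have h1 := hV0 (hx 0)
    have h2 : (1 : L)⁻¹ = 1 := by
      have := MLoop.mul_inv_self (1 : L)
      rwa [MLoop.one_mul] at this
    simp only [Set.mem_ofPred_eq, h2, MLoop.mul_one] at h1
    exact h1

end Pool.Agent.MoufangHaar
end
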