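import Mathlib
import Pool.Agent.Lib.MP_fd6bc6_al.Mg.G004
import Pool.Agent.Lib.MP_fd6bc6_al.Mg.G003
import Pool.Agent.Lib.MP_fd6bc6_al.Mg.G002

section

set_option autoImplicit false
set_option linter.unusedSectionVars false

open Topology

namespace Pool.Agent.CGrp

variable {G : Type*} [Group G] [TopologicalSpace G] [IsTopologicalGroup G] [CompactSpace G]
  [T2Space G] [SecondCountableTopology G]

theorem exists_repF (U : Set G) (hU : U ∈ 𝓝 (1 : G)) :
    ∃ (n : ℕ) (ρ : G →* FMat n), Continuous ρ ∧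
      (∀ g, star (ρ g) * ρ g = 1 ∧ ρ g * star (ρ g) = 1) ∧ ∀ x, ρ x = 1 → x ∈ U := by
  obtain ⟨n, ρ, hc, hu, hρ⟩ := exists_rep U hU
  refine ⟨n, { toFun := fun g => (show FMat n from ρ g)
               map_one' := ρ.map_one
               map_mul' := ρ.map_mul }, ?_, fun g => ⟨hu g, ?_⟩, fun x hx => hρ x hx⟩
  · exact continuous_toF n (fun g => ρ g) (fun i j => hc.matrix_elem i j)
  · have h1 : ρ g * Matrix.conjTranspose (ρ g) = 1 := mul_eq_one_comm.1 (hu g)
    exact h1

/-- Almost tori. Take ρ from exists_repF, M : MG (FMat n) with M.S = range ρ (compact), T a maximal torus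
of M (exists_maxTor), K = ker ρ, P = ρ⁻¹(T.S). M.S is connected if G is; cover: torus_MG. The last
property: if P = A₁ ∪ A₂ with closed disjoint A_i saturated for K then T.S = ρ(A₁) ∪ ρ(A₂), closed
(compact) and disjoint, so one of them is empty. -/
theorem exists_almost_torus [ConnectedSpace G] (U : Set G) (hU : U ∈ 𝓝 (1 : G)) :
    ∃ K P : Subgroup G, K.Normal ∧ IsClosed (K : Set G) ∧ (K : Set G) ⊆ U ∧ K ≤ P ∧
      IsClosed (P : Set G) ∧ (∀ x ∈ P, ∀ y ∈ P, x * y * x⁻¹ * y⁻¹ ∈ K) ∧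
      (∀ x : G, ∃ g : G, g * x * g⁻¹ ∈ P) ∧
      ∀ A₁ A₂ : Set G, IsClosed A₁ → IsClosed A₂ → (P : Set G) = A₁ ∪ A₂ → Disjoint A₁ A₂ →
        (∀ x ∈ A₁, ∀ k ∈ K, x * k ∈ A₁) → (∀ x ∈ A₂, ∀ k ∈ K, x * k ∈ A₂) →
        A₁ = ∅ ∨ A₂ = ∅ := by
  obtain ⟨n, ρ, hc, hu, hρ⟩ := exists_repF U hU
  have hinv : ∀ g, ρ g⁻¹ = star (ρ g) := by
    intro g
    have h1 : ρ g⁻¹ * ρ g = 1 := by rw [← map_mul, inv_mul_cancel, map_one]
    calc ρ g⁻¹ = ρ g⁻¹ * (ρ g * star (ρ g)) := by rw [(hu g).2, mul_one]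
      _ = star (ρ g) := by rw [← mul_assoc, h1, one_mul]
  set M : MG (FMat n) :=
    { S := Set.range ρ
      closed := (isCompact_range hc).isClosed
      one := ⟨1, map_one ρ⟩
      mul := by
        rintro _ ⟨a, rfl⟩ _ ⟨b, rfl⟩
        exact ⟨a * b, map_mul ρ a b⟩
      star_mem := by
        rintro _ ⟨a, rfl⟩
        exact ⟨a⁻¹, hinv a⟩
      unit := by
        rintro _ ⟨a, rfl⟩
        exact hu a } with hM
  have hMS : ∀ g, ρ g ∈ M.S := fun g => ⟨g, rfl⟩
  have hMc : IsConnected M.S := isConnected_range hc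
  obtain ⟨T, hT⟩ := exists_maxTor M
  set P : Subgroup G :=
    { carrier := {x | ρ x ∈ T.S}
      mul_mem' := by
        intro a b ha hb
        show ρ (a * b) ∈ T.S
        rw [map_mul]
        exact T.mul _ ha _ hb
      one_mem' := by
        show ρ 1 ∈ T.S
        rw [map_one]
        exact T.one
      inv_mem' := by
        intro a ha
        show ρ a⁻¹ ∈ T.S
        rw [hinv]
        exact T.star_mem _ ha } with hP
  have hPm : ∀ x, x ∈ P ↔ ρ x ∈ T.S := fun x => Iff.rfl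
  refine ⟨ρ.ker, P, MonoidHom.normal_ker ρ, isClosed_singleton.preimage hc,
    fun x hx => hρ x (MonoidHom.mem_ker.1 hx), fun x hx => ?_, T.closed.preimage hc,
    fun x hx y hy => ?_, fun x => ?_, fun A₁ A₂ h1 h2 hun hdis hs1 _ => ?_⟩
  · rw [hPm, MonoidHom.mem_ker.1 hx]
    exact T.one
  · rw [MonoidHom.mem_ker, map_mul, map_mul, map_mul,
      hT.1.comm _ ((hPm x).1 hx) _ ((hPm y).1 hy)]
    rw [← map_mul, ← map_mul, ← map_mul, mul_inv_cancel_right, mul_inv_cancel, map_one]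
  · obtain ⟨k, ⟨g, rfl⟩, hk⟩ := torus_MG M T hMc hT (ρ x) (hMS x)
    refine ⟨g, ?_⟩
    rw [hPm, map_mul, map_mul, hinv]
    exact hk
  · by_contra hcon
    rw [not_or] at hcon
    obtain ⟨a1, ha1⟩ := Set.nonempty_iff_ne_empty.2 hcon.1
    obtain ⟨a2, ha2⟩ := Set.nonempty_iff_ne_empty.2 hcon.2
    have hA1 : A₁ ⊆ (P : Set G) := by
      rw [hun]
      exact Set.subset_union_left
    have hA2 : A₂ ⊆ (P : Set G) := by
      rw [hun]
      exact Set.subset_union_right
    have hpre := isPreconnected_closed_iff.1 hT.1.conn.isPreconnected (ρ '' A₁) (ρ '' A₂)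
      (h1.isCompact.image hc).isClosed (h2.isCompact.image hc).isClosed (by
        intro y hy
        obtain ⟨x, rfl⟩ := hT.1.sub hy
        have hx : x ∈ (P : Set G) := hy
        rw [hun] at hx
        rcases hx with hx | hx
        · exact Or.inl ⟨x, hx, rfl⟩
        · exact Or.inr ⟨x, hx, rfl⟩)
      ⟨ρ a1, hA1 ha1, a1, ha1, rfl⟩ ⟨ρ a2, hA2 ha2, a2, ha2, rfl⟩
    obtain ⟨y, -, ⟨b1, hb1, hy1⟩, ⟨b2, hb2, hy2⟩⟩ := hpre
    have hk : b1⁻¹ * b2 ∈ ρ.ker := by
      rw [MonoidHom.mem_ker, map_mul, hinv, hy2, ← hy1]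
      exact (hu b1).1
    have h3 := hs1 b1 hb1 _ hk
    rw [mul_inv_cancel_left] at h3
    exact Set.disjoint_left.1 hdis h3 hb2

end Pool.Agent.CGrp
end

section

set_option autoImplicit false
set_option linter.unusedSectionVars false

open Topology

namespace Pool.Agent.CGrp

variable {G : Type*} [Group G] [TopologicalSpace G] [IsTopologicalGroup G] [CompactSpace G]
  [T2Space G] [SecondCountableTopology G] [ConnectedSpace G]

/-- A compact connected group has a closed connected abelian subgroup which meets every conjugacy class.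
Take K_n, P_n from exists_almost_torus for a countable basis U_n of neighbourhoods of 1 (antitone), F a
nonprincipal ultrafilter on ℕ (`Filter.hyperfilter ℕ`), P = ulim F P_n. Subgroup: if a, b ∈ P and V is a
neighbourhood of a b... ; connected: ulim_connected; commutative: for a, b ∈ P and a neighbourhood
W of a b a⁻¹ b⁻¹ there are x, y ∈ P_n near a, b with x y x⁻¹ y⁻¹ ∈ W ∩ K_n, and K_n shrinks to 1, so
a b a⁻¹ b⁻¹ is in the closure of every neighbourhood of 1; cover: choose g_n with g_n x g_n⁻¹ ∈ P_n, let g be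
the limit of g_n along F and use ulim_of_tendsto. -/
theorem exists_cover_torus : ∃ P : Subgroup G, IsClosed (P : Set G) ∧
    IsConnected (P : Set G) ∧ (∀ x ∈ P, ∀ y ∈ P, x * y = y * x) ∧
    ∀ x : G, ∃ g : G, g * x * g⁻¹ ∈ P := by
  obtain ⟨U, hU⟩ := (𝓝 (1 : G)).exists_antitone_basis
  have hUm : ∀ n, U n ∈ 𝓝 (1 : G) := fun n => hU.1.mem_of_mem trivial
  choose K P hKn hKc hKU hKP hPc hcom hcov hcon using fun n => exists_almost_torus (U n) (hUm n)
  obtain ⟨F, hF⟩ : ∃ F : Ultrafilter ℕ, (F : Filter ℕ) ≤ Filter.atTop :=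
    ⟨Filter.hyperfilter ℕ, Nat.hyperfilter_le_atTop⟩
  have hK : ∀ W ∈ 𝓝 (1 : G), ∀ᶠ n in (F : Filter ℕ), (K n : Set G) ⊆ W := by
    intro W hW
    obtain ⟨m, -, hm⟩ := hU.1.mem_iff.1 hW
    have h1 : ∀ᶠ n in (F : Filter ℕ), m ≤ n := hF (Filter.eventually_ge_atTop m)
    filter_upwards [h1] with n hn
    exact (hKU n).trans ((hU.antitone hn).trans hm)
  obtain ⟨S, hS⟩ : ∃ S : ℕ → Set G, S = fun n => (P n : Set G) := ⟨_, rfl⟩
  have hSm : ∀ n x, x ∈ S n ↔ x ∈ P n := fun n x => by rw [hS]; rfl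
  have h1 : (1 : G) ∈ ulim (F : Filter ℕ) S :=
    ulim_of_tendsto _ _ (fun _ => 1) (Filter.Eventually.of_forall fun n =>
      (hSm n 1).2 (P n).one_mem) 1 tendsto_const_nhds
  have hmul : ∀ a ∈ ulim (F : Filter ℕ) S, ∀ b ∈ ulim (F : Filter ℕ) S,
      a * b ∈ ulim (F : Filter ℕ) S := by
    intro a ha b hb V hV
    have h2 : (fun q : G × G => q.1 * q.2) ⁻¹' V ∈ 𝓝 (a, b) :=
      continuous_mul.continuousAt.preimage_mem_nhds hV
    obtain ⟨V₁, hV₁, V₂, hV₂, h3⟩ := mem_nhds_prod_iff.1 h2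
    filter_upwards [ha V₁ hV₁, hb V₂ hV₂] with n hn₁ hn₂
    obtain ⟨x, hx, hx'⟩ := hn₁
    obtain ⟨y, hy, hy'⟩ := hn₂
    exact ⟨x * y, (hSm n _).2 ((P n).mul_mem ((hSm n x).1 hx) ((hSm n y).1 hy)),
      h3 (Set.mk_mem_prod hx' hy')⟩
  have hinv : ∀ a ∈ ulim (F : Filter ℕ) S, a⁻¹ ∈ ulim (F : Filter ℕ) S := by
    intro a ha V hV
    have h2 : (fun q : G => q⁻¹) ⁻¹' V ∈ 𝓝 a :=
      continuous_inv.continuousAt.preimage_mem_nhds hV
    filter_upwards [ha _ h2] with n hn
    obtain ⟨x, hx, hx'⟩ := hn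
    exact ⟨x⁻¹, (hSm n _).2 ((P n).inv_mem ((hSm n x).1 hx)), hx'⟩
  refine ⟨{ carrier := ulim (F : Filter ℕ) S
            mul_mem' := fun {a b} ha hb => hmul a ha b hb
            one_mem' := h1
            inv_mem' := fun {a} ha => hinv a ha }, ulim_closed _ _, ?_, ?_, ?_⟩
  · refine ulim_connected F S (fun n => (K n : Set G)) ?_ ?_ hK ?_ ?_
    · intro n
      rw [hS]
      exact hPc n
    · intro n
      exact (hSm n 1).2 (P n).one_mem
    · intro n x hx k hk
      exact (hSm n _).2 ((P n).mul_mem ((hSm n x).1 hx) (hKP n hk))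
    · intro n A₁ A₂ hA₁ hA₂ hu hd hs₁ hs₂
      refine hcon n A₁ A₂ hA₁ hA₂ ?_ hd hs₁ hs₂
      rw [← hu, hS]
  · intro a ha b hb
    have ha' : a ∈ ulim (F : Filter ℕ) S := ha
    have hb' : b ∈ ulim (F : Filter ℕ) S := hb
    by_contra hne
    have hne' : a * b * a⁻¹ * b⁻¹ ≠ 1 := by
      intro h
      apply hne
      rw [mul_inv_eq_one, mul_inv_eq_iff_eq_mul] at h
      exact h
    obtain ⟨W, W', hW, hW', hdis⟩ := t2_separation_nhds hne'
    have h2 : (fun q : G × G => q.1 * q.2 * q.1⁻¹ * q.2⁻¹) ⁻¹' W ∈ 𝓝 (a, b) := by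
      have hc : Continuous fun q : G × G => q.1 * q.2 * q.1⁻¹ * q.2⁻¹ := by fun_prop
      exact hc.continuousAt.preimage_mem_nhds hW
    obtain ⟨V₁, hV₁, V₂, hV₂, h3⟩ := mem_nhds_prod_iff.1 h2
    obtain ⟨n, ⟨x, hx, hx'⟩, ⟨y, hy, hy'⟩, hn⟩ :=
      ((ha' V₁ hV₁).and ((hb' V₂ hV₂).and (hK W' hW'))).exists
    have h4 : x * y * x⁻¹ * y⁻¹ ∈ W := h3 (Set.mk_mem_prod hx' hy')
    have h5 : x * y * x⁻¹ * y⁻¹ ∈ W' := hn (hcom n x ((hSm n x).1 hx) y ((hSm n y).1 hy))
    exact Set.disjoint_left.1 hdis h4 h5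
  · intro x
    choose g hg using fun n => hcov n x
    obtain ⟨g₀, hg₀⟩ : ∃ g₀, Filter.Tendsto g (F : Filter ℕ) (𝓝 g₀) :=
      ⟨_, (F.map g).le_nhds_lim⟩
    refine ⟨g₀, ?_⟩
    exact ulim_of_tendsto _ _ (fun n => g n * x * (g n)⁻¹)
      (Filter.Eventually.of_forall fun n => (hSm n _).2 (hg n)) _
      ((hg₀.mul_const x).mul hg₀.inv)

/-- THE MAXIMAL TORUS THEOREM. B is topologically generated by one b (exists_generator for the compact
connected abelian group B), g b g⁻¹ ∈ P for some g, so g B g⁻¹ ⊆ P (closed subgroup), B ⊆ g⁻¹ P g, a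
closed connected abelian subgroup, so B = g⁻¹ P g by maximality. Then every x is conjugate into B. -/
theorem torus (B : Subgroup G) (hcl : IsClosed (B : Set G)) (hconn : IsConnected (B : Set G))
    (hcomm : ∀ x ∈ B, ∀ y ∈ B, x * y = y * x)
    (hmax : ∀ D : Subgroup G, IsClosed (D : Set G) → IsConnected (D : Set G) →
      (∀ x ∈ D, ∀ y ∈ D, x * y = y * x) → B ≤ D → D ≤ B) (x : G) :
    ∃ g : G, g * x * g⁻¹ ∈ B := by
  obtain ⟨P, hPcl, hPconn, hPcomm, hPcov⟩ := exists_cover_torus (G := G)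
  let _ : CommGroup B := { (inferInstance : Group B) with
    mul_comm := fun a b => Subtype.ext (hcomm a a.2 b b.2) }
  have _ : CompactSpace B := isCompact_iff_compactSpace.1 hcl.isCompact
  have _ : ConnectedSpace B := Subtype.connectedSpace hconn
  have _ : IsTopologicalGroup B := inferInstance
  have _ : SecondCountableTopology B := Topology.IsEmbedding.subtypeVal.secondCountableTopology
  obtain ⟨b, hb⟩ := exists_generator (G := B)
  obtain ⟨g, hg⟩ := hPcov b
  have hcont : Continuous fun y : G => g * y * g⁻¹ := by fun_prop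
  obtain ⟨D, hD⟩ : ∃ D : Subgroup G, ∀ y, y ∈ D ↔ g * y * g⁻¹ ∈ P :=
    ⟨P.comap (MulAut.conj g).toMonoidHom, fun y => Iff.rfl⟩
  have hDset : (D : Set G) = (fun y : G => g * y * g⁻¹) ⁻¹' (P : Set G) :=
    Set.ext fun y => hD y
  have hDcl : IsClosed (D : Set G) := by
    rw [hDset]
    exact hPcl.preimage hcont
  have hDimg : (D : Set G) = (fun y : G => g⁻¹ * y * g) '' (P : Set G) := by
    ext y
    constructor
    · intro hy
      exact ⟨g * y * g⁻¹, (hD y).1 hy, by group⟩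
    · rintro ⟨z, hz, rfl⟩
      refine (hD _).2 ?_
      have : g * (g⁻¹ * z * g) * g⁻¹ = z := by group
      rw [this]
      exact hz
  have hDconn : IsConnected (D : Set G) := by
    rw [hDimg]
    refine hPconn.image _ (Continuous.continuousOn ?_)
    fun_prop
  have hDcomm : ∀ y ∈ D, ∀ z ∈ D, y * z = z * y := by
    intro y hy z hz
    have h1 := hPcomm _ ((hD y).1 hy) _ ((hD z).1 hz)
    have h2 : g * y * g⁻¹ * (g * z * g⁻¹) = g * (y * z) * g⁻¹ := by group
    have h3 : g * z * g⁻¹ * (g * y * g⁻¹) = g * (z * y) * g⁻¹ := by group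
    rw [h2, h3] at h1
    exact mul_left_cancel (mul_right_cancel h1)
  have hBD : B ≤ D := by
    have h1 := hb (D.comap B.subtype) (hDcl.preimage continuous_subtype_val) ((hD _).2 hg)
    intro y hy
    have h2 : (⟨y, hy⟩ : B) ∈ D.comap B.subtype := by
      rw [h1]
      exact Subgroup.mem_top _
    exact h2
  have hDB := hmax D hDcl hDconn hDcomm hBD
  obtain ⟨h, hh⟩ := hPcov x
  refine ⟨g⁻¹ * h, hDB ((hD _).2 ?_)⟩
  have h4 : g * (g⁻¹ * h * x * (g⁻¹ * h)⁻¹) * g⁻¹ = h * x * h⁻¹ := by group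
  rw [h4]
  exact hh

end Pool.Agent.CGrp
end

section

set_option autoImplicit false
set_option linter.unusedSectionVars false

open Topology Pool.Agent.CGrp

namespace Pool.Agent.MoufangHaar

variable {L : Type*} [MLoop L] [TopologicalSpace L] [TopMLoop L] [CompactSpace L] [T2Space L]
  [SecondCountableTopology L]

/-- exists_generator for the group B (h.cgrp, h.gp.topGrp, `isCompact_iff_compactSpace`,
`isConnected_iff_connectedSpace`); for a closed subloop S of L containing b consider the closed subgroup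
{x : B | x.1 ∈ S}. -/
theorem IsCCA.exists_gen {B : Set L} (h : IsCCA B) : ∃ b ∈ B, B ⊆ cgen ({b} : Set L) := by
  let _ := h.cgrp
  have : IsTopologicalGroup B := h.gp.topGrp
  have : CompactSpace B := isCompact_iff_compactSpace.mp h.gp.closed.isCompact
  have : ConnectedSpace B := isConnected_iff_connectedSpace.mp h.conn
  obtain ⟨b, hb⟩ := exists_generator (G := B)
  refine ⟨b.1, b.2, fun x hx S hS => ?_⟩
  obtain ⟨hsub, hcl, hbS⟩ := hS
  let H : Subgroup B :=
    { carrier := {y | y.1 ∈ S}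
      mul_mem' := fun {y z} hy hz => hsub.mul _ hy _ hz
      one_mem' := hsub.one
      inv_mem' := fun {y} hy => hsub.inv _ hy }
  have hH := hb H (hcl.preimage continuous_subtype_val) (hbS rfl)
  have h1 : (⟨x, hx⟩ : B) ∈ H := by
    rw [hH]
    trivial
  exact h1

/-- exists_char for the group B, extended by 1 outside B -/
theorem IsCCA.exists_char {B : Set L} (h : IsCCA B) {x : L} (hx : x ∈ B) (hx1 : x ≠ 1) :
    ∃ χ : L → Circle, IsChar B χ ∧ χ x ≠ 1 := by
  classical
  let _ := h.cgrp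
  have : IsTopologicalGroup B := h.gp.topGrp
  have : CompactSpace B := isCompact_iff_compactSpace.mp h.gp.closed.isCompact
  have hne : (⟨x, hx⟩ : B) ≠ 1 := fun h1 => hx1 (congrArg Subtype.val h1)
  obtain ⟨χ, hχ, hχ1⟩ := Pool.Agent.CGrp.exists_char (G := B) ⟨x, hx⟩ hne
  refine ⟨fun y => if hy : y ∈ B then χ ⟨y, hy⟩ else 1, ⟨?_, ?_⟩, ?_⟩
  · rw [continuousOn_iff_continuous_domRestrict]
    have he : B.domRestrict (fun y => if hy : y ∈ B then χ ⟨y, hy⟩ else 1) = χ := by
      funext y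
      rw [Set.domRestrict_apply]
      exact dif_pos y.2
    rw [he]
    exact hχ
  · intro y hy z hz
    have hyz : y * z ∈ B := h.gp.sub.mul _ hy _ hz
    simp only [dif_pos hy, dif_pos hz, dif_pos hyz]
    rw [← map_mul]
    rfl
  · simp only [dif_pos hx]
    exact hχ1

private theorem npw_pow {B : Set L} (h : IsCCA B) (y : B) (n : ℕ) :
    letI := h.cgrp
    npw y.1 n = ((y ^ n : B) : L) := by
  let _ := h.cgrp
  induction n with
  | zero =>
    change (1 : L) = ((y ^ 0 : B) : L)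
    rw [pow_zero]
    rfl
  | succ k ih =>
    have h1 : npw y.1 (k + 1) = y.1 * npw y.1 k := by
      unfold npw
      rw [Function.iterate_succ_apply']
    change npw y.1 (k + 1) = ((y ^ (k + 1) : B) : L)
    rw [h1, pow_succ', ih]
    rfl

/-- divisible_of_connected for the group B; y ^ n in the group is npw y n (induction) -/
theorem IsCCA.exists_root {B : Set L} (h : IsCCA B) {x : L} (hx : x ∈ B) (n : ℕ) (hn : 0 < n) :
    ∃ y ∈ B, npw y n = x := by
  let _ := h.cgrp
  have : IsTopologicalGroup B := h.gp.topGrp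
  have : CompactSpace B := isCompact_iff_compactSpace.mp h.gp.closed.isCompact
  have : ConnectedSpace B := isConnected_iff_connectedSpace.mp h.conn
  obtain ⟨y, hy⟩ := divisible_of_connected (G := B) n hn ⟨x, hx⟩
  refine ⟨y.1, y.2, ?_⟩
  rw [npw_pow h y n, hy]

/-- torus for the group C; subgroups of the group C correspond to subsets of L contained in C. -/
theorem torus_loop {C B : Set L} (hC : IsGp C) (hCc : IsConnected C) (hB : IsCCA B)
    (hBC : B ⊆ C) (hmax : ∀ D : Set L, IsCCA D → D ⊆ C → B ⊆ D → D ⊆ B) {x : L} (hx : x ∈ C) :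
    ∃ g ∈ C, (g * x) * g⁻¹ ∈ B := by
  let _ := hC.grp
  have : IsTopologicalGroup C := hC.topGrp
  have : CompactSpace C := isCompact_iff_compactSpace.mp hC.closed.isCompact
  have : ConnectedSpace C := isConnected_iff_connectedSpace.mp hCc
  let B' : Subgroup C :=
    { carrier := {y | y.1 ∈ B}
      mul_mem' := fun {y z} hy hz => hB.gp.sub.mul _ hy _ hz
      one_mem' := hB.gp.sub.one
      inv_mem' := fun {y} hy => hB.gp.sub.inv _ hy }
  have himg : Subtype.val '' (B' : Set C) = B := by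
    ext y
    constructor
    · rintro ⟨z, hz, rfl⟩
      exact hz
    · intro hy
      exact ⟨⟨y, hBC hy⟩, hy, rfl⟩
  have hconn : IsConnected (B' : Set C) := by
    refine ⟨⟨1, B'.one_mem⟩, ?_⟩
    rw [← Topology.IsInducing.subtypeVal.isPreconnected_image, himg]
    exact hB.conn.isPreconnected
  obtain ⟨g, hg⟩ := torus B' (hB.gp.closed.preimage continuous_subtype_val) hconn
    (fun y hy z hz => Subtype.ext (hB.comm _ hy _ hz))
    (fun D hDcl hDconn hDcomm hBD => by
      have hD0 : IsCCA (Subtype.val '' (D : Set C)) := by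
        refine ⟨⟨⟨⟨1, D.one_mem, rfl⟩, ?_, ?_⟩, ?_, ?_⟩, ?_, ?_⟩
        · rintro _ ⟨y, hy, rfl⟩ _ ⟨z, hz, rfl⟩
          exact ⟨y * z, D.mul_mem hy hz, rfl⟩
        · rintro _ ⟨y, hy, rfl⟩
          exact ⟨y⁻¹, D.inv_mem hy, rfl⟩
        · exact hC.closed.isClosedEmbedding_subtypeVal.isClosedMap _ hDcl
        · rintro _ ⟨y, hy, rfl⟩ _ ⟨z, hz, rfl⟩ _ ⟨w, hw, rfl⟩
          exact hC.assoc _ y.2 _ z.2 _ w.2
        · exact hDconn.image _ continuous_subtype_val.continuousOn
        · rintro _ ⟨y, hy, rfl⟩ _ ⟨z, hz, rfl⟩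
          exact congrArg Subtype.val (hDcomm y hy z hz)
      have h1 := hmax _ hD0 (by
        rintro _ ⟨y, _, rfl⟩
        exact y.2) (fun y hy => ⟨⟨y, hBC hy⟩, hBD (show (⟨y, hBC hy⟩ : C) ∈ B' from hy), rfl⟩)
      intro y hy
      exact h1 ⟨y, hy, rfl⟩) ⟨x, hx⟩
  exact ⟨g.1, g.2, hg⟩

end Pool.Agent.MoufangHaar
end

section

set_option autoImplicit false
set_option linter.unusedSectionVars false

open Topology

namespace Pool.Agent.MoufangHaar

variable {L : Type*} [MLoop L] [TopologicalSpace L] [TopMLoop L] [CompactSpace L] [T2Space L]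
  [SecondCountableTopology L]

/-- Zorn (`zorn_subset_nonempty` for the set of all CCA's inside C containing B): the closure of the union of a
nonempty chain of CCA's is a CCA (gp_closure, comm_closure; connected: `IsPreconnected.sUnion` with the
common point 1, closure). -/
theorem exists_max_cca (C : Set L) (hC : IsClosed C) (B : Set L) (hB : IsCCA B) (hBC : B ⊆ C) :
    ∃ D : Set L, IsCCA D ∧ B ⊆ D ∧ D ⊆ C ∧
      ∀ D' : Set L, IsCCA D' → D' ⊆ C → D ⊆ D' → D' ⊆ D := by
  obtain ⟨D, hBD, hD⟩ := zorn_subset_nonempty {D : Set L | IsCCA D ∧ D ⊆ C} (by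
    rintro c hc hchain ⟨E0, hE0⟩
    have hdir : ∀ x ∈ ⋃₀ c, ∀ y ∈ ⋃₀ c, ∃ E ∈ c, x ∈ E ∧ y ∈ E := by
      rintro x ⟨E, hE, hx⟩ y ⟨E', hE', hy⟩
      rcases hchain.total hE hE' with h | h
      · exact ⟨E', hE', h hx, hy⟩
      · exact ⟨E, hE, hx, h hy⟩
    have hdir3 : ∀ x ∈ ⋃₀ c, ∀ y ∈ ⋃₀ c, ∀ z ∈ ⋃₀ c, ∃ E ∈ c, x ∈ E ∧ y ∈ E ∧ z ∈ E := by
      intro x hx y hy z hz
      obtain ⟨E, hE, hxE, hyE⟩ := hdir x hx y hy
      obtain ⟨E', hE', hz'⟩ := hz
      rcases hchain.total hE hE' with h | h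
      · exact ⟨E', hE', h hxE, h hyE, hz'⟩
      · exact ⟨E, hE, hxE, hyE, h hz'⟩
    have hsub : IsSub (⋃₀ c) := by
      refine ⟨⟨E0, hE0, (hc hE0).1.gp.sub.one⟩, ?_, ?_⟩
      · intro x hx y hy
        obtain ⟨E, hE, hxE, hyE⟩ := hdir x hx y hy
        exact ⟨E, hE, (hc hE).1.gp.sub.mul _ hxE _ hyE⟩
      · rintro x ⟨E, hE, hxE⟩
        exact ⟨E, hE, (hc hE).1.gp.sub.inv _ hxE⟩
    have hassoc : ∀ x ∈ ⋃₀ c, ∀ y ∈ ⋃₀ c, ∀ z ∈ ⋃₀ c, (x * y) * z = x * (y * z) := by
      intro x hx y hy z hz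
      obtain ⟨E, hE, hxE, hyE, hzE⟩ := hdir3 x hx y hy z hz
      exact (hc hE).1.gp.assoc _ hxE _ hyE _ hzE
    have hcomm : ∀ x ∈ ⋃₀ c, ∀ y ∈ ⋃₀ c, x * y = y * x := by
      intro x hx y hy
      obtain ⟨E, hE, hxE, hyE⟩ := hdir x hx y hy
      exact (hc hE).1.comm _ hxE _ hyE
    have hconn : IsPreconnected (⋃₀ c) :=
      isPreconnected_sUnion (1 : L) c (fun E hE => (hc hE).1.gp.sub.one)
        (fun E hE => (hc hE).1.conn.isPreconnected)
    refine ⟨closure (⋃₀ c), ⟨⟨gp_closure hsub hassoc, ⟨⟨1, subset_closure hsub.one⟩,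
      hconn.closure⟩, comm_closure hcomm⟩, ?_⟩, ?_⟩
    · exact closure_minimal (Set.sUnion_subset fun E hE => (hc hE).2) hC
    · intro E hE
      exact (Set.subset_sUnion_of_mem hE).trans subset_closure) B ⟨hB, hBC⟩
  refine ⟨D, hD.prop.1, hBD, hD.prop.2, fun D' hD' hD'C hDD' => ?_⟩
  exact hD.le_of_ge ⟨hD', hD'C⟩ hDD'

/-- The identity component (`connectedComponentIn S 1`) of a closed subset S which is a group is a group.
(closed: `isClosed_ccIn` in NS/H1 or directly; products: a * component ⊆ component for a in it, by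
connectedness of the image; inverses.) -/
theorem comp_gp {S : Set L} (h : IsGp S) : IsGp (connectedComponentIn S 1) := by
  have h1S : (1 : L) ∈ S := h.sub.one
  have hsub : connectedComponentIn S 1 ⊆ S := connectedComponentIn_subset S 1
  have h1 : (1 : L) ∈ connectedComponentIn S 1 := mem_connectedComponentIn h1S
  have hpre : IsPreconnected (connectedComponentIn S 1) := isPreconnected_connectedComponentIn
  refine ⟨⟨h1, ?_, ?_⟩, ?_, ?_⟩
  · intro x hx y hy
    -- `x * component` is connected, contains `x`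
    have hx2 : connectedComponentIn S x = connectedComponentIn S 1 :=
      (connectedComponentIn_eq hx).symm
    have hsub2 : (fun z => x * z) '' connectedComponentIn S 1 ⊆ connectedComponentIn S x := by
      refine IsPreconnected.subset_connectedComponentIn
        (hpre.image _ (TopMLoop.continuous_mul_left x).continuousOn)
        ⟨1, h1, MLoop.mul_one x⟩ ?_
      rintro _ ⟨z, hz, rfl⟩
      exact h.sub.mul _ (hsub hx) _ (hsub hz)
    rw [hx2] at hsub2
    exact hsub2 ⟨y, hy, rfl⟩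
  · intro x hx
    have hsub2 : (fun z : L => z⁻¹) '' connectedComponentIn S 1 ⊆ connectedComponentIn S 1 := by
      refine IsPreconnected.subset_connectedComponentIn
        (hpre.image _ TopMLoop.cont_inv.continuousOn) ⟨1, h1, ?_⟩ ?_
      · have h2 := MLoop.mul_one (1 : L)⁻¹
        rw [MLoop.inv_mul_self] at h2
        exact h2.symm
      · rintro _ ⟨z, hz, rfl⟩
        exact h.sub.inv _ (hsub hz)
    exact hsub2 ⟨x, hx, rfl⟩
  · have hcl : closure (connectedComponentIn S 1) ⊆ connectedComponentIn S 1 :=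
      IsPreconnected.subset_connectedComponentIn hpre.closure (subset_closure h1)
        (closure_minimal hsub h.closed)
    exact isClosed_of_closure_subset hcl
  · intro x hx y hy z hz
    exact h.assoc _ (hsub hx) _ (hsub hy) _ (hsub hz)

/-- Two CCA's lie in a compact connected group: C = cgen {b₁, b₂} for generators b₁, b₂; it is connected
because its identity component is a closed subgroup containing b₁ and b₂ (comp_gp; B_i is connected,
contains 1 and is contained in C). -/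
theorem join_cca {B₁ B₂ : Set L} (h₁ : IsCCA B₁) (h₂ : IsCCA B₂) :
    ∃ C : Set L, IsGp C ∧ IsConnected C ∧ B₁ ⊆ C ∧ B₂ ⊆ C ∧
      ∀ S : Set L, IsSub S → IsClosed S → B₁ ⊆ S → B₂ ⊆ S → C ⊆ S := by
  obtain ⟨b₁, hb₁, hg₁⟩ := h₁.exists_gen
  obtain ⟨b₂, hb₂, hg₂⟩ := h₂.exists_gen
  have hC : IsGp (cgen ({b₁, b₂} : Set L)) := cgen_pair_gp b₁ b₂
  have hB₁ : B₁ ⊆ cgen ({b₁, b₂} : Set L) :=
    hg₁.trans (cgen_le hC.sub hC.closed (by
      rw [Set.singleton_subset_iff]
      exact subset_cgen _ (Set.mem_insert _ _)))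
  have hB₂ : B₂ ⊆ cgen ({b₁, b₂} : Set L) :=
    hg₂.trans (cgen_le hC.sub hC.closed (by
      rw [Set.singleton_subset_iff]
      exact subset_cgen _ (Set.mem_insert_of_mem _ rfl)))
  have hK := comp_gp hC
  have hB₁K : B₁ ⊆ connectedComponentIn (cgen ({b₁, b₂} : Set L)) 1 :=
    IsPreconnected.subset_connectedComponentIn h₁.conn.isPreconnected h₁.gp.sub.one hB₁
  have hB₂K : B₂ ⊆ connectedComponentIn (cgen ({b₁, b₂} : Set L)) 1 :=
    IsPreconnected.subset_connectedComponentIn h₂.conn.isPreconnected h₂.gp.sub.one hB₂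
  have hle : cgen ({b₁, b₂} : Set L) ⊆ connectedComponentIn (cgen ({b₁, b₂} : Set L)) 1 := by
    refine cgen_le hK.sub hK.closed ?_
    rintro x (rfl | hx)
    · exact hB₁K hb₁
    · rw [Set.mem_singleton_iff] at hx
      rw [hx]
      exact hB₂K hb₂
  have heq : connectedComponentIn (cgen ({b₁, b₂} : Set L)) 1 = cgen ({b₁, b₂} : Set L) :=
    Set.Subset.antisymm (connectedComponentIn_subset _ _) hle
  refine ⟨cgen ({b₁, b₂} : Set L), hC, ⟨⟨1, hC.sub.one⟩, ?_⟩, hB₁, hB₂, ?_⟩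
  · rw [← heq]
    exact isPreconnected_connectedComponentIn
  · intro S hS hScl h1 h2
    refine cgen_le hS hScl ?_
    rintro x (rfl | hx)
    · exact h1 hb₁
    · rw [Set.mem_singleton_iff] at hx
      rw [hx]
      exact h2 hb₂

private theorem conj_mul {C : Set L} (hC : IsGp C) {g x y : L} (hg : g ∈ C) (hx : x ∈ C)
    (hy : y ∈ C) : ((g * x) * g⁻¹) * ((g * y) * g⁻¹) = (g * (x * y)) * g⁻¹ := by
  have h : ∀ a b c : C,
      letI := hC.grp
      ((a * b) * a⁻¹) * ((a * c) * a⁻¹) = (a * (b * c)) * a⁻¹ := by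
    intro a b c
    let _ := hC.grp
    group
  exact congrArg Subtype.val (h ⟨g, hg⟩ ⟨x, hx⟩ ⟨y, hy⟩)

private theorem conj_inv {C : Set L} (hC : IsGp C) {g x : L} (hg : g ∈ C) (hx : x ∈ C) :
    ((g * x) * g⁻¹)⁻¹ = (g * x⁻¹) * g⁻¹ := by
  have h : ∀ a b : C,
      letI := hC.grp
      ((a * b) * a⁻¹)⁻¹ = (a * b⁻¹) * a⁻¹ := by
    intro a b
    let _ := hC.grp
    group
  exact congrArg Subtype.val (h ⟨g, hg⟩ ⟨x, hx⟩)

private theorem conj_conj {C : Set L} (hC : IsGp C) {g x : L} (hg : g ∈ C) (hx : x ∈ C) :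
    (g⁻¹ * ((g * x) * g⁻¹)) * (g⁻¹)⁻¹ = x := by
  have h : ∀ a b : C,
      letI := hC.grp
      (a⁻¹ * ((a * b) * a⁻¹)) * (a⁻¹)⁻¹ = b := by
    intro a b
    let _ := hC.grp
    group
  exact congrArg Subtype.val (h ⟨g, hg⟩ ⟨x, hx⟩)

/-- conjugates inside a group -/
theorem conj_cca {C B : Set L} (hC : IsGp C) (hB : IsCCA B) (hBC : B ⊆ C) {g : L} (hg : g ∈ C) :
    IsCCA ((fun x => (g * x) * g⁻¹) '' B) := by
  have hcont : Continuous (fun x : L => (g * x) * g⁻¹) :=
    (TopMLoop.continuous_mul_right g⁻¹).comp (TopMLoop.continuous_mul_left g)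
  have hgi : g⁻¹ ∈ C := hC.sub.inv _ hg
  refine ⟨⟨⟨⟨1, hB.gp.sub.one, ?_⟩, ?_, ?_⟩, ?_, ?_⟩, ?_, ?_⟩
  · change (g * 1) * g⁻¹ = 1
    rw [MLoop.mul_one, MLoop.mul_inv_self]
  · rintro _ ⟨x, hx, rfl⟩ _ ⟨y, hy, rfl⟩
    exact ⟨x * y, hB.gp.sub.mul _ hx _ hy, (conj_mul hC hg (hBC hx) (hBC hy)).symm⟩
  · rintro _ ⟨x, hx, rfl⟩
    exact ⟨x⁻¹, hB.gp.sub.inv _ hx, (conj_inv hC hg (hBC hx)).symm⟩
  · exact (hB.gp.closed.isCompact.image hcont).isClosed
  · rintro _ ⟨x, hx, rfl⟩ _ ⟨y, hy, rfl⟩ _ ⟨z, hz, rfl⟩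
    exact hC.assoc _ (hC.sub.mul _ (hC.sub.mul _ hg _ (hBC hx)) _ hgi)
      _ (hC.sub.mul _ (hC.sub.mul _ hg _ (hBC hy)) _ hgi)
      _ (hC.sub.mul _ (hC.sub.mul _ hg _ (hBC hz)) _ hgi)
  · exact hB.conn.image _ hcont.continuousOn
  · rintro _ ⟨x, hx, rfl⟩ _ ⟨y, hy, rfl⟩
    change ((g * x) * g⁻¹) * ((g * y) * g⁻¹) = ((g * y) * g⁻¹) * ((g * x) * g⁻¹)
    rw [conj_mul hC hg (hBC hx) (hBC hy), conj_mul hC hg (hBC hy) (hBC hx), hB.comm _ hx _ hy]

/-- In a compact connected group every element lies in a CCA: take a maximal CCA D of C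
(exists_max_cca from {1}), g x g⁻¹ ∈ D (torus_loop), so x ∈ g⁻¹ D g (conj_cca). -/
theorem exists_cca_of_conn {C : Set L} (hC : IsGp C) (hCc : IsConnected C) {x : L} (hx : x ∈ C) :
    ∃ B : Set L, IsCCA B ∧ x ∈ B ∧ B ⊆ C := by
  obtain ⟨D, hD, _, hDC, hmax⟩ := exists_max_cca C hC.closed ({1} : Set L) cca_one
    (Set.singleton_subset_iff.mpr hC.sub.one)
  obtain ⟨g, hg, hgx⟩ := torus_loop hC hCc hD hDC hmax hx
  have hgi : g⁻¹ ∈ C := hC.sub.inv _ hg
  refine ⟨(fun y => (g⁻¹ * y) * (g⁻¹)⁻¹) '' D, conj_cca hC hD hDC hgi, ⟨_, hgx,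
    conj_conj hC hg hx⟩, ?_⟩
  rintro _ ⟨y, hy, rfl⟩
  exact hC.sub.mul _ (hC.sub.mul _ hgi _ (hDC hy)) _ (hC.sub.inv _ hgi)

end Pool.Agent.MoufangHaar
end

section

set_option autoImplicit false
set_option linter.unusedSectionVars false

open Topology

namespace Pool.Agent.MoufangHaar

variable {L : Type*} [MLoop L] [TopologicalSpace L] [TopMLoop L]

/-- The `n!`-th powers decrease with `n`. -/
private theorem DV1b_anti (n : ℕ) :
    Set.range (fun y : L => npw y (n + 1).factorial) ⊆ Set.range (fun y : L => npw y n.factorial) := by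
  rintro _ ⟨y, rfl⟩
  refine ⟨npw y (n + 1), ?_⟩
  change npw (npw y (n + 1)) n.factorial = npw y (n + 1).factorial
  rw [npw_npw, Nat.factorial_succ]

private theorem DV1b_closed [CompactSpace L] [T2Space L] (n : ℕ) :
    IsClosed (Set.range (fun y : L => npw y n.factorial)) :=
  (isCompact_range (continuous_npw _)).isClosed

private theorem DV1b_inter [CompactSpace L] [T2Space L] (C : Set L) (hC : IsClosed C)
    (h : ∀ n : ℕ, (C ∩ Set.range (fun y : L => npw y n.factorial)).Nonempty) :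
    ∃ x ∈ C, x ∈ Div L := by
  have h1 : (⋂ n : ℕ, C ∩ Set.range (fun y : L => npw y n.factorial)).Nonempty := by
    refine IsCompact.nonempty_iInter_of_sequence_nonempty_isCompact_isClosed _ (fun n => ?_) h
      ?_ (fun n => hC.inter (DV1b_closed n))
    · exact Set.inter_subset_inter_right _ (DV1b_anti n)
    · exact (hC.inter (DV1b_closed 0)).isCompact
  obtain ⟨x, hx⟩ := h1
  rw [Set.mem_iInter] at hx
  exact ⟨x, (hx 0).1, (mem_div_iff x).2 fun n => (hx n).2⟩

/-- A compatible sequence of roots, by compactness of ℕ → L: the sets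
F_m = {s | s 0 = x and npw (s (k+1)) (k+1) = s k for k < m} are closed, decreasing and nonempty (y with
npw y m! = x, s k = npw y (m!/k!) for k <= m). -/
theorem exists_root_seq [CompactSpace L] [T2Space L] (x : L) (hx : x ∈ Div L) :
    ∃ s : ℕ → L, s 0 = x ∧ ∀ k, npw (s (k + 1)) (k + 1) = s k := by
  let F : ℕ → Set (ℕ → L) := fun m => {s | s 0 = x ∧ ∀ k, k < m → npw (s (k + 1)) (k + 1) = s k}
  have hcl : ∀ m, IsClosed (F m) := by
    intro m
    have e : F m = {s | s 0 = x} ∩ ⋂ k : ℕ, ⋂ _ : k < m,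
        {s : ℕ → L | npw (s (k + 1)) (k + 1) = s k} := by
      ext s
      simp only [F, Set.mem_setOf_eq, Set.mem_inter_iff, Set.mem_iInter]
    rw [e]
    refine (isClosed_eq (continuous_apply 0) continuous_const).inter ?_
    refine isClosed_iInter fun k => isClosed_iInter fun _ => ?_
    exact isClosed_eq ((continuous_npw (k + 1)).comp (continuous_apply (k + 1)))
      (continuous_apply k)
  have h1 : (⋂ m, F m).Nonempty := by
    refine IsCompact.nonempty_iInter_of_sequence_nonempty_isCompact_isClosed _ (fun m => ?_)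
      (fun m => ?_) (hcl 0).isCompact hcl
    · intro s hs
      exact ⟨hs.1, fun k hk => hs.2 k (by omega)⟩
    · obtain ⟨y, hy⟩ := (mem_div_iff x).1 hx m
      refine ⟨fun k => npw y (m.factorial / k.factorial), ?_, ?_⟩
      · change npw y (m.factorial / Nat.factorial 0) = x
        rw [Nat.factorial_zero, Nat.div_one]
        exact hy
      · intro k hk
        change npw (npw y (m.factorial / (k + 1).factorial)) (k + 1) =
          npw y (m.factorial / k.factorial)
        rw [npw_npw]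
        congr 1
        obtain ⟨c, hc⟩ := Nat.factorial_dvd_factorial (show k + 1 ≤ m by omega)
        have h2 : m.factorial / (k + 1).factorial = c := by
          rw [hc]
          exact Nat.mul_div_cancel_left c (k + 1).factorial_pos
        have h3 : m.factorial / k.factorial = c * (k + 1) := by
          rw [hc, Nat.factorial_succ]
          have e : (k + 1) * k.factorial * c = k.factorial * (c * (k + 1)) := by ring
          rw [e]
          exact Nat.mul_div_cancel_left _ k.factorial_pos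
        rw [h2, h3]
  obtain ⟨s, hs⟩ := h1
  rw [Set.mem_iInter] at hs
  exact ⟨s, (hs 0).1, fun k => (hs (k + 1)).2 k (Nat.lt_succ_self k)⟩

/-- Images of Div under continuous surjective homomorphisms: ⊆ is clear. If q ∈ Div Q then for all n the
compact set {x | φ x = q} meets the compact set of n!-th powers of L (lift the root); these sets decrease with n
(npw_npw, n! divides (n+1)!), so by compactness some x with φ x = q is an n!-th power for all n. -/
theorem div_image [CompactSpace L] [T2Space L] {Q : Type*} [MLoop Q] [TopologicalSpace Q]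
    [T2Space Q] [TopMLoop Q] (φ : L → Q) (hφ : IsMHom φ) (hc : Continuous φ)
    (hs : Function.Surjective φ) : φ '' Div L = Div Q := by
  apply Set.Subset.antisymm
  · rintro _ ⟨x, hx, rfl⟩ n hn
    obtain ⟨y, hy⟩ := hx n hn
    refine ⟨φ y, ?_⟩
    rw [← hφ.npw, hy]
  · intro q hq
    obtain ⟨x, hx, hxD⟩ := DV1b_inter {x : L | φ x = q} (isClosed_eq hc continuous_const) (by
      intro n
      obtain ⟨q', hq'⟩ := (mem_div_iff q).1 hq n
      obtain ⟨y, hy⟩ := hs q'
      refine ⟨npw y n.factorial, ?_, ⟨y, rfl⟩⟩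
      change φ (npw y n.factorial) = q
      rw [hφ.npw, hy]
      exact hq')
    exact ⟨x, hxD, hx⟩

/-- If Div L = {1}, the n!-th powers are uniformly small: decreasing compact sets with intersection {1}. -/
theorem powers_small [CompactSpace L] [T2Space L] (h : Div L = {1}) (U : Set L)
    (hU : U ∈ 𝓝 (1 : L)) : ∃ m : ℕ, 0 < m ∧ ∀ x : L, npw x m ∈ U := by
  by_contra hcon
  push Not at hcon
  obtain ⟨x, hx, hxD⟩ := DV1b_inter (interior U)ᶜ isOpen_interior.isClosed_compl (by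
    intro n
    obtain ⟨x, hx⟩ := hcon n.factorial n.factorial_pos
    exact ⟨npw x n.factorial, fun h1 => hx (interior_subset h1), ⟨x, rfl⟩⟩)
  rw [h, Set.mem_singleton_iff] at hxD
  rw [hxD] at hx
  exact hx (mem_interior_iff_mem_nhds.2 hU)

end Pool.Agent.MoufangHaar
end

section

set_option autoImplicit false
set_option linter.unusedSectionVars false

open Topology Pool.Agent.CGrp

namespace Pool.Agent.MoufangHaar

private theorem zp_add' {L : Type*} [MLoop L] (a : L) (i j : ℤ) :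
    zp a i * zp a j = zp a (i + j) := by
  rw [zp_mul, zp, zp, zpow_add, Equiv.Perm.mul_apply]

private theorem npw_eq_zp' {L : Type*} [MLoop L] (a : L) (k : ℕ) : npw a k = zp a k := by
  unfold npw zp
  rw [zpow_natCast]
  have h : ∀ k : ℕ, ((lE a ^ k : Equiv.Perm L) : L → L) = (fun x => a * x)^[k] := by
    intro k
    rw [Equiv.Perm.coe_pow]
    rfl
  rw [h]

private theorem lE_zp' {L : Type*} [MLoop L] (a : L) (i : ℤ) : lE (zp a i) = lE a ^ i := by
  ext x
  exact zp_mul a i x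

private theorem zp_zp' {L : Type*} [MLoop L] (a : L) (i j : ℤ) : zp (zp a i) j = zp a (i * j) := by
  rw [zp, lE_zp', ← zpow_mul, zp]

/-- The set P of all zp (s k) i, k ∈ ℕ, i ∈ ℤ, for a compatible sequence of roots: s k is a power of s l for k <= l, so
two (three) elements of P are integer powers of one s l; hence P is a subloop, associative, commutative and
divisible: zp (s k) i = (zp (s (k+n)) j)^n because (k+1)(k+2)...(k+n) is divisible by n. -/
theorem root_group {L : Type*} [MLoop L] (s : ℕ → L) (hs : ∀ k, npw (s (k + 1)) (k + 1) = s k) :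
    ∃ P : Set L, IsSub P ∧ s 0 ∈ P ∧ (∀ x ∈ P, ∀ y ∈ P, ∀ z ∈ P, (x * y) * z = x * (y * z)) ∧
      (∀ x ∈ P, ∀ y ∈ P, x * y = y * x) ∧ ∀ n : ℕ, 0 < n → ∀ x ∈ P, ∃ y ∈ P, npw y n = x := by
  have hstep : ∀ k n : ℕ, s k = zp (s (k + n)) (((k + 1).ascFactorial n : ℕ) : ℤ) := by
    intro k n
    induction n with
    | zero =>
      rw [Nat.ascFactorial_zero, ← npw_eq_zp']
      show s k = s k * 1
      rw [MLoop.mul_one]
    | succ n ih =>
      have h1 : s (k + n) = zp (s (k + (n + 1))) ((k + n + 1 : ℕ) : ℤ) := by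
        rw [← npw_eq_zp']
        exact (hs (k + n)).symm
      rw [ih, h1, zp_zp', Nat.ascFactorial_succ]
      congr 1
      push_cast
      ring
  have hcommon : ∀ k l : ℕ, ∃ (m : ℕ) (a b : ℤ), s k = zp (s m) a ∧ s l = zp (s m) b := by
    intro k l
    have h1 := hstep l k
    rw [Nat.add_comm l k] at h1
    exact ⟨k + l, _, _, hstep k l, h1⟩
  have hpair : ∀ k l : ℕ, ∀ i j : ℤ, ∃ (m : ℕ) (a b : ℤ), zp (s k) i = zp (s m) a ∧
      zp (s l) j = zp (s m) b := by
    intro k l i j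
    obtain ⟨m, a, b, ha, hb⟩ := hcommon k l
    refine ⟨m, a * i, b * j, ?_, ?_⟩
    · rw [ha, zp_zp']
    · rw [hb, zp_zp']
  refine ⟨{x | ∃ (k : ℕ) (i : ℤ), x = zp (s k) i}, ⟨?_, ?_, ?_⟩, ?_, ?_, ?_, ?_⟩
  · refine ⟨0, 0, ?_⟩
    rw [zp, zpow_zero]
    rfl
  · rintro x ⟨k, i, rfl⟩ y ⟨l, j, rfl⟩
    obtain ⟨m, a, b, ha, hb⟩ := hpair k l i j
    exact ⟨m, a + b, by rw [ha, hb, zp_add']⟩
  · rintro x ⟨k, i, rfl⟩
    refine ⟨k, -i, ?_⟩
    have h1 : zp (s k) (-i) * zp (s k) i = 1 := by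
      rw [zp_add', neg_add_cancel, zp, zpow_zero]
      rfl
    have h2 : (zp (s k) i)⁻¹ * zp (s k) i = zp (s k) (-i) * zp (s k) i := by
      rw [h1, MLoop.inv_mul_self]
    exact MLoop.mul_right_cancel h2
  · refine ⟨0, 1, ?_⟩
    rw [zp, zpow_one]
    show s 0 = s 0 * 1
    rw [MLoop.mul_one]
  · rintro x ⟨k, i, rfl⟩ y ⟨l, j, rfl⟩ z _
    obtain ⟨m, a, b, ha, hb⟩ := hpair k l i j
    rw [ha, hb, zp_add', zp_mul, zp_mul, zp_mul, zpow_add, Equiv.Perm.mul_apply]
  · rintro x ⟨k, i, rfl⟩ y ⟨l, j, rfl⟩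
    obtain ⟨m, a, b, ha, hb⟩ := hpair k l i j
    rw [ha, hb, zp_add', zp_add', add_comm]
  · rintro n hn x ⟨k, i, rfl⟩
    have hdvd : n ∣ (k + 1).ascFactorial n :=
      (Nat.dvd_factorial hn le_rfl).trans (Nat.factorial_dvd_ascFactorial _ _)
    obtain ⟨q, hq⟩ := hdvd
    refine ⟨zp (s (k + n)) ((q : ℤ) * i), ⟨k + n, _, rfl⟩, ?_⟩
    rw [npw_eq_zp', zp_zp', hstep k n, zp_zp', hq]
    congr 1
    push_cast
    ring

variable {L : Type*} [MLoop L] [TopologicalSpace L] [TopMLoop L] [CompactSpace L] [T2Space L]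

/-- An element with roots of all orders lies in a closed connected abelian subgroup: exists_root_seq, root_group,
B = closure P: gp_closure, comm_closure, connected by connected_of_divisible for the group B and the dense
subgroup P. -/
theorem exists_cca_of_div (x : L) (hx : x ∈ Div L) : ∃ B : Set L, IsCCA B ∧ x ∈ B := by
  obtain ⟨s, hs0, hs⟩ := exists_root_seq x hx
  obtain ⟨P, hP, h0, hassoc, hcomm, hdiv⟩ := root_group s hs
  have hG : IsGp (closure P) := gp_closure hP hassoc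
  have hC := comm_closure hcomm
  refine ⟨closure P, ⟨hG, ?_, hC⟩, subset_closure (hs0 ▸ h0)⟩
  let cg : CommGroup (closure P) :=
    { hG.grp with mul_comm := fun a b => Subtype.ext (hC _ a.2 _ b.2) }
  have htg : IsTopologicalGroup (closure P) := hG.topGrp
  have hcs : CompactSpace (closure P) := isCompact_iff_compactSpace.mp isClosed_closure.isCompact
  let D : Subgroup (closure P) :=
    { carrier := {b | b.1 ∈ P}
      mul_mem' := fun {a b} ha hb => hP.mul _ ha _ hb
      one_mem' := hP.one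
      inv_mem' := fun {a} ha => hP.inv _ ha }
  have hdense : Dense (D : Set (closure P)) := by
    intro b
    rw [closure_subtype]
    have h1 : (Subtype.val '' (D : Set (closure P)) : Set L) = P := by
      ext y
      constructor
      · rintro ⟨b, hb, rfl⟩
        exact hb
      · intro hy
        exact ⟨⟨y, subset_closure hy⟩, hy, rfl⟩
    rw [h1]
    exact b.2
  have hpow : ∀ (b : closure P) (n : ℕ), (b ^ n).1 = npw b.1 n := by
    intro b n
    induction n with
    | zero =>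
      rw [pow_zero]
      rfl
    | succ n ih =>
      rw [pow_succ']
      show b.1 * (b ^ n).1 = npw b.1 (n + 1)
      rw [ih]
      unfold npw
      rw [Function.iterate_succ_apply']
  have hcon : ConnectedSpace (closure P) := by
    refine connected_of_divisible D hdense ?_
    intro n hn b hb
    obtain ⟨y, hy, hyn⟩ := hdiv n hn b.1 hb
    exact ⟨⟨y, subset_closure hy⟩, hy, Subtype.ext (by rw [hpow]; exact hyn)⟩
  exact isConnected_iff_connectedSpace.mpr hcon

/-- with IsCCA.exists_root -/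
theorem mem_div_iff_cca [SecondCountableTopology L] (x : L) :
    x ∈ Div L ↔ ∃ B : Set L, IsCCA B ∧ x ∈ B := by
  constructor
  · exact exists_cca_of_div x
  · rintro ⟨B, hB, hx⟩ n hn
    obtain ⟨y, _, hy⟩ := hB.exists_root hx n hn
    exact ⟨y, hy⟩

end Pool.Agent.MoufangHaar
end
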