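import Mathlib
import Pool.Agent.Lib.MP_fd6bc6_al.NS.H2
import Pool.Agent.Lib.MP_fd6bc6_al.Mg.G005
import Pool.Agent.Lib.MP_fd6bc6_al.Mg.G003
import Pool.Agent.Lib.MP_fd6bc6_al.Mg.G004

section

set_option autoImplicit false
set_option linter.unusedSectionVars false

open Topology Pool.Agent.CGrp

namespace Pool.Agent.MoufangHaar

variable {L : Type*} [MLoop L] [TopologicalSpace L] [TopMLoop L] [CompactSpace L] [T2Space L]
  [SecondCountableTopology L]

/-- The union of all CCA's inside the class of 1 of a closed congruence. -/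
def EE (c : CC L) : Set L := {x | ∃ B : Set L, IsCCA B ∧ x ∈ B ∧ ∀ y ∈ B, c.r y 1}

/-- {x | c.r x 1} is a closed subloop -/
theorem class_sub (c : CC L) : IsSub {x | c.r x 1} ∧ IsClosed {x | c.r x 1} := by
  refine ⟨⟨c.equiv.refl 1, fun x hx y hy => ?_, fun x hx => ?_⟩, ?_⟩
  · have h1 : c.r (x * y) (x * 1) := c.left x _ _ hy
    rw [MLoop.mul_one] at h1
    exact c.equiv.trans h1 hx
  · have h1 : c.r (x⁻¹ * x) (x⁻¹ * 1) := c.left x⁻¹ _ _ hx
    rw [MLoop.mul_one, MLoop.inv_mul_self] at h1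
    exact c.equiv.symm h1
  · exact c.closed.preimage (Continuous.prodMk continuous_id continuous_const)

/-- join_cca and exists_cca_of_conn -/
theorem EE_sub (c : CC L) : IsSub (EE c) := by
  refine ⟨⟨{1}, cca_one, rfl, fun y hy => ?_⟩, ?_, ?_⟩
  · rw [Set.mem_singleton_iff.mp hy]
    exact c.equiv.refl 1
  · rintro x ⟨B₁, hB₁, hx, h₁⟩ y ⟨B₂, hB₂, hy, h₂⟩
    obtain ⟨C, hC, hCc, hBC₁, hBC₂, hmin⟩ := join_cca hB₁ hB₂
    have hsub : C ⊆ {x | c.r x 1} := hmin _ (class_sub c).1 (class_sub c).2 h₁ h₂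
    obtain ⟨B, hB, hxB, hBC⟩ := exists_cca_of_conn hC hCc
      (hC.sub.mul _ (hBC₁ hx) _ (hBC₂ hy))
    exact ⟨B, hB, hxB, fun z hz => hsub (hBC hz)⟩
  · rintro x ⟨B, hB, hx, h⟩
    exact ⟨B, hB, hB.gp.sub.inv _ hx, h⟩

/-- a compact connected group inside the class is inside EE (exists_cca_of_conn) -/
theorem conn_subset_EE (c : CC L) {C : Set L} (hC : IsGp C) (hCc : IsConnected C)
    (h : ∀ y ∈ C, c.r y 1) : C ⊆ EE c := by
  intro x hx
  obtain ⟨B, hB, hxB, hBC⟩ := exists_cca_of_conn hC hCc hx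
  exact ⟨B, hB, hxB, fun z hz => h z (hBC hz)⟩

/-- limits of CCA's are CCA's: UL.lean (closedness: ulim_closed; 1 ∈ limit) -/
theorem ulim_cca {ι : Type*} (F : Ultrafilter ι) (S : ι → Set L) (h : ∀ i, IsCCA (S i)) :
    IsCCA (ulim (F : Filter ι) S) := by
  have h1 : (1 : L) ∈ ulim (F : Filter ι) S :=
    ulim_of_tendsto _ S (fun _ => 1) (Filter.Eventually.of_forall fun i => (h i).gp.sub.one) 1
      tendsto_const_nhds
  have cm : ∀ {X : Type _} [TopologicalSpace X] {f g : X → L}, Continuous f → Continuous g →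
      Continuous (fun x => f x * g x) := fun hf hg =>
    TopMLoop.cont_mul.comp (Continuous.prodMk hf hg)
  refine ⟨⟨⟨h1, ?_, ?_⟩, ulim_closed _ S, ?_⟩, ⟨⟨1, h1⟩, ?_⟩, ?_⟩
  · exact ulim_op F S (fun p => p.1 * p.2) TopMLoop.cont_mul
      (fun i x hx y hy => (h i).gp.sub.mul x hx y hy)
  · intro x hx
    exact ulim_op F S (fun p => p.1⁻¹) (TopMLoop.cont_inv.comp continuous_fst)
      (fun i x hx y _ => (h i).gp.sub.inv x hx) x hx x hx
  · exact ulim_closed_condition₃ F S (fun p => (p.1 * p.2.1) * p.2.2 = p.1 * (p.2.1 * p.2.2))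
      (isClosed_eq (cm (cm continuous_fst (continuous_fst.comp continuous_snd))
        (continuous_snd.comp continuous_snd))
        (cm continuous_fst (cm (continuous_fst.comp continuous_snd)
          (continuous_snd.comp continuous_snd))))
      (fun i => (h i).gp.assoc)
  · exact ulim_preconnected F S fun i => (h i).conn.isPreconnected
  · exact ulim_closed_condition₂ F S (fun p => p.1 * p.2 = p.2 * p.1)
      (isClosed_eq (cm continuous_fst continuous_snd) (cm continuous_snd continuous_fst))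
      (fun i => (h i).comm)

/-- If x ∈ closure (EE c) take an ultrafilter F on L with EE c ∈ F, F <= 𝓝 x (`mem_closure_iff_ultrafilter`), for
y ∈ EE c a CCA S y with y ∈ S y inside the class, S y = {1} otherwise; x ∈ ulim F S (ulim_of_tendsto with the
identity), ulim_cca; the class is closed. -/
theorem EE_closed (c : CC L) : IsClosed (EE c) := by
  classical
  refine isClosed_of_closure_subset fun x hx => ?_
  obtain ⟨F, hF, hFx⟩ := mem_closure_iff_ultrafilter.mp hx
  have hch : ∀ y : L, ∃ B : Set L, IsCCA B ∧ (y ∈ EE c → y ∈ B) ∧ ∀ z ∈ B, c.r z 1 := by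
    intro y
    by_cases hy : y ∈ EE c
    · obtain ⟨B, hB, hyB, hBc⟩ := hy
      exact ⟨B, hB, fun _ => hyB, hBc⟩
    · refine ⟨{1}, cca_one, fun h => absurd h hy, fun z hz => ?_⟩
      rw [Set.mem_singleton_iff.mp hz]
      exact c.equiv.refl 1
  choose S hS hyS hSc using hch
  refine ⟨ulim (F : Filter L) S, ulim_cca F S hS, ?_, ?_⟩
  · refine ulim_of_tendsto _ S (fun y => y) ?_ x hFx
    exact Filter.mem_of_superset hF fun y hy => hyS y hy
  · intro z hz
    exact ulim_closed_condition₂ F S (fun p => c.r p.1 1)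
      (c.closed.preimage (Continuous.prodMk continuous_fst continuous_const))
      (fun i x hx y _ => hSc i x hx) z hz z hz

end Pool.Agent.MoufangHaar
end

section

set_option autoImplicit false
set_option linter.unusedSectionVars false

open Topology Pool.Agent.CGrp

namespace Pool.Agent.MoufangHaar

variable {L : Type*} [MLoop L] [TopologicalSpace L] [TopMLoop L] [CompactSpace L] [T2Space L]
  [SecondCountableTopology L]

private theorem npw_mul_npw (n : L) (k l : ℕ) : npw n k * npw n l = npw n (k + l) := by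
  rw [npw_mul]
  unfold npw
  rw [Function.iterate_add_apply]

private theorem CC.tm (c : CC L) {f : L → L} (hf : TM f) {x y : L} (h : c.r x y) :
    c.r (f x) (f y) := by
  induction hf with
  | id => exact h
  | left a _ ih => exact c.left a _ _ ih
  | right a _ ih => exact c.right a _ _ ih

/-- Composites of translations which fix 1 map CCA's to CCA's: B = cgen {b} = closure of the powers of b
(exists_gen, cgen_single, cgen_le), so by TM.pow and compactness f '' B = closure (range (npw (f b))) =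
cgen {f b}, which is a group (⊆ cgen {f b, f b}), commutative (powers commute: npw_mul; comm_closure), connected
as a continuous image (TM.continuous). -/
theorem TM.cca {f : L → L} (hf : TM f) (h1 : f 1 = 1) {B : Set L} (hB : IsCCA B) :
    IsCCA (f '' B) := by
  obtain ⟨b, hb, hBb⟩ := hB.exists_gen
  have hB1 : B = cgen ({b} : Set L) :=
    Set.Subset.antisymm hBb (cgen_le hB.gp.sub hB.gp.closed (Set.singleton_subset_iff.mpr hb))
  have hfc : Continuous f := hf.continuous
  have himg : f '' (Set.range (npw b)) = Set.range (npw (f b)) := by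
    rw [← Set.range_comp]
    congr 1
    funext k
    exact hf.pow h1 b k
  have hf2 : f '' B = closure (Set.range (npw (f b))) := by
    rw [hB1, cgen_single, ← himg]
    exact (hfc.isClosedMap.closure_image_eq_of_continuous hfc _).symm
  have hf3 : f '' B = cgen ({f b} : Set L) := by rw [hf2, cgen_single]
  have hgp : IsGp (f '' B) := by
    have h2 := cgen_pair_gp (f b) (f b)
    rw [Set.pair_eq_singleton] at h2
    rw [hf3]
    exact h2
  refine ⟨hgp, hB.conn.image f hfc.continuousOn, ?_⟩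
  rw [hf2]
  refine comm_closure ?_
  rintro _ ⟨k, rfl⟩ _ ⟨l, rfl⟩
  rw [npw_mul_npw, npw_mul_npw, add_comm]

private theorem EE_tm (c : CC L) {f : L → L} (hf : TM f) (h1 : f 1 = 1) {x : L} (hx : x ∈ EE c) :
    f x ∈ EE c := by
  obtain ⟨B, hB, hxB, hBc⟩ := hx
  refine ⟨f '' B, hf.cca h1 hB, ⟨x, hxB, rfl⟩, ?_⟩
  rintro _ ⟨y, hy, rfl⟩
  have h2 := CC.tm c hf (hBc y hy)
  rwa [h1] at h2

/-- EE c is the class of 1 of a closed congruence: CC.exists_of_set; the two normality conditions are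
statements on the maps n ↦ (x n) x⁻¹ and n ↦ ((n x) y) (x y)⁻¹, which are TM, fix 1 and preserve the class
of c. -/
theorem exists_ee (c : CC L) : ∃ d : CC L, ∀ x, d.r x 1 ↔ x ∈ EE c := by
  have hE := EE_sub c
  refine CC.exists_of_set (EE c) (EE_closed c) hE.one hE.mul hE.inv (fun n hn x => ?_)
    (fun n hn x y => ?_)
  · exact EE_tm c (f := fun n => (x * n) * x⁻¹) (TM.right _ (TM.left _ TM.id))
      (by rw [MLoop.mul_one, MLoop.mul_inv_self]) hn
  · exact EE_tm c (f := fun n => ((n * x) * y) * (x * y)⁻¹)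
      (TM.right _ (TM.right _ (TM.right _ TM.id)))
      (by rw [MLoop.one_mul, MLoop.mul_inv_self]) hn

/-- the congruence of EE c -/
noncomputable def ee (c : CC L) : CC L := (exists_ee c).choose

theorem ee_iff (c : CC L) (x : L) : (ee c).r x 1 ↔ x ∈ EE c := (exists_ee c).choose_spec x

theorem ee_le (c : CC L) : ee c ≤ c := by
  rw [CC.le_iff]
  intro x hx
  rw [ee_iff] at hx
  obtain ⟨B, _, hxB, hBc⟩ := hx
  exact hBc x hxB

end Pool.Agent.MoufangHaar
end

section

set_option autoImplicit false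
set_option linter.unusedSectionVars false

open Topology Pool.Agent.CGrp

namespace Pool.Agent.MoufangHaar

variable {L : Type*} [MLoop L] [TopologicalSpace L] [TopMLoop L] [CompactSpace L] [T2Space L]
  [SecondCountableTopology L]

private theorem EL6_inv_one {M : Type*} [MLoop M] : (1 : M)⁻¹ = 1 := by
  have h1 := MLoop.mul_inv_self (1 : M)
  rwa [MLoop.one_mul] at h1

/-- Let x lie in a CCA B and c.r k 1. Then the commutator of x and k lies in EE c. B ⊆ cgen {b}; H = cgen {b, k} is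
a group (cgen_pair_gp) containing B and k. S = H ∩ {y | c.r y 1} is a closed subset which is a group; its identity
component J (comp_gp) is a compact connected group in the class, so J ⊆ EE c (conn_subset_EE). The image of B
under s ↦ ((s k) s⁻¹) k⁻¹ is connected, contains 1 (s = 1) and is in S (c.r (((s k) s⁻¹) k⁻¹) 1: replace k by 1),
so it is in J (`IsPreconnected.subset_connectedComponentIn`). -/
theorem comm_mem_EE (c : CC L) {B : Set L} (hB : IsCCA B) {x k : L} (hx : x ∈ B)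
    (hk : c.r k 1) : ((x * k) * x⁻¹) * k⁻¹ ∈ EE c := by
  obtain ⟨b, hb, hBb⟩ := hB.exists_gen
  have hH : IsGp (cgen ({b, k} : Set L)) := cgen_pair_gp b k
  have hbH : b ∈ cgen ({b, k} : Set L) := subset_cgen _ (Or.inl rfl)
  have hkH : k ∈ cgen ({b, k} : Set L) := subset_cgen _ (Or.inr rfl)
  have hBH : B ⊆ cgen ({b, k} : Set L) := by
    refine hBb.trans (cgen_le hH.sub hH.closed ?_)
    rintro y rfl
    exact hbH
  obtain ⟨hs, hc⟩ := class_sub c
  have hS : IsGp (cgen ({b, k} : Set L) ∩ {x | c.r x 1}) :=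
    ⟨⟨⟨hH.sub.one, hs.one⟩, fun x hx y hy => ⟨hH.sub.mul x hx.1 y hy.1, hs.mul x hx.2 y hy.2⟩,
      fun x hx => ⟨hH.sub.inv x hx.1, hs.inv x hx.2⟩⟩, hH.closed.inter hc,
      fun x hx y hy z hz => hH.assoc x hx.1 y hy.1 z hz.1⟩
  have hJ := comp_gp hS
  have hJc : IsConnected (connectedComponentIn (cgen ({b, k} : Set L) ∩ {x | c.r x 1}) 1) :=
    isConnected_connectedComponentIn_iff.2 hS.sub.one
  have hJE := conn_subset_EE c hJ hJc fun y hy => (connectedComponentIn_subset _ _ hy).2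
  apply hJE
  have hcont : Continuous fun s : L => ((s * k) * s⁻¹) * k⁻¹ :=
    TopMLoop.cmul (TopMLoop.cmul (TopMLoop.cmul continuous_id continuous_const)
      (TopMLoop.cinv continuous_id)) continuous_const
  have hpre : IsPreconnected ((fun s : L => ((s * k) * s⁻¹) * k⁻¹) '' B) :=
    hB.conn.isPreconnected.image _ hcont.continuousOn
  have h1 : (1 : L) ∈ (fun s : L => ((s * k) * s⁻¹) * k⁻¹) '' B := by
    refine ⟨1, hB.gp.sub.one, ?_⟩
    show ((1 * k) * (1 : L)⁻¹) * k⁻¹ = 1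
    rw [MLoop.one_mul, EL6_inv_one, MLoop.mul_one, MLoop.mul_inv_self]
  have hsub : (fun s : L => ((s * k) * s⁻¹) * k⁻¹) '' B ⊆
      cgen ({b, k} : Set L) ∩ {x | c.r x 1} := by
    rintro _ ⟨s, hs', rfl⟩
    refine ⟨hH.sub.mul _ (hH.sub.mul _ (hH.sub.mul _ (hBH hs') _ hkH) _
      (hH.sub.inv _ (hBH hs'))) _ (hH.sub.inv _ hkH), ?_⟩
    have h2 : c.r (((s * k) * s⁻¹) * k⁻¹) (((s * 1) * s⁻¹) * 1⁻¹) :=
      c.mul (c.right _ _ _ (c.left _ _ _ hk)) (c.inv hk)
    rw [MLoop.mul_one, MLoop.mul_inv_self, EL6_inv_one, MLoop.mul_one] at h2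
    exact h2
  exact hpre.subset_connectedComponentIn h1 hsub ⟨x, hx, rfl⟩

/-- C is generated by B and B'; B' is inside the class of c. The set {x | ∃ b ∈ B, c.r x b} is a closed subloop
(the preimage under c.pr of the compact set c.pr '' B) containing B and B' (b = 1), so it contains C. -/
theorem mod_B (c : CC L) {B B' C : Set L} (hB : IsCCA B)
    (hB' : ∀ y ∈ B', c.r y 1)
    (hC : ∀ S : Set L, IsSub S → IsClosed S → B ⊆ S → B' ⊆ S → C ⊆ S) :
    ∀ x ∈ C, ∃ b ∈ B, c.r x b := by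
  refine hC {x | ∃ b ∈ B, c.r x b} ⟨⟨1, hB.gp.sub.one, c.equiv.refl 1⟩, ?_, ?_⟩ ?_ ?_ ?_
  · rintro x ⟨b, hb, hxb⟩ y ⟨b', hb', hyb⟩
    exact ⟨b * b', hB.gp.sub.mul _ hb _ hb', c.mul hxb hyb⟩
  · rintro x ⟨b, hb, hxb⟩
    exact ⟨b⁻¹, hB.gp.sub.inv _ hb, c.inv hxb⟩
  · have e : {x | ∃ b ∈ B, c.r x b} = c.pr ⁻¹' (c.pr '' B) := by
      ext x
      constructor
      · rintro ⟨b, hb, hxb⟩
        exact ⟨b, hb, (c.pr_eq.2 hxb).symm⟩
      · rintro ⟨b, hb, hxb⟩
        exact ⟨b, hb, c.pr_eq.1 hxb.symm⟩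
    rw [e]
    exact (hB.gp.closed.isCompact.image c.pr_cont).isClosed.preimage c.pr_cont
  · exact fun b hb => ⟨b, hb, c.equiv.refl b⟩
  · exact fun y hy => ⟨1, hB.gp.sub.one, hB' y hy⟩

/-- KEY LEMMA. hE: every element lies in a CCA. B a maximal CCA of L, χ a character of B, trivial on B ∩ class of
c, b ∈ B, k in the class. Then for some g the element w' = (g (k⁻¹ b)) g⁻¹ is in B and χ w' = χ b.
Proof: k lies in a CCA D; C₁ from join_cca for B, D; torus_loop: g₁ ∈ C₁ with b₁ = (g₁ k) g₁⁻¹ ∈ B; ε = b₁ k⁻¹ is in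
EE c (comm_mem_EE with x = g₁, which lies in a CCA), so in a CCA B' inside the class of c. C from join_cca for B, B';
it contains b₁, ε and k = ε⁻¹ b₁ (b₁ = ε k: mul_inv_mul; ε⁻¹ (ε k) = k). w = k⁻¹ b ∈ C, torus_loop in C: g ∈ C with
w' = (g w) g⁻¹ ∈ B. By mod_B g and w are congruent to elements p, q of B, w' is congruent to (p q) p⁻¹ = q (B is
commutative and a group), and w = k⁻¹ b is congruent to b; so c.r w' b, c.r (w' b⁻¹) 1, w' b⁻¹ ∈ B, χ (w' b⁻¹) = 1,
χ w' = χ (w' b⁻¹) χ b = χ b. -/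
theorem key_lemma (hE : ∀ x : L, ∃ B : Set L, IsCCA B ∧ x ∈ B) (c : CC L) {B : Set L}
    (hB : IsCCA B) (hmax : ∀ D : Set L, IsCCA D → B ⊆ D → D ⊆ B) {χ : L → Circle}
    (hχ : IsChar B χ) (h : ∀ y ∈ B, c.r y 1 → χ y = 1) {b k : L} (hb : b ∈ B)
    (hk : c.r k 1) : ∃ g : L, (g * (k⁻¹ * b)) * g⁻¹ ∈ B ∧ χ ((g * (k⁻¹ * b)) * g⁻¹) = χ b := by
  obtain ⟨D, hD, hkD⟩ := hE k
  obtain ⟨C₁, hC₁, hC₁c, hBC₁, hDC₁, -⟩ := join_cca hB hD
  obtain ⟨g₁, hg₁, hb₁⟩ := torus_loop hC₁ hC₁c hB hBC₁ (fun D' hD' _ h' => hmax D' hD' h')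
    (hDC₁ hkD)
  obtain ⟨D₂, hD₂, hg₁D⟩ := hE g₁
  obtain ⟨B', hB', hεB', hB'c⟩ := comm_mem_EE c hD₂ hg₁D hk
  obtain ⟨C, hC, hCc, hBC, hB'C, hCmin⟩ := join_cca hB hB'
  have hkC : k ∈ C := by
    have h1 := hC.sub.mul _ (hC.sub.inv _ (hB'C hεB')) _ (hBC hb₁)
    have h2 : (((g₁ * k) * g₁⁻¹) * k⁻¹)⁻¹ * ((g₁ * k) * g₁⁻¹) = k := by
      have h3 := MLoop.inv_mul_left (((g₁ * k) * g₁⁻¹) * k⁻¹) k
      rwa [MLoop.mul_inv_mul] at h3
    rwa [h2] at h1
  have hwC : k⁻¹ * b ∈ C := hC.sub.mul _ (hC.sub.inv _ hkC) _ (hBC hb)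
  obtain ⟨g, hg, hw'⟩ := torus_loop hC hCc hB hBC (fun D' hD' _ h' => hmax D' hD' h') hwC
  obtain ⟨p, hp, hgp⟩ := mod_B c hB hB'c hCmin g hg
  have hw : c.r (k⁻¹ * b) b := by
    have h1 := c.right b _ _ (c.inv hk)
    rwa [EL6_inv_one, MLoop.one_mul] at h1
  have hr : c.r ((g * (k⁻¹ * b)) * g⁻¹) b := by
    have h1 := c.mul (c.mul hgp hw) (c.inv hgp)
    rwa [hB.comm p hp b hb, MLoop.mul_mul_inv] at h1
  refine ⟨g, hw', ?_⟩
  have h1 := (c.r_iff _ _).1 hr
  have h2 : ((g * (k⁻¹ * b)) * g⁻¹) * b⁻¹ ∈ B := hB.gp.sub.mul _ hw' _ (hB.gp.sub.inv _ hb)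
  have h3 := hχ.mul _ h2 b hb
  rw [MLoop.mul_inv_mul, h _ h2 h1, one_mul] at h3
  exact h3

/-- Conjugates of small elements are small, uniformly: compactness of L (tube lemma for the continuous
map (g, w) ↦ (g w) g⁻¹, which is 1 on L × {1}). -/
theorem conj_small (U : Set L) (hU : U ∈ 𝓝 (1 : L)) :
    ∃ W ∈ 𝓝 (1 : L), ∀ w ∈ W, ∀ g : L, (g * w) * g⁻¹ ∈ U := by
  have hcont : Continuous fun z : L × L => (z.2 * z.1) * z.2⁻¹ :=
    TopMLoop.cmul (TopMLoop.cmul continuous_snd continuous_fst) (TopMLoop.cinv continuous_snd)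
  have h := (isCompact_univ (X := L)).eventually_forall_of_forall_eventually (x₀ := (1 : L))
    (P := fun w g => (g * w) * g⁻¹ ∈ U) fun g _ => by
      have h0 : (fun z : L × L => (z.2 * z.1) * z.2⁻¹) (1, g) = 1 := by
        show (g * 1) * g⁻¹ = 1
        rw [MLoop.mul_one, MLoop.mul_inv_self]
      have h1 := hcont.continuousAt (x := ((1 : L), g))
      unfold ContinuousAt at h1
      rw [h0] at h1
      exact h1 hU
  exact ⟨_, h, fun w hw g => hw g (Set.mem_univ g)⟩

end Pool.Agent.MoufangHaar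
end

section

set_option autoImplicit false
set_option linter.unusedSectionVars false

open Topology Pool.Agent.CGrp

namespace Pool.Agent.MoufangHaar

variable {L : Type*} [MLoop L] [TopologicalSpace L] [TopMLoop L] [CompactSpace L] [T2Space L]
  [SecondCountableTopology L]

private theorem char_one {B : Set L} (hB : IsCCA B) {χ : L → Circle} (hχ : IsChar B χ) :
    χ 1 = 1 := by
  have h1 := hχ.mul 1 hB.gp.sub.one 1 hB.gp.sub.one
  rw [MLoop.mul_one] at h1
  exact (left_eq_mul.mp h1)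

private theorem r_mul_inv (c : CC L) {x y : L} (h : c.r x y) : c.r (x * y⁻¹) 1 := by
  have h1 := c.right y⁻¹ _ _ h
  rwa [MLoop.mul_inv_self] at h1

private theorem one_inv' : (1 : L)⁻¹ = 1 := by
  have h := MLoop.mul_inv_self (1 : L)
  rwa [MLoop.one_mul] at h

/-- LEFT CONTINUITY. Let b ∈ B with (csup S).r b 1, that is (b, 1) ∈ closure {p | ∃ c ∈ S, c.r p.1 p.2}. Suppose
χ b ≠ 1. χ is continuous at 1 on B, χ 1 = 1: there is a neighbourhood U of 1 with χ w' ≠ χ b for w' ∈ B ∩ U. Take W from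
conj_small. The set of p with (p.1 * p.2⁻¹)⁻¹ * b ∈ W is a neighbourhood of (b, 1), so it contains a p with
c.r p.1 p.2 for some c ∈ S. k = p.1 * p.2⁻¹ satisfies c.r k 1, and key_lemma gives g with
w' = (g (k⁻¹ b)) g⁻¹ ∈ B ∩ U, χ w' = χ b: contradiction. -/
theorem char_csup (hE : ∀ x : L, ∃ B : Set L, IsCCA B ∧ x ∈ B) {B : Set L}
    (hB : IsCCA B) (hmax : ∀ D : Set L, IsCCA D → B ⊆ D → D ⊆ B) {χ : L → Circle}
    (hχ : IsChar B χ) (S : Set (CC L)) (hne : S.Nonempty) (hS : IsChain (· ≤ ·) S)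
    (h : ∀ c ∈ S, ∀ y ∈ B, c.r y 1 → χ y = 1) :
    ∀ y ∈ B, (CC.csup S hne hS).r y 1 → χ y = 1 := by
  intro b hb hbS
  by_contra hne1
  have hc1 := hχ.cont 1 hB.gp.sub.one
  have hmem : {z : Circle | z ≠ χ b} ∈ 𝓝 (χ 1) := by
    refine isOpen_ne.mem_nhds ?_
    change χ 1 ≠ χ b
    rw [char_one hB hχ]
    exact fun h => hne1 h.symm
  have h2 : {w : L | χ w ≠ χ b} ∈ 𝓝[B] (1 : L) := hc1 hmem
  obtain ⟨U, hU, hUB⟩ := mem_nhdsWithin_iff_exists_mem_nhds_inter.mp h2
  obtain ⟨W, hW, hWU⟩ := conj_small U hU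
  have hcont : Continuous (fun p : L × L => (p.1 * p.2⁻¹)⁻¹ * b) :=
    TopMLoop.cmul (TopMLoop.cinv (TopMLoop.cmul continuous_fst (TopMLoop.cinv continuous_snd)))
      continuous_const
  have hval : (b * (1 : L)⁻¹)⁻¹ * b = 1 := by
    rw [one_inv', MLoop.mul_one, MLoop.inv_mul_self]
  have hN : {p : L × L | (p.1 * p.2⁻¹)⁻¹ * b ∈ W} ∈ 𝓝 ((b, 1) : L × L) := by
    refine hcont.continuousAt.preimage_mem_nhds ?_
    change W ∈ 𝓝 ((b * (1 : L)⁻¹)⁻¹ * b)
    rw [hval]
    exact hW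
  have hcl : ((b, 1) : L × L) ∈ closure {p : L × L | ∃ c ∈ S, CC.r c p.1 p.2} := hbS
  obtain ⟨p, hpN, c, hc, hp⟩ := mem_closure_iff_nhds.mp hcl _ hN
  obtain ⟨g, hg1, hg2⟩ := key_lemma hE c hB hmax hχ (h c hc) hb (r_mul_inv c hp)
  exact hUB ⟨hWU _ hpN g, hg1⟩ hg2

/-- RIGHT CONTINUITY. If χ = 1 on B ∩ class of c, there is an open V containing the class of c such that χ = 1 on
B ∩ class of d for every d whose class is inside V: V = complement of the closed set {y ∈ B | ‖χ y - 1‖ >= 1} (χ is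
continuous on the closed set B); the powers of χ y, y ∈ B ∩ class of d, are values χ (npw y n) at elements of
B ∩ class of d, so circle_small applies. -/
theorem char_open {B : Set L} (hB : IsCCA B) {χ : L → Circle} (hχ : IsChar B χ) (c : CC L)
    (h : ∀ y ∈ B, c.r y 1 → χ y = 1) :
    ∃ V : Set L, IsOpen V ∧ (∀ x, c.r x 1 → x ∈ V) ∧
      ∀ d : CC L, (∀ x, d.r x 1 → x ∈ V) → ∀ y ∈ B, d.r y 1 → χ y = 1 := by
  have hT : IsClosed {z : Circle | 1 ≤ ‖(z : ℂ) - 1‖} :=
    isClosed_le continuous_const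
      ((continuous_subtype_val.sub continuous_const).norm)
  have hF : IsClosed (B ∩ χ ⁻¹' {z : Circle | 1 ≤ ‖(z : ℂ) - 1‖}) :=
    hχ.cont.preimage_isClosed_of_isClosed hB.gp.closed hT
  refine ⟨(B ∩ χ ⁻¹' {z : Circle | 1 ≤ ‖(z : ℂ) - 1‖})ᶜ, hF.isOpen_compl, ?_, ?_⟩
  · rintro x hx ⟨hxB, hx1⟩
    have h1 : (1 : ℝ) ≤ ‖((χ x : Circle) : ℂ) - 1‖ := hx1
    rw [h x hxB hx, Circle.coe_one, sub_self, norm_zero] at h1
    linarith
  · intro d hd y hy hdy
    refine circle_small _ fun n => ?_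
    have hsucc : ∀ n : ℕ, npw y (n + 1) = y * npw y n := by
      intro n
      unfold npw
      rw [Function.iterate_succ_apply']
    have hn : npw y n ∈ B ∧ d.r (npw y n) 1 ∧ χ (npw y n) = χ y ^ n := by
      induction n with
      | zero =>
        refine ⟨hB.gp.sub.one, d.equiv.refl _, ?_⟩
        rw [pow_zero]
        exact char_one hB hχ
      | succ n ih =>
        rw [hsucc]
        refine ⟨hB.gp.sub.mul _ hy _ ih.1, ?_, ?_⟩
        · have h1 := d.left y _ _ ih.2.1
          rw [MLoop.mul_one] at h1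
          exact d.equiv.trans h1 hdy
        · rw [hχ.mul _ hy _ ih.1, ih.2.2, pow_succ']
    have h2 := hd _ hn.2.1
    rw [← hn.2.2]
    by_contra hcon
    exact h2 ⟨hn.1, not_lt.mp hcon⟩

end Pool.Agent.MoufangHaar
end

section

set_option autoImplicit false
set_option linter.unusedSectionVars false

open Topology Pool.Agent.CGrp

namespace Pool.Agent.MoufangHaar

variable {L : Type*} [MLoop L] [TopologicalSpace L] [TopMLoop L] [CompactSpace L] [T2Space L]
  [SecondCountableTopology L]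

/-- Zorn (`zorn_le₀` for {c : CC L | c ≤ CC.res L ∧ ∀ y ∈ B, c.r y 1 → χ y = 1}; CC.bot L is in it; chains: csup,
csup_le, char_csup). Let m be a maximal element. If ¬ CC.res L ≤ m, CC.exists_between for c = m and V from
char_open gives d with m ≤ d ≤ res, d ≠ m, class inside V, so d is in the set: contradiction. So m = res. -/
theorem char_res (hE : ∀ x : L, ∃ B : Set L, IsCCA B ∧ x ∈ B) {B : Set L}
    (hB : IsCCA B) (hmax : ∀ D : Set L, IsCCA D → B ⊆ D → D ⊆ B) {χ : L → Circle}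
    (hχ : IsChar B χ) : ∀ y ∈ B, (CC.res L).r y 1 → χ y = 1 := by
  have h1 : χ 1 = 1 := by
    have h2 := hχ.mul 1 hB.gp.sub.one 1 hB.gp.sub.one
    rw [MLoop.mul_one] at h2
    exact (left_eq_mul.mp h2)
  obtain ⟨m, hm⟩ := zorn_le₀ {c : CC L | c ≤ CC.res L ∧ ∀ y ∈ B, c.r y 1 → χ y = 1} (by
    intro S hS hchain
    rcases S.eq_empty_or_nonempty with rfl | hne
    · refine ⟨CC.bot L, ⟨fun x y hxy => ?_, fun y _ hy => ?_⟩, fun z hz => absurd hz (by simp)⟩
      · have h3 : x = y := hxy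
        rw [h3]
        exact (CC.res L).equiv.refl _
      · have h3 : y = 1 := hy
        rw [h3, h1]
    · refine ⟨CC.csup S hne hchain, ⟨?_, ?_⟩, fun z hz => CC.le_csup hne hchain hz⟩
      · exact CC.csup_le hne hchain fun c hc => (hS hc).1
      · exact char_csup hE hB hmax hχ S hne hchain fun c hc => (hS hc).2)
  by_cases hle : CC.res L ≤ m
  · intro y hy hry
    exact hm.1.2 y hy (hle _ _ hry)
  · exfalso
    obtain ⟨V, hV, hmV, hVd⟩ := char_open hB hχ m hm.1.2
    obtain ⟨d, hd1, ⟨x, y, hxy, hnxy⟩, hd3, hd4⟩ := CC.exists_between (c := m) hm.1.1 (by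
      by_contra hcon
      push Not at hcon
      exact hle hcon) V hV hmV
    have hdm : d ≤ m := hm.2 ⟨hd3, hVd d hd4⟩ hd1
    exact hnxy (hdm _ _ hxy)

/-- B a maximal CCA (exists_max_cca with C = univ). By char_res and IsCCA.exists_char B ∩ class of res is {1}. If
(CC.res L).r x 1: x ∈ D CCA, join_cca B D, torus_loop: (g x) g⁻¹ ∈ B, and it is in the class of res (replace x by 1),
so it is 1 and x = 1. So res is trivial (CC.r_iff), the projection L → (res L).Q is bijective, a homeomorphism,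
and CC.hasMean_res gives HasMean L (HasMean.image with the inverse). -/
theorem hasMean_of_cca (hE : ∀ x : L, ∃ B : Set L, IsCCA B ∧ x ∈ B) : HasMean L := by
  obtain ⟨B, hB, _, _, hmax'⟩ := exists_max_cca (Set.univ : Set L) isClosed_univ {1} cca_one
    (Set.subset_univ _)
  have hmax : ∀ D : Set L, IsCCA D → B ⊆ D → D ⊆ B := fun D hD h =>
    hmax' D hD (Set.subset_univ _) h
  have hone : ∀ x ∈ B, (CC.res L).r x 1 → x = 1 := by
    intro x hx hr
    by_contra hne
    obtain ⟨χ, hχ, hχx⟩ := hB.exists_char hx hne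
    exact hχx (char_res hE hB hmax hχ x hx hr)
  have htriv : ∀ x, (CC.res L).r x 1 → x = 1 := by
    intro x hr
    obtain ⟨D, hD, hxD⟩ := hE x
    obtain ⟨C, hC, hCc, hBC, hDC, _⟩ := join_cca hB hD
    obtain ⟨g, _, hgB⟩ := torus_loop hC hCc hB hBC (fun D' hD' _ h => hmax D' hD' h) (hDC hxD)
    have h1 : (CC.res L).r ((g * x) * g⁻¹) 1 := by
      have h2 := (CC.res L).left g _ _ hr
      rw [MLoop.mul_one] at h2
      have h3 := (CC.res L).right g⁻¹ _ _ h2
      rwa [MLoop.mul_inv_self] at h3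
    have h2 := hone _ hgB h1
    have h3 : g * x = g := by
      have h4 := MLoop.mul_inv_mul (g * x) g
      rw [h2, MLoop.one_mul] at h4
      exact h4.symm
    refine MLoop.mul_left_cancel (a := g) ?_
    rw [h3, MLoop.mul_one]
  have hinj : ∀ x y, (CC.res L).r x y → x = y := by
    intro x y h
    have h1 := htriv _ (((CC.res L).r_iff x y).mp h)
    have h2 := MLoop.mul_inv_mul x y
    rw [h1, MLoop.one_mul] at h2
    exact h2.symm
  let θ : (CC.res L).Q → L := Quotient.lift (fun x : L => x) fun x y hxy => hinj x y hxy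
  have hθc : Continuous θ := by
    rw [(CC.res L).isQuotientMap_pr.continuous_iff]
    exact continuous_id
  have hθh : IsMHom θ := ⟨fun p q => by
    obtain ⟨x, rfl⟩ := (CC.res L).pr_surj p
    obtain ⟨y, rfl⟩ := (CC.res L).pr_surj q
    rfl⟩
  have hθs : Function.Surjective θ := fun x => ⟨(CC.res L).pr x, rfl⟩
  exact CC.hasMean_res.image θ hθh hθc hθs

end Pool.Agent.MoufangHaar
end

section

set_option autoImplicit false
set_option linter.unusedSectionVars false

open Topology Pool.Agent.CGrp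

namespace Pool.Agent.MoufangHaar

variable {L : Type*} [MLoop L] [TopologicalSpace L] [TopMLoop L] [CompactSpace L] [T2Space L]

/-- metrizable case: EE of the top congruence is Div (mem_div_iff_cca; CC.top relates everything) -/
theorem EE_top [SecondCountableTopology L] : EE (CC.top L) = Div L := by
  ext x
  rw [mem_div_iff_cca]
  constructor
  · rintro ⟨B, hB, hx, _⟩
    exact ⟨B, hB, hx⟩
  · rintro ⟨B, hB, hx⟩
    exact ⟨B, hB, hx, fun _ _ => trivial⟩

private theorem isPreconnected_pre {X Y : Type*} [TopologicalSpace X] [TopologicalSpace Y]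
    {f : Y → X} (hf : Topology.IsInducing f) {B : Set X} (h : B ⊆ Set.range f)
    (hB : IsPreconnected B) : IsPreconnected (f ⁻¹' B) := by
  have h1 : f '' (f ⁻¹' B) = B := Set.image_preimage_eq_of_subset h
  refine hf.isPreconnected_image.mp ?_
  rw [h1]
  exact hB

/-- metrizable case: the loop Div L has an invariant mean. c = ee ⊤, M = {x : L // c.pr x = 1} with kerM, kerT is a
compact second countable loop, its points are the points of Div L (pr_eq, ee_iff, EE_top); every element lies in a CCA of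
L contained in Div L, whose preimage in M is a CCA of M; hasMean_of_cca. -/
theorem hasMean_ee_top [SecondCountableTopology L] :
    @HasMean {x : L // (ee (CC.top L)).pr x = 1} (kerM (ee (CC.top L)).pr_hom) _
      (kerT (ee (CC.top L)).pr_hom) := by
  obtain ⟨c, hc⟩ : ∃ c, c = ee (CC.top L) := ⟨_, rfl⟩
  have hr : ∀ x, c.r x 1 ↔ x ∈ EE (CC.top L) := fun x => by
    rw [hc]
    exact ee_iff _ x
  rw [← hc]
  let _ : MLoop {x : L // c.pr x = 1} := kerM c.pr_hom
  have _ : TopMLoop {x : L // c.pr x = 1} := kerT c.pr_hom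
  have _ : CompactSpace {x : L // c.pr x = 1} :=
    isCompact_iff_compactSpace.mp ((isClosed_eq c.pr_cont continuous_const).isCompact)
  have _ : SecondCountableTopology {x : L // c.pr x = 1} :=
    Topology.IsEmbedding.subtypeVal.secondCountableTopology
  refine hasMean_of_cca (L := {x : L // c.pr x = 1}) ?_
  rintro ⟨x, hx⟩
  have hx1 : x ∈ EE (CC.top L) := (hr x).mp (c.pr_eq.mp hx)
  obtain ⟨B, hB, hxB, _⟩ := hx1
  have hB1 : ∀ y ∈ B, c.pr y = 1 := fun y hy =>
    c.pr_eq.mpr ((hr y).mpr ⟨B, hB, hy, fun _ _ => trivial⟩)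
  refine ⟨Subtype.val ⁻¹' B, ⟨⟨⟨hB.gp.sub.one, ?_, ?_⟩, ?_, ?_⟩, ?_, ?_⟩, hxB⟩
  · intro a ha b hb
    exact hB.gp.sub.mul _ ha _ hb
  · intro a ha
    exact hB.gp.sub.inv _ ha
  · exact hB.gp.closed.preimage continuous_subtype_val
  · intro a ha b hb d hd
    exact Subtype.ext (hB.gp.assoc _ ha _ hb _ hd)
  · refine ⟨⟨1, hB.gp.sub.one⟩, ?_⟩
    exact isPreconnected_pre Topology.IsInducing.subtypeVal (fun y hy => ⟨⟨y, hB1 y hy⟩, rfl⟩)
      hB.conn.isPreconnected
  · intro a ha b hb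
    exact Subtype.ext (hB.comm _ ha _ hb)

end Pool.Agent.MoufangHaar
end

section

set_option autoImplicit false
set_option linter.unusedSectionVars false

open Topology Pool.Agent.CGrp

namespace Pool.Agent.MoufangHaar

variable {L : Type*} [MLoop L] [TopologicalSpace L] [TopMLoop L] [CompactSpace L] [T2Space L]

/-- The closed congruence dv of Div L: the intersection of the pull backs of ee ⊤ from the metrizable quotients -/
noncomputable def dv (L : Type*) [MLoop L] [TopologicalSpace L] [TopMLoop L] [CompactSpace L]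
    [T2Space L] : CC L :=
  CC.inf {d : CC L | ∃ (c : CC L) (_ : SecondCountableTopology c.Q),
    d = CC.comap c.pr c.pr_hom c.pr_cont (ee (CC.top c.Q))}

/-- The class of 1 is Div L. If x ∈ Div L its image in c.Q is in Div c.Q = EE ⊤ (div_image). Conversely let
c.pr x ∈ Div c.Q = c.pr '' Div L for all metrizable c. If x ∉ Div L (closed), let U = {u | x u ∉ Div L}, a
neighbourhood of 1, and c from exists_small_metrizable for U (or for the set of all u with u⁻¹ ∈ U): c.r x d for some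
d ∈ Div L, so x⁻¹ d is in the class of 1, x (x⁻¹ d) = d ∈ Div L: contradiction. -/
theorem dv_iff (x : L) : (dv L).r x 1 ↔ x ∈ Div L := by
  have key : ∀ (c : CC L) (_ : SecondCountableTopology c.Q),
      (CC.comap c.pr c.pr_hom c.pr_cont (ee (CC.top c.Q))).r x 1 ↔ c.pr x ∈ Div c.Q := by
    intro c hsc
    have h1 : (CC.comap c.pr c.pr_hom c.pr_cont (ee (CC.top c.Q))).r x 1 ↔
        (ee (CC.top c.Q)).r (c.pr x) 1 := Iff.rfl
    rw [h1, ee_iff, EE_top]
  constructor
  · intro h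
    by_contra hx
    have hU : {u : L | x * u ∉ Div L} ∈ 𝓝 (1 : L) := by
      have hcont : Continuous (fun u : L => x * u) := TopMLoop.continuous_mul_left x
      have hopen : IsOpen {u : L | x * u ∉ Div L} :=
        (div_closed (L := L)).isOpen_compl.preimage hcont
      refine hopen.mem_nhds ?_
      show x * 1 ∉ Div L
      rw [MLoop.mul_one]
      exact hx
    obtain ⟨c, hsc, hc⟩ := exists_small_metrizable _ hU
    have h2 : c.pr x ∈ Div c.Q := (key c hsc).mp (h _ ⟨c, hsc, rfl⟩)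
    rw [← div_image c.pr c.pr_hom c.pr_cont c.pr_surj] at h2
    obtain ⟨d, hd, hdx⟩ := h2
    have h3 : c.r d x := c.pr_eq.mp hdx
    have h4 := c.left x⁻¹ _ _ h3
    rw [MLoop.inv_mul_self] at h4
    have h5 : x * (x⁻¹ * d) ∉ Div L := hc _ h4
    rw [MLoop.mul_inv_left] at h5
    exact h5 hd
  · intro hx
    rintro d ⟨c, hsc, rfl⟩
    refine (key c hsc).mpr ?_
    rw [← div_image c.pr c.pr_hom c.pr_cont c.pr_surj]
    exact ⟨x, hx, rfl⟩

end Pool.Agent.MoufangHaar
end

section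

set_option autoImplicit false
set_option linter.unusedSectionVars false

open Topology Pool.Agent.CGrp

namespace Pool.Agent.MoufangHaar

variable {L : Type*} [MLoop L] [TopologicalSpace L] [TopMLoop L] [CompactSpace L] [T2Space L]

/-- The projective limit: HasMean.lim for K = {x : L // (dv L).pr x = 1}: for an open U ∋ 1 in K choose a neighbourhood
U' of 1 in L with U' ∩ K ⊆ U, c from exists_small_metrizable for U', M = {q : c.Q // (ee ⊤).pr q = 1} (hasMean_ee_top),
ρ x = c.pr x (in Div c.Q by dv_iff and div_image), surjective by div_image. -/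
theorem hasMean_dv :
    @HasMean {x : L // (dv L).pr x = 1} (kerM (dv L).pr_hom) _ (kerT (dv L).pr_hom) := by
  let _ : MLoop {x : L // (dv L).pr x = 1} := kerM (dv L).pr_hom
  have _ : TopMLoop {x : L // (dv L).pr x = 1} := kerT (dv L).pr_hom
  have hcl : IsClosed {x : L | (dv L).pr x = 1} :=
    isClosed_eq (dv L).pr_cont continuous_const
  have _ : CompactSpace {x : L // (dv L).pr x = 1} :=
    isCompact_iff_compactSpace.1 hcl.isCompact
  refine HasMean.lim fun U hU h1 => ?_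
  obtain ⟨U', hU'o, hU'⟩ := isOpen_induced_iff.1 hU
  have h1' : (1 : L) ∈ U' := by
    rw [← hU'] at h1
    exact h1
  obtain ⟨c, hc2, hcU⟩ := exists_small_metrizable U' (hU'o.mem_nhds h1')
  have himg : c.pr '' Div L = Div c.Q := div_image c.pr c.pr_hom c.pr_cont c.pr_surj
  have hee : ∀ q : c.Q, (ee (CC.top c.Q)).pr q = 1 ↔ q ∈ Div c.Q := by
    intro q
    rw [← EE_top, ← ee_iff]
    exact (ee (CC.top c.Q)).pr_eq
  have hK : ∀ x : L, (dv L).pr x = 1 ↔ x ∈ Div L := by
    intro x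
    rw [← dv_iff]
    exact (dv L).pr_eq
  refine ⟨{q : c.Q // (ee (CC.top c.Q)).pr q = 1}, kerM (ee (CC.top c.Q)).pr_hom, inferInstance,
    inferInstance, kerT (ee (CC.top c.Q)).pr_hom,
    fun x => ⟨c.pr x.1, (hee _).2 (himg ▸ ⟨x.1, (hK _).1 x.2, rfl⟩)⟩, hasMean_ee_top,
    @IsMHom.mk _ _ (_) (_) _ fun x y => Subtype.ext rfl,
    (c.pr_cont.comp continuous_subtype_val).subtype_mk _, ?_, ?_⟩
  · rintro ⟨q, hq⟩
    have h2 : q ∈ c.pr '' Div L := by
      rw [himg]
      exact (hee q).1 hq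
    obtain ⟨x, hx, rfl⟩ := h2
    exact ⟨⟨x, (hK x).2 hx⟩, rfl⟩
  · intro x hx
    have h2 : c.pr x.1 = 1 := congrArg Subtype.val hx
    have h3 : x.1 ∈ U' := hcU _ (c.pr_eq.1 h2)
    rw [← hU']
    exact h3

/-- Div L is connected. Metrizable case: union of connected sets containing 1 (mem_div_iff_cca). General case: if
Div L = A ∪ A' with disjoint nonempty closed sets, the set of all a a'⁻¹ (and a' a⁻¹) is compact and does not contain 1;
take U = its complement and c from exists_small_metrizable; c.pr '' A and c.pr '' A' are disjoint nonempty closed sets with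
union Div c.Q (div_image), which is connected. 1 ∈ Div L. -/
theorem div_connected : IsConnected (Div L) := by
  have h1 : ∀ (M : Type _) [MLoop M] [TopologicalSpace M] [TopMLoop M] [CompactSpace M] [T2Space M],
      (1 : M) ∈ Div M := fun M _ _ _ _ _ => (dv_iff (L := M) 1).1 ((dv M).equiv.refl 1)
  refine ⟨⟨1, h1 L⟩, isPreconnected_closed_iff.2 fun t t' ht ht' hsub hne hne' => ?_⟩
  by_contra hcon
  rw [Set.not_nonempty_iff_eq_empty] at hcon
  have hD : IsClosed (Div L) := div_closed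
  have hA : IsCompact (Div L ∩ t) := (hD.inter ht).isCompact
  have hA' : IsCompact (Div L ∩ t') := (hD.inter ht').isCompact
  have hcm : Continuous fun p : L × L => p.1 * p.2⁻¹ :=
    TopMLoop.cmul continuous_fst (TopMLoop.cinv continuous_snd)
  have hDc : IsClosed ((fun p : L × L => p.1 * p.2⁻¹) '' ((Div L ∩ t) ×ˢ (Div L ∩ t'))) :=
    ((hA.prod hA').image hcm).isClosed
  have h1D : (1 : L) ∉ (fun p : L × L => p.1 * p.2⁻¹) '' ((Div L ∩ t) ×ˢ (Div L ∩ t')) := by
    rintro ⟨⟨a, a'⟩, ⟨ha, ha'⟩, he⟩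
    have he' : a * a'⁻¹ = 1 := he
    have h2 : a = a' := by
      have h3 := MLoop.mul_inv_mul a a'
      rw [he', MLoop.one_mul] at h3
      exact h3.symm
    have h3 : a ∈ Div L ∩ (t ∩ t') := ⟨ha.1, ha.2, h2 ▸ ha'.2⟩
    rw [hcon] at h3
    exact h3
  obtain ⟨c, hc2, hcU⟩ := exists_small_metrizable _ (hDc.isOpen_compl.mem_nhds h1D)
  have himg : c.pr '' Div L = Div c.Q := div_image c.pr c.pr_hom c.pr_cont c.pr_surj
  have hconn : IsPreconnected (Div c.Q) := by
    refine isPreconnected_of_forall (1 : c.Q) fun y hy => ?_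
    obtain ⟨B, hB, hyB⟩ := (mem_div_iff_cca y).1 hy
    exact ⟨B, fun z hz => (mem_div_iff_cca z).2 ⟨B, hB, hz⟩, hB.gp.sub.one, hyB,
      hB.conn.isPreconnected⟩
  have hk := isPreconnected_closed_iff.1 hconn (c.pr '' (Div L ∩ t)) (c.pr '' (Div L ∩ t'))
    (hA.image c.pr_cont).isClosed (hA'.image c.pr_cont).isClosed (by
      rw [← himg]
      rintro _ ⟨x, hx, rfl⟩
      rcases hsub hx with h | h
      · exact Or.inl ⟨x, ⟨hx, h⟩, rfl⟩
      · exact Or.inr ⟨x, ⟨hx, h⟩, rfl⟩) (by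
      obtain ⟨x, hx⟩ := hne
      exact ⟨c.pr x, himg ▸ ⟨x, hx.1, rfl⟩, ⟨x, hx, rfl⟩⟩) (by
      obtain ⟨x, hx⟩ := hne'
      exact ⟨c.pr x, himg ▸ ⟨x, hx.1, rfl⟩, ⟨x, hx, rfl⟩⟩)
  obtain ⟨q, -, ⟨a, ha, haq⟩, ⟨a', ha', haq'⟩⟩ := hk
  have hr : c.r a a' := c.pr_eq.1 (haq.trans haq'.symm)
  exact hcU _ ((c.r_iff a a').1 hr) ⟨(a, a'), ⟨ha, ha'⟩, rfl⟩

end Pool.Agent.MoufangHaar
end
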