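import Pool.Agent.Lib.MP_fd6bc6_al.Mg.G007
import Pool.Agent.Lib.MP_fd6bc6_al.Mg.G009

section

/-! # The filling lemma -/

set_option autoImplicit false

namespace Pool.Agent.MP_fd6bc6_al.BU

open Finsupp

section aux

variable {K : Type*} [CommRing K]

theorem map_mem_of_supported {M : Type*} [AddCommMonoid M] [Module K M] {B : Type*} {S : Set B}
    (f : (B →₀ K) →ₗ[K] M) (P : Submodule K M) (h : ∀ w ∈ S, f (single w 1) ∈ P)
    {z : B →₀ K} (hz : z ∈ supported K K S) : f z ∈ P := by
  rw [supported_eq_span_single] at hz
  induction hz using Submodule.span_induction with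
  | mem x hx =>
    obtain ⟨w, hw, rfl⟩ := hx
    exact h w hw
  | zero => rw [map_zero]; exact P.zero_mem
  | add x y _ _ hx hy => rw [map_add]; exact P.add_mem hx hy
  | smul c x _ hx => rw [map_smul]; exact P.smul_mem c hx

theorem eq_of_supported {M : Type*} [AddCommGroup M] [Module K M] {B : Type*} {S : Set B}
    (f g : (B →₀ K) →ₗ[K] M) (h : ∀ w ∈ S, f (single w 1) = g (single w 1))
    {z : B →₀ K} (hz : z ∈ supported K K S) : f z = g z := by
  have h1 := map_mem_of_supported (f - g) ⊥ (fun w hw => by
    rw [LinearMap.sub_apply, h w hw, sub_self]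
    exact zero_mem _) hz
  rw [Submodule.mem_bot, LinearMap.sub_apply] at h1
  exact sub_eq_zero.1 h1

end aux

section rows

variable (K : Type*) [CommRing K] {V : Type*}

/-- The augmentation of a tuple. -/
def augB : List (List V) → K
  | [] => 1
  | t :: w => if t.length = 1 then augB w else 0

/-- The augmentation. -/
noncomputable def aug : Ch K (List V) →ₗ[K] K := linearCombination K (augB K)

/-- The projection to the first block. -/
noncomputable def prjB : List (List V) → Ch K V
  | [] => 0
  | t :: w => single t (augB K w)

/-- The projection to the first block. -/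
noncomputable def prj : Ch K (List V) →ₗ[K] Ch K V := linearCombination K (prjB K)

/-- The part with first block `t`. -/
noncomputable def row (t : List V) : Ch K (List V) →ₗ[K] Ch K (List V) :=
  lcomapDomain (List.cons t) (List.cons_injective)

variable {K}

theorem consL_supported {A : Type*} {S T : Set (List A)} (a : A) (h : ∀ w ∈ S, a :: w ∈ T)
    {z : Ch K A} (hz : z ∈ supported K K S) :
    consL K a z ∈ supported K K T :=
  map_mem_of_supported (consL K a) _ (fun w hw => by
    rw [consL_single]; exact single_mem_supported K 1 (h w hw)) hz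

theorem tens_supported {S : Set (List V)} {T U : Set (List (List V))}
    (h : ∀ t ∈ S, ∀ w ∈ T, t :: w ∈ U) {x : Ch K V} (hx : x ∈ supported K K S)
    {z : Ch K (List V)} (hz : z ∈ supported K K T) :
    tens K z x ∈ supported K K U :=
  map_mem_of_supported (tens K z) _ (fun t ht => by
    rw [tens_single, one_smul]
    exact consL_supported t (h t ht) hz) hx

theorem ndelB_supported (t : List V) : ndelB K t ∈ supported K K
    {m : List V | m.length + 1 = t.length ∧ m ≠ [] ∧ m.Sublist t} := by
  rw [mem_supported]
  intro m hm
  have h := ndelB_supp hm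
  exact ⟨h.2.2, h.1, h.2.1⟩

theorem aug_consL (t : List V) (z : Ch K (List V)) :
    aug K (consL K t z) = if t.length = 1 then aug K z else 0 := by
  induction z using Finsupp.induction_linear with
  | zero => simp
  | add f g hf hg => rw [map_add, map_add, hf, hg, map_add]; split_ifs <;> simp
  | single w c =>
    rw [consL_single, aug, linearCombination_single, linearCombination_single,
      augB]
    split_ifs <;> simp

theorem aug_bdB (w : List (List V)) : aug K (bdB K w) = 0 := by
  induction w with
  | nil => simp [bdB]
  | cons t w ih =>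
    rw [bdB, map_add, map_smul, aug_consL, ih, ite_self, smul_zero, add_zero]
    match t with
    | [] => simp [ndelB]
    | [a] => simp [ndelB]
    | [a, b] => simp [ndelB, delB, tens_single, consL_single, aug, augB]
    | a :: b :: c :: t =>
      refine eq_of_supported ((aug K).comp (tens K (single w 1))) 0
        (fun m hm => ?_) (ndelB_supported (K := K) (a :: b :: c :: t))
      have h1 := hm.1
      have h2 : m.length ≠ 1 := by
        simp only [List.length_cons] at h1
        omega
      rw [LinearMap.comp_apply, tens_single, one_smul, aug_consL,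
        if_neg h2, LinearMap.zero_apply]

theorem aug_bd (z : Ch K (List V)) : aug K (bd K z) = 0 := by
  induction z using Finsupp.induction_linear with
  | zero => simp
  | add f g hf hg => rw [map_add, map_add, hf, hg, add_zero]
  | single w c => rw [bd, linearCombination_single, map_smul, aug_bdB, smul_zero]

theorem prj_consL (t : List V) (z : Ch K (List V)) :
    prj K (consL K t z) = single t (aug K z) := by
  induction z using Finsupp.induction_linear with
  | zero => simp
  | add f g hf hg => rw [map_add, map_add, hf, hg, map_add, single_add]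
  | single w c =>
    rw [consL_single, prj, linearCombination_single, aug,
      linearCombination_single, prjB, smul_single]

theorem prj_tens (x : Ch K V) (z : Ch K (List V)) :
    prj K (tens K z x) = aug K z • x := by
  induction x using Finsupp.induction_linear with
  | zero => simp
  | add f g hf hg => rw [map_add, map_add, hf, hg, smul_add]
  | single t c =>
    rw [tens_single, map_smul, prj_consL, smul_single, smul_single, smul_eq_mul,
      smul_eq_mul, mul_comm]

theorem prj_bd (z : Ch K (List V)) :
    prj K (bd K z) = linearCombination K (ndelB K) (prj K z) := by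
  have key : ∀ w : List (List V), prj K (bdB K w) = linearCombination K (ndelB K) (prjB K w) := fun w => by
    cases w with
    | nil => simp [bdB, prjB]
    | cons t w =>
      rw [bdB, prjB, map_add, map_smul, prj_consL, aug_bdB, single_zero, smul_zero,
        add_zero, linearCombination_single, prj_tens, aug,
        linearCombination_single, one_smul]
  induction z using Finsupp.induction_linear with
  | zero => simp
  | add f g hf hg => rw [map_add, map_add, hf, hg, map_add, map_add]
  | single w c =>
    rw [bd, linearCombination_single, map_smul, key, prj,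
      linearCombination_single, map_smul]

theorem row_apply (t : List V) (z : Ch K (List V)) (w : List (List V)) :
    row K t z w = z (t :: w) := by
  rw [row, Finsupp.lcomapDomain_apply, Finsupp.comapDomain_apply]

variable [DecidableEq V]

/-- Admissible tuples: nonempty lists, each letter of `E` at most once in the whole tuple. -/
def Ad : Finset V → List (List V) → Prop
  | _, [] => True
  | E, t :: w => (t ≠ [] ∧ t.Nodup ∧ ∀ v ∈ t, v ∈ E) ∧ Ad (E \ t.toFinset) w

theorem sdiff_mono' {E E' : Finset V} (h : E ⊆ E') {t t' : List V}
    (ht : t'.Sublist t) : E \ t.toFinset ⊆ E' \ t'.toFinset := by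
  refine Finset.sdiff_subset_sdiff h fun v hv => ?_
  rw [List.mem_toFinset] at hv ⊢
  exact ht.subset hv

theorem Ad.mono {E E' : Finset V} (h : E ⊆ E') {w : List (List V)}
    (hw : Ad E w) : Ad E' w := by
  induction w generalizing E E' with
  | nil => trivial
  | cons t w ih => exact ⟨⟨hw.1.1, hw.1.2.1, fun v hv => h (hw.1.2.2 v hv)⟩,
      ih (sdiff_mono' h (List.Sublist.refl t)) hw.2⟩

theorem Ad.length_le {E : Finset V} {w : List (List V)} (hw : Ad E w) :
    w.length ≤ (w.map List.length).sum := by
  induction w generalizing E with
  | nil => simp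
  | cons t w ih =>
    have h1 := ih hw.2
    have h2 := List.length_pos_iff.2 hw.1.1
    simp only [List.length_cons, List.map_cons, List.sum_cons]
    omega

/-- The admissible tuples of `n` lists of total length `j + n`. -/
def Adm (n : ℕ) (E : Finset V) (j : ℕ) : Set (List (List V)) :=
  {w | Ad E w ∧ w.length = n ∧ (w.map List.length).sum = j + n}

theorem bdB_supported'' (w : List (List V)) (E : Finset V) (h : Ad E w) : bdB K w ∈
    supported K K {x : List (List V) | Ad E x ∧ x.length = w.length ∧
      (x.map List.length).sum + 1 = (w.map List.length).sum} := by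
  induction w generalizing E with
  | nil => rw [bdB]; exact zero_mem _
  | cons t w ih =>
    rw [bdB]
    refine add_mem (tens_supported (T := {w}) (fun m hm x hx => ?_) (ndelB_supported t)
      (single_mem_supported K 1 rfl)) (Submodule.smul_mem _ _
      (consL_supported t (fun x hx => ?_) (ih (E \ t.toFinset) h.2)))
    · obtain rfl : x = w := hx
      refine ⟨⟨⟨hm.2.1, h.1.2.1.sublist hm.2.2, fun v hv => h.1.2.2 v (hm.2.2.subset hv)⟩,
        h.2.mono (sdiff_mono' le_rfl hm.2.2)⟩, rfl, ?_⟩
      have := hm.1
      simp only [List.map_cons, List.sum_cons]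
      omega
    · refine ⟨⟨h.1, hx.1⟩, by simp [hx.2.1], ?_⟩
      have := hx.2.2
      simp only [List.map_cons, List.sum_cons]
      omega

theorem bd_supported' {n : ℕ} {E : Finset V} {j : ℕ} {z : Ch K (List V)}
    (hz : z ∈ supported K K (Adm n E (j + 1))) :
    bd K z ∈ supported K K (Adm n E j) :=
  map_mem_of_supported (bd K) _ (fun w hw => by
    rw [bd, linearCombination_single, one_smul]
    refine supported_mono (fun x hx => ?_) (bdB_supported'' w E hw.1)
    have h1 := hw.2.1
    have h2 := hw.2.2
    have h3 := hx.2.2
    exact ⟨hx.1, hx.2.1.trans h1, by omega⟩) hz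

theorem augB_eq_zero {E : Finset V} {w : List (List V)} (hw : Ad E w)
    (h : (w.map List.length).sum ≠ w.length) : augB K w = 0 := by
  induction w generalizing E with
  | nil => simp at h
  | cons t w ih =>
    rw [augB]
    split_ifs with h1
    · refine ih hw.2 fun h2 => h ?_
      simp only [List.map_cons, List.sum_cons, List.length_cons, h1, h2]
      omega
    · rfl

theorem aug_eq_zero {n : ℕ} {E : Finset V} {j : ℕ} {z : Ch K (List V)}
    (hz : z ∈ supported K K (Adm n E (j + 1))) : aug K z = 0 :=
  eq_of_supported (aug K) 0 (fun w hw => by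
    rw [aug, linearCombination_single, augB_eq_zero hw.1, smul_zero, LinearMap.zero_apply]
    have h1 := hw.2.1
    have h2 := hw.2.2
    omega) hz

theorem row_consL (t s : List V) (z : Ch K (List V)) :
    row K t (consL K s z) = if s = t then z else 0 := by
  ext w
  rw [row, consL, Finsupp.lcomapDomain_apply, Finsupp.comapDomain_apply,
    Finsupp.lmapDomain_apply]
  split_ifs with h
  · rw [h]
    exact Finsupp.mapDomain_apply (List.cons_injective) z w
  · exact Finsupp.mapDomain_of_notMem_range z _ (by
      rintro ⟨x, hx⟩
      exact h (List.cons.inj hx).1)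

theorem row_tens (t : List V) (x : Ch K V) (z : Ch K (List V)) :
    row K t (tens K z x) = x t • z := by
  induction x using Finsupp.induction_linear with
  | zero => simp
  | add f g hf hg =>
    rw [map_add, map_add, hf, hg, Finsupp.add_apply, add_smul]
  | single s c =>
    rw [tens_single, map_smul, row_consL, single_apply]
    split_ifs <;> simp

theorem prj_apply (t : List V) (z : Ch K (List V)) : prj K z t = aug K (row K t z) := by
  induction z using Finsupp.induction_linear with
  | zero => simp
  | add f g hf hg => rw [map_add, Finsupp.add_apply, hf, hg, map_add, map_add]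
  | single w c =>
    cases w with
    | nil =>
      have h : row K t (single ([] : List (List V)) c) = 0 := by
        ext w
        rw [row_apply, single_apply, if_neg (by simp)]
        rfl
      rw [h, prj, linearCombination_single, prjB]
      simp
    | cons s w =>
      rw [← consL_single, row_consL, prj_consL, single_apply]
      split_ifs <;> simp

theorem row_bd (t : List V) {z : Ch K (List V)}
    (hz : z ∈ supported K K {w : List (List V) | w.headI.length ≤ t.length}) :
    row K t (bd K z) = (-1 : K) ^ (t.length + 1) • bd K (row K t z) := by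
  refine eq_of_supported ((row K t).comp (bd K)) ((-1 : K) ^ (t.length + 1) •
    (bd K).comp (row K t)) (fun w hw => ?_) hz
  simp only [LinearMap.comp_apply, LinearMap.smul_apply]
  cases w with
  | nil =>
    have h : row K t (single ([] : List (List V)) (1 : K)) = 0 := by
      ext w
      rw [row_apply, single_apply, if_neg (by simp)]
      rfl
    rw [h, bd, linearCombination_single, bdB]
    simp
  | cons s w =>
    have hs : s.length ≤ t.length := hw
    rw [← consL_single, bd_consL, map_add, map_smul, row_consL, row_consL, row_tens]
    have h1 : ndelB K s t = 0 := by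
      by_contra h1
      have h2 := (mem_supported K _).1 (ndelB_supported (K := K) s)
        (mem_support_iff.2 h1)
      have h3 := h2.1
      omega
    rw [h1, zero_smul, zero_add]
    split_ifs with h
    · rw [h]
    · simp

omit [DecidableEq V] in
theorem augB_eq_one_length {w : List (List V)} (h : augB K w ≠ 0) :
    (w.map List.length).sum = w.length := by
  induction w with
  | nil => simp
  | cons t w ih =>
    rw [augB] at h
    split_ifs at h with h1
    · simp only [List.map_cons, List.sum_cons, List.length_cons, h1, ih h]
      omega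
    · exact absurd rfl h

theorem exists_pt (n : ℕ) (E : Finset V) (h : n ≤ E.card) :
    ∃ w ∈ Adm n E 0, augB K w = 1 := by
  induction n generalizing E with
  | zero => exact ⟨[], ⟨trivial, rfl, rfl⟩, rfl⟩
  | succ n ih =>
    obtain ⟨v, hv⟩ : E.Nonempty := Finset.card_pos.1 (by omega)
    have h1 := card_sdiff_ge E [v]
    rw [List.length_singleton] at h1
    obtain ⟨w, hw, hw1⟩ := ih (E \ [v].toFinset) (by omega)
    refine ⟨[v] :: w, ⟨⟨⟨by simp, by simp, by simpa using hv⟩, hw.1⟩, by simp [hw.2.1], ?_⟩, by
      rw [augB, if_pos (List.length_singleton), hw1]⟩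
    have h2 := hw.2.2
    simp only [List.map_cons, List.sum_cons, List.length_singleton]
    omega

theorem single_row (z : Ch K (List V)) (hz : z [] = 0) :
    z = ∑ t ∈ z.support.image (fun w => w.headI), consL K t (row K t z) := by
  have hc : ∀ (t s : List V) (x : Ch K (List V)) (w : List (List V)),
      consL K t x (s :: w) = if t = s then x w else 0 := fun t s x w => by
    have h := DFunLike.congr_fun (row_consL s t x) w
    rw [row_apply] at h
    rw [h]
    split_ifs <;> rfl
  have hn : ∀ (t : List V) (x : Ch K (List V)), consL K t x [] = 0 := fun t x => by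
    rw [consL, Finsupp.lmapDomain_apply]
    exact Finsupp.mapDomain_of_notMem_range x _ (by rintro ⟨y, hy⟩; simp at hy)
  ext w
  rw [Finsupp.finsetSum_apply]
  cases w with
  | nil => rw [hz, Finset.sum_eq_zero fun t _ => hn t _]
  | cons s w =>
    rw [Finset.sum_congr rfl fun t _ => hc t s _ w]
    by_cases h : s ∈ z.support.image (fun w => w.headI)
    · rw [Finset.sum_ite_eq' _ s, if_pos h, row_apply]
    · rw [Finset.sum_ite_eq' _ s, if_neg h]
      by_contra h1
      exact h (Finset.mem_image.2 ⟨s :: w, mem_support_iff.2 h1, rfl⟩)

/-- The statement of the fill lemma. -/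
def FillAt (K : Type*) [CommRing K] (V : Type*) [DecidableEq V] (n : ℕ) : Prop :=
  ∀ (E : Finset V) (j : ℕ), j + n + 1 ≤ E.card → ∀ z ∈ supported K K (Adm n E j),
    bd K z = 0 → aug K z = 0 → ∃ y ∈ supported K K (Adm n E (j + 1)), bd K y = z

theorem fill_rows {n : ℕ} (hF : FillAt K V n) (E : Finset V) (j : ℕ)
    (hj : j + n + 2 ≤ E.card) (k : ℕ) : k ≤ j + 1 → ∀ z ∈ supported K K
      {w | w ∈ Adm (n + 1) E j ∧ w.headI.length ≤ k},
    bd K z = 0 → prj K z = 0 →
      ∃ y ∈ supported K K (Adm (n + 1) E (j + 1)), bd K y = z := by
  induction k with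
  | zero =>
    intro _ z hz _ _
    have h0 : ({w | w ∈ Adm (n + 1) E j ∧ w.headI.length ≤ 0} : Set (List (List V))) = ∅ := by
      ext w
      simp only [Set.mem_ofPred_eq, Set.mem_empty_iff_false, iff_false, not_and]
      intro hw h1
      cases w with
      | nil => simpa using hw.2.1
      | cons t w => exact hw.1.1.1 (List.length_eq_zero_iff.1 (Nat.le_zero.1 h1))
    rw [h0, supported_empty, Submodule.mem_bot] at hz
    exact ⟨0, zero_mem _, by rw [map_zero, hz]⟩
  | succ k ih =>
    intro hk z hz hc hp
    have hrow : ∀ t : List V, row K t z ∈ supported K K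
        {w | t :: w ∈ Adm (n + 1) E j ∧ t.length ≤ k + 1} := fun t => by
      rw [mem_supported]
      intro w hw
      rw [Finset.mem_coe, mem_support_iff, row_apply] at hw
      exact (mem_supported K _).1 hz (mem_support_iff.2 hw)
    have hy : ∀ t : List V, ∃ y : Ch K (List V),
        y ∈ supported K K {w | (t ≠ [] ∧ t.Nodup ∧ ∀ v ∈ t, v ∈ E) ∧
          w ∈ Adm n (E \ t.toFinset) (j - k + 1)} ∧ (t.length = k + 1 → bd K y = row K t z) := by
      intro t
      by_cases h0 : t.length = k + 1 ∧ row K t z ≠ 0
      · obtain ⟨w0, hw0⟩ := Finsupp.support_nonempty_iff.2 h0.2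
        have ht : t :: w0 ∈ Adm (n + 1) E j := ((mem_supported K _).1 (hrow t) hw0).1
        have ht' : t.length ≤ k + 1 := ((mem_supported K _).1 (hrow t) hw0).2
        have h1 := card_sdiff_ge E t
        obtain ⟨y, hy, hy'⟩ := hF (E \ t.toFinset) (j - k) (by omega) (row K t z)
          (supported_mono (fun w hw => by
            have h2 := hw.1.2.1
            have h3 := hw.1.2.2
            simp only [List.map_cons, List.sum_cons, List.length_cons] at h2 h3
            exact ⟨hw.1.1.2, by omega, by omega⟩) (hrow t))
          (by
            have h2 := row_bd t (z := z) (supported_mono (fun w hw => by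
              have := hw.2
              change w.headI.length ≤ t.length
              omega) hz)
            rw [hc, map_zero] at h2
            have h3 := congrArg (fun x => (-1 : K) ^ (t.length + 1) • x) h2
            simpa [smul_smul, ← mul_pow] using h3.symm)
          (by rw [← prj_apply, hp]; rfl)
        refine ⟨y, supported_mono (fun w hw => ?_) hy, fun _ => hy'⟩
        exact ⟨ht.1.1, hw⟩
      · refine ⟨0, zero_mem _, fun h1 => ?_⟩
        rw [map_zero]
        by_contra h2
        exact h0 ⟨h1, fun h3 => h2 h3.symm⟩
    choose y hy1 hy2 using hy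
    let T := z.support.image (fun w => w.headI)
    let Y := ∑ t ∈ T with t.length = k + 1, (-1 : K) ^ (t.length + 1) • consL K t (y t)
    have hY : Y ∈ supported K K (Adm (n + 1) E (j + 1)) := by
      refine sum_mem fun t ht => Submodule.smul_mem _ _ (consL_supported t (fun w hw => ?_) (hy1 t))
      have h1 := (Finset.mem_filter.1 ht).2
      have h2 := hw.2.2.1
      have h3 := hw.2.2.2
      refine ⟨⟨hw.1, hw.2.1⟩, by simp [h2], ?_⟩
      simp only [List.map_cons, List.sum_cons]
      omega
    have hbdY : bd K Y = ∑ t ∈ T with t.length = k + 1,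
        ((-1 : K) ^ (t.length + 1) • tens K (y t) (ndelB K t) + consL K t (row K t z)) := by
      rw [map_sum]
      refine Finset.sum_congr rfl fun t ht => ?_
      rw [map_smul, bd_consL, hy2 t (Finset.mem_filter.1 ht).2, smul_add, smul_smul, ← mul_pow]
      simp
    have hz0 : z [] = 0 := by
      by_contra h
      have := (mem_supported K _).1 hz (mem_support_iff.2 h)
      simpa using this.1.2.1
    have hzY : z - bd K Y = ∑ t ∈ T with ¬ t.length = k + 1, consL K t (row K t z) -
        ∑ t ∈ T with t.length = k + 1, (-1 : K) ^ (t.length + 1) • tens K (y t) (ndelB K t) := by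
      rw [hbdY, Finset.sum_add_distrib]
      have h1 := Finset.sum_filter_add_sum_filter_not T (fun t => t.length = k + 1)
        (fun t => consL K t (row K t z))
      rw [← single_row z hz0] at h1
      have h2 : z - ∑ t ∈ T with t.length = k + 1, consL K t (row K t z) =
          ∑ t ∈ T with ¬ t.length = k + 1, consL K t (row K t z) := by
        rw [sub_eq_iff_eq_add, add_comm]
        exact h1.symm
      rw [← h2]
      abel
    obtain ⟨y', hy', hbdy'⟩ := ih (by omega) (z - bd K Y) (by
        rw [hzY]
        refine sub_mem (sum_mem fun t ht => consL_supported t (fun w hw => ?_) (hrow t))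
          (sum_mem fun t ht => Submodule.smul_mem _ _ (tens_supported (fun m hm w hw => ?_)
            (ndelB_supported t) (hy1 t)))
        · have h1 := (Finset.mem_filter.1 ht).2
          have h2 := hw.2
          exact ⟨hw.1, show t.length ≤ k by omega⟩
        · have h1 := (Finset.mem_filter.1 ht).2
          have h2 := hm.1
          have h3 := hw.2.2.1
          have h4 := hw.2.2.2
          refine ⟨⟨⟨⟨hm.2.1, hw.1.2.1.sublist hm.2.2, fun v hv => hw.1.2.2 v (hm.2.2.subset hv)⟩,
            hw.2.1.mono (sdiff_mono' le_rfl hm.2.2)⟩, by simp [h3], ?_⟩,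
            show m.length ≤ k by omega⟩
          simp only [List.map_cons, List.sum_cons]
          omega)
      (by rw [map_sub, hc, bd_bd, sub_zero])
      (by
        rw [map_sub, hp, prj_bd]
        have h1 : prj K Y = 0 := by
          rw [map_sum]
          refine Finset.sum_eq_zero fun t _ => ?_
          rw [map_smul, prj_consL, aug_eq_zero (supported_mono (fun w hw => hw.2)
            (hy1 t)), single_zero, smul_zero]
        rw [h1, map_zero, sub_zero])
    exact ⟨y' + Y, add_mem hy' hY, by rw [map_add, hbdy', sub_add_cancel]⟩


theorem augB_eq_one {E : Finset V} {w : List (List V)} (hw : Ad E w)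
    (h : (w.map List.length).sum = w.length) : augB K w = 1 := by
  induction w generalizing E with
  | nil => rfl
  | cons t w ih =>
    have h1 := List.length_pos_iff.2 hw.1.1
    have h2 := hw.2.length_le
    simp only [List.map_cons, List.sum_cons, List.length_cons] at h
    rw [augB, if_pos (by omega)]
    exact ih hw.2 (by omega)

theorem fillAt_zero : FillAt K V 0 := by
  intro E j _ z hz _ he
  refine ⟨0, zero_mem _, ?_⟩
  have h : z = single [] (aug K z) :=
    eq_of_supported LinearMap.id ((lsingle []).comp (aug K)) (fun w hw => by
      have h1 : w = [] := List.length_eq_zero_iff.1 hw.2.1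
      rw [h1, LinearMap.comp_apply, lsingle_apply, aug, linearCombination_single]
      simp [augB]) hz
  rw [h, he, single_zero, map_zero]

theorem fillAt_succ {n : ℕ} (hF : FillAt K V n) : FillAt K V (n + 1) := by
  intro E j hj z hz hc he
  have hc1 : prj K z ∈ supported K K
      {t : List V | (t ≠ [] ∧ t.Nodup ∧ ∀ v ∈ t, v ∈ E) ∧ t.length = j + 1} :=
    map_mem_of_supported (prj K) _ (fun w hw => by
      rw [prj, linearCombination_single, one_smul]
      cases w with
      | nil => exact zero_mem _
      | cons t w =>
        rw [prjB]
        by_cases h : augB K w = 0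
        · rw [h, single_zero]
          exact zero_mem _
        · have h1 := augB_eq_one_length h
          have h2 := hw.2.1
          have h3 := hw.2.2
          simp only [List.map_cons, List.sum_cons, List.length_cons] at h2 h3
          exact single_mem_supported K _ ⟨hw.1.1, by omega⟩) hz
  have hdel : del K (prj K z) = 0 := by
    cases j with
    | zero =>
      have h1 : del K (prj K z) =
          (linearCombination K (fun _ => (1 : K)) (prj K z)) • single ([] : List V) (1 : K) :=
        eq_of_supported (del K) ((LinearMap.toSpanSingleton K _ (single ([] : List V) (1 : K))).comp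
          (linearCombination K fun _ => (1 : K))) (fun t ht => by
            obtain ⟨a, rfl⟩ := List.length_eq_one_iff.1 ht.2
            rw [del_single, LinearMap.comp_apply, linearCombination_single,
              LinearMap.toSpanSingleton_apply, one_smul, one_smul, one_smul]
            simp [delB]) hc1
      have h2 : linearCombination K (fun _ => (1 : K)) (prj K z) = aug K z :=
        eq_of_supported ((linearCombination K fun _ => (1 : K)).comp (prj K)) (aug K)
          (fun w hw => by
            rw [LinearMap.comp_apply, prj, linearCombination_single, one_smul, aug,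
              linearCombination_single, one_smul]
            cases w with
            | nil => simpa using hw.2.1
            | cons t w =>
              have h3 := List.length_pos_iff.2 hw.1.1.1
              have h4 := hw.1.2.length_le
              have h5 := hw.2.1
              have h6 := hw.2.2
              simp only [List.map_cons, List.sum_cons, List.length_cons] at h5 h6
              rw [prjB, linearCombination_single, augB, if_pos (by omega), smul_eq_mul, mul_one])
          hz
      rw [h1, h2, he, zero_smul]
    | succ j =>
      have h1 : del K (prj K z) = linearCombination K (ndelB K) (prj K z) :=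
        eq_of_supported (del K) (linearCombination K (ndelB K)) (fun t ht => by
          have h2 := ht.2
          rw [del_single, linearCombination_single, ndelB_of_two (by omega)]) hc1
      rw [h1, ← prj_bd, hc, map_zero]
  obtain ⟨D, hD, hD'⟩ := words E (j + 1) (by omega) (prj K z)
    (supported_mono (fun w hw => And.intro hw.2 hw.1.2) hc1) hdel
  have hD1 : D ∈ supported K K {w : List V | w.length = j + 1 + 1 ∧ w.Nodup ∧ ∀ v ∈ w, v ∈ E} := hD
  have hp : ∀ t : List V, ∃ p : List (List V),
      t.length = j + 1 + 1 → p ∈ Adm n (E \ t.toFinset) 0 ∧ augB K p = 1 := fun t => by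
    by_cases h : t.length = j + 1 + 1
    · have h1 := card_sdiff_ge E t
      obtain ⟨p, hp1, hp2⟩ := exists_pt (K := K) n (E \ t.toFinset) (by omega)
      exact ⟨p, fun _ => ⟨hp1, hp2⟩⟩
    · exact ⟨[], fun h' => absurd h' h⟩
  choose p hp using hp
  have hY : linearCombination K (fun t => single (t :: p t) (1 : K)) D ∈
      supported K K (Adm (n + 1) E (j + 1)) :=
    map_mem_of_supported (linearCombination K (fun t => single (t :: p t) (1 : K))) _
      (fun t ht => by
        rw [linearCombination_single, one_smul]
        have h1 := (hp t ht.1).1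
        have h2 := h1.2.1
        have h3 := h1.2.2
        have h4 := ht.1
        refine single_mem_supported K _ ⟨⟨⟨?_, ht.2⟩, h1.1⟩, by simp [h2], ?_⟩
        · rintro rfl
          simp at h4
        · simp only [List.map_cons, List.sum_cons]
          omega) hD1
  have hprjY : prj K (linearCombination K (fun t => single (t :: p t) (1 : K)) D) = D :=
    eq_of_supported ((prj K).comp (linearCombination K
      (fun t => single (t :: p t) (1 : K)))) LinearMap.id (fun t ht => by
        rw [LinearMap.comp_apply, linearCombination_single, one_smul, prj,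
          linearCombination_single, one_smul, prjB, (hp t ht.1).2, LinearMap.id_apply]) hD1
  have hlast : linearCombination K (ndelB K) D = del K D :=
    eq_of_supported (linearCombination K (ndelB K)) (del K) (fun t ht => by
        have h2 := ht.1
        rw [del_single, linearCombination_single, ndelB_of_two (by omega)]) hD1
  generalize linearCombination K (fun t => single (t :: p t) (1 : K)) D = Y
    at hY hprjY
  obtain ⟨y, hy, hy'⟩ := fill_rows hF E j (by omega) (j + 1) le_rfl (z - bd K Y)
    (supported_mono (fun w hw => by
      refine ⟨hw, ?_⟩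
      cases w with
      | nil => exact Nat.zero_le _
      | cons t w =>
        have h4 := hw.1.2.length_le
        have h5 := hw.2.1
        have h6 := hw.2.2
        simp only [List.map_cons, List.sum_cons, List.length_cons] at h5 h6
        change t.length ≤ j + 1
        omega) (sub_mem hz (bd_supported' hY)))
    (by rw [map_sub, hc, bd_bd, sub_zero])
    (by rw [map_sub, prj_bd, hprjY, hlast, hD', sub_self])
  exact ⟨y + Y, add_mem hy hY, by rw [map_add, hy', sub_add_cancel]⟩

theorem GC_iff (E : Finset V) (j : ℕ) (x : List (List V)) :
    GC E j x ↔ Ad E x ∧ (x.map List.length).sum = j + x.length := by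
  induction x generalizing E j with
  | nil =>
    simp only [GC, Ad, List.map_nil, List.sum_nil, List.length_nil, true_and]
    omega
  | cons t x ih =>
    simp only [GC, Ad, ih, List.map_cons, List.sum_cons, List.length_cons]
    constructor
    · rintro ⟨h1, h0, h2, h3, h4, h5⟩
      exact ⟨⟨⟨h1, h0, h2⟩, h4⟩, by omega⟩
    · rintro ⟨⟨⟨h1, h0, h2⟩, h4⟩, h5⟩
      have h6 := h4.length_le
      exact ⟨h1, h0, h2, by omega, h4, by omega⟩

theorem Gd_eq (n : ℕ) (E : Finset V) (j : ℕ) : Gd K n E j = supported K K (Adm n E j) := by
  unfold Gd
  congr 1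
  ext x
  change (x.length = n ∧ GC E j x) ↔ (Ad E x ∧ x.length = n ∧ _)
  rw [GC_iff]
  constructor
  · rintro ⟨h1, h2, h3⟩
    exact ⟨h2, h1, by rw [h3, h1]⟩
  · rintro ⟨h1, h2, h3⟩
    exact ⟨h2, h1, by rw [h3, h2]⟩

theorem fillAt (n : ℕ) : FillAt K V n := by
  induction n with
  | zero => exact fillAt_zero
  | succ n ih => exact fillAt_succ ih

end rows

variable {K : Type*} [CommRing K] {V : Type*} [DecidableEq V]

/-- FILLING LEMMA.  `C = prj z` (words of length `j + 1 < |E|`), `del C = 0`, `C = del D`
(`words`), and for every word `ρ` of length `j + 2` a point `p_ρ` of `n - 1` blocks in `E \ ρ`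
(`exists_pt`, `n - 1 ≤ |E| - (j + 2)`); `Y = ∑ D_ρ ρ ⊗ p_ρ`, `prj (bd Y) = ndel D = del D = C`;
then row by row. -/
theorem fill (n : ℕ) : ∀ (E : Finset V) (j : ℕ) (z : Ch K (List V)), z ∈ Gd K n E j →
    bd K z = 0 → (j = 0 → eps K z = 0) → j + n + 1 ≤ E.card →
    ∃ y ∈ Gd K n E (j + 1), bd K y = z := by
  intro E j z hz h1 h2 h3
  simp only [Gd_eq] at hz ⊢
  refine fillAt n E j h3 z hz h1 ?_
  cases j with
  | zero =>
    rw [← h2 rfl]
    refine eq_of_supported (aug K) (eps K) (fun w hw => ?_) hz
    have h5 := hw.2.1
    have h6 := hw.2.2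
    rw [eps_single, aug, linearCombination_single, augB_eq_one hw.1 (by omega), smul_eq_mul,
      mul_one]
  | succ j => exact aug_eq_zero hz

end Pool.Agent.MP_fd6bc6_al.BU
end

section

/-! # The ladder `z_0, ..., z_J` -/

set_option autoImplicit false

namespace Pool.Agent.MP_fd6bc6_al.BU

open Finsupp

variable {q r : ℕ} [NeZero q]

/-- the rotation of the letters -/
def rot (t : ZMod q) (v : ZMod q × Fin r) : ZMod q × Fin r := (v.1 + t, v.2)

/-- the rotation as an equivalence -/
def rotE (t : ZMod q) : (ZMod q × Fin r) ≃ (ZMod q × Fin r) where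
  toFun := rot t
  invFun := rot (-t)
  left_inv v := by simp [rot]
  right_inv v := by simp [rot]

theorem rot_rot (s t : ZMod q) (v : ZMod q × Fin r) : rot s (rot t v) = rot (t + s) v := by
  simp [rot, add_assoc]

/-- the rotation by `t` of the values of block cells -/
noncomputable def rotB (t : ZMod q) :
    Ch (ZMod q) (List (ZMod q × Fin r)) →ₗ[ZMod q] Ch (ZMod q) (List (ZMod q × Fin r)) :=
  mapL (ZMod q) (List.map (rot t))

/-- `z` is the top of a ladder of height `j` -/
def Lad (n : ℕ) : ℕ → Ch (ZMod q) (List (ZMod q × Fin r)) → Prop
  | 0, z => z ∈ Gd (ZMod q) n Finset.univ 0 ∧ eps (ZMod q) z = 1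
  | j + 1, z => z ∈ Gd (ZMod q) n Finset.univ (j + 1) ∧ ∃ y, Lad n j y ∧
      bd (ZMod q) z = if Even j then rotB 1 y - y else ∑ t : ZMod q, rotB t y

-- BEGIN LAD
theorem lad_mem {n j : ℕ} {z : Ch (ZMod q) (List (ZMod q × Fin r))} (h : Lad n j z) :
    z ∈ Gd (ZMod q) n Finset.univ j := by
  cases j with
  | zero => exact h.1
  | succ j => exact h.1

theorem lad_rot_mem {n j : ℕ} {z : Ch (ZMod q) (List (ZMod q × Fin r))}
    (h : z ∈ Gd (ZMod q) n Finset.univ j) (t : ZMod q) :
    rotB t z ∈ Gd (ZMod q) n Finset.univ j :=
  Gd_map (rotE t) h

theorem lad_bd_rot (t : ZMod q) (x : Ch (ZMod q) (List (ZMod q × Fin r))) :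
    bd (ZMod q) (rotB t x) = rotB t (bd (ZMod q) x) := bd_mapL _ _

theorem lad_rot_rot (s t : ZMod q) (x : Ch (ZMod q) (List (ZMod q × Fin r))) :
    rotB s (rotB t x) = rotB (t + s) x := by
  unfold rotB
  rw [mapL_mapL]
  congr 2
  funext w
  rw [List.map_map]
  congr 1
  funext a
  exact rot_rot s t a

theorem lad_cycle {n j : ℕ} {z : Ch (ZMod q) (List (ZMod q × Fin r))} (h : Lad n j z) :
    bd (ZMod q) (if Even j then rotB 1 z - z else ∑ t : ZMod q, rotB t z) = 0 := by
  cases j with
  | zero =>
    rw [if_pos (by simp), map_sub, lad_bd_rot, bd_zero h.1, map_zero, sub_zero]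
  | succ j =>
    obtain ⟨_, y, _, hy⟩ := h
    by_cases he : Even j
    · rw [if_neg (by rw [Nat.even_add_one]; exact fun h => h he), map_sum]
      simp only [lad_bd_rot]
      rw [hy, if_pos he]
      simp only [map_sub, lad_rot_rot]
      rw [Finset.sum_sub_distrib, sub_eq_zero]
      exact Equiv.sum_comp (Equiv.addLeft (1 : ZMod q)) (fun t => rotB t y)
    · rw [if_pos (by rw [Nat.even_add_one]; exact he), map_sub, lad_bd_rot, hy, if_neg he, map_sum]
      simp only [lad_rot_rot]
      rw [sub_eq_zero]
      exact Equiv.sum_comp (Equiv.addRight (1 : ZMod q)) (fun t => rotB t y)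

/-- by induction on `j`: `z_0` from `exists_point` (`n ≤ q * r`), `z_(j+1)` from `fill`
(`j + n + 1 ≤ q * r`). -/
theorem exists_lad (n : ℕ) (j : ℕ) (h : j + n ≤ q * r) :
    ∃ z : Ch (ZMod q) (List (ZMod q × Fin r)), Lad n j z := by
  have hsum : (Finset.univ : Finset (ZMod q × Fin r)).card = q * r := by
    rw [Finset.card_univ, Fintype.card_prod, ZMod.card, Fintype.card_fin]
  induction j with
  | zero =>
    obtain ⟨x, hx1, hx2⟩ := exists_point (E := (Finset.univ : Finset (ZMod q × Fin r))) (n := n)
      (by rw [hsum]; omega)
    refine ⟨single x 1, ?_, eps_single _ _⟩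
    unfold Gd
    rw [Finsupp.mem_supported]
    intro y hy
    have h1 : y = x := Finset.mem_singleton.1 (Finsupp.support_single_subset hy)
    subst h1
    exact ⟨hx1, hx2⟩
  | succ j ih =>
    obtain ⟨z, hz⟩ := ih (by omega)
    obtain ⟨y, hy1, hy2⟩ := fill (K := ZMod q) (V := ZMod q × Fin r) n Finset.univ j
      (if Even j then rotB 1 z - z else ∑ t : ZMod q, rotB t z)
      (by
        split
        · exact Submodule.sub_mem _ (lad_rot_mem (lad_mem hz) 1) (lad_mem hz)
        · exact Submodule.sum_mem _ fun t _ => lad_rot_mem (lad_mem hz) t)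
      (lad_cycle hz)
      (by
        intro hj
        subst hj
        rw [if_pos (by simp), map_sub]
        unfold rotB
        rw [eps_mapL, sub_self])
      (by rw [hsum]; omega)
    exact ⟨y, hy1, z, hz, hy2⟩
-- END LAD

end Pool.Agent.MP_fd6bc6_al.BU
end

section

/-! # From lists of leaf functions to lists of phases -/

set_option autoImplicit false

namespace Pool.Agent.MP_fd6bc6_al.BU

open Finsupp

variable {K : Type*} [CommRing K] {A P : Type*}

/-- `psi j` on lists of length `j`: `psi (j+1) w = ρ w :: psi j (del w)` -/
noncomputable def psi (K : Type*) [CommRing K] {A P : Type*} (ρ : List A → P) :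
    ℕ → (Ch K A →ₗ[K] Ch K P)
  | 0 => linearCombination K (fun _ => single [] 1)
  | j + 1 => linearCombination K (fun w => consL K (ρ w) (psi K ρ j (delB K w)))

-- BEGIN PSI
theorem psi_zero_apply (ρ : List A → P) (x : Ch K A) :
    psi K ρ 0 x = linearCombination K (fun _ : List A => (single [] 1 : Ch K P)) x := rfl

theorem psi_succ_apply (ρ : List A → P) (j : ℕ) (x : Ch K A) :
    psi K ρ (j + 1) x
      = linearCombination K (fun w => consL K (ρ w) (psi K ρ j (delB K w))) x := rfl

theorem psi_zero_single (ρ : List A → P) (w : List A) (c : K) :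
    psi K ρ 0 (single w c) = c • (single [] 1 : Ch K P) := by
  rw [psi_zero_apply, linearCombination_single]

theorem psi_succ_single (ρ : List A → P) (j : ℕ) (w : List A) (c : K) :
    psi K ρ (j + 1) (single w c) = c • consL K (ρ w) (psi K ρ j (delB K w)) := by
  rw [psi_succ_apply, linearCombination_single]

theorem psi_del_nil : del K (single ([] : List P) (1 : K)) = 0 := by
  rw [del_single]
  simp [delB]

theorem psi_del_zero (ρ : List A → P) (x : Ch K A) : del K (psi K ρ 0 x) = 0 := by
  induction x using Finsupp.induction_linear with
  | zero => simp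
  | add x y hx hy => rw [map_add, map_add, hx, hy, add_zero]
  | single w c => rw [psi_zero_single, map_smul, psi_del_nil, smul_zero]

/-- chain map (no condition on lengths): for `j = 0` the second term is `ρ w :: del (single [] _) = 0`,
for `j + 1`: `ρ w :: del (psi (j+1) (delB w)) = ρ w :: psi j (del (delB w)) = 0`. -/
theorem del_psi (ρ : List A → P) (j : ℕ) (x : Ch K A) :
    del K (psi K ρ (j + 1) x) = psi K ρ j (del K x) := by
  induction j generalizing x with
  | zero =>
    induction x using Finsupp.induction_linear with
    | zero => simp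
    | add x y hx hy => rw [map_add, map_add, hx, hy, map_add, map_add]
    | single w c =>
      rw [psi_succ_single, map_smul, del_consL, psi_del_zero, map_zero, sub_zero, del_single,
        map_smul]
  | succ j ih =>
    induction x using Finsupp.induction_linear with
    | zero => simp
    | add x y hx hy => rw [map_add, map_add, hx, hy, map_add, map_add]
    | single w c =>
      have h1 : del K (delB K w) = 0 := by
        have h := del_del (K := K) (single w (1 : K))
        rwa [del_single, one_smul] at h
      rw [psi_succ_single, map_smul, del_consL, ih, h1, map_zero, map_zero, sub_zero, del_single,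
        map_smul]

theorem psi_len (ρ : List A → P) (j : ℕ) (x : Ch K A) {w : List P}
    (h : w ∈ (psi K ρ j x).support) : w.length = j := by
  induction j generalizing x w with
  | zero =>
    rw [psi_zero_apply] at h
    obtain ⟨a, -, ha⟩ := lc_supp h
    have h2 := Finsupp.support_single_subset ha
    rw [Finset.mem_singleton] at h2
    rw [h2]; rfl
  | succ j ih =>
    rw [psi_succ_apply] at h
    obtain ⟨a, -, ha⟩ := lc_supp h
    obtain ⟨s, hs, rfl⟩ := consL_supp ha
    rw [List.length_cons, ih _ hs]

/-- equivariance -/
theorem psi_map (ρ : List A → P) (τ : A → A) (σ : P → P)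
    (h : ∀ w : List A, w ≠ [] → ρ (w.map τ) = σ (ρ w)) (j : ℕ) (x : Ch K A) :
    psi K ρ j (mapL K τ x) = mapL K σ (psi K ρ j x) := by
  induction j generalizing x with
  | zero =>
    induction x using Finsupp.induction_linear with
    | zero => simp
    | add x y hx hy => rw [map_add, map_add, hx, hy, map_add, map_add]
    | single w c =>
      rw [mapL_single, psi_zero_single, psi_zero_single, map_smul, mapL_single]
      rfl
  | succ j ih =>
    induction x using Finsupp.induction_linear with
    | zero => simp
    | add x y hx hy => rw [map_add, map_add, hx, hy, map_add, map_add]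
    | single w c =>
      rw [mapL_single, psi_succ_single, psi_succ_single, map_smul, mapL_consL, delB_map, ih]
      by_cases hw : w = []
      · subst hw
        simp [delB]
      · rw [h w hw]

theorem psi_eq_lc (ρ : List A → P) (j : ℕ) (x : Ch K A) :
    psi K ρ j x = linearCombination K (fun w => psi K ρ j (single w 1)) x := by
  induction x using Finsupp.induction_linear with
  | zero => simp
  | add x y hx hy => rw [map_add, map_add, hx, hy]
  | single w c =>
    rw [linearCombination_single, ← map_smul, Finsupp.smul_single, smul_eq_mul, mul_one]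

/-- long lists have repetitions.  Induction on `j` (with `w.length = j`): a list of
`psi (j+1) (single w 1)` is `ρ w :: u`, `u` in `psi j (single w' 1)`, `w'` a face of `w`; if
`w' = []` the length is one; otherwise `u = ρ w' :: u'`; if `ρ w' = ρ w` it is a repetition,
else `sz w' < sz w` and the length of `u` is at most `sz w'` (or `u` has a repetition). -/
theorem psi_rep (ρ : List A → P) (G : List A → Prop) (sz : List A → ℕ)
    (hG : ∀ w : List A, G w → ∀ w' ∈ (delB K w).support, w' ≠ [] → G w')
    (h1 : ∀ w : List A, w ≠ [] → G w → 1 ≤ sz w)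
    (h2 : ∀ w : List A, G w → ∀ w' ∈ (delB K w).support, w' ≠ [] →
      sz w' < sz w ∨ ρ w' = ρ w)
    (j : ℕ) (w : List A) (hw : w ≠ []) (hj : w.length = j) (hg : G w) {u : List P}
    (hu : u ∈ (psi K ρ j (single w 1)).support) : Rep u ∨ u.length ≤ sz w := by
  induction j generalizing w u with
  | zero => exact absurd (List.length_eq_zero_iff.mp hj) hw
  | succ j ih =>
    rw [psi_succ_single, one_smul] at hu
    obtain ⟨u', hu', rfl⟩ := consL_supp hu
    have hlen : u'.length = j := psi_len ρ j _ hu'
    rw [psi_eq_lc] at hu'
    obtain ⟨w', hw', hu2⟩ := lc_supp hu'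
    have hl : w'.length + 1 = w.length := (delB_supp hw').2
    by_cases hw0 : w' = []
    · right
      subst hw0
      rw [List.length_cons, hlen]
      have h3 := h1 w hw hg
      simp at hl
      omega
    · have hl' : w'.length = j := by omega
      rcases h2 w hg w' hw' hw0 with h3 | h3
      · rcases ih w' hw0 hl' (hG w hg w' hw' hw0) hu2 with h4 | h4
        · left
          obtain ⟨a, b, g, rfl⟩ := h4
          exact ⟨ρ w :: a, b, g, rfl⟩
        · right
          rw [List.length_cons]
          omega
      · left
        cases j with
        | zero => exact absurd (List.length_eq_zero_iff.mp hl') hw0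
        | succ j =>
          rw [psi_succ_single, one_smul] at hu2
          obtain ⟨u2, -, rfl⟩ := consL_supp hu2
          exact ⟨[], u2, ρ w, by rw [h3]; rfl⟩
-- END PSI

end Pool.Agent.MP_fd6bc6_al.BU
end

section

/-! # Prism operator -/

set_option autoImplicit false

namespace Pool.Agent.MP_fd6bc6_al.BU

open Finsupp

variable {K : Type*} [CommRing K] {A B C : Type*}

-- BEGIN PR
/-- On basis elements: `prism (a :: x) = φ a :: ψ a :: mapL ψ x - φ a :: prism x`. -/
theorem prism_consL (φ ψ : A → B) (a : A) (x : Ch K A) :
    prism K φ ψ (consL K a x) =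
      consL K (φ a) (consL K (ψ a) (mapL K ψ x)) - consL K (φ a) (prism K φ ψ x) := by
  induction x using Finsupp.induction_linear with
  | zero => simp
  | add x y hx hy =>
    simp only [map_add, hx, hy]
    abel
  | single w c =>
    rw [consL_single, mapL_single, consL_single, consL_single]
    unfold prism
    rw [Finsupp.linearCombination_single, Finsupp.linearCombination_single, prismB, smul_sub,
      map_smul, Finsupp.smul_single, smul_eq_mul, mul_one]

theorem pr_single (φ ψ : A → B) (w : List A) (c : K) :
    prism K φ ψ (single w c) = c • prismB K φ ψ w := by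
  unfold prism
  rw [Finsupp.linearCombination_single]

/-- `del P + P del = mapL ψ - mapL φ`.  Reduce to `x = single w 1`, induction on `w` (prove it for
all chains supported on lists of length `≤ n`, or directly: the set of `x` where it holds is a
submodule, contains `single [] 1` and is stable under `consL a`):
`del P(a::x) = (ψa::ψx - φa::(ψx - ψa::∂ψx)) - (Px - φa::∂Px)`,
`P del (a::x) = Px - P(a::∂x) = Px - φa::ψa::ψ(∂x) + φa::P∂x`; the sum is
`ψa::ψx - φa::ψx + φa::(∂P + P∂)x = ψa::ψx - φa::φx`. -/
theorem prism_spec (φ ψ : A → B) (x : Ch K A) :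
    del K (prism K φ ψ x) + prism K φ ψ (del K x) = mapL K ψ x - mapL K φ x := by
  induction x using Finsupp.induction_linear with
  | zero => simp
  | add x y hx hy =>
    have h : del K (prism K φ ψ (x + y)) + prism K φ ψ (del K (x + y)) =
        (del K (prism K φ ψ x) + prism K φ ψ (del K x)) +
          (del K (prism K φ ψ y) + prism K φ ψ (del K y)) := by
      simp only [map_add]
      abel
    rw [h, hx, hy]
    simp only [map_add]
    abel
  | single w c =>
    induction w with
    | nil => simp [pr_single, prismB, del_single, delB, mapL_single]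
    | cons a w ih =>
      rw [← consL_single, prism_consL, map_sub, del_consL, del_consL, del_consL, del_consL,
        map_sub (prism K φ ψ), prism_consL, mapL_consL, mapL_consL, del_mapL]
      have h1 : consL K (φ a) (del K (prism K φ ψ (single w c))) +
          consL K (φ a) (prism K φ ψ (del K (single w c))) =
          consL K (φ a) (mapL K ψ (single w c)) - consL K (φ a) (mapL K φ (single w c)) := by
        rw [← map_add, ih, map_sub]
      simp only [map_sub]
      have h2 : ∀ p q r t u v z : Ch K B, r + t = u - v →
          p - (u - q) - (z - r) + (z - (q - t)) = p - v := by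
        intro p q r t u v z h
        have h3 : p - (u - q) - (z - r) + (z - (q - t)) = p - u + (r + t) := by abel
        rw [h3, h]
        abel
      exact h2 _ _ _ _ _ _ _ h1

/-- supports: induction on `w`. -/
theorem prism_supp {φ ψ : A → B} {w : List A} {s : List B} (h : s ∈ (prismB K φ ψ w).support) :
    s.length = w.length + 1 ∧ ∀ g ∈ s, ∃ f ∈ w, g = φ f ∨ g = ψ f := by
  classical
  induction w generalizing s with
  | nil =>
    rw [prismB] at h
    simp at h
  | cons a w ih =>
    rw [prismB] at h
    rcases Finset.mem_union.1 (Finsupp.support_sub h) with h1 | h1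
    · have h2 : s = φ a :: ψ a :: w.map ψ :=
        Finset.mem_singleton.1 (Finsupp.support_single_subset h1)
      subst h2
      refine ⟨by simp, fun g hg => ?_⟩
      rw [List.mem_cons, List.mem_cons, List.mem_map] at hg
      rcases hg with rfl | rfl | ⟨f, hf, rfl⟩
      · exact ⟨a, List.mem_cons_self, Or.inl rfl⟩
      · exact ⟨a, List.mem_cons_self, Or.inr rfl⟩
      · exact ⟨f, List.mem_cons_of_mem _ hf, Or.inr rfl⟩
    · obtain ⟨s', hs', rfl⟩ := consL_supp h1
      obtain ⟨h2, h3⟩ := ih hs'
      refine ⟨by simp [h2], fun g hg => ?_⟩
      rw [List.mem_cons] at hg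
      rcases hg with rfl | hg
      · exact ⟨a, List.mem_cons_self, Or.inl rfl⟩
      · obtain ⟨f, hf, hg'⟩ := h3 g hg
        exact ⟨f, List.mem_cons_of_mem _ hf, hg'⟩

/-- naturality -/
theorem prism_nat {A' B' : Type*} (φ ψ : A → B) (φ' ψ' : A' → B') (k : A → A') (h : B → B')
    (h1 : ∀ a, h (φ a) = φ' (k a)) (h2 : ∀ a, h (ψ a) = ψ' (k a)) (x : Ch K A) :
    mapL K h (prism K φ ψ x) = prism K φ' ψ' (mapL K k x) := by
  induction x using Finsupp.induction_linear with
  | zero => simp
  | add x y hx hy => simp only [map_add, hx, hy]
  | single w c =>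
    induction w with
    | nil => simp [pr_single, prismB, mapL_single]
    | cons a w ih =>
      rw [← consL_single, mapL_consL, prism_consL, prism_consL, map_sub, mapL_consL, mapL_consL,
        mapL_consL, ih, mapL_mapL, mapL_mapL, h1, h2]
      have h3 : (fun a => h (ψ a)) = fun a => ψ' (k a) := funext h2
      rw [h3]
-- END PR

end Pool.Agent.MP_fd6bc6_al.BU
end

section

/-! # The contraction by sweeping -/

set_option autoImplicit false

namespace Pool.Agent.MP_fd6bc6_al.BU

open Finsupp

variable {K : Type*} [CommRing K] {Λ V : Type*} [DecidableEq Λ]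

-- BEGIN FF1
/-- telescope of `prism_spec`: induction on `ls`.  `S ∪ ls.toFinset` is the final set. -/
theorem sweeps_spec (b : Λ → V) (ls : List Λ) (S : Finset Λ) (x : Ch K (Λ → V)) :
    del K (sweeps K b ls S x) + sweeps K b ls S (del K x) =
      mapL K (sweep b (S ∪ ls.toFinset)) x - mapL K (sweep b S) x := by
  induction ls generalizing S with
  | nil => simp [sweeps]
  | cons l ls ih =>
    have h1 : S ∪ (l :: ls).toFinset = insert l S ∪ ls.toFinset := by
      rw [List.toFinset_cons, Finset.union_insert, Finset.insert_union]
    have h2 := prism_spec (K := K) (sweep b S) (sweep b (insert l S)) x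
    have h3 := ih (insert l S)
    rw [h1]
    simp only [sweeps, LinearMap.add_apply, map_add]
    have h4 : ∀ p q r t u v z : Ch K (Λ → V), p + q = u - v → r + t = z - u →
        p + r + (q + t) = z - v := by
      intro p q r t u v z h h'
      have h5 : p + r + (q + t) = (p + q) + (r + t) := by abel
      rw [h5, h, h']
      abel
    exact h4 _ _ _ _ _ _ _ h2 h3

theorem ff1_sweep_univ (b : Λ → V) (S : Finset Λ) (hS : ∀ l, l ∈ S) :
    (sweep b S) = fun _ : Λ → V => b := by
  funext f l
  simp [sweep, hS l]

theorem ff1_sweep_empty (b : Λ → V) : (sweep b (∅ : Finset Λ)) = fun f : Λ → V => f := by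
  funext f l
  simp [sweep]

/-- `del F + F del = 1` if `ls` enumerates all leaves -/
theorem fillF_spec (ls : List Λ) (hls : ∀ l, l ∈ ls) (b : Λ → V) (x : Ch K (Λ → V)) :
    del K (fillF K ls b x) + fillF K ls b (del K x) = x := by
  have h1 := sweeps_spec (K := K) b ls ∅ x
  rw [Finset.empty_union, ff1_sweep_univ b ls.toFinset (fun l => List.mem_toFinset.2 (hls l)),
    ff1_sweep_empty, mapL_id] at h1
  unfold fillF
  simp only [LinearMap.sub_apply, LinearMap.comp_apply, map_sub]
  rw [del_consL, del_mapL]
  have h4 : ∀ p q r t u : Ch K (Λ → V), r + t = p - u →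
      p - q - r + (q - t) = u := by
    intro p q r t u h
    have h5 : p - q - r + (q - t) = p - (r + t) := by abel
    rw [h5, h]
    abel
  exact h4 _ _ _ _ _ h1

theorem ff1_sweeps_nat (b : Λ → V) (τ : V → V) (ls : List Λ) (S : Finset Λ)
    (x : Ch K (Λ → V)) :
    mapL K (fun f l => τ (f l)) (sweeps K b ls S x) =
      sweeps K (fun l => τ (b l)) ls S (mapL K (fun f l => τ (f l)) x) := by
  induction ls generalizing S with
  | nil => simp [sweeps]
  | cons l ls ih =>
    simp only [sweeps, LinearMap.add_apply, map_add]
    rw [ih]
    congr 1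
    refine prism_nat _ _ _ _ _ _ (fun f => ?_) (fun f => ?_) x
    · funext l'
      simp only [sweep]
      split <;> rfl
    · funext l'
      simp only [sweep]
      split <;> rfl

/-- equivariance under a map `τ` of the values: `τ ∘ sweep b S f = sweep (τ ∘ b) S (τ ∘ f)` and
`prism_nat`. -/
theorem fillF_nat (ls : List Λ) (b : Λ → V) (τ : V → V) (x : Ch K (Λ → V)) :
    mapL K (fun f l => τ (f l)) (fillF K ls b x) =
      fillF K ls (fun l => τ (b l)) (mapL K (fun f l => τ (f l)) x) := by
  unfold fillF
  simp only [LinearMap.sub_apply, LinearMap.comp_apply, map_sub]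
  rw [ff1_sweeps_nat, mapL_consL, mapL_mapL, mapL_mapL]
-- END FF1

-- BEGIN FF2
/-- supports: the sets of the sweeps are `S ∪ prefix` -/
theorem sweeps_supp {b : Λ → V} {ls : List Λ} {S : Finset Λ} {w s : List (Λ → V)}
    (h : s ∈ (sweeps K b ls S (single w 1)).support) :
    s.length = w.length + 1 ∧ ∃ (p : List Λ) (l : Λ) (r : List Λ), ls = p ++ l :: r ∧
      ∀ g ∈ s, ∃ f ∈ w, g = sweep b (S ∪ p.toFinset) f ∨
        g = sweep b (insert l (S ∪ p.toFinset)) f := by
  classical
  induction ls generalizing S with
  | nil => simp [sweeps] at h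
  | cons l ls ih =>
    have h' : s ∈ (prism K (sweep b S) (sweep b (insert l S)) (single w 1) +
        sweeps K b ls (insert l S) (single w 1)).support := h
    rcases Finset.mem_union.1 (Finsupp.support_add h') with h1 | h1
    · have h2 : prism K (sweep b S) (sweep b (insert l S)) (single w 1) =
          prismB K (sweep b S) (sweep b (insert l S)) w := by
        simp [prism, linearCombination_single]
      rw [h2] at h1
      obtain ⟨h3, h4⟩ := prism_supp h1
      refine ⟨h3, [], l, ls, rfl, ?_⟩
      simpa using h4
    · obtain ⟨h2, p, l', r, h3, h4⟩ := ih h1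
      refine ⟨h2, l :: p, l', r, by rw [h3]; rfl, ?_⟩
      have h5 : S ∪ (l :: p).toFinset = insert l S ∪ p.toFinset := by
        rw [List.toFinset_cons, Finset.union_insert, Finset.insert_union]
      rw [h5]
      exact h4

theorem fillF_supp {ls : List Λ} {b : Λ → V} {w s : List (Λ → V)}
    (h : s ∈ (fillF K ls b (single w 1)).support) :
    s.length = w.length + 1 ∧ ((∀ g ∈ s, g = b) ∨ ∃ (p : List Λ) (l : Λ) (r : List Λ),
      ls = p ++ l :: r ∧
      ∀ g ∈ s, ∃ f ∈ w, g = sweep b p.toFinset f ∨ g = sweep b (insert l p.toFinset) f) := by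
  classical
  have h' : s ∈ (consL K b (mapL K (fun _ => b) (single w 1)) -
      sweeps K b ls ∅ (single w 1)).support := h
  rcases Finset.mem_union.1 (Finsupp.support_sub h') with h1 | h1
  · rw [mapL_single, consL_single] at h1
    have h2 := Finset.mem_singleton.1 (Finsupp.support_single_subset h1)
    subst h2
    refine ⟨by simp, Or.inl ?_⟩
    intro g hg
    rcases List.mem_cons.1 hg with h3 | h3
    · exact h3
    · obtain ⟨f, _, hf⟩ := List.mem_map.1 h3
      exact hf.symm
  · obtain ⟨h2, p, l, r, h3, h4⟩ := sweeps_supp h1
    refine ⟨h2, Or.inr ⟨p, l, r, h3, ?_⟩⟩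
    simpa using h4
-- END FF2

end Pool.Agent.MP_fd6bc6_al.BU
end
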